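import Pool.Agent.Helper904_Yau.StmtsABP

/-!
# Piece ABP: assembly of one step of the area inequality from CT, JAC, FIB
-/

set_option autoImplicit false

open MeasureTheory Set Metric Filter Topology
open scoped ContDiff
open Pool.Agent.Helper904_QS

namespace Pool.Agent.Helper904_Yau.PABP

/-- the cone condition -/
def Cone (N : ℂ → ℝ) (y : ℂ) (τ : ℝ) : Prop :=
  ∀ z ∈ closedBall (0 : ℂ) (3 / 2), N z ≤ N y *
    Real.exp (‖gv N y‖ * (‖z - (y - (τ : ℂ) * gv N y)‖ - τ * ‖gv N y‖))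

/-- the contact set -/
def EE (N : ℂ → ℝ) (s s' r ρ : ℝ) : Set (ℂ × ℝ) :=
  {p | ‖p.1‖ < r + ρ ∧ 0 < N p.1 ∧ s < ‖gv N p.1‖ ∧ ‖gv N p.1‖ < s' ∧ 0 < p.2 ∧
    p.2 * ‖gv N p.1‖ < ρ ∧ Cone N p.1 p.2}

theorem measurable_gv {N : ℂ → ℝ} (hN : ContDiff ℝ 2 N) : Measurable (gv N) := by
  have hN1 : ContDiff ℝ 1 N := hN.of_le (by norm_num)
  have h1 : Measurable fun y => dx N y / N y :=
    (continuous_dx hN1).measurable.div hN.continuous.measurable
  have h2 : Measurable fun y => dy N y / N y :=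
    (continuous_dy hN1).measurable.div hN.continuous.measurable
  have h3 : gv N = fun y => ((dx N y / N y : ℝ) : ℂ) + ((dy N y / N y : ℝ) : ℂ) * Complex.I := by
    ext y
    apply Complex.ext <;> simp [gv]
  rw [h3]
  exact (Complex.measurable_ofReal.comp h1).add
    ((Complex.measurable_ofReal.comp h2).mul_const _)

theorem cone_dense {N : ℂ → ℝ} (hN : Continuous N) {D : Set ℂ} (hD : Dense D) (y : ℂ) (τ : ℝ)
    (h : ∀ z ∈ ball (0 : ℂ) (3 / 2) ∩ D, N z ≤ N y *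
      Real.exp (‖gv N y‖ * (‖z - (y - (τ : ℂ) * gv N y)‖ - τ * ‖gv N y‖))) : Cone N y τ := by
  intro z hz
  have h1 : z ∈ closure (ball (0 : ℂ) (3 / 2) ∩ D) := by
    have h2 := hD.open_subset_closure_inter (isOpen_ball (x := (0 : ℂ)) (ε := 3 / 2))
    have h3 := closure_mono h2
    rw [closure_closure, closure_ball _ (by norm_num)] at h3
    exact h3 hz
  have hcl : IsClosed {z : ℂ | N z ≤ N y *
      Real.exp (‖gv N y‖ * (‖z - (y - (τ : ℂ) * gv N y)‖ - τ * ‖gv N y‖))} := by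
    apply isClosed_le hN
    fun_prop
  exact hcl.closure_subset_iff.2 h h1

theorem measurableSet_EE {N : ℂ → ℝ} (hN : ContDiff ℝ 2 N) (s s' r ρ : ℝ) :
    MeasurableSet (EE N s s' r ρ) := by
  obtain ⟨D, hDc, hDd⟩ := TopologicalSpace.exists_countable_dense ℂ
  have hg : Measurable fun p : ℂ × ℝ => gv N p.1 := (measurable_gv hN).comp measurable_fst
  have hNm : Measurable fun p : ℂ × ℝ => N p.1 := hN.continuous.measurable.comp measurable_fst
  have hcone : MeasurableSet {p : ℂ × ℝ | Cone N p.1 p.2} := by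
    have : {p : ℂ × ℝ | Cone N p.1 p.2} = ⋂ z ∈ ball (0 : ℂ) (3 / 2) ∩ D,
        {p : ℂ × ℝ | N z ≤ N p.1 *
          Real.exp (‖gv N p.1‖ * (‖z - (p.1 - (p.2 : ℂ) * gv N p.1)‖ - p.2 * ‖gv N p.1‖))} := by
      ext p
      simp only [mem_iInter, mem_ofPred_eq]
      constructor
      · intro h z hz
        exact h z (ball_subset_closedBall hz.1)
      · intro h
        exact cone_dense hN.continuous hDd p.1 p.2 h
    rw [this]
    apply MeasurableSet.biInter (hDc.mono inter_subset_right)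
    intro z hz
    apply measurableSet_le measurable_const
    apply hNm.mul
    apply Real.measurable_exp.comp
    apply hg.norm.mul
    apply Measurable.sub
    · apply Measurable.norm
      apply Measurable.sub measurable_const
      exact measurable_fst.sub ((Complex.measurable_ofReal.comp measurable_snd).mul hg)
    · exact measurable_snd.mul hg.norm
  have h1 : MeasurableSet {p : ℂ × ℝ | ‖p.1‖ < r + ρ} :=
    measurableSet_lt measurable_fst.norm measurable_const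
  have h2 : MeasurableSet {p : ℂ × ℝ | 0 < N p.1} := measurableSet_lt measurable_const hNm
  have h3 : MeasurableSet {p : ℂ × ℝ | s < ‖gv N p.1‖} :=
    measurableSet_lt measurable_const hg.norm
  have h4 : MeasurableSet {p : ℂ × ℝ | ‖gv N p.1‖ < s'} :=
    measurableSet_lt hg.norm measurable_const
  have h5 : MeasurableSet {p : ℂ × ℝ | 0 < p.2} := measurableSet_lt measurable_const measurable_snd
  have h6 : MeasurableSet {p : ℂ × ℝ | p.2 * ‖gv N p.1‖ < ρ} :=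
    measurableSet_lt (measurable_snd.mul hg.norm) measurable_const
  exact h1.inter (h2.inter (h3.inter (h4.inter (h5.inter (h6.inter hcone)))))

theorem measurable_Jd {N : ℂ → ℝ} (hN : ContDiff ℝ 2 N) :
    Measurable fun p : ℂ × ℝ => Jd N p.1 p.2 := by
  have hN1 : ContDiff ℝ 1 N := hN.of_le (by norm_num)
  have hx := (continuous_dx hN1).measurable
  have hy := (continuous_dy hN1).measurable
  have hxx := (continuous_dx (contDiff_dx1 hN)).measurable
  have hxy := (continuous_dx (contDiff_dy1 hN)).measurable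
  have hyy := (continuous_dy (contDiff_dy1 hN)).measurable
  have hn := hN.continuous.measurable
  have m11 : Measurable (h11 N) := (hxx.div hn).sub ((hx.div hn).pow_const 2)
  have m12 : Measurable (h12 N) := (hxy.div hn).sub ((hx.div hn).mul (hy.div hn))
  have m22 : Measurable (h22 N) := (hyy.div hn).sub ((hy.div hn).pow_const 2)
  have mg := measurable_gv hN
  have mr : Measurable fun y => (gv N y).re := Complex.measurable_re.comp mg
  have mi : Measurable fun y => (gv N y).im := Complex.measurable_im.comp mg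
  have hfst : Measurable fun p : ℂ × ℝ => p.1 := measurable_fst
  unfold Jd
  apply Measurable.sub
  · exact (((m11.mul (mr.pow_const 2)).add ((m12.const_mul 2).mul (mr.mul mi))).add
      (m22.mul (mi.pow_const 2))).comp hfst
  · exact (measurable_snd.mul ((mg.norm.pow_const 2).comp hfst)).mul
      (((m11.mul m22).sub (m12.pow_const 2)).comp hfst)

/-- the sets `US` are open -/
theorem isOpen_US {N : ℂ → ℝ} (hN : Continuous N) (s : ℝ) : IsOpen (US N s) := by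
  have : US N s = ⋃ z ∈ closedBall (0 : ℂ) (3 / 2), {x | N x * Real.exp (s * ‖z - x‖) < N z} := by
    ext x; simp [US]
  rw [this]
  apply isOpen_biUnion
  intro z _
  apply isOpen_lt _ continuous_const
  fun_prop

theorem US_anti {N : ℂ → ℝ} (h0 : ∀ z, 0 ≤ N z) {s s' : ℝ} (h : s ≤ s') : US N s' ⊆ US N s := by
  rintro x ⟨z, hz, hx⟩
  refine ⟨z, hz, lt_of_le_of_lt ?_ hx⟩
  have := h0 x
  gcongr

/-- the slope at a point where `|∇ log N| > s` exceeds `s` -/
theorem mem_US {N : ℂ → ℝ} (hN : ContDiff ℝ 2 N) {s : ℝ} (hs : 0 < s) {y : ℂ}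
    (hy : ‖y‖ < 3 / 2) (hNy : 0 < N y) (hg : s < ‖gv N y‖) : y ∈ US N s := by
  set t : ℝ := ‖gv N y‖ with ht
  have ht0 : 0 < t := hs.trans hg
  set a : ℝ := dx N y / N y / t with ha
  set b : ℝ := dy N y / N y / t with hb
  have hsq : (dx N y / N y) ^ 2 + (dy N y / N y) ^ 2 = t ^ 2 := by
    rw [ht, Complex.sq_norm, Complex.normSq_apply]
    simp [gv]; ring
  have hab : a ^ 2 + b ^ 2 = 1 := by
    have : a ^ 2 + b ^ 2 = ((dx N y / N y) ^ 2 + (dy N y / N y) ^ 2) / t ^ 2 := by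
      rw [ha, hb]; ring
    rw [this, hsq]
    exact div_self (by positivity)
  have hnorm : ‖(a : ℂ) + b * Complex.I‖ = 1 := by
    rw [Complex.norm_add_mul_I, hab, Real.sqrt_one]
  -- the derivative along the ray
  have hNd : DifferentiableAt ℝ N y := hN.differentiable (by norm_num) y
  have hline : HasDerivAt (fun T : ℝ => N (y + T * ((a : ℂ) + b * Complex.I)))
      (a * dx N y + b * dy N y) 0 := by
    have h1 : HasDerivAt (fun T : ℝ => y + (T : ℂ) * ((a : ℂ) + b * Complex.I))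
        ((a : ℂ) + b * Complex.I) 0 := by
      have h2 : HasDerivAt (fun T : ℝ => (T : ℂ)) 1 0 := Complex.ofRealCLM.hasDerivAt
      have := (h2.mul_const ((a : ℂ) + b * Complex.I)).const_add y
      simpa using this
    have h3 : HasFDerivAt N (fderiv ℝ N y) (y + ((0 : ℝ) : ℂ) * ((a : ℂ) + b * Complex.I)) := by
      simpa using hNd.hasFDerivAt
    have h4 := h3.comp_hasDerivAt (0 : ℝ) h1
    refine h4.congr_deriv ?_
    unfold dx dy
    have : ((a : ℂ) + b * Complex.I) = a • (1 : ℂ) + b • Complex.I := by simp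
    rw [this, map_add, map_smul, map_smul]
    simp
  have hval : a * dx N y + b * dy N y = N y * t := by
    have : a * dx N y + b * dy N y = N y / t * ((dx N y / N y) ^ 2 + (dy N y / N y) ^ 2) := by
      rw [ha, hb]; field_simp
    rw [this, hsq]; field_simp
  have hexp : HasDerivAt (fun T : ℝ => N y * Real.exp (s * T)) (N y * s) 0 := by
    have := (((hasDerivAt_id (0 : ℝ)).const_mul s).exp).const_mul (N y)
    simpa using this
  have hdiff := hline.sub hexp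
  rw [hval] at hdiff
  have hpos : 0 < N y * t - N y * s := by nlinarith
  have hev := (hasDerivAt_iff_tendsto_slope.1 hdiff).eventually (eventually_gt_nhds hpos)
  have hev2 : ∀ᶠ T : ℝ in 𝓝[>] 0, 0 < slope ((fun T : ℝ => N (y + T * ((a : ℂ) + b * Complex.I))) -
      fun T : ℝ => N y * Real.exp (s * T)) 0 T :=
    hev.filter_mono (nhdsWithin_mono _ (fun T hT => ne_of_gt hT))
  have hball : ∀ᶠ T : ℝ in 𝓝[>] 0, y + T * ((a : ℂ) + b * Complex.I) ∈
      closedBall (0 : ℂ) (3 / 2) := by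
    have hc : Continuous fun T : ℝ => y + (T : ℂ) * ((a : ℂ) + b * Complex.I) := by fun_prop
    have h1 : ∀ᶠ T : ℝ in 𝓝 0, y + (T : ℂ) * ((a : ℂ) + b * Complex.I) ∈ ball (0 : ℂ) (3 / 2) := by
      apply hc.continuousAt.eventually_mem
      apply isOpen_ball.mem_nhds
      simpa using hy
    filter_upwards [nhdsWithin_le_nhds h1] with T hT using ball_subset_closedBall hT
  obtain ⟨T, hT1, hT2, hT3⟩ := (hev2.and (hball.and self_mem_nhdsWithin)).exists
  have hT0 : (0 : ℝ) < T := hT3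
  refine ⟨y + T * ((a : ℂ) + b * Complex.I), hT2, ?_⟩
  have e1 : ‖y + T * ((a : ℂ) + b * Complex.I) - y‖ = T := by
    rw [add_sub_cancel_left, norm_mul, hnorm, mul_one, Complex.norm_real, Real.norm_eq_abs,
      abs_of_pos hT0]
  rw [e1]
  rw [slope_def_field] at hT1
  have h5 := (div_pos_iff_of_pos_right (by linarith : (0 : ℝ) < T - 0)).1 hT1
  simp at h5
  linarith

/-- the direction of the gradient -/
theorem gv_dir (N : ℂ → ℝ) (y : ℂ) (h : 0 < ‖gv N y‖) :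
    ‖gv N y / (‖gv N y‖ : ℂ)‖ = 1 ∧ gv N y = (‖gv N y‖ : ℂ) * (gv N y / (‖gv N y‖ : ℂ)) := by
  have h1 : (‖gv N y‖ : ℂ) ≠ 0 := by exact_mod_cast h.ne'
  constructor
  · rw [norm_div, Complex.norm_real, norm_norm]
    exact div_self h.ne'
  · field_simp

/-- Hessian inequality at a contact point -/
theorem cone_hess (hCT : S_CT) {N : ℂ → ℝ} (hN : ContDiff ℝ 2 N) {y : ℂ} {τ : ℝ}
    (hy : ‖y‖ < 3 / 2) (hNy : 0 < N y) (ht : 0 < ‖gv N y‖) (hτ : 0 < τ) (hc : Cone N y τ)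
    (a b : ℝ) :
    h11 N y * a ^ 2 + 2 * h12 N y * (a * b) + h22 N y * b ^ 2 ≤
      1 / τ * (-(gv N y / (‖gv N y‖ : ℂ)).im * a + (gv N y / (‖gv N y‖ : ℂ)).re * b) ^ 2 := by
  obtain ⟨he, hge⟩ := gv_dir N y ht
  set t : ℝ := ‖gv N y‖ with htdef
  set e : ℂ := gv N y / (t : ℂ) with hedef
  have hev : ∀ᶠ z in 𝓝 y, N z ≤ N y * Real.exp (t * (‖z - (y - (τ : ℂ) * gv N y)‖ - τ * t)) := by
    have : closedBall (0 : ℂ) (3 / 2) ∈ 𝓝 y :=
      mem_of_superset (isOpen_ball.mem_nhds (by simpa using hy)) ball_subset_closedBall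
    filter_upwards [this] with z hz using hc z hz
  have hyx : y = (y - (τ : ℂ) * gv N y) + ((τ * t : ℝ) : ℂ) * e := by
    rw [hge]
    have h1 : (t : ℂ) ≠ 0 := by exact_mod_cast ht.ne'
    push_cast
    ring
  obtain ⟨h1, h2, h3⟩ := hCT N (y - (τ : ℂ) * gv N y) y e t (τ * t) hN ht (by positivity) he hyx
    hNy hev
  have h4 := h3 a b
  have hne : N y ≠ 0 := hNy.ne'
  have e1 : h11 N y * a ^ 2 + 2 * h12 N y * (a * b) + h22 N y * b ^ 2 =
      (dx (dx N) y * a ^ 2 + 2 * (dx (dy N) y) * (a * b) + dy (dy N) y * b ^ 2 -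
        t ^ 2 * (e.re * a + e.im * b) ^ 2 * N y) / N y := by
    unfold h11 h12 h22
    rw [h1, h2]
    field_simp
    ring
  rw [e1, div_le_iff₀ hNy]
  refine h4.trans (le_of_eq ?_)
  have : t / (τ * t) = 1 / τ := by field_simp
  rw [this]

/-- the fibre inequality -/
theorem fibre (hCT : S_CT) (hFIB : S_FIB) (N : ℂ → ℝ) (s s' r ρ δ : ℝ) (hN : ContDiff ℝ 2 N)
    (h0 : ∀ z, 0 ≤ N z) (hs : 0 < s) (hρ : 0 < ρ) (hrρ : r + ρ ≤ 5 / 4)
    (hδ : 0 ≤ δ) (hδ1 : δ ≤ 1)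
    (hcurv : ∀ t ∈ Ioo s s', ∀ y ∈ ball (0 : ℂ) (5 / 4), ∀ x : ℂ, x ≠ y → ‖y - x‖ < ρ → 0 < N y →
      (∀ z ∈ closedBall (0 : ℂ) (3 / 2), N z ≤ N y * Real.exp (t * (‖z - x‖ - ‖y - x‖))) →
      -(2 * δ * t / ‖y - x‖) * N y ≤ lap N y - t ^ 2 * N y) (y : ℂ) :
    ∫⁻ τ in {τ : ℝ | (y, τ) ∈ EE N s s' r ρ}, ENNReal.ofReal |Jd N y τ| ≤
      ((ball (0 : ℂ) (r + ρ) ∩ US N s) \ (ball (0 : ℂ) r ∩ US N s')).indicator
        (fun _ => ENNReal.ofReal ((1 + δ) ^ 2 / 2 * s' ^ 2)) y := by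
  rcases eq_empty_or_nonempty {τ : ℝ | (y, τ) ∈ EE N s s' r ρ} with hE | ⟨τ₀, hτ₀⟩
  · rw [hE]; simp
  obtain ⟨g1, g2, g3, g4, g5, g6, g7⟩ := hτ₀
  simp only at g1 g2 g3 g4 g5 g6 g7
  have ht : 0 < ‖gv N y‖ := hs.trans g3
  have hy32 : ‖y‖ < 3 / 2 := by linarith
  obtain ⟨he, hge⟩ := gv_dir N y ht
  have hmem : y ∈ (ball (0 : ℂ) (r + ρ) ∩ US N s) \ (ball (0 : ℂ) r ∩ US N s') := by
    refine ⟨⟨by simpa using g1, mem_US hN hs hy32 g2 g3⟩, ?_⟩
    rintro ⟨-, z, hz, hlt⟩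
    have h1 := g7 z hz
    have h2 : ‖z - (y - (τ₀ : ℂ) * gv N y)‖ - τ₀ * ‖gv N y‖ ≤ ‖z - y‖ := by
      have : z - (y - (τ₀ : ℂ) * gv N y) = (z - y) + (τ₀ : ℂ) * gv N y := by ring
      rw [this]
      have h3 := norm_add_le (z - y) ((τ₀ : ℂ) * gv N y)
      rw [norm_mul, Complex.norm_real, Real.norm_eq_abs, abs_of_pos g5] at h3
      linarith
    have h4 : N y * Real.exp (‖gv N y‖ * (‖z - (y - (τ₀ : ℂ) * gv N y)‖ - τ₀ * ‖gv N y‖)) ≤
        N y * Real.exp (s' * ‖z - y‖) := by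
      have h5 : ‖gv N y‖ * (‖z - (y - (τ₀ : ℂ) * gv N y)‖ - τ₀ * ‖gv N y‖) ≤ s' * ‖z - y‖ := by
        calc _ ≤ ‖gv N y‖ * ‖z - y‖ := by gcongr
          _ ≤ s' * ‖z - y‖ := by gcongr
      gcongr
    linarith
  rw [indicator_of_mem hmem]
  have hfib := hFIB N y (gv N y / (‖gv N y‖ : ℂ)) ‖gv N y‖ δ
    {τ : ℝ | (y, τ) ∈ EE N s s' r ρ} ht hδ hδ1 he hge (fun τ hτ => hτ.2.2.2.2.1) ?_ ?_
  · refine hfib.trans (ENNReal.ofReal_le_ofReal ?_)
    have : ‖gv N y‖ ^ 2 ≤ s' ^ 2 := by gcongr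
    gcongr
  · rintro τ ⟨k1, k2, k3, k4, k5, k6, k7⟩ τ' hτ' hle
    simp only at k1 k2 k3 k4 k5 k6 k7
    refine ⟨k1, k2, k3, k4, hτ', ?_, ?_⟩
    · simp only
      refine lt_of_le_of_lt ?_ k6
      gcongr
    · intro z hz
      refine (k7 z hz).trans ?_
      have h2 : ‖z - (y - (τ : ℂ) * gv N y)‖ - τ * ‖gv N y‖ ≤
          ‖z - (y - (τ' : ℂ) * gv N y)‖ - τ' * ‖gv N y‖ := by
        have : z - (y - (τ : ℂ) * gv N y) =
            (z - (y - (τ' : ℂ) * gv N y)) + ((τ - τ' : ℝ) : ℂ) * gv N y := by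
          push_cast; ring
        rw [this]
        have h3 := norm_add_le (z - (y - (τ' : ℂ) * gv N y)) (((τ - τ' : ℝ) : ℂ) * gv N y)
        rw [norm_mul ((τ - τ' : ℝ) : ℂ), Complex.norm_real, Real.norm_eq_abs,
          abs_of_nonneg (by linarith)] at h3
        nlinarith
      gcongr
  · rintro τ ⟨k1, k2, k3, k4, k5, k6, k7⟩
    simp only at k1 k2 k3 k4 k5 k6 k7
    refine ⟨fun a b => cone_hess hCT hN hy32 k2 ht k5 k7 a b, ?_⟩
    have hnorm : ‖y - (y - (τ : ℂ) * gv N y)‖ = τ * ‖gv N y‖ := by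
      rw [sub_sub_cancel, norm_mul, Complex.norm_real, Real.norm_eq_abs, abs_of_pos k5]
    have hne : y - (τ : ℂ) * gv N y ≠ y := by
      intro h
      rw [h] at hnorm
      simp at hnorm
      rcases hnorm with h | h
      · linarith
      · rw [h] at ht; simp at ht
    have hc := hcurv ‖gv N y‖ ⟨k3, k4⟩ y (by simp; linarith) (y - (τ : ℂ) * gv N y) hne
      (by rw [hnorm]; exact k6) k2 (by
        intro z hz
        rw [hnorm]
        exact k7 z hz)
    rw [hnorm] at hc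
    have hsq : (dx N y / N y) ^ 2 + (dy N y / N y) ^ 2 = ‖gv N y‖ ^ 2 := by
      rw [Complex.sq_norm, Complex.normSq_apply]
      simp [gv]; ring
    have e1 : h11 N y + h22 N y = (lap N y - ‖gv N y‖ ^ 2 * N y) / N y := by
      unfold h11 h22 lap
      rw [← hsq]
      field_simp
      ring
    rw [e1, le_div_iff₀ k2]
    have e2 : 2 * δ * ‖gv N y‖ / (τ * ‖gv N y‖) = 2 * δ / τ := by field_simp
    rw [e2] at hc
    linarith

/-- the covering property -/
theorem covering (hCT : S_CT) (N : ℂ → ℝ) (s s' r ρ : ℝ) (hN : ContDiff ℝ 2 N)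
    (h0 : ∀ z, 0 ≤ N z) (hs : 0 < s) (hss : s < s') (hρ : 0 < ρ) (hrρ : r + ρ ≤ 5 / 4)
    (hnear : ∀ x ∈ ball (0 : ℂ) r, ∀ t ∈ Ioo s s', ∀ y ∈ closedBall (0 : ℂ) (3 / 2), 0 < N y →
      (∀ z ∈ closedBall (0 : ℂ) (3 / 2), N z * Real.exp (-(t * ‖z - x‖)) ≤
        N y * Real.exp (-(t * ‖y - x‖))) → ‖y - x‖ < ρ) :
    (ball (0 : ℂ) r ∩ US N s') ×ˢ Ioo (s ^ 2 / 2) (s' ^ 2 / 2) ⊆ Th N '' EE N s s' r ρ := by
  rintro ⟨x, σ⟩ ⟨⟨hx, z₀, hz₀, hlt⟩, hσ1, hσ2⟩
  simp only at hx hlt hσ1 hσ2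
  have hxn : ‖x‖ < r := by simpa using hx
  set t : ℝ := √(2 * σ) with htdef
  have hσ0 : 0 < σ := lt_of_le_of_lt (by positivity) hσ1
  have ht2 : t ^ 2 = 2 * σ := Real.sq_sqrt (by positivity)
  have ht0 : 0 < t := Real.sqrt_pos.2 (by positivity)
  have hts : s < t := by
    apply lt_of_pow_lt_pow_left₀ 2 ht0.le
    rw [ht2]; linarith
  have hts' : t < s' := by
    apply lt_of_pow_lt_pow_left₀ 2 (hs.trans hss).le
    rw [ht2]; linarith
  -- the maximiser
  obtain ⟨y, hyΩ, hmax⟩ := (isCompact_closedBall (0 : ℂ) (3 / 2)).exists_isMaxOn ⟨z₀, hz₀⟩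
    (f := fun z => N z * Real.exp (-(t * ‖z - x‖)))
    (Continuous.continuousOn (by have := hN.continuous; fun_prop))
  have hmax' : ∀ z ∈ closedBall (0 : ℂ) (3 / 2), N z * Real.exp (-(t * ‖z - x‖)) ≤
      N y * Real.exp (-(t * ‖y - x‖)) := fun z hz => hmax hz
  have hbig : N x < N y * Real.exp (-(t * ‖y - x‖)) := by
    refine lt_of_lt_of_le ?_ (hmax' z₀ hz₀)
    have h1 : N x * Real.exp (t * ‖z₀ - x‖) < N z₀ := by
      refine lt_of_le_of_lt ?_ hlt
      have := h0 x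
      gcongr
    have h2 : N x = N x * Real.exp (t * ‖z₀ - x‖) * Real.exp (-(t * ‖z₀ - x‖)) := by
      rw [mul_assoc, ← Real.exp_add]; simp
    rw [h2]
    exact mul_lt_mul_of_pos_right h1 (Real.exp_pos _)
  have hNy : 0 < N y := by
    have h1 := lt_of_le_of_lt (h0 x) hbig
    exact (pos_iff_pos_of_mul_pos h1).2 (Real.exp_pos _)
  have hyx : y ≠ x := by
    rintro rfl
    simp at hbig
  have hdist : ‖y - x‖ < ρ := hnear x hx t ⟨hts, hts'⟩ y hyΩ hNy hmax'
  set ρ₁ : ℝ := ‖y - x‖ with hρ₁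
  have hρ₁0 : 0 < ρ₁ := norm_pos_iff.2 (sub_ne_zero.2 hyx)
  have hyn : ‖y‖ < r + ρ := by
    have : y = x + (y - x) := by ring
    calc ‖y‖ = ‖x + (y - x)‖ := by rw [← this]
      _ ≤ ‖x‖ + ‖y - x‖ := norm_add_le _ _
      _ < r + ρ := by rw [← hρ₁]; linarith
  have hcone : ∀ z ∈ closedBall (0 : ℂ) (3 / 2), N z ≤ N y * Real.exp (t * (‖z - x‖ - ρ₁)) := by
    intro z hz
    have h1 := hmax' z hz
    have h2 : N z = N z * Real.exp (-(t * ‖z - x‖)) * Real.exp (t * ‖z - x‖) := by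
      rw [mul_assoc, ← Real.exp_add]; simp
    rw [h2]
    calc N z * Real.exp (-(t * ‖z - x‖)) * Real.exp (t * ‖z - x‖)
        ≤ N y * Real.exp (-(t * ρ₁)) * Real.exp (t * ‖z - x‖) := by
          apply mul_le_mul_of_nonneg_right h1 (Real.exp_pos _).le
      _ = N y * Real.exp (t * (‖z - x‖ - ρ₁)) := by
          rw [mul_assoc, ← Real.exp_add]; congr 2; ring
  have he : ‖(y - x) / (ρ₁ : ℂ)‖ = 1 := by
    rw [norm_div, Complex.norm_real, Real.norm_eq_abs, abs_of_pos hρ₁0, ← hρ₁]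
    exact div_self hρ₁0.ne'
  have hρ₁c : (ρ₁ : ℂ) ≠ 0 := by exact_mod_cast hρ₁0.ne'
  have hyx2 : y = x + (ρ₁ : ℂ) * ((y - x) / (ρ₁ : ℂ)) := by
    field_simp; ring
  have hev : ∀ᶠ z in 𝓝 y, N z ≤ N y * Real.exp (t * (‖z - x‖ - ρ₁)) := by
    have : closedBall (0 : ℂ) (3 / 2) ∈ 𝓝 y :=
      mem_of_superset (isOpen_ball.mem_nhds (by simp; linarith)) ball_subset_closedBall
    filter_upwards [this] with z hz using hcone z hz
  obtain ⟨h1, h2, -⟩ := hCT N x y ((y - x) / (ρ₁ : ℂ)) t ρ₁ hN ht0 hρ₁0 he hyx2 hNy hev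
  have hgv : gv N y = (t : ℂ) * ((y - x) / (ρ₁ : ℂ)) := by
    unfold gv
    rw [h1, h2]
    apply Complex.ext
    · rw [Complex.re_ofReal_mul]
      field_simp
    · rw [Complex.im_ofReal_mul]
      field_simp
  have hgn : ‖gv N y‖ = t := by
    rw [hgv, norm_mul, he, mul_one, Complex.norm_real, Real.norm_eq_abs, abs_of_pos ht0]
  have hxeq : y - ((ρ₁ / t : ℝ) : ℂ) * gv N y = x := by
    rw [hgv]
    have : (t : ℂ) ≠ 0 := by exact_mod_cast ht0.ne'
    push_cast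
    field_simp
    ring
  refine ⟨(y, ρ₁ / t), ⟨hyn, hNy, by simp only; rw [hgn]; exact hts, by simp only; rw [hgn]; exact hts',
    div_pos hρ₁0 ht0, ?_, ?_⟩, ?_⟩
  · simp only
    rw [hgn, div_mul_cancel₀ _ ht0.ne']
    exact hdist
  · intro z hz
    simp only
    rw [hxeq, hgn, div_mul_cancel₀ _ ht0.ne']
    exact hcone z hz
  · unfold Th
    simp only
    rw [hxeq, hgn, ht2]
    simp

theorem t_ABP (hCT : S_CT) (hJAC : S_JAC) (hFIB : S_FIB) : S_ABP := by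
  intro N s s' r ρ δ hN h0 hs hss hr hρ hrρ hδ hδ1 hnear hcurv
  have hE := measurableSet_EE hN s s' r ρ
  have hcov := covering hCT N s s' r ρ hN h0 hs hss hρ hrρ hnear
  have hT : ∀ p : ℂ × ℝ, ∃ T : ℂ × ℝ →L[ℝ] ℂ × ℝ, 0 < N p.1 →
      HasFDerivAt (Th N) T p ∧ |T.det| = |Jd N p.1 p.2| := by
    intro p
    by_cases h : 0 < N p.1
    · obtain ⟨T, hT⟩ := hJAC N hN p h
      exact ⟨T, fun _ => hT⟩
    · exact ⟨0, fun h' => absurd h' h⟩
  choose T hT using hT
  set μ : Measure (ℂ × ℝ) := (volume : Measure ℂ).prod (volume : Measure ℝ) with hμ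
  have h1 : μ (Th N '' EE N s s' r ρ) ≤ ∫⁻ p in EE N s s' r ρ, ENNReal.ofReal |(T p).det| ∂μ :=
    addHaar_image_le_lintegral_abs_det_fderiv μ hE
      (fun p hp => ((hT p hp.2.1).1).hasFDerivWithinAt)
  have h2 : ∫⁻ p in EE N s s' r ρ, ENNReal.ofReal |(T p).det| ∂μ =
      ∫⁻ p in EE N s s' r ρ, ENNReal.ofReal |Jd N p.1 p.2| ∂μ :=
    setLIntegral_congr_fun hE (fun p hp => by rw [(hT p hp.2.1).2])
  have hmeasJ : Measurable fun p : ℂ × ℝ => ENNReal.ofReal |Jd N p.1 p.2| := by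
    have h3 := measurable_Jd hN
    have : Measurable fun p : ℂ × ℝ => |Jd N p.1 p.2| := by
      simpa [Real.norm_eq_abs] using h3.norm
    exact this.ennreal_ofReal
  have h3 : ∫⁻ p in EE N s s' r ρ, ENNReal.ofReal |Jd N p.1 p.2| ∂μ =
      ∫⁻ y : ℂ, ∫⁻ τ in {τ : ℝ | (y, τ) ∈ EE N s s' r ρ}, ENNReal.ofReal |Jd N y τ| := by
    rw [← lintegral_indicator hE, hμ,
      lintegral_prod _ ((hmeasJ.indicator hE).aemeasurable)]
    congr 1
    ext y
    have hEy : MeasurableSet {τ : ℝ | (y, τ) ∈ EE N s s' r ρ} := measurable_prodMk_left hE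
    rw [← lintegral_indicator hEy]
    rfl
  set B : Set ℂ := (ball (0 : ℂ) (r + ρ) ∩ US N s) \ (ball (0 : ℂ) r ∩ US N s') with hB
  have hUS : MeasurableSet (US N s) := (isOpen_US hN.continuous s).measurableSet
  have hUS' : MeasurableSet (US N s') := (isOpen_US hN.continuous s').measurableSet
  have hBm : MeasurableSet B :=
    (measurableSet_ball.inter hUS).diff (measurableSet_ball.inter hUS')
  have h4 : ∫⁻ y : ℂ, ∫⁻ τ in {τ : ℝ | (y, τ) ∈ EE N s s' r ρ}, ENNReal.ofReal |Jd N y τ| ≤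
      ENNReal.ofReal ((1 + δ) ^ 2 / 2 * s' ^ 2) * volume B := by
    calc _ ≤ ∫⁻ y : ℂ, B.indicator (fun _ => ENNReal.ofReal ((1 + δ) ^ 2 / 2 * s' ^ 2)) y :=
          lintegral_mono (fibre hCT hFIB N s s' r ρ δ hN h0 hs hρ hrρ hδ hδ1 hcurv)
      _ = _ := by rw [lintegral_indicator hBm, setLIntegral_const]
  have h5 : volume (ball (0 : ℂ) r ∩ US N s') * ENNReal.ofReal ((s' ^ 2 - s ^ 2) / 2) ≤
      ENNReal.ofReal ((1 + δ) ^ 2 / 2 * s' ^ 2) * volume B := by
    calc volume (ball (0 : ℂ) r ∩ US N s') * ENNReal.ofReal ((s' ^ 2 - s ^ 2) / 2)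
        = μ ((ball (0 : ℂ) r ∩ US N s') ×ˢ Ioo (s ^ 2 / 2) (s' ^ 2 / 2)) := by
          rw [hμ, Measure.prod_prod, Real.volume_Ioo]
          congr 2
          ring
      _ ≤ μ (Th N '' EE N s s' r ρ) := measure_mono hcov
      _ ≤ _ := h1.trans (by rw [h2, h3]; exact h4)
  have hfinB : volume B ≠ ⊤ :=
    ne_top_of_le_ne_top measure_ball_lt_top.ne (measure_mono (sdiff_subset.trans inter_subset_left))
  have h6 := ENNReal.toReal_mono (ENNReal.mul_ne_top ENNReal.ofReal_ne_top hfinB) h5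
  rw [ENNReal.toReal_mul, ENNReal.toReal_mul, ENNReal.toReal_ofReal (by nlinarith),
    ENNReal.toReal_ofReal (by positivity)] at h6
  have hsub : ball (0 : ℂ) r ∩ US N s' ⊆ ball (0 : ℂ) (r + ρ) ∩ US N s :=
    inter_subset_inter (ball_subset_ball (by linarith)) (US_anti h0 hss.le)
  have h7 : volume.real B = volume.real (ball (0 : ℂ) (r + ρ) ∩ US N s) -
      volume.real (ball (0 : ℂ) r ∩ US N s') := by
    rw [hB]
    exact measureReal_sdiff hsub (measurableSet_ball.inter hUS')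
  rw [← h7]
  exact h6

end Pool.Agent.Helper904_Yau.PABP
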