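import Pool.Agent.Helper904_Yau.Stmts

/-!
# AVGA: all `k > 0` (from AVS, AVL)
-/

set_option autoImplicit false

open MeasureTheory Set Metric Filter Topology
open scoped ContDiff
open Pool.Agent.Helper904_QS

namespace Pool.Agent.Helper904_Yau.PAVGA

theorem t_AVGA (hAVS : S_AVS) (hAVL : S_AVL) : S_AVGA := by
  intro M ι _ _ _ _ ψ σ hAtl hComp hGeo C₀ C₁ C₂ hC₀ hC₁ hC₂
  obtain ⟨k₀, A₁, hk₀, h1⟩ := hAVS M ι ψ σ hAtl hComp hGeo C₀ C₁ C₂ hC₀ hC₁ hC₂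
  obtain ⟨A₂, h2⟩ := hAVL M ι ψ σ hAtl hComp hGeo C₀ k₀ hC₀ hk₀
  refine ⟨max A₁ A₂, ?_⟩
  intro k u f hk hE n x hn hov
  have hn0 : (0 : ℝ) ≤ n := Nat.cast_nonneg n
  rcases le_total k₀ k with h | h
  · refine (h1 k u f h hE n x hn hov).trans ?_
    gcongr
    exact le_max_left _ _
  · calc ∑ j, Real.logb 2 ((⨆ y : ball (x j) (2 * (C₀ / k)), |u y|) /
          ⨆ y : ball (x j) (C₀ / k), |u y|) ≤ ∑ _j : Fin n, A₂ :=
          Finset.sum_le_sum fun j _ => h2 k u f hk h hE (x j)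
      _ = n * A₂ := by simp
      _ ≤ n * max A₁ A₂ := by gcongr; exact le_max_right _ _
      _ = max A₁ A₂ * n := mul_comm _ _

end Pool.Agent.Helper904_Yau.PAVGA
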