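import Pool.Agent.Helper904_Yau.AVS

/-!
# AVL: large discs, i.e. bounded `k` (from GROW, GE)
-/

set_option autoImplicit false

open MeasureTheory Set Metric Filter Topology
open scoped ContDiff
open Pool.Agent.Helper904_QS

namespace Pool.Agent.Helper904_Yau.PAVL

open PConst PAVS

theorem t_AVL (hGROW : S_GROW) (hGE : S_GE) : S_AVL := by
  intro M ι _ _ _ _ ψ σ hAtl hComp hGeo C₀ k₀ hC₀ hk₀
  obtain ⟨m, Λ, hm, hmΛ, hσ, hsol⟩ := sol_const hAtl
  obtain ⟨Mg, hMg, hgrow⟩ := hGROW M ι ψ σ hAtl hComp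
  obtain ⟨cg, Cg, r₀, hcg, hcC, hr₀, hCr, hgeo⟩ := hGeo
  obtain ⟨CE, hCE, hge⟩ := hGE
  have hΛ : 0 < Λ := hm.trans_le hmΛ
  set d : ℝ := Metric.diam (univ : Set M) + 1 with hd
  have hd0 : 0 < d := by
    have := Metric.diam_nonneg (s := (univ : Set M))
    linarith
  set k₁ : ℝ := C₀ / d with hk₁
  have hk₁0 : 0 < k₁ := by positivity
  set r₁ : ℝ := min r₀ (C₀ / k₀) with hr₁
  have hr₁0 : 0 < r₁ := lt_min hr₀ (by positivity)
  set ρ : ℝ := cg * r₁ / 2 with hρ
  have hρ0 : 0 < ρ := by positivity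
  set r₂ : ℝ := min (1 / 16) ρ with hr₂
  have hr₂0 : 0 < r₂ := lt_min (by norm_num) hρ0
  set G : ℝ := CE * (Real.pi / ρ + ρ * (k₀ ^ 2 * Λ ^ 2)) + k₀ * Λ with hG
  have hG0 : 0 < G := by positivity
  set E : ℝ := G * Real.exp (Mg * max k₀ 1 / r₂ / 2) / (k₁ * m) with hEdef
  have hE0 : 0 < E := by positivity
  refine ⟨Real.logb 2 (max 1 E), ?_⟩
  intro k u f hk hkk hE x
  have hA0 : 0 ≤ Real.logb 2 (max 1 E) := Real.logb_nonneg (by norm_num) (le_max_left _ _)
  obtain ⟨Q, hQ, hgr⟩ := hgrow k u f hk hE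
  have hbu : ∀ y, |u y| ≤ Real.exp (Q / 2) / (k * m) := bdd_u hk hm
    (fun i z hz => (hσ i z (ball_subset_closedBall (ball_subset_ball (by norm_num) hz))).1)
    hAtl.cover hE.rep hQ
  have hbdd : ∀ (s : Set M), BddAbove (range fun y : s => |u y|) := by
    intro s
    refine ⟨Real.exp (Q / 2) / (k * m), ?_⟩
    rintro _ ⟨y, rfl⟩
    exact hbu y
  set r : ℝ := C₀ / k with hr
  have hr0 : 0 < r := by positivity
  rcases lt_or_ge k k₁ with hlt | hge1
  · -- both balls are the whole space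
    have hdr : d < r := by
      rw [hr, lt_div_iff₀ hk]
      rw [hk₁, lt_div_iff₀ hd0] at hlt
      linarith
    have huniv : ∀ R : ℝ, d < R → ball x R = univ := by
      intro R hR
      apply eq_univ_of_forall
      intro y
      rw [mem_ball]
      have : dist y x ≤ Metric.diam (univ : Set M) :=
        Metric.dist_le_diam_of_mem isCompact_univ.isBounded (mem_univ y) (mem_univ x)
      linarith
    rw [huniv r hdr, huniv (2 * r) (by linarith)]
    by_cases h0 : (⨆ y : (univ : Set M), |u y|) = 0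
    · rw [h0, div_zero, Real.logb_zero]; exact hA0
    · rw [div_self h0, Real.logb_one]; exact hA0
  · have hrr₁ : r₁ ≤ r := by
      refine (min_le_right _ _).trans ?_
      rw [hr]
      gcongr
    obtain ⟨i, p, hp, hpx, hg⟩ := hgeo x
    obtain ⟨hg1, -⟩ := hg r₁ ⟨hr₁0, min_le_left _ _⟩
    set S : ℝ := ⨆ y : ball x r, |u y| with hS
    have hcgr : cg * r₁ ≤ 1 / 4 := by
      refine le_trans ?_ hCr
      have : r₁ ≤ r₀ := min_le_left _ _
      have : 0 < Cg := hcg.trans_le hcC
      gcongr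
    have hin : ∀ w ∈ ball p (cg * r₁), w ∈ ball (0 : ℂ) (7 / 4) := by
      intro w hw
      rw [mem_ball] at *
      calc dist w 0 ≤ dist w p + dist p 0 := dist_triangle _ _ _
        _ < 1 / 4 + 1 / 2 := by linarith
        _ ≤ 7 / 4 := by norm_num
    have hle : ∀ w ∈ ball p (cg * r₁), |f i w| ≤ S := by
      intro w hw
      rw [hE.rep i w (hin w hw)]
      exact le_ciSup (f := fun y : ball x r => |u y|) (hbdd _)
        ⟨_, ball_subset_ball hrr₁ (hg1 w hw)⟩
    have hS0 : 0 ≤ S := (abs_nonneg _).trans (hle p (mem_ball_self (by positivity)))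
    have hp54 : p ∈ closedBall (0 : ℂ) (5 / 4) :=
      ball_subset_closedBall (ball_subset_ball (by norm_num) hp)
    obtain ⟨z, hz, hzN⟩ := hgr i p hp54 r₂ ⟨hr₂0, min_le_left _ _⟩
    have hzb : ball z ρ ⊆ ball p (cg * r₁) := by
      intro w hw
      rw [mem_ball] at *
      rw [mem_closedBall] at hz
      have h1 : r₂ ≤ ρ := min_le_right _ _
      calc dist w p ≤ dist w z + dist z p := dist_triangle _ _ _
        _ < ρ + ρ := by linarith
        _ = cg * r₁ := by rw [hρ]; ring
    have hσz : ∀ w ∈ ball z ρ, 0 < σ i w ∧ σ i w ≤ Λ := by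
      intro w hw
      have := hσ i w (ball_subset_closedBall (hin w (hzb hw)))
      exact ⟨hm.trans_le this.1, this.2⟩
    have hlap : ∀ w ∈ ball z ρ, |lap (f i) w| ≤ k₀ ^ 2 * Λ ^ 2 * S := by
      intro w hw
      rw [hE.eq i w (hin w (hzb hw)), abs_neg, abs_mul, abs_of_nonneg (by positivity)]
      obtain ⟨h1, h2⟩ := hσz w hw
      have h3 := hle w (hzb hw)
      gcongr
    have h1 := hge (f i) z ρ (k₀ ^ 2 * Λ ^ 2 * S) ((hE.sm i).of_le (by norm_num)) hρ0
      (by positivity) hlap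
    have hint : ∫ w in ball z ρ, |f i w| ≤ S * (Real.pi * ρ ^ 2) := by
      have hvol : volume.real (ball z ρ) = Real.pi * ρ ^ 2 := by
        rw [Measure.real, Complex.volume_ball, ENNReal.toReal_mul, ENNReal.toReal_pow,
          ENNReal.toReal_ofReal hρ0.le, ENNReal.coe_toReal, NNReal.coe_real_pi]
        ring
      have hc : Continuous (fun w => |f i w|) := (hE.sm i).continuous.abs
      calc ∫ w in ball z ρ, |f i w| ≤ ∫ _w in ball z ρ, S := by
            apply setIntegral_mono_on _ _ measurableSet_ball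
            · intro w hw
              exact hle w (hzb hw)
            · exact (hc.continuousOn.integrableOn_compact (isCompact_closedBall z ρ)).mono_set
                ball_subset_closedBall
            · exact integrableOn_const measure_ball_lt_top.ne
        _ = S * (Real.pi * ρ ^ 2) := by
            rw [setIntegral_const, hvol, smul_eq_mul]; ring
    have hint0 : 0 ≤ ∫ w in ball z ρ, |f i w| := integral_nonneg fun _ => abs_nonneg _
    have h2 : gsq (f i) z ≤ (CE * (Real.pi / ρ + ρ * (k₀ ^ 2 * Λ ^ 2)) * S) ^ 2 := by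
      refine h1.trans ?_
      have h3 : (∫ w in ball z ρ, |f i w|) / ρ ^ 3 ≤ Real.pi / ρ * S := by
        rw [div_le_iff₀ (by positivity)]
        refine hint.trans (le_of_eq ?_)
        field_simp
      have h4 : 0 ≤ CE * ((∫ w in ball z ρ, |f i w|) / ρ ^ 3 + ρ * (k₀ ^ 2 * Λ ^ 2 * S)) := by
        positivity
      apply pow_le_pow_left₀ h4
      calc CE * ((∫ w in ball z ρ, |f i w|) / ρ ^ 3 + ρ * (k₀ ^ 2 * Λ ^ 2 * S))
          ≤ CE * (Real.pi / ρ * S + ρ * (k₀ ^ 2 * Λ ^ 2 * S)) := by gcongr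
        _ = _ := by ring
    have hzz : z ∈ ball z ρ := mem_ball_self hρ0
    have h3 : (k * σ i z * f i z) ^ 2 ≤ (k₀ * Λ * S) ^ 2 := by
      rw [sq_le_sq]
      rw [abs_mul, abs_mul, abs_of_pos hk, abs_of_pos (hσz z hzz).1,
        abs_of_nonneg (by positivity : 0 ≤ k₀ * Λ * S)]
      have h4 := (hσz z hzz).2
      have h5 := hle z (hzb hzz)
      have h6 := (hσz z hzz).1
      gcongr
    have h4 : NN (f i) (σ i) k z ≤ (G * S) ^ 2 := by
      unfold NN
      have h5 : 0 ≤ CE * (Real.pi / ρ + ρ * (k₀ ^ 2 * Λ ^ 2)) * S := by positivity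
      have h6 : 0 ≤ k₀ * Λ * S := by positivity
      have h7 : G * S = CE * (Real.pi / ρ + ρ * (k₀ ^ 2 * Λ ^ 2)) * S + k₀ * Λ * S := by
        rw [hG]; ring
      rw [h7]
      nlinarith [mul_nonneg h5 h6]
    have h5 : Real.exp (Q / 2) * Real.exp (-(Mg * max k₀ 1 / r₂ / 2)) ≤ G * S := by
      have h6 : Real.exp (Q - Mg * max k₀ 1 / r₂) ≤ (G * S) ^ 2 := by
        refine le_trans ?_ (hzN.trans h4)
        apply Real.exp_le_exp.2
        have : Mg * max k 1 / r₂ ≤ Mg * max k₀ 1 / r₂ := by gcongr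
        linarith
      have h7 : Real.exp (Q - Mg * max k₀ 1 / r₂) =
          (Real.exp (Q / 2) * Real.exp (-(Mg * max k₀ 1 / r₂ / 2))) ^ 2 := by
        rw [← Real.exp_add, ← Real.exp_nat_mul]
        congr 1
        push_cast
        ring
      rw [h7] at h6
      exact (pow_le_pow_iff_left₀ (by positivity) (by positivity) (by norm_num)).1 h6
    have hSpos : 0 < S := by
      have h6 : 0 < G * S := lt_of_lt_of_le (by positivity) h5
      exact (pos_iff_pos_of_mul_pos h6).1 hG0
    have h6 : (⨆ y : ball x (2 * r), |u y|) / S ≤ E := by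
      have : Nonempty (ball x (2 * r)) := ⟨⟨x, mem_ball_self (by positivity)⟩⟩
      rw [div_le_iff₀ hSpos]
      apply ciSup_le
      intro y
      refine (hbu y).trans ?_
      rw [div_le_iff₀ (by positivity)]
      have h7 : Real.exp (Q / 2) ≤ G * S * Real.exp (Mg * max k₀ 1 / r₂ / 2) := by
        calc Real.exp (Q / 2) = Real.exp (Q / 2) * Real.exp (-(Mg * max k₀ 1 / r₂ / 2)) *
            Real.exp (Mg * max k₀ 1 / r₂ / 2) := by
              rw [mul_assoc, ← Real.exp_add, neg_add_cancel, Real.exp_zero, mul_one]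
          _ ≤ _ := by gcongr
      calc Real.exp (Q / 2) ≤ G * S * Real.exp (Mg * max k₀ 1 / r₂ / 2) := h7
        _ = E * S * (k₁ * m) := by rw [hEdef]; field_simp
        _ ≤ E * S * (k * m) := by gcongr
    have h7 : 0 ≤ (⨆ y : ball x (2 * r), |u y|) / S :=
      div_nonneg (Real.iSup_nonneg fun _ => abs_nonneg _) hS0
    rcases h7.eq_or_lt with h | h
    · rw [← h, Real.logb_zero]; exact hA0
    · exact Real.logb_le_logb_of_le (by norm_num) h (h6.trans (le_max_right _ _))

end Pool.Agent.Helper904_Yau.PAVL
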