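import Pool.Agent.Helper904_Yau.Const

/-!
# AVS: small discs, i.e. large `k` (from GROW, LOC, DBL)
-/

set_option autoImplicit false

open MeasureTheory Set Metric Filter Topology
open scoped ContDiff
open Pool.Agent.Helper904_QS

namespace Pool.Agent.Helper904_Yau.PAVS

open PConst

/-- summation by layers -/
theorem layer1 (D : ℝ) (T : ℕ → ℝ) (hT : Monotone T) (L : ℕ) :
    min D (T L) ≤ T 0 + ∑ l ∈ Finset.range L, (T (l + 1) - T l) * (if T l < D then 1 else 0) := by
  induction L with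
  | zero => simp
  | succ L ih =>
    rw [Finset.sum_range_succ, ← add_assoc]
    have hm : T L ≤ T (L + 1) := hT (Nat.le_succ L)
    by_cases h : T L < D
    · rw [if_pos h]
      rw [min_eq_right h.le] at ih
      have := min_le_right D (T (L + 1))
      linarith
    · rw [if_neg h]
      rw [min_eq_left (not_lt.1 h)] at ih
      have := min_le_left D (T (L + 1))
      linarith

theorem layer {n : ℕ} (D : Fin n → ℝ) (T : ℕ → ℝ) (hT : Monotone T) (b : ℕ → ℝ)
    (hb : ∀ l, ((Finset.univ.filter (fun j => T l < D j)).card : ℝ) ≤ b l) (L : ℕ)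
    (hL : ∀ j, D j ≤ T L) :
    ∑ j, D j ≤ n * T 0 + ∑ l ∈ Finset.range L, (T (l + 1) - T l) * b l := by
  have h1 : ∀ j, D j ≤ T 0 + ∑ l ∈ Finset.range L, (T (l + 1) - T l) *
      (if T l < D j then 1 else 0) := by
    intro j
    have := layer1 (D j) T hT L
    rwa [min_eq_left (hL j)] at this
  calc ∑ j, D j ≤ ∑ j : Fin n, (T 0 + ∑ l ∈ Finset.range L, (T (l + 1) - T l) *
      (if T l < D j then 1 else 0)) := Finset.sum_le_sum fun j _ => h1 j
    _ = n * T 0 + ∑ l ∈ Finset.range L, (T (l + 1) - T l) *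
        ((Finset.univ.filter (fun j => T l < D j)).card : ℝ) := by
        rw [Finset.sum_add_distrib, Finset.sum_comm]
        congr 1
        · simp
        · apply Finset.sum_congr rfl
          intro l _
          rw [← Finset.mul_sum]
          congr 1
          simp
    _ ≤ _ := by
        gcongr with l _
        · exact sub_nonneg.2 (hT (Nat.le_succ l))
        · exact hb l

open Classical in
/-- number of discs in a set, when the overlap is bounded -/
theorem overlap {n : ℕ} (J : Finset (Fin n)) (p : Fin n → ℂ) (ρ C₁ : ℝ) (W : Set ℂ) (hρ : 0 < ρ)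
    (hWf : volume W ≠ ⊤) (hsub : ∀ j ∈ J, ball (p j) ρ ⊆ W)
    (hC : ∀ z : ℂ, ((J.filter (fun j => z ∈ ball (p j) ρ)).card : ℝ) ≤ C₁) :
    (J.card : ℝ) * (Real.pi * ρ ^ 2) ≤ C₁ * volume.real W := by
  have hball : ∀ j, volume.real (ball (p j) ρ) = Real.pi * ρ ^ 2 := by
    intro j
    rw [Measure.real, Complex.volume_ball, ENNReal.toReal_mul, ENNReal.toReal_pow,
      ENNReal.toReal_ofReal hρ.le, ENNReal.coe_toReal, NNReal.coe_real_pi]
    ring
  have hint : ∀ j ∈ J, ∫ z in W, (ball (p j) ρ).indicator (fun _ => (1 : ℝ)) z =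
      Real.pi * ρ ^ 2 := by
    intro j hj
    rw [integral_indicator measurableSet_ball, Measure.restrict_restrict measurableSet_ball,
      inter_eq_left.2 (hsub j hj)]
    simp [hball]
  have hii : ∀ j ∈ J, Integrable ((ball (p j) ρ).indicator (fun _ => (1 : ℝ)))
      (volume.restrict W) := by
    intro j _
    apply Integrable.indicator _ measurableSet_ball
    have : IsFiniteMeasure (volume.restrict W) := ⟨by simpa using hWf.lt_top⟩
    exact integrable_const _
  have hfin : IsFiniteMeasure (volume.restrict W) := ⟨by simpa using hWf.lt_top⟩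
  calc (J.card : ℝ) * (Real.pi * ρ ^ 2)
      = ∑ j ∈ J, ∫ z in W, (ball (p j) ρ).indicator (fun _ => (1 : ℝ)) z := by
        rw [Finset.sum_congr rfl hint]; simp
    _ = ∫ z in W, ∑ j ∈ J, (ball (p j) ρ).indicator (fun _ => (1 : ℝ)) z :=
        (integral_finsetSum J hii).symm
    _ ≤ ∫ _z in W, C₁ := by
        apply integral_mono (integrable_finsetSum J hii) (integrable_const _)
        intro z
        refine le_trans (le_of_eq ?_) (hC z)
        simp only [indicator_apply]
        rw [Finset.sum_boole]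
    _ = C₁ * volume.real W := by
        rw [integral_const]; simp [mul_comm]

theorem bdd_u {M ι : Type} {ψ : ι → ℂ → M} {σ : ι → ℂ → ℝ} {k Q m : ℝ} {u : M → ℝ}
    {f : ι → ℂ → ℝ} (hk : 0 < k) (hm : 0 < m)
    (hlow : ∀ i, ∀ z ∈ ball (0 : ℂ) (1 / 2), m ≤ σ i z)
    (hcov : ∀ x : M, ∃ i, ∃ z ∈ ball (0 : ℂ) (1 / 2), ψ i z = x)
    (hrep : ∀ i, ∀ z ∈ ball (0 : ℂ) (7 / 4), f i z = u (ψ i z))
    (hQ : ∀ i, ∀ z ∈ closedBall (0 : ℂ) (3 / 2), NN (f i) (σ i) k z ≤ Real.exp Q) (y : M) :
    |u y| ≤ Real.exp (Q / 2) / (k * m) := by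
  obtain ⟨i, z, hz, rfl⟩ := hcov y
  rw [← hrep i z (ball_subset_ball (by norm_num) hz)]
  have h1 := abs_le_sqrt_NN (f i) (σ i) k z
  have h2 : √(NN (f i) (σ i) k z) ≤ Real.exp (Q / 2) := by
    rw [Real.exp_half]
    exact Real.sqrt_le_sqrt (hQ i z (ball_subset_closedBall (ball_subset_ball (by norm_num) hz)))
  have h3 := hlow i z hz
  rw [le_div_iff₀ (by positivity)]
  rw [abs_mul, abs_mul, abs_of_pos hk, abs_of_pos (hm.trans_le h3)] at h1
  calc |f i z| * (k * m) ≤ |f i z| * (k * σ i z) := by gcongr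
    _ = k * σ i z * |f i z| := by ring
    _ ≤ _ := h1.trans h2

theorem t_AVS (hGROW : S_GROW) (hLOC : S_LOC) (hDBL : S_DBL) : S_AVS := by
  intro M ι _ _ _ _ ψ σ hAtl hComp hGeo C₀ C₁ C₂ hC₀ hC₁ hC₂
  obtain ⟨m, Λ, hm, hmΛ, hσ, hsol⟩ := sol_const hAtl
  obtain ⟨Mg, hMg, hgrow⟩ := hGROW M ι ψ σ hAtl hComp
  obtain ⟨L, hL, hloc⟩ := hLOC m Λ Mg hm hmΛ hMg
  obtain ⟨cg, Cg, r₀, hcg, hcC, hr₀, hCr, hgeo⟩ := hGeo
  obtain ⟨C₃, hC₃, hdbl⟩ := hDBL m Λ cg Cg C₀ hm hmΛ hcg hcC hC₀
  have hCg : 0 < Cg := hcg.trans_le hcC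
  set a : ℝ := Cg * C₀ * L with ha
  have ha0 : 0 < a := by positivity
  set Cb : ℝ := Fintype.card ι * (C₁ * L * 4 / (Real.pi * cg ^ 2 * C₀ ^ 2)) with hCb
  have hCb0 : 0 ≤ Cb := by positivity
  set A : ℝ := C₃ + a + a / 10 * (Cb * C₂) * (80 / 3) with hA
  refine ⟨max 1 (C₀ / r₀), A / Real.log 2, by positivity, ?_⟩
  intro k u f hk hE n x hn hov
  have hk1 : 1 ≤ k := (le_max_left _ _).trans hk
  have hk0 : 0 < k := by linarith
  have hkr₀ : C₀ / r₀ ≤ k := (le_max_right _ _).trans hk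
  have hmaxk : max k 1 = k := max_eq_left hk1
  obtain ⟨Q, hQ, hgr⟩ := hgrow k u f hk0 hE
  set r : ℝ := C₀ / k with hr
  have hr0 : 0 < r := by positivity
  have hrr : r ≤ r₀ := by
    rw [hr, div_le_iff₀ hk0]
    rw [div_le_iff₀ hr₀] at hkr₀
    linarith
  have hkr : k * r = C₀ := by rw [hr]; field_simp
  have hCgr : Cg * r ≤ 1 / 4 := le_trans (by gcongr) hCr
  have hcgr : cg * r ≤ 1 / 4 := le_trans (by gcongr) hCgr
  choose i p hp hpx hg using fun j => hgeo (x j)
  have hg' := fun j => hg j r ⟨hr0, hrr⟩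
  have hbu : ∀ y, |u y| ≤ Real.exp (Q / 2) / (k * m) := bdd_u hk0 hm
    (fun i z hz => (hσ i z (ball_subset_closedBall (ball_subset_ball (by norm_num) hz))).1)
    hAtl.cover hE.rep hQ
  have hbdd : ∀ (s : Set M), BddAbove (range fun y : s => |u y|) := by
    intro s
    refine ⟨Real.exp (Q / 2) / (k * m), ?_⟩
    rintro _ ⟨y, rfl⟩
    exact hbu y
  set D : Fin n → ℝ := fun j =>
    Real.log ((⨆ y : ball (x j) (2 * r), |u y|) / ⨆ y : ball (x j) r, |u y|) with hDdef
  have hin : ∀ j, ∀ w ∈ ball (p j) (Cg * r), w ∈ ball (0 : ℂ) (7 / 4) := by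
    intro j w hw
    have h1 := hp j
    rw [mem_ball] at *
    calc dist w 0 ≤ dist w (p j) + dist (p j) 0 := dist_triangle _ _ _
      _ < 1 / 4 + 1 / 2 := by linarith
      _ ≤ 7 / 4 := by norm_num
  -- steep discs
  have hsteep : ∀ j, ∀ s : ℝ, 0 ≤ s → C₃ + Cg * r * s < D j →
      ball (p j) (cg * r / 2) ⊆ US (NN (f (i j)) (σ (i j)) k) s := by
    intro j s hs hlt z hz
    by_contra hzn
    set S : ℝ := ⨆ y : ball (x j) r, |u y| with hS
    have hle : ∀ w ∈ ball (p j) (cg * r), |f (i j) w| ≤ S := by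
      intro w hw
      rw [hE.rep (i j) w (hin j w (ball_subset_ball (by gcongr) hw))]
      exact le_ciSup (f := fun y : ball (x j) r => |u y|) (hbdd _) ⟨_, (hg' j).1 w hw⟩
    have h1 := hdbl k r s S (p j) z (f (i j)) (σ (i j)) hk0 hr0 hkr hs hCgr
      (hsol k u f hE (i j)) (hp j) hz hzn hle
    have hS0 : 0 ≤ S := (abs_nonneg _).trans (hle (p j) (mem_ball_self (by positivity)))
    have h2 : (⨆ y : ball (x j) (2 * r), |u y|) ≤ Real.exp (C₃ + Cg * r * s) * S := by
      have : Nonempty (ball (x j) (2 * r)) := ⟨⟨x j, mem_ball_self (by positivity)⟩⟩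
      apply ciSup_le
      rintro ⟨y, hy⟩
      obtain ⟨w, hw, rfl⟩ := (hg' j).2 y hy
      have := h1 w hw
      rwa [hE.rep (i j) w (hin j w hw)] at this
    have h3 : (⨆ y : ball (x j) (2 * r), |u y|) / S ≤ Real.exp (C₃ + Cg * r * s) := by
      rcases hS0.eq_or_lt with h | h
      · rw [← h, div_zero]; positivity
      · rwa [div_le_iff₀ h]
    have h4 : D j ≤ C₃ + Cg * r * s := by
      have h5 : 0 ≤ (⨆ y : ball (x j) (2 * r), |u y|) / S :=
        div_nonneg (Real.iSup_nonneg fun _ => abs_nonneg _) hS0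
      rcases h5.eq_or_lt with h | h
      · simp only [hDdef]
        rw [← hS, ← h, Real.log_zero]
        positivity
      · simp only [hDdef]
        rw [← hS]
        exact (Real.log_le_log h h3).trans (by rw [Real.log_exp])
    linarith
  -- levels
  set T : ℕ → ℝ := fun l => C₃ + a * (11 / 10) ^ l with hT
  have hTs : ∀ l, T l = C₃ + Cg * r * (L * max k 1 * (11 / 10) ^ l) := by
    intro l
    rw [hmaxk]
    simp only [hT, ha, ← hkr]
    ring
  have hTmono : Monotone T := by
    apply monotone_nat_of_le_succ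
    intro l
    simp only [hT]
    gcongr
    · norm_num
    · exact Nat.le_succ l
  -- counting
  have hcount : ∀ l, ((Finset.univ.filter (fun j => T l < D j)).card : ℝ) ≤
      Cb * k ^ 2 * (7 / 8) ^ l := by
    intro l
    classical
    have hfib : ∀ i₀ : ι, (((Finset.univ.filter (fun j => T l < D j)).filter
        (fun j => i j = i₀)).card : ℝ) ≤
        C₁ * L * 4 / (Real.pi * cg ^ 2 * C₀ ^ 2) * k ^ 2 * (7 / 8) ^ l := by
      intro i₀
      set J := (Finset.univ.filter (fun j => T l < D j)).filter (fun j => i j = i₀) with hJ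
      set W : Set ℂ := ball 0 (3 / 4) ∩ US (NN (f i₀) (σ i₀) k) (L * max k 1 * (11 / 10) ^ l)
        with hW
      have hWf : volume W ≠ ⊤ :=
        ((measure_mono inter_subset_left).trans_lt measure_ball_lt_top).ne
      have h1 := overlap J p (cg * r / 2) C₁ W (by positivity) hWf (by
        intro j hj
        simp only [hJ, Finset.mem_filter, Finset.mem_univ, true_and] at hj
        obtain ⟨hj1, hj2⟩ := hj
        apply subset_inter
        · intro z hz
          have h1 := hp j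
          rw [mem_ball] at *
          calc dist z 0 ≤ dist z (p j) + dist (p j) 0 := dist_triangle _ _ _
            _ < 1 / 4 + 1 / 2 := by linarith
            _ = 3 / 4 := by norm_num
        · rw [← hj2]
          apply hsteep j _ (by positivity)
          rw [← hTs]
          exact hj1) (by
        intro z
        have h2 := hov (ψ i₀ z)
        refine le_trans ?_ h2
        refine Nat.cast_le.2 ?_
        rw [← Set.ncard_coe_finset]
        apply Set.ncard_le_ncard _ (Set.toFinite _)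
        intro j hj
        simp only [hJ, Finset.coe_filter, Finset.mem_filter, Finset.mem_univ, true_and,
          mem_ofPred_eq] at hj
        obtain ⟨⟨hj1, hj2⟩, hj3⟩ := hj
        have h4 : z ∈ ball (p j) (cg * r) := ball_subset_ball (by linarith [mul_pos hcg hr0]) hj3
        have h5 := (hg' j).1 z h4
        rw [hj2] at h5
        exact h5)
      have h2 := hloc k Q (f i₀) (σ i₀) hk0 (hsol k u f hE i₀) (hQ i₀) (hgr i₀) l
      have h3 : (J.card : ℝ) * (Real.pi * (cg * r / 2) ^ 2) ≤ C₁ * (L * (7 / 8) ^ l) :=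
        h1.trans (by gcongr)
      have h4 : (J.card : ℝ) ≤ C₁ * (L * (7 / 8) ^ l) / (Real.pi * (cg * r / 2) ^ 2) := by
        rwa [le_div_iff₀ (by positivity)]
      refine h4.trans (le_of_eq ?_)
      rw [hr]
      field_simp
      ring
    calc ((Finset.univ.filter (fun j => T l < D j)).card : ℝ)
        = ∑ i₀ : ι, (((Finset.univ.filter (fun j => T l < D j)).filter
        (fun j => i j = i₀)).card : ℝ) := by
          rw [Finset.card_eq_sum_card_fiberwise (f := i) (t := Finset.univ) (by simp)]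
          push_cast
          rfl
      _ ≤ ∑ _i₀ : ι, C₁ * L * 4 / (Real.pi * cg ^ 2 * C₀ ^ 2) * k ^ 2 * (7 / 8) ^ l :=
          Finset.sum_le_sum fun i₀ _ => hfib i₀
      _ = Cb * k ^ 2 * (7 / 8) ^ l := by
          rw [Finset.sum_const, nsmul_eq_mul, Finset.card_univ, hCb]; ring
  -- a level above all the values
  obtain ⟨N, hN⟩ : ∃ N : ℕ, ∀ j, D j ≤ T N := by
    obtain ⟨B, hB⟩ := (Finset.univ.image D).exists_le
    obtain ⟨N, hN⟩ := pow_unbounded_of_one_lt (B / a) (by norm_num : (1 : ℝ) < 11 / 10)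
    refine ⟨N, fun j => ?_⟩
    have h1 : D j ≤ B := hB _ (Finset.mem_image_of_mem D (Finset.mem_univ j))
    rw [div_lt_iff₀ ha0] at hN
    simp only [hT]
    nlinarith
  have hsum := layer D T hTmono _ hcount N hN
  have hn0 : (0 : ℝ) ≤ n := Nat.cast_nonneg n
  have hk2 : k ^ 2 ≤ C₂ * n := by
    rw [inv_mul_le_iff₀ hC₂] at hn
    exact hn
  have hgeom : ∑ l ∈ Finset.range N, (T (l + 1) - T l) * (Cb * k ^ 2 * (7 / 8) ^ l) ≤
      a / 10 * (Cb * C₂) * (80 / 3) * n := by
    have h1 : ∀ l ∈ Finset.range N, (T (l + 1) - T l) * (Cb * k ^ 2 * (7 / 8) ^ l) =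
        a / 10 * Cb * k ^ 2 * (77 / 80) ^ l := by
      intro l _
      simp only [hT]
      have : ((77 : ℝ) / 80) ^ l = (11 / 10) ^ l * (7 / 8) ^ l := by
        rw [← mul_pow]; norm_num
      rw [this]
      ring
    rw [Finset.sum_congr rfl h1, ← Finset.mul_sum]
    have h2 : ∑ l ∈ Finset.range N, ((77 : ℝ) / 80) ^ l ≤ 80 / 3 := by
      rw [geom_sum_eq (by norm_num)]
      have : 0 ≤ ((77 : ℝ) / 80) ^ N := by positivity
      rw [div_le_iff_of_neg (by norm_num)]
      linarith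
    calc a / 10 * Cb * k ^ 2 * ∑ l ∈ Finset.range N, ((77 : ℝ) / 80) ^ l
        ≤ a / 10 * Cb * (C₂ * n) * (80 / 3) := by gcongr
      _ = _ := by ring
  have hlog2 : 0 < Real.log 2 := Real.log_pos (by norm_num)
  have hfin : ∑ j, D j ≤ A * n := by
    have hT0 : T 0 = C₃ + a := by simp [hT]
    rw [hT0] at hsum
    calc ∑ j, D j ≤ n * (C₃ + a) + a / 10 * (Cb * C₂) * (80 / 3) * n := by linarith
      _ = A * n := by rw [hA]; ring
  calc ∑ j, Real.logb 2 ((⨆ y : ball (x j) (2 * (C₀ / k)), |u y|) /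
        ⨆ y : ball (x j) (C₀ / k), |u y|) = (∑ j, D j) / Real.log 2 := by
        rw [Finset.sum_div]
        rfl
    _ ≤ A * n / Real.log 2 := by gcongr
    _ = A / Real.log 2 * n := by ring

end Pool.Agent.Helper904_Yau.PAVS
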