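import Pool.Agent.Helper904_Yau.Stmts

/-!
# BAR: the barrier (growth estimate) from the rigidity lemma
-/

set_option autoImplicit false

open MeasureTheory Set Metric Filter Topology
open scoped ContDiff
open Pool.Agent.Helper904_QS

namespace Pool.Agent.Helper904_Yau.PBAR

/-- second derivative test along a line -/
theorem test_line {N : ℂ → ℝ} (hN : ContDiff ℝ 2 N) (y v : ℂ) (b b' : ℝ → ℝ) (b'' : ℝ)
    (hb : ∀ᶠ τ in 𝓝 (0 : ℝ), HasDerivAt b (b' τ) τ) (hb' : HasDerivAt b' b'' 0)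
    (h0 : b 0 = N y) (hle : ∀ᶠ τ in 𝓝 (0 : ℝ), N (y + τ • v) ≤ b τ) :
    fderiv ℝ N y v = b' 0 ∧ fderiv ℝ (fun z => fderiv ℝ N z v) y v ≤ b'' := by
  have hline : ∀ τ : ℝ, HasDerivAt (fun τ : ℝ => y + τ • v) v τ := by
    intro τ
    simpa using ((hasDerivAt_id τ).smul_const v).const_add y
  have hN1 : ∀ z, HasFDerivAt N (fderiv ℝ N z) z := fun z =>
    (hN.differentiable (by norm_num) z).hasFDerivAt
  have hd1 : ∀ τ : ℝ, HasDerivAt (fun τ : ℝ => N (y + τ • v)) (fderiv ℝ N (y + τ • v) v) τ := by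
    intro τ
    exact (hN1 (y + τ • v)).comp_hasDerivAt τ (hline τ)
  have hcd : ContDiff ℝ 1 (fun z => fderiv ℝ N z v) := contDiff_dv (n := 1) hN v
  have hd2 : HasDerivAt (fun τ : ℝ => fderiv ℝ N (y + τ • v) v)
      (fderiv ℝ (fun z => fderiv ℝ N z v) y v) 0 := by
    have h1 : HasFDerivAt (fun z => fderiv ℝ N z v) (fderiv ℝ (fun z => fderiv ℝ N z v) (y + (0 : ℝ) • v))
        (y + (0 : ℝ) • v) := (hcd.differentiable (by norm_num) _).hasFDerivAt
    have h2 := h1.comp_hasDerivAt (0 : ℝ) (hline 0)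
    have h3 : HasDerivAt (fun τ : ℝ => fderiv ℝ N (y + τ • v) v)
        (fderiv ℝ (fun z => fderiv ℝ N z v) (y + (0 : ℝ) • v) v) 0 := h2
    rw [zero_smul, add_zero] at h3
    exact h3
  have hφ : ∀ᶠ τ in 𝓝 (0 : ℝ), HasDerivAt (fun τ : ℝ => N (y + τ • v) - b τ)
      (fderiv ℝ N (y + τ • v) v - b' τ) τ := by
    filter_upwards [hb] with τ hτ
    exact (hd1 τ).sub hτ
  have hφ' : HasDerivAt (fun τ : ℝ => fderiv ℝ N (y + τ • v) v - b' τ)
      (fderiv ℝ (fun z => fderiv ℝ N z v) y v - b'') 0 := hd2.sub hb'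
  have hval : N (y + (0 : ℝ) • v) - b 0 = 0 := by
    rw [zero_smul, add_zero, h0, sub_self]
  have hmax : IsLocalMax (fun τ : ℝ => N (y + τ • v) - b τ) 0 := by
    filter_upwards [hle] with τ hτ
    show N (y + τ • v) - b τ ≤ N (y + (0 : ℝ) • v) - b 0
    rw [hval]
    linarith
  have hfirst : fderiv ℝ N (y + (0 : ℝ) • v) v - b' 0 = 0 :=
    hmax.hasDerivAt_eq_zero hφ.self_of_nhds
  constructor
  · rw [zero_smul, add_zero] at hfirst
    linarith
  · by_contra hcon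
    push Not at hcon
    have hderiv : deriv (fun τ : ℝ => N (y + τ • v) - b τ) =ᶠ[𝓝 0]
        fun τ : ℝ => fderiv ℝ N (y + τ • v) v - b' τ := by
      filter_upwards [hφ] with τ hτ
      exact hτ.deriv
    have hdd : deriv (deriv (fun τ : ℝ => N (y + τ • v) - b τ)) 0 =
        fderiv ℝ (fun z => fderiv ℝ N z v) y v - b'' := by
      rw [hderiv.deriv_eq]
      exact hφ'.deriv
    have hmin : IsLocalMin (fun τ : ℝ => N (y + τ • v) - b τ) 0 := by
      apply isLocalMin_of_deriv_deriv_pos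
      · rw [hdd]
        linarith
      · rw [hφ.self_of_nhds.deriv]
        exact hfirst
      · exact hφ.self_of_nhds.continuousAt
    have hconst : (fun τ : ℝ => N (y + τ • v) - b τ) =ᶠ[𝓝 0] fun _ => N (y + (0 : ℝ) • v) - b 0 := by
      filter_upwards [hmax, hmin] with τ h1 h2
      exact le_antisymm h1 h2
    have hz : deriv (fun τ : ℝ => N (y + τ • v) - b τ) =ᶠ[𝓝 0] fun _ => 0 := by
      have h3 := hconst.eventuallyEq_nhds
      filter_upwards [h3] with τ hτ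
      rw [hτ.deriv_eq]
      simp
    rw [hz.deriv_eq] at hdd
    simp at hdd
    linarith

/-- derivatives of the radial barrier along a line -/
theorem bar_deriv (n c t q : ℝ) (ht : 0 < t) :
    (∀ᶠ τ in 𝓝 (0 : ℝ), HasDerivAt
      (fun τ : ℝ => n * Real.exp (c / t - c / √(t ^ 2 + 2 * τ * q + τ ^ 2)))
      (n * Real.exp (c / t - c / √(t ^ 2 + 2 * τ * q + τ ^ 2)) *
        (c * (q + τ) / √(t ^ 2 + 2 * τ * q + τ ^ 2) ^ 3)) τ) ∧
    HasDerivAt (fun τ : ℝ => n * Real.exp (c / t - c / √(t ^ 2 + 2 * τ * q + τ ^ 2)) *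
        (c * (q + τ) / √(t ^ 2 + 2 * τ * q + τ ^ 2) ^ 3))
      (n * ((c * q / t ^ 3) ^ 2 + c * (1 / t ^ 3 - 3 * q ^ 2 / t ^ 5))) 0 := by
  have hpos : ∀ᶠ τ in 𝓝 (0 : ℝ), 0 < t ^ 2 + 2 * τ * q + τ ^ 2 := by
    have hc : Continuous fun τ : ℝ => t ^ 2 + 2 * τ * q + τ ^ 2 := by fun_prop
    refine hc.continuousAt.eventually_mem (s := Set.Ioi 0) (Ioi_mem_nhds ?_)
    simp only [mul_zero, zero_mul, add_zero]
    positivity
  have hQ : ∀ τ : ℝ, HasDerivAt (fun τ : ℝ => t ^ 2 + 2 * τ * q + τ ^ 2) (2 * q + 2 * τ) τ := by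
    intro τ
    have h1 : HasDerivAt (fun τ : ℝ => 2 * τ * q) (2 * 1 * q) τ :=
      ((hasDerivAt_id τ).const_mul 2).mul_const q
    have h2 : HasDerivAt (fun τ : ℝ => τ ^ 2) (2 * τ) τ := by
      simpa using hasDerivAt_pow 2 τ
    have := ((hasDerivAt_const τ (t ^ 2)).add h1).add h2
    refine this.congr_deriv ?_
    ring
  have hw : ∀ τ : ℝ, 0 < t ^ 2 + 2 * τ * q + τ ^ 2 →
      HasDerivAt (fun τ : ℝ => √(t ^ 2 + 2 * τ * q + τ ^ 2))
        ((q + τ) / √(t ^ 2 + 2 * τ * q + τ ^ 2)) τ := by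
    intro τ hτ
    have h1 := (hQ τ).sqrt hτ.ne'
    refine h1.congr_deriv ?_
    have h2 : 0 < √(t ^ 2 + 2 * τ * q + τ ^ 2) := Real.sqrt_pos.2 hτ
    field_simp
  have hg : ∀ τ : ℝ, 0 < t ^ 2 + 2 * τ * q + τ ^ 2 →
      HasDerivAt (fun τ : ℝ => c / t - c / √(t ^ 2 + 2 * τ * q + τ ^ 2))
        (c * (q + τ) / √(t ^ 2 + 2 * τ * q + τ ^ 2) ^ 3) τ := by
    intro τ hτ
    have h2 : 0 < √(t ^ 2 + 2 * τ * q + τ ^ 2) := Real.sqrt_pos.2 hτ
    have h1 := ((hasDerivAt_const τ c).div (hw τ hτ) h2.ne')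
    have h3 := (hasDerivAt_const τ (c / t)).sub h1
    refine h3.congr_deriv ?_
    field_simp
    ring
  have he : ∀ τ : ℝ, 0 < t ^ 2 + 2 * τ * q + τ ^ 2 →
      HasDerivAt (fun τ : ℝ => n * Real.exp (c / t - c / √(t ^ 2 + 2 * τ * q + τ ^ 2)))
        (n * Real.exp (c / t - c / √(t ^ 2 + 2 * τ * q + τ ^ 2)) *
        (c * (q + τ) / √(t ^ 2 + 2 * τ * q + τ ^ 2) ^ 3)) τ := by
    intro τ hτ
    have h1 := ((hg τ hτ).exp).const_mul n
    refine h1.congr_deriv ?_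
    ring
  constructor
  · filter_upwards [hpos] with τ hτ
    exact he τ hτ
  · have h00 : 0 < t ^ 2 + 2 * (0 : ℝ) * q + 0 ^ 2 := by
      simp only [mul_zero, zero_mul, add_zero, ne_eq, OfNat.ofNat_ne_zero, not_false_eq_true, zero_pow]
      positivity
    have hsq : √(t ^ 2 + 2 * (0 : ℝ) * q + 0 ^ 2) = t := by
      simp only [mul_zero, zero_mul, add_zero, ne_eq, OfNat.ofNat_ne_zero, not_false_eq_true, zero_pow]
      exact Real.sqrt_sq ht.le
    have h1 := he 0 h00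
    have h2 : HasDerivAt (fun τ : ℝ => c * (q + τ)) c 0 := by
      have := ((hasDerivAt_const (0 : ℝ) q).add (hasDerivAt_id (0 : ℝ))).const_mul c
      simpa using this
    have h3 := (hw 0 h00).pow 3
    have h4 := h2.div h3 (by simp only [Pi.pow_apply]; rw [hsq]; positivity)
    have h5 := h1.mul h4
    refine h5.congr_deriv ?_
    simp only [Pi.pow_apply, Pi.div_apply]
    rw [hsq]
    simp only [sub_self, Real.exp_zero, add_zero]
    field_simp
    push_cast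
    ring

theorem contDiff_NN {u σ : ℂ → ℝ} (hu : ContDiff ℝ 4 u) (hs : ContDiff ℝ 3 σ) (k : ℝ) :
    ContDiff ℝ 2 (NN u σ k) := by
  unfold NN gsq
  have h1 : ContDiff ℝ 2 (dx u) := (contDiff_dx3 hu).of_le (by norm_num)
  have h2 : ContDiff ℝ 2 (dy u) := (contDiff_dy3 hu).of_le (by norm_num)
  have h3 : ContDiff ℝ 2 u := hu.of_le (by norm_num)
  have h4 : ContDiff ℝ 2 σ := hs.of_le (by norm_num)
  exact ((h1.pow 2).add (h2.pow 2)).add (((contDiff_const.mul h4).mul h3).pow 2)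

theorem Sol_mono {m Λ k : ℝ} {U V : Set ℂ} {u σ : ℂ → ℝ} (h : Sol m Λ k U u σ) (hV : V ⊆ U) :
    Sol m Λ k V u σ where
  hu := h.hu
  hs := h.hs
  low z hz := h.low z (hV hz)
  up z hz := h.up z (hV hz)
  d1x z hz := h.d1x z (hV hz)
  d1y z hz := h.d1y z (hV hz)
  d2xx z hz := h.d2xx z (hV hz)
  d2xy z hz := h.d2xy z (hV hz)
  d2yy z hz := h.d2yy z (hV hz)
  eq z hz := h.eq z (hV hz)

/-- the quadratic expansion of `-1/|P+h|` -/
theorem inv_bound {t X : ℝ} (ht : 0 < t) (hX : 0 < X) (a q : ℝ) (h : X ^ 2 = t ^ 2 + 2 * a + q) :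
    1 / t - 1 / X ≤ a / t ^ 3 + q / (2 * t ^ 3) := by
  have h1 : 1 / X ≥ (3 * t ^ 2 - X ^ 2) / (2 * t ^ 3) := by
    rw [ge_iff_le, div_le_div_iff₀ (by positivity) hX]
    nlinarith [mul_nonneg (sq_nonneg (X - t)) (by positivity : (0 : ℝ) ≤ X + 2 * t)]
  have h2 : (3 * t ^ 2 - X ^ 2) / (2 * t ^ 3) = 1 / t - (a / t ^ 3 + q / (2 * t ^ 3)) := by
    rw [h]
    field_simp
    ring
  linarith

theorem norm_add_sq (P h : ℂ) : ‖P + h‖ ^ 2 = ‖P‖ ^ 2 + 2 * (P.re * h.re + P.im * h.im) + ‖h‖ ^ 2 := by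
  rw [← Complex.normSq_eq_norm_sq, ← Complex.normSq_eq_norm_sq, ← Complex.normSq_eq_norm_sq,
    Complex.normSq_apply, Complex.normSq_apply, Complex.normSq_apply, Complex.add_re, Complex.add_im]
  ring

theorem t_BAR (hRL : S_RL) : S_BAR := by
  intro m Λ M₁ hm hmΛ hM₁
  obtain ⟨A, C₀, hA, hC₀, H⟩ := hRL m Λ (1 / 4) hm hmΛ (by norm_num)
  obtain ⟨M', hM'⟩ : ∃ M' : ℝ, M' = M₁ + A + C₀ := ⟨_, rfl⟩
  have hM'0 : 0 < M' := by rw [hM']; positivity
  refine ⟨2 * M', by positivity, ?_⟩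
  intro k Q p u σ hk hS hQ hz₁ r hr
  by_contra hcon
  push Not at hcon
  obtain ⟨z₁, hz₁, hN₁⟩ := hz₁
  obtain ⟨hr0, hr1⟩ := hr
  obtain ⟨K, hK⟩ : ∃ K : ℝ, K = max k 1 := ⟨_, rfl⟩
  have hK1 : 1 ≤ K := by rw [hK]; exact le_max_right _ _
  have hkK : k ≤ K := by rw [hK]; exact le_max_left _ _
  rw [← hK] at hcon hN₁
  obtain ⟨N, hN⟩ : ∃ N : ℂ → ℝ, N = NN u σ k := ⟨_, rfl⟩
  rw [← hN] at hcon hN₁ hQ
  have hNC : ContDiff ℝ 2 N := by rw [hN]; exact contDiff_NN hS.hu hS.hs k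
  obtain ⟨c, hc⟩ : ∃ c : ℝ, c = M' * K := ⟨_, rfl⟩
  have hc0 : 0 < c := by rw [hc]; positivity
  have hcr : ∀ z ∈ closedBall p r, N z < Real.exp (Q - 2 * c / r) := by
    intro z hz
    have := hcon z hz
    rw [show 2 * c / r = 2 * M' * K / r by rw [hc]; ring]
    exact this
  obtain ⟨F, hF⟩ : ∃ F : ℂ → ℝ, F = fun z => N z * Real.exp (c / ‖z - p‖ - 8 * c - Q) := ⟨_, rfl⟩
  have hFz : ∀ z, F z = N z * Real.exp (c / ‖z - p‖ - 8 * c - Q) := fun z => by rw [hF]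
  -- the given point
  have hz₁r : r < ‖z₁ - p‖ := by
    by_contra hcc
    push Not at hcc
    have h1 := hcr z₁ (by rw [mem_closedBall_iff_norm]; exact hcc)
    have h2 := hN₁.trans_lt h1
    rw [Real.exp_lt_exp] at h2
    have h3 : 32 * c ≤ 2 * c / r := by
      rw [le_div_iff₀ hr0]
      nlinarith
    have h4 : M₁ * K ≤ c := by
      rw [hc, hM']
      nlinarith
    linarith
  have hz₁s : ‖z₁ - p‖ ≤ 1 / 16 := by rw [← mem_closedBall_iff_norm]; exact hz₁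
  have hFz₁ : 1 < F z₁ := by
    rw [hFz]
    have h0 : 0 < ‖z₁ - p‖ := hr0.trans hz₁r
    have h1 : 16 * c ≤ c / ‖z₁ - p‖ := by
      rw [le_div_iff₀ h0]
      nlinarith
    have h4 : M₁ * K ≤ c := by
      rw [hc, hM']
      nlinarith
    have h5 : Real.exp (Q - M₁ * K) * Real.exp (c / ‖z₁ - p‖ - 8 * c - Q) ≤
        N z₁ * Real.exp (c / ‖z₁ - p‖ - 8 * c - Q) :=
      mul_le_mul_of_nonneg_right hN₁ (Real.exp_pos _).le
    refine lt_of_lt_of_le ?_ h5
    rw [← Real.exp_add]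
    apply Real.one_lt_exp_iff.2
    linarith
  -- bounds outside of the annulus
  have hout : ∀ z, 1 / 8 ≤ ‖z - p‖ → ‖z - p‖ < 1 / 4 → F z ≤ 1 := by
    intro z hz1 hz2
    rw [hFz]
    have h1 : c / ‖z - p‖ ≤ 8 * c := by
      rw [div_le_iff₀ (by linarith)]
      nlinarith
    have h2 : N z ≤ Real.exp Q := hQ z (by rw [mem_ball_iff_norm]; exact hz2)
    calc N z * Real.exp (c / ‖z - p‖ - 8 * c - Q) ≤ Real.exp Q * Real.exp (c / ‖z - p‖ - 8 * c - Q) :=
          mul_le_mul_of_nonneg_right h2 (Real.exp_pos _).le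
      _ = Real.exp (c / ‖z - p‖ - 8 * c) := by rw [← Real.exp_add]; congr 1; ring
      _ ≤ 1 := by
          rw [Real.exp_le_one_iff]
          linarith
  have hin : ∀ z, r / 2 ≤ ‖z - p‖ → ‖z - p‖ ≤ r → F z ≤ 1 := by
    intro z hz1 hz2
    rw [hFz]
    have h1 : c / ‖z - p‖ ≤ 2 * c / r := by
      rw [div_le_div_iff₀ (by linarith) hr0]
      nlinarith
    have h2 : N z ≤ Real.exp (Q - 2 * c / r) := (hcr z (by rw [mem_closedBall_iff_norm]; exact hz2)).le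
    calc N z * Real.exp (c / ‖z - p‖ - 8 * c - Q) ≤
          Real.exp (Q - 2 * c / r) * Real.exp (c / ‖z - p‖ - 8 * c - Q) :=
          mul_le_mul_of_nonneg_right h2 (Real.exp_pos _).le
      _ = Real.exp (c / ‖z - p‖ - 2 * c / r - 8 * c) := by rw [← Real.exp_add]; congr 1; ring
      _ ≤ 1 := by
          rw [Real.exp_le_one_iff]
          linarith
  -- the maximum
  have hcomp : IsCompact {z : ℂ | r ≤ ‖z - p‖ ∧ ‖z - p‖ ≤ 1 / 8} := by
    refine (isCompact_closedBall p (1 / 8)).of_isClosed_subset ?_ ?_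
    · have h1 : Continuous fun z : ℂ => ‖z - p‖ := by fun_prop
      exact (isClosed_le continuous_const h1).inter (isClosed_le h1 continuous_const)
    · intro z hz
      rw [mem_closedBall_iff_norm]
      exact hz.2
  have hFcont : ContinuousOn F {z : ℂ | r ≤ ‖z - p‖ ∧ ‖z - p‖ ≤ 1 / 8} := by
    rw [hF]
    intro z hz
    have h0 : ‖z - p‖ ≠ 0 := by
      have := hr0.trans_le hz.1
      exact this.ne'
    apply ContinuousAt.continuousWithinAt
    have h1 : ContinuousAt (fun z : ℂ => ‖z - p‖) z := by fun_prop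
    have h2 : ContinuousAt (fun z : ℂ => c / ‖z - p‖ - 8 * c - Q) z :=
      ((continuousAt_const.div h1 h0).sub continuousAt_const).sub continuousAt_const
    exact hNC.continuous.continuousAt.mul (Real.continuous_exp.continuousAt.comp h2)
  have hz₁m : z₁ ∈ {z : ℂ | r ≤ ‖z - p‖ ∧ ‖z - p‖ ≤ 1 / 8} := ⟨hz₁r.le, by linarith⟩
  obtain ⟨y, hy, hymax⟩ := hcomp.exists_isMaxOn ⟨z₁, hz₁m⟩ hFcont
  have hFy : 1 < F y := hFz₁.trans_le (hymax hz₁m)
  have hyr : r < ‖y - p‖ := by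
    rcases hy.1.lt_or_eq with h | h
    · exact h
    · exact absurd (hin y (by linarith) h.ge) (not_le.2 hFy)
  have hy8 : ‖y - p‖ < 1 / 8 := by
    rcases hy.2.lt_or_eq with h | h
    · exact h
    · exact absurd (hout y h.ge (by rw [h]; norm_num)) (not_le.2 hFy)
  have hall : ∀ z, r / 2 ≤ ‖z - p‖ → ‖z - p‖ < 1 / 4 → F z ≤ F y := by
    intro z h1 h2
    rcases le_total ‖z - p‖ r with h3 | h3
    · exact (hin z h1 h3).trans hFy.le
    · rcases le_total ‖z - p‖ (1 / 8) with h4 | h4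
      · exact hymax ⟨h3, h4⟩
      · exact (hout z h4 h2).trans hFy.le
  obtain ⟨t, ht⟩ : ∃ t : ℝ, t = ‖y - p‖ := ⟨_, rfl⟩
  rw [← ht] at hyr hy8
  have ht0 : 0 < t := hr0.trans hyr
  have hNy : 0 < N y := by
    have h1 := (zero_lt_one.trans hFy)
    rw [hFz] at h1
    exact (mul_pos_iff_of_pos_right (Real.exp_pos _)).1 h1
  -- the key inequality
  have hkey : ∀ z, r / 2 ≤ ‖z - p‖ → ‖z - p‖ < 1 / 4 →
      N z ≤ N y * Real.exp (c / t - c / ‖z - p‖) := by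
    intro z h1 h2
    have h3 := hall z h1 h2
    rw [hFz, hFz, ← ht] at h3
    have h4 : N z * Real.exp (c / ‖z - p‖ - 8 * c - Q) * Real.exp (-(c / ‖z - p‖ - 8 * c - Q)) ≤
        N y * Real.exp (c / t - 8 * c - Q) * Real.exp (-(c / ‖z - p‖ - 8 * c - Q)) :=
      mul_le_mul_of_nonneg_right h3 (Real.exp_pos _).le
    rw [mul_assoc, mul_assoc, ← Real.exp_add, ← Real.exp_add, add_neg_cancel, Real.exp_zero, mul_one] at h4
    refine h4.trans (le_of_eq ?_)
    congr 2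
    ring
  obtain ⟨s, hs⟩ : ∃ s : ℝ, s = c / t ^ 2 := ⟨_, rfl⟩
  have hs0 : 0 < s := by rw [hs]; positivity
  have hsK : 64 * (M' * K) ≤ s := by
    rw [hs, le_div_iff₀ (by positivity), hc]
    have h1 : t ^ 2 ≤ 1 / 64 := by nlinarith
    have h2 : 0 < M' * K := by positivity
    nlinarith
  have hAs : A / s ≤ t / 2 := by
    rw [hs, div_div_eq_mul_div, div_le_iff₀ hc0]
    have h1 : A ≤ c := by
      rw [hc, hM']
      nlinarith
    nlinarith [mul_pos hA ht0, mul_pos hc0 ht0]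
  have hball : ∀ z ∈ ball y (A / s), r / 2 ≤ ‖z - p‖ ∧ ‖z - p‖ < 1 / 4 ∧ 0 < ‖z - p‖ := by
    intro z hz
    rw [mem_ball_iff_norm] at hz
    have h1 : ‖z - y‖ < t / 2 := hz.trans_le hAs
    have h2 : ‖z - p‖ ≤ ‖z - y‖ + t := by
      rw [ht]
      calc ‖z - p‖ = ‖(z - y) + (y - p)‖ := by congr 1; ring
        _ ≤ _ := norm_add_le _ _
    have h3 : t ≤ ‖z - y‖ + ‖z - p‖ := by
      rw [ht]
      calc ‖y - p‖ = ‖-(z - y) + (z - p)‖ := by congr 1; ring
        _ ≤ ‖-(z - y)‖ + ‖z - p‖ := norm_add_le _ _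
        _ = _ := by rw [norm_neg]
    refine ⟨by linarith, by linarith, by linarith⟩
  -- second derivative tests in the two directions
  have htest : ∀ (v : ℂ) (q : ℝ), ‖v‖ = 1 → q = (y - p).re * v.re + (y - p).im * v.im →
      fderiv ℝ N y v = N y * (c * q / t ^ 3) ∧ fderiv ℝ (fun z => fderiv ℝ N z v) y v ≤
        N y * ((c * q / t ^ 3) ^ 2 + c * (1 / t ^ 3 - 3 * q ^ 2 / t ^ 5)) := by
    intro v q hv hq
    obtain ⟨hb, hb'⟩ := bar_deriv (N y) c t q ht0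
    have hnorm : ∀ τ : ℝ, ‖y + τ • v - p‖ = √(t ^ 2 + 2 * τ * q + τ ^ 2) := by
      intro τ
      have h1 : y + τ • v - p = (y - p) + τ • v := by ring
      have h2 : ‖(y - p) + τ • v‖ ^ 2 = t ^ 2 + 2 * τ * q + τ ^ 2 := by
        rw [norm_add_sq, norm_smul, hv, hq, ht, Real.norm_eq_abs, mul_one, sq_abs]
        simp only [Complex.smul_re, Complex.smul_im, smul_eq_mul]
        ring
      rw [h1, ← h2, Real.sqrt_sq (norm_nonneg _)]
    have hle : ∀ᶠ τ in 𝓝 (0 : ℝ), N (y + τ • v) ≤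
        N y * Real.exp (c / t - c / √(t ^ 2 + 2 * τ * q + τ ^ 2)) := by
      have h1 : Tendsto (fun τ : ℝ => y + τ • v) (𝓝 0) (𝓝 y) := by
        have : Continuous fun τ : ℝ => y + τ • v := by fun_prop
        have h2 := this.tendsto 0
        simpa using h2
      have h3 : ball y (A / s) ∈ 𝓝 y := ball_mem_nhds y (by positivity)
      filter_upwards [h1 h3] with τ hτ
      obtain ⟨h4, h5, h6⟩ := hball _ hτ
      have h7 := hkey _ h4 h5
      rw [hnorm] at h7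
      exact h7
    have h0 : N y * Real.exp (c / t - c / √(t ^ 2 + 2 * (0 : ℝ) * q + 0 ^ 2)) = N y := by
      have : √(t ^ 2 + 2 * (0 : ℝ) * q + 0 ^ 2) = t := by
        simp only [mul_zero, zero_mul, add_zero, ne_eq, OfNat.ofNat_ne_zero, not_false_eq_true, zero_pow]
        exact Real.sqrt_sq ht0.le
      rw [this, sub_self, Real.exp_zero, mul_one]
    have hT := test_line hNC y v _ _ _ hb hb' h0 hle
    refine ⟨?_, hT.2⟩
    rw [hT.1, h0]
    have : √(t ^ 2 + 2 * (0 : ℝ) * q + 0 ^ 2) = t := by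
      simp only [mul_zero, zero_mul, add_zero, ne_eq, OfNat.ofNat_ne_zero, not_false_eq_true, zero_pow]
      exact Real.sqrt_sq ht0.le
    rw [this, add_zero]
  have hx := htest 1 (y - p).re (by simp) (by simp)
  have hy' := htest Complex.I (y - p).im (by simp) (by simp)
  have htsq : t ^ 2 = (y - p).re ^ 2 + (y - p).im ^ 2 := by
    rw [ht, ← Complex.normSq_eq_norm_sq, Complex.normSq_apply]
    ring
  obtain ⟨a, ha⟩ : ∃ a : ℝ, a = (y - p).re := ⟨_, rfl⟩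
  obtain ⟨b, hb⟩ : ∃ b : ℝ, b = (y - p).im := ⟨_, rfl⟩
  rw [← ha] at hx htsq
  rw [← hb] at hy' htsq
  have hlap : lap N y ≤ N y * (s ^ 2 - s / t) := by
    have h1 : lap N y ≤ N y * ((c * a / t ^ 3) ^ 2 + c * (1 / t ^ 3 - 3 * a ^ 2 / t ^ 5)) +
        N y * ((c * b / t ^ 3) ^ 2 + c * (1 / t ^ 3 - 3 * b ^ 2 / t ^ 5)) := add_le_add hx.2 hy'.2
    refine h1.trans (le_of_eq ?_)
    have h2 : (c * a / t ^ 3) ^ 2 + c * (1 / t ^ 3 - 3 * a ^ 2 / t ^ 5) +
        ((c * b / t ^ 3) ^ 2 + c * (1 / t ^ 3 - 3 * b ^ 2 / t ^ 5)) =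
        c ^ 2 * (a ^ 2 + b ^ 2) / t ^ 6 + c * (2 / t ^ 3 - 3 * (a ^ 2 + b ^ 2) / t ^ 5) := by ring
    rw [← mul_add, h2, ← htsq, hs]
    congr 1
    field_simp
    ring
  -- apply RL
  have hR := H k s (s / t) y (((t : ℂ))⁻¹ * (y - p)) u σ hk ?_ ?_ (by positivity) ?_
    (Sol_mono hS ?_) (by rw [← hN]; exact hNy) ?_ ?_ ?_
  · rw [← hN] at hR
    have h1 : s / t * t = s := by field_simp
    have h2 : 0 < s / t := by positivity
    have h3 : -(1 / 4 * (s / t + s)) * N y ≤ -(s / t) * N y := by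
      refine hR.trans ?_
      linarith
    have h4 : -(1 / 4 * (s / t + s)) ≤ -(s / t) := le_of_mul_le_mul_right h3 hNy
    nlinarith
  · have h1 : C₀ ≤ M' * K := by
      rw [hM']
      nlinarith
    linarith [mul_pos hM'0 (zero_lt_one.trans_le hK1)]
  · have h1 : C₀ * k ≤ M' * K := by
      rw [hM']
      nlinarith
    linarith [mul_pos hM'0 (zero_lt_one.trans_le hK1)]
  · rw [norm_mul, norm_inv, Complex.norm_real, Real.norm_of_nonneg ht0.le, ← ht]
    exact inv_mul_cancel₀ ht0.ne'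
  · intro z hz
    rw [mem_ball_iff_norm]
    exact (hball z hz).2.1
  · rw [← hN]
    show fderiv ℝ N y 1 = _
    rw [hx.1, ← Complex.ofReal_inv, Complex.re_ofReal_mul, ← ha, hs]
    field_simp
  · rw [← hN]
    show fderiv ℝ N y Complex.I = _
    rw [hy'.1, ← Complex.ofReal_inv, Complex.im_ofReal_mul, ← hb, hs]
    field_simp
  · intro z hz
    rw [← hN]
    obtain ⟨h1, h2, h3⟩ := hball z hz
    refine (hkey z h1 h2).trans (mul_le_mul_of_nonneg_left ?_ hNy.le)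
    rw [Real.exp_le_exp, ← Complex.ofReal_inv, Complex.re_ofReal_mul, Complex.im_ofReal_mul]
    have h4 : ‖z - p‖ ^ 2 = t ^ 2 + 2 * (a * (z - y).re + b * (z - y).im) + ‖z - y‖ ^ 2 := by
      rw [show z - p = (y - p) + (z - y) by ring, norm_add_sq, ← ha, ← hb, ← ht]
    have h5 := inv_bound ht0 h3 _ _ h4
    have h6 : c * (1 / t - 1 / ‖z - p‖) ≤ c * ((a * (z - y).re + b * (z - y).im) / t ^ 3 + ‖z - y‖ ^ 2 / (2 * t ^ 3)) :=
      mul_le_mul_of_nonneg_left h5 hc0.le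
    rw [← ha, ← hb, hs]
    calc c / t - c / ‖z - p‖ = c * (1 / t - 1 / ‖z - p‖) := by ring
      _ ≤ _ := h6
      _ = _ := by
        field_simp

end Pool.Agent.Helper904_Yau.PBAR
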