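import Pool.Agent.Helper904_Yau.POL
import Pool.Agent.Helper904_QS.WMP
import Pool.Agent.Helper904_QS.KER

/-!
MVB: sub-mean value inequality on discs.  RAD: a radial integral.
-/

set_option autoImplicit false

open MeasureTheory Set Metric Filter Topology
open scoped ContDiff
open Pool.Agent.Helper904_QS Pool.Agent.Helper904_QS.PJC Pool.Agent.Helper904_Yau.PPOL

namespace Pool.Agent.Helper904_Yau.PMVB

variable {f : ℂ → ℝ} {ρ A : ℝ}

theorem circle_eq (f : ℂ → ℝ) (t : ℝ) :
    ∫ θ in (-Real.pi)..Real.pi, f (pp 0 t θ) = 2 * Real.pi * Real.circleAverage f 0 t := by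
  have hpi := Real.pi_pos
  have h1 : ∀ θ : ℝ, pp 0 t θ = circleMap 0 t θ := by
    intro θ
    unfold pp circleMap
    rw [Complex.exp_mul_I]
    push_cast
    ring
  simp only [h1]
  have hper : Function.Periodic (fun θ => f (circleMap 0 t θ)) (2 * Real.pi) := by
    intro θ
    simp only
    rw [periodic_circleMap 0 t θ]
  have h2 := hper.intervalIntegral_add_eq (-Real.pi) 0
  have e : -Real.pi + 2 * Real.pi = Real.pi := by ring
  rw [e, zero_add] at h2
  rw [h2]
  unfold Real.circleAverage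
  rw [smul_eq_mul, ← mul_assoc, mul_inv_cancel₀ (by positivity), one_mul]

/-- for a global `C²` function -/
theorem glob (hf : ContDiff ℝ 2 f) (hρ : 0 < ρ) (h : ∀ z ∈ ball (0 : ℂ) ρ, 0 ≤ lap f z) :
    Real.pi * ρ ^ 2 * f 0 ≤ ∫ z in ball (0 : ℂ) ρ, f z := by
  have hpi := Real.pi_pos
  rw [polar hf.continuous 0 hρ]
  have h1 : Real.pi * ρ ^ 2 * f 0 = ∫ t in (0 : ℝ)..ρ, t * (2 * Real.pi * f 0) := by
    rw [intervalIntegral.integral_mul_const, integral_id]
    ring
  rw [h1]
  have hcJ : Continuous (fun t => ∫ θ in (-Real.pi)..Real.pi, f (pp 0 t θ)) :=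
    param_cont (F := fun ρ θ => f (pp 0 ρ θ)) (hf.continuous.comp (continuous_pp 0)) _ _
  apply intervalIntegral.integral_mono_on_of_le_Ioo hρ.le
  · exact Continuous.intervalIntegrable (by fun_prop) _ _
  · exact Continuous.intervalIntegrable (by fun_prop) _ _
  · intro t ht
    apply mul_le_mul_of_nonneg_left _ ht.1.le
    rw [circle_eq]
    apply mul_le_mul_of_nonneg_left _ (by positivity)
    exact PWMP.sub_mean hf 0 ht.1 (fun z hz => h z (ball_subset_ball ht.2.le hz))

/-- MVB -/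
theorem t_MVB : S_MVB := by
  intro f ρ A hρ hρA hf h
  have hA : 0 < A := hρ.trans hρA
  let b : ContDiffBump (0 : ℂ) := ⟨ρ, (ρ + A) / 2, hρ, by linarith⟩
  have hg : ContDiff ℝ 2 (fun z => b z * f z) := by
    rw [contDiff_iff_contDiffAt]
    intro z
    by_cases hz : z ∈ ball (0 : ℂ) A
    · exact b.contDiffAt.mul ((hf z hz).contDiffAt (isOpen_ball.mem_nhds hz))
    · have hz' : z ∈ (closedBall (0 : ℂ) ((ρ + A) / 2))ᶜ := by
        intro hc
        apply hz
        rw [mem_closedBall] at hc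
        rw [mem_ball]
        linarith
      have h0 : (fun z => b z * f z) =ᶠ[𝓝 z] fun _ => 0 := by
        filter_upwards [isClosed_closedBall.isOpen_compl.mem_nhds hz'] with w hw
        have : b w = 0 := by
          apply b.zero_of_le_dist
          by_contra hc
          push Not at hc
          exact hw (mem_closedBall.2 hc.le)
        rw [this, zero_mul]
      exact contDiffAt_const.congr_of_eventuallyEq h0
  have heq : ∀ z ∈ ball (0 : ℂ) ρ, b z * f z = f z := by
    intro z hz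
    have : b z = 1 := b.one_of_mem_closedBall (ball_subset_closedBall hz)
    rw [this, one_mul]
  have h1 := glob hg hρ (fun z hz => by
    rw [lap_congr isOpen_ball heq z hz]
    exact h z hz)
  rw [heq 0 (mem_ball_self hρ), setIntegral_congr_fun measurableSet_ball heq] at h1
  exact h1

/-- RAD -/
theorem t_RAD : S_RAD := by
  intro ρ A hρ hρA
  have hA : 0 < A := hρ.trans hρA
  have hpi := Real.pi_pos
  have hpos : ∀ x : ℝ, 0 ≤ x → x ≤ ρ → 0 < A ^ 2 - x ^ 2 := by
    intro x h0 h1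
    have : x ^ 2 < A ^ 2 := pow_lt_pow_left₀ (lt_of_le_of_lt h1 hρA) h0 (by norm_num)
    linarith
  obtain ⟨-, h⟩ := PKER.radial_int ρ hρ (fun x => if x < ρ then ((A ^ 2 - x ^ 2) ^ 2)⁻¹ else 0)
    (fun x => (A ^ 2 - x ^ 2)⁻¹ / 2)
    (by
      apply ContinuousOn.div_const
      apply ContinuousOn.inv₀ (by fun_prop)
      intro x hx
      exact (hpos x hx.1 hx.2).ne')
    (by
      intro x hx
      rw [if_pos hx.2]
      have h1 := (((hasDerivAt_pow 2 x).const_sub (A ^ 2)).inv (hpos x hx.1.le hx.2.le).ne').div_const 2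
      refine h1.congr_deriv ?_
      have := (hpos x hx.1.le hx.2.le).ne'
      field_simp
      push_cast
      ring)
    (by
      intro x hx
      rw [if_pos hx.2]
      positivity)
    (by
      intro x hx
      rw [if_neg (not_lt.2 hx)])
  have h2 : ∫ z in ball (0 : ℂ) ρ, ((A ^ 2 - ‖z‖ ^ 2) ^ 2)⁻¹ =
      ∫ z : ℂ, (if ‖z‖ < ρ then ((A ^ 2 - ‖z‖ ^ 2) ^ 2)⁻¹ else 0) := by
    rw [← integral_indicator measurableSet_ball]
    congr 1
    ext z
    by_cases hz : ‖z‖ < ρ
    · rw [indicator_of_mem (mem_ball_zero_iff.2 hz), if_pos hz]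
    · rw [indicator_of_notMem (fun hc => hz (mem_ball_zero_iff.1 hc)), if_neg hz]
  rw [h2, h]
  have h3 : 0 < (A ^ 2 - 0 ^ 2)⁻¹ := inv_pos.2 (hpos 0 le_rfl hρ.le)
  have h4 : 2 * Real.pi * ((A ^ 2 - ρ ^ 2)⁻¹ / 2 - (A ^ 2 - 0 ^ 2)⁻¹ / 2) =
      Real.pi / (A ^ 2 - ρ ^ 2) - Real.pi * (A ^ 2 - 0 ^ 2)⁻¹ := by
    rw [div_eq_mul_inv Real.pi]
    ring
  rw [h4]
  have := mul_pos hpi h3
  linarith

end Pool.Agent.Helper904_Yau.PMVB
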