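import Pool.Agent.Helper904_Yau.GE
import Pool.Agent.Helper904_Yau.MVB
import Pool.Agent.Helper904_QS.J

/-!
CE: the closing lemma.
-/

set_option autoImplicit false

open MeasureTheory Set Metric Filter Topology
open scoped ContDiff
open Pool.Agent.Helper904_QS Pool.Agent.Helper904_QS.PJ

namespace Pool.Agent.Helper904_Yau.PCE

/-- local formula for the Laplacian of `q` plus a radial function -/
theorem lap_q_rad {q : ℂ → ℝ} (hq : ContDiff ℝ 2 q) {H H1 H2 : ℝ → ℝ} {A : ℝ}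
    (h1 : ∀ t < A ^ 2, HasDerivAt H (H1 t) t) (h2 : ∀ t < A ^ 2, HasDerivAt H1 (H2 t) t)
    {z : ℂ} (hz : z ∈ ball (0 : ℂ) A) :
    lap (fun z => q z + H (PJ.qq z)) z = lap q z + 4 * (H1 (PJ.qq z) + PJ.qq z * H2 (PJ.qq z)) := by
  have hlt : ∀ w ∈ ball (0 : ℂ) A , PJ.qq w < A ^ 2 := by
    intro w hw
    rw [qq_eq]
    exact pow_lt_pow_left₀ (mem_ball_zero_iff.1 hw) (norm_nonneg _) (by norm_num)
  have hF : ∀ w ∈ ball (0 : ℂ) A, HasFDerivAt (fun z => H (PJ.qq z))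
      (H1 (PJ.qq w) • ((2 * w.re) • Complex.reCLM + (2 * w.im) • Complex.imCLM)) w := fun w hw =>
    (h1 (PJ.qq w) (hlt w hw)).comp_hasFDerivAt w (qq_hasF w)
  have hF1 : ∀ w ∈ ball (0 : ℂ) A, HasFDerivAt (fun z => H1 (PJ.qq z))
      (H2 (PJ.qq w) • ((2 * w.re) • Complex.reCLM + (2 * w.im) • Complex.imCLM)) w := fun w hw =>
    (h2 (PJ.qq w) (hlt w hw)).comp_hasFDerivAt w (qq_hasF w)
  have hqd : Differentiable ℝ q := hq.differentiable (by norm_num)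
  have e1 : ∀ w ∈ ball (0 : ℂ) A, dx (fun z => q z + H (PJ.qq z)) w =
      dx q w + H1 (PJ.qq w) * (2 * w.re) := by
    intro w hw
    rw [dx_add (hqd w) (hF w hw).differentiableAt]
    congr 1
    unfold dx
    rw [(hF w hw).fderiv]
    simp
  have e2 : ∀ w ∈ ball (0 : ℂ) A, dy (fun z => q z + H (PJ.qq z)) w =
      dy q w + H1 (PJ.qq w) * (2 * w.im) := by
    intro w hw
    rw [dy_add (hqd w) (hF w hw).differentiableAt]
    congr 1
    unfold dy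
    rw [(hF w hw).fderiv]
    simp
  unfold lap
  rw [dx_congr isOpen_ball e1 z hz, dy_congr isOpen_ball e2 z hz]
  have g1 := (hF1 z hz).fun_mul ((re_hasF z).const_mul 2)
  have g2 := (hF1 z hz).fun_mul ((im_hasF z).const_mul 2)
  have d1 : DifferentiableAt ℝ (dx q) z := (contDiff_dx1 hq).differentiable (by norm_num) z
  have d2 : DifferentiableAt ℝ (dy q) z := (contDiff_dy1 hq).differentiable (by norm_num) z
  rw [dx_add d1 g1.differentiableAt, dy_add d2 g2.differentiableAt]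
  have f1 : dx (fun w => H1 (PJ.qq w) * (2 * w.re)) z = H1 (PJ.qq z) * 2 + H2 (PJ.qq z) * (2 * z.re) * (2 * z.re) := by
    unfold dx
    rw [g1.fderiv]
    simp
    ring
  have f2 : dy (fun w => H1 (PJ.qq w) * (2 * w.im)) z = H1 (PJ.qq z) * 2 + H2 (PJ.qq z) * (2 * z.im) * (2 * z.im) := by
    unfold dy
    rw [g2.fderiv]
    simp
    ring
  rw [f1, f2]
  unfold PJ.qq
  ring

/-- the radial comparison function in the variable `t = |z|²` -/
noncomputable def Hf (A D c t : ℝ) : ℝ := D / 4 * t + c * ((A ^ 2 - t)⁻¹ ^ 2 - (A ^ 2)⁻¹ ^ 2)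

noncomputable def Hf1 (A D c t : ℝ) : ℝ := D / 4 + c * (2 * (A ^ 2 - t)⁻¹ ^ 3)

noncomputable def Hf2 (A c t : ℝ) : ℝ := c * (6 * (A ^ 2 - t)⁻¹ ^ 4)

theorem inv_deriv {A t : ℝ} (ht : t < A ^ 2) :
    HasDerivAt (fun t => (A ^ 2 - t)⁻¹) ((A ^ 2 - t)⁻¹ ^ 2) t := by
  have hne : A ^ 2 - t ≠ 0 := by linarith
  have h := ((hasDerivAt_id t).const_sub (A ^ 2)).inv hne
  refine h.congr_deriv ?_
  simp only [id]
  field_simp

theorem Hf_deriv (A D c : ℝ) {t : ℝ} (ht : t < A ^ 2) : HasDerivAt (Hf A D c) (Hf1 A D c t) t := by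
  have h := ((hasDerivAt_id t).const_mul (D / 4)).add
    ((((inv_deriv ht).pow 2).sub_const ((A ^ 2)⁻¹ ^ 2)).const_mul c)
  refine h.congr_deriv ?_
  unfold Hf1
  push_cast
  ring

theorem Hf1_deriv (A D c : ℝ) {t : ℝ} (ht : t < A ^ 2) : HasDerivAt (Hf1 A D c) (Hf2 A c t) t := by
  have h := ((((inv_deriv ht).pow 3).const_mul 2).const_mul c).const_add (D / 4)
  refine h.congr_deriv ?_
  unfold Hf2
  push_cast
  ring

theorem int_const (ρ c : ℝ) (hρ : 0 < ρ) : ∫ _z in ball (0 : ℂ) ρ, c = Real.pi * ρ ^ 2 * c := by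
  rw [setIntegral_const, smul_eq_mul]
  congr 1
  rw [Measure.real, Complex.volume_ball, ENNReal.toReal_mul, ENNReal.toReal_pow,
    ENNReal.toReal_ofReal hρ.le]
  simp
  ring

theorem qq_lt {A : ℝ} {z : ℂ} (hz : z ∈ ball (0 : ℂ) A) : PJ.qq z < A ^ 2 := by
  rw [qq_eq]
  exact pow_lt_pow_left₀ (mem_ball_zero_iff.1 hz) (norm_nonneg _) (by norm_num)

theorem qq_nonneg (z : ℂ) : 0 ≤ PJ.qq z := by rw [qq_eq]; positivity

/-- the mass of `q` -/
theorem mass {q : ℂ → ℝ} (hq : ContDiff ℝ 2 q) {A D S τ ρ : ℝ} (hA : 0 < A) (hD : 0 ≤ D) (hS : 0 ≤ S)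
    (hτ : 0 ≤ τ) (hρ : 0 < ρ) (hρA : ρ < A) (h0 : q 0 = 0) (hqD : ∀ z ∈ ball (0 : ℂ) A, q z ≤ D)
    (hlap : ∀ z ∈ ball (0 : ℂ) A, |lap q z| ≤ D + τ * S * (A ^ 2 - ‖z‖ ^ 2)⁻¹ ^ 4) :
    ∫ z in ball (0 : ℂ) ρ, |q z| ≤ (2 * Real.pi * A ^ 2 + Real.pi * A ^ 4 / 4) * D +
      τ * S / (8 * A ^ 2) * (Real.pi / (A ^ 2 - ρ ^ 2)) := by
  have hpi := Real.pi_pos
  set c : ℝ := τ * S / (8 * A ^ 2) with hc
  have hc0 : 0 ≤ c := by positivity
  have hcA : 8 * c * A ^ 2 = τ * S := by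
    rw [hc]
    field_simp
  -- regularity
  have hreg : ContDiffOn ℝ 2 (fun z => q z + Hf A D c (PJ.qq z)) (ball 0 A) := by
    have h1 : ContDiffOn ℝ 2 (fun z => (A ^ 2 - PJ.qq z)⁻¹) (ball 0 A) :=
      (contDiff_const.sub qq_contDiff).contDiffOn.inv (fun z hz => by
        have := qq_lt hz
        linarith)
    have h2 : ContDiffOn ℝ 2 PJ.qq (ball 0 A) := qq_contDiff.contDiffOn
    unfold Hf
    exact hq.contDiffOn.add ((contDiffOn_const.mul h2).add (contDiffOn_const.mul ((h1.pow 2).sub contDiffOn_const)))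
  -- the Laplacian
  have hsub : ∀ z ∈ ball (0 : ℂ) ρ, 0 ≤ lap (fun z => q z + Hf A D c (PJ.qq z)) z := by
    intro z hz
    have hzA : z ∈ ball (0 : ℂ) A := ball_subset_ball hρA.le hz
    rw [lap_q_rad hq (A := A) (fun t ht => Hf_deriv A D c ht) (fun t ht => Hf1_deriv A D c ht) hzA]
    have h1 := hlap z hzA
    rw [← qq_eq] at h1
    have h2 := (abs_le.1 h1).1
    have hlt := qq_lt hzA
    have hq0 := qq_nonneg z
    unfold Hf1 Hf2
    set t := PJ.qq z with ht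
    have hs : 0 < (A ^ 2 - t)⁻¹ := inv_pos.2 (by linarith)
    set s := (A ^ 2 - t)⁻¹ with hs'
    have hst : s * (A ^ 2 - t) = 1 := by
      rw [hs']
      exact inv_mul_cancel₀ (by linarith)
    have e1 : s ^ 3 = s ^ 4 * (A ^ 2 - t) := by
      have : s ^ 4 * (A ^ 2 - t) = s ^ 3 * (s * (A ^ 2 - t)) := by ring
      rw [this, hst, mul_one]
    have h3 : 0 ≤ c * s ^ 4 * t := by positivity
    have h4 : 8 * c * A ^ 2 * s ^ 4 = τ * S * s ^ 4 := by rw [hcA]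
    rw [e1]
    nlinarith [h3, h4]
  have hM := PMVB.t_MVB (fun z => q z + Hf A D c (PJ.qq z)) ρ A hρ hρA hreg hsub
  have e0 : q 0 + Hf A D c (PJ.qq 0) = 0 := by
    rw [h0]
    unfold Hf PJ.qq
    simp
  simp only [e0, mul_zero] at hM
  -- integrability
  have hIR : ContinuousOn (fun z : ℂ => ((A ^ 2 - ‖z‖ ^ 2) ^ 2)⁻¹) (closedBall 0 ρ) := by
    apply ContinuousOn.inv₀ (by fun_prop)
    intro z hz
    have h1 : ‖z‖ ≤ ρ := mem_closedBall_zero_iff.1 hz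
    have h2 : ‖z‖ ^ 2 < A ^ 2 := pow_lt_pow_left₀ (lt_of_le_of_lt h1 hρA) (norm_nonneg _) (by norm_num)
    have h3 : 0 < A ^ 2 - ‖z‖ ^ 2 := by linarith
    positivity
  have iR : IntegrableOn (fun z : ℂ => ((A ^ 2 - ‖z‖ ^ 2) ^ 2)⁻¹) (ball 0 ρ) :=
    (hIR.integrableOn_compact (isCompact_closedBall 0 ρ)).mono_set ball_subset_closedBall
  have iq : IntegrableOn q (ball 0 ρ) :=
    (hq.continuous.continuousOn.integrableOn_compact (isCompact_closedBall 0 ρ)).mono_set ball_subset_closedBall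
  have iF : IntegrableOn (fun z => q z + Hf A D c (PJ.qq z)) (ball 0 ρ) :=
    ((hreg.continuousOn.mono (closedBall_subset_ball hρA)).integrableOn_compact (isCompact_closedBall 0 ρ)).mono_set
      ball_subset_closedBall
  have ic : ∀ c : ℝ, IntegrableOn (fun _ : ℂ => c) (ball 0 ρ) := fun c =>
    (continuousOn_const.integrableOn_compact (isCompact_closedBall 0 ρ)).mono_set ball_subset_closedBall
  have i1 : IntegrableOn (fun z : ℂ => D * A ^ 2 / 4 + c * ((A ^ 2 - ‖z‖ ^ 2) ^ 2)⁻¹) (ball 0 ρ) :=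
    (ic _).add (iR.const_mul c)
  have i2 : IntegrableOn (fun z : ℂ => q z + (D * A ^ 2 / 4 + c * ((A ^ 2 - ‖z‖ ^ 2) ^ 2)⁻¹)) (ball 0 ρ) :=
    iq.add i1
  have i3 : IntegrableOn (fun z : ℂ => 2 * D - q z) (ball 0 ρ) := (ic _).sub iq
  -- upper bound
  have h1 : ∫ z in ball (0 : ℂ) ρ, (q z + Hf A D c (PJ.qq z)) ≤
      ∫ z in ball (0 : ℂ) ρ, (q z + (D * A ^ 2 / 4 + c * ((A ^ 2 - ‖z‖ ^ 2) ^ 2)⁻¹)) := by
    apply setIntegral_mono_on iF i2 measurableSet_ball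
    intro z hz
    have hzA : z ∈ ball (0 : ℂ) A := ball_subset_ball hρA.le hz
    have hlt := qq_lt hzA
    unfold Hf
    rw [← qq_eq]
    have e1 : ((A ^ 2 - PJ.qq z) ^ 2)⁻¹ = (A ^ 2 - PJ.qq z)⁻¹ ^ 2 := by rw [inv_pow]
    rw [e1]
    have h2 : 0 ≤ c * (A ^ 2)⁻¹ ^ 2 := by positivity
    have h3 : D / 4 * PJ.qq z ≤ D * A ^ 2 / 4 := by
      have := mul_le_mul_of_nonneg_left hlt.le (by positivity : 0 ≤ D / 4)
      linarith
    linarith
  have h2 : ∫ z in ball (0 : ℂ) ρ, (q z + (D * A ^ 2 / 4 + c * ((A ^ 2 - ‖z‖ ^ 2) ^ 2)⁻¹)) =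
      (∫ z in ball (0 : ℂ) ρ, q z) + (Real.pi * ρ ^ 2 * (D * A ^ 2 / 4) +
        c * ∫ z in ball (0 : ℂ) ρ, ((A ^ 2 - ‖z‖ ^ 2) ^ 2)⁻¹) := by
    rw [integral_add iq i1, integral_add (ic _) (iR.const_mul c),
      int_const ρ _ hρ, integral_const_mul]
  have h3 := PMVB.t_RAD ρ A hρ hρA
  have h4 : ∫ z in ball (0 : ℂ) ρ, |q z| ≤ ∫ z in ball (0 : ℂ) ρ, (2 * D - q z) := by
    apply setIntegral_mono_on iq.abs i3 measurableSet_ball
    intro z hz
    have := hqD z (ball_subset_ball hρA.le hz)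
    rw [abs_le]
    constructor <;> linarith
  have h5 : ∫ z in ball (0 : ℂ) ρ, (2 * D - q z) = Real.pi * ρ ^ 2 * (2 * D) - ∫ z in ball (0 : ℂ) ρ, q z := by
    rw [integral_sub (ic _) iq, int_const ρ _ hρ]
  have h6 : ρ ^ 2 ≤ A ^ 2 := pow_le_pow_left₀ hρ.le hρA.le 2
  have h7 : Real.pi * ρ ^ 2 * (2 * D) ≤ Real.pi * A ^ 2 * (2 * D) := by gcongr
  have h8 : Real.pi * ρ ^ 2 * (D * A ^ 2 / 4) ≤ Real.pi * A ^ 2 * (D * A ^ 2 / 4) := by gcongr
  have h9 : c * ∫ z in ball (0 : ℂ) ρ, ((A ^ 2 - ‖z‖ ^ 2) ^ 2)⁻¹ ≤ c * (Real.pi / (A ^ 2 - ρ ^ 2)) :=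
    mul_le_mul_of_nonneg_left h3 hc0
  nlinarith [h1, h2, h4, h5, h7, h8, h9, hM]

/-- CE -/
theorem t_CE : S_CE := by
  intro A hA
  obtain ⟨CG, hCG, hGE⟩ := PGE.t_GE
  have hpi := Real.pi_pos
  set CA : ℝ := 2 * Real.pi * A ^ 2 + Real.pi * A ^ 4 / 4 with hCA
  have hCA0 : 0 < CA := by positivity
  set K1 : ℝ := 256 * CG * (A ^ 5 * CA + A ^ 9) with hK1
  set K2 : ℝ := 256 * CG * (A * Real.pi / 8 + A) with hK2
  have hK10 : 0 < K1 := by positivity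
  have hK20 : 0 < K2 := by positivity
  refine ⟨2 * K1 / (3 * A ^ 2 / 4) ^ 4, 1 / (2 * K2), by positivity, by positivity, ?_⟩
  intro q D hq hD h0 hqD hlap
  set τ : ℝ := 1 / (2 * K2) with hτ
  have hτ0 : 0 < τ := by positivity
  have hτK : K2 * τ = 1 / 2 := by
    rw [hτ]
    field_simp
  -- the maximum
  have hcg : Continuous (gsq q) := by
    have h1 := continuous_dx (hq.of_le (by norm_num : (1 : ℕ∞ω) ≤ 2))
    have h2 := continuous_dy (hq.of_le (by norm_num : (1 : ℕ∞ω) ≤ 2))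
    unfold gsq
    fun_prop
  have hg0 : ∀ z, 0 ≤ gsq q z := fun z => by unfold gsq; positivity
  obtain ⟨z0, hz0, hmax⟩ := (isCompact_closedBall (0 : ℂ) A).exists_isMaxOn
    (f := fun z : ℂ => (A ^ 2 - ‖z‖ ^ 2) ^ 4 * √(gsq q z)) ⟨0, mem_closedBall_self hA.le⟩
    (by fun_prop)
  set S : ℝ := (A ^ 2 - ‖z0‖ ^ 2) ^ 4 * √(gsq q z0) with hS
  have hS0 : 0 ≤ S := by positivity
  have hSmax : ∀ z ∈ closedBall (0 : ℂ) A, (A ^ 2 - ‖z‖ ^ 2) ^ 4 * √(gsq q z) ≤ S := fun z hz => hmax hz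
  have hdp : ∀ z ∈ ball (0 : ℂ) A, 0 < A ^ 2 - ‖z‖ ^ 2 := by
    intro z hz
    have := qq_lt hz
    rw [qq_eq] at this
    linarith
  -- the Laplacian
  have hl : ∀ z ∈ ball (0 : ℂ) A, |lap q z| ≤ D + τ * S * (A ^ 2 - ‖z‖ ^ 2)⁻¹ ^ 4 := by
    intro z hz
    have hd := hdp z hz
    have h1 := hlap z hz (S * (A ^ 2 - ‖z‖ ^ 2)⁻¹ ^ 4) (by positivity) (by
      intro w hw
      have hwz : ‖w‖ ≤ ‖z‖ := mem_closedBall_zero_iff.1 hw
      have hzn := mem_ball_zero_iff.1 hz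
      have hwA : w ∈ closedBall (0 : ℂ) A := mem_closedBall_zero_iff.2 (by linarith)
      have h2 := hSmax w hwA
      have h3 : ‖w‖ ^ 2 ≤ ‖z‖ ^ 2 := pow_le_pow_left₀ (norm_nonneg _) hwz 2
      have h4 : (A ^ 2 - ‖z‖ ^ 2) ^ 4 ≤ (A ^ 2 - ‖w‖ ^ 2) ^ 4 := pow_le_pow_left₀ hd.le (by linarith) 4
      have h5 : √(gsq q w) ≤ S * (A ^ 2 - ‖z‖ ^ 2)⁻¹ ^ 4 := by
        rw [inv_pow, ← div_eq_mul_inv, le_div_iff₀ (by positivity)]
        have h6 : √(gsq q w) * (A ^ 2 - ‖z‖ ^ 2) ^ 4 ≤ √(gsq q w) * (A ^ 2 - ‖w‖ ^ 2) ^ 4 :=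
          mul_le_mul_of_nonneg_left h4 (Real.sqrt_nonneg _)
        linarith
      calc gsq q w = √(gsq q w) ^ 2 := (Real.sq_sqrt (hg0 w)).symm
        _ ≤ (S * (A ^ 2 - ‖z‖ ^ 2)⁻¹ ^ 4) ^ 2 := pow_le_pow_left₀ (Real.sqrt_nonneg _) h5 2)
    linarith
  -- the bound for `S`
  have hSD : S ≤ 2 * K1 * D := by
    by_cases hz0A : z0 ∈ ball (0 : ℂ) A
    · have hn := mem_ball_zero_iff.1 hz0A
      have hn0 := norm_nonneg z0
      set ρ : ℝ := (A + ‖z0‖) / 2 with hρ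
      set r : ℝ := (A - ‖z0‖) / 2 with hr
      have hρ0 : 0 < ρ := by linarith
      have hρA : ρ < A := by linarith
      have hr0 : 0 < r := by linarith
      have hrA : r ≤ A := by linarith
      have hm := mass hq hA hD hS0 hτ0.le hρ0 hρA h0 hqD hl
      rw [← hCA] at hm
      have hAρ : r * A ≤ A ^ 2 - ρ ^ 2 := by
        have : A ^ 2 - ρ ^ 2 = r * (A + ρ) := by
          rw [hρ, hr]
          ring
        rw [this]
        exact mul_le_mul_of_nonneg_left (by linarith) hr0.le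
      have hrA0 : 0 < r * A := by positivity
      have hAz : A ^ 2 - ‖z0‖ ^ 2 ≤ 4 * (r * A) := by
        have : A ^ 2 - ‖z0‖ ^ 2 = 2 * r * (A + ‖z0‖) := by
          rw [hr]
          ring
        rw [this]
        nlinarith
      have hsubs : ball z0 r ⊆ ball (0 : ℂ) ρ := by
        intro z hz
        rw [mem_ball, dist_eq_norm] at hz
        rw [mem_ball_zero_iff]
        have : ‖z‖ ≤ ‖z - z0‖ + ‖z0‖ := by
          calc ‖z‖ = ‖(z - z0) + z0‖ := by rw [sub_add_cancel]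
            _ ≤ _ := norm_add_le _ _
        rw [hρ]
        rw [hr] at hz
        linarith
      have hI : ∫ z in ball z0 r, |q z| ≤ CA * D + τ * S * Real.pi / (8 * A ^ 3 * r) := by
        have h1 : ∫ z in ball z0 r, |q z| ≤ ∫ z in ball (0 : ℂ) ρ, |q z| := by
          apply setIntegral_mono_set
          · exact ((hq.continuous.abs.continuousOn.integrableOn_compact
              (isCompact_closedBall 0 ρ)).mono_set ball_subset_closedBall)
          · exact Filter.Eventually.of_forall fun z => abs_nonneg _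
          · exact LE.le.eventuallyLE hsubs
        have h2 : Real.pi / (A ^ 2 - ρ ^ 2) ≤ Real.pi / (r * A) :=
          div_le_div_of_nonneg_left hpi.le hrA0 hAρ
        have h3 : τ * S / (8 * A ^ 2) * (Real.pi / (A ^ 2 - ρ ^ 2)) ≤
            τ * S / (8 * A ^ 2) * (Real.pi / (r * A)) := mul_le_mul_of_nonneg_left h2 (by positivity)
        have h4 : τ * S / (8 * A ^ 2) * (Real.pi / (r * A)) = τ * S * Real.pi / (8 * A ^ 3 * r) := by
          field_simp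
        linarith
      have hMl : ∀ z ∈ ball z0 r, |lap q z| ≤ D + τ * S * (r * A)⁻¹ ^ 4 := by
        intro z hz
        have hzρ := hsubs hz
        have hzA : z ∈ ball (0 : ℂ) A := ball_subset_ball hρA.le hzρ
        have h1 := hl z hzA
        have h2 : ‖z‖ ^ 2 ≤ ρ ^ 2 := pow_le_pow_left₀ (norm_nonneg _) (mem_ball_zero_iff.1 hzρ).le 2
        have h3 : (A ^ 2 - ‖z‖ ^ 2)⁻¹ ≤ (r * A)⁻¹ := inv_anti₀ hrA0 (by linarith)
        have h4 : (A ^ 2 - ‖z‖ ^ 2)⁻¹ ^ 4 ≤ (r * A)⁻¹ ^ 4 :=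
          pow_le_pow_left₀ (inv_nonneg.2 (hdp z hzA).le) h3 4
        have h5 := mul_le_mul_of_nonneg_left h4 (by positivity : 0 ≤ τ * S)
        linarith
      have hg := hGE q z0 r (D + τ * S * (r * A)⁻¹ ^ 4) hq hr0 (by positivity) hMl
      have hI0 : 0 ≤ ∫ z in ball z0 r, |q z| := integral_nonneg fun z => abs_nonneg _
      have hg2 : √(gsq q z0) ≤ CG * ((∫ z in ball z0 r, |q z|) / r ^ 3 + r * (D + τ * S * (r * A)⁻¹ ^ 4)) := by
        apply Real.sqrt_le_iff.2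
        exact ⟨by positivity, hg⟩
      have hg3 : √(gsq q z0) ≤ CG * ((CA * D + τ * S * Real.pi / (8 * A ^ 3 * r)) / r ^ 3 +
          r * (D + τ * S * (r * A)⁻¹ ^ 4)) := by
        refine le_trans hg2 ?_
        gcongr
      have h5 : (A ^ 2 - ‖z0‖ ^ 2) ^ 4 ≤ (4 * (r * A)) ^ 4 := pow_le_pow_left₀ (hdp z0 hz0A).le hAz 4
      have h6 : S ≤ (4 * (r * A)) ^ 4 * (CG * ((CA * D + τ * S * Real.pi / (8 * A ^ 3 * r)) / r ^ 3 +
          r * (D + τ * S * (r * A)⁻¹ ^ 4))) :=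
        mul_le_mul h5 hg3 (Real.sqrt_nonneg _) (by positivity)
      have h7 : (4 * (r * A)) ^ 4 * (CG * ((CA * D + τ * S * Real.pi / (8 * A ^ 3 * r)) / r ^ 3 +
          r * (D + τ * S * (r * A)⁻¹ ^ 4))) =
          256 * CG * ((A ^ 4 * r * CA + A ^ 4 * r ^ 5) * D + (A * Real.pi / 8 + r) * (τ * S)) := by
        field_simp
        ring
      rw [h7] at h6
      have h8 : (A ^ 4 * r * CA + A ^ 4 * r ^ 5) * D ≤ (A ^ 5 * CA + A ^ 9) * D := by
        apply mul_le_mul_of_nonneg_right _ hD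
        have h9 : A ^ 4 * r * CA ≤ A ^ 4 * A * CA := by gcongr
        have h10 : A ^ 4 * r ^ 5 ≤ A ^ 4 * A ^ 5 := by gcongr
        calc A ^ 4 * r * CA + A ^ 4 * r ^ 5 ≤ A ^ 4 * A * CA + A ^ 4 * A ^ 5 := add_le_add h9 h10
          _ = A ^ 5 * CA + A ^ 9 := by ring
      have h9 : (A * Real.pi / 8 + r) * (τ * S) ≤ (A * Real.pi / 8 + A) * (τ * S) := by gcongr
      have h10 : 256 * CG * ((A ^ 4 * r * CA + A ^ 4 * r ^ 5) * D + (A * Real.pi / 8 + r) * (τ * S)) ≤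
          256 * CG * ((A ^ 5 * CA + A ^ 9) * D + (A * Real.pi / 8 + A) * (τ * S)) :=
        mul_le_mul_of_nonneg_left (add_le_add h8 h9) (by positivity)
      have h11 : 256 * CG * ((A ^ 5 * CA + A ^ 9) * D + (A * Real.pi / 8 + A) * (τ * S)) =
          K1 * D + (K2 * τ) * S := by
        rw [hK1, hK2]
        ring
      rw [hτK] at h11
      linarith
    · have hzA : ‖z0‖ = A := by
        have h1 := mem_closedBall_zero_iff.1 hz0
        have h2 : ¬ ‖z0‖ < A := fun h => hz0A (mem_ball_zero_iff.2 h)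
        linarith [not_lt.1 h2]
      have : S = 0 := by
        rw [hS, hzA]
        ring
      rw [this]
      positivity
  -- conclusion
  intro z hz
  have hzn := mem_closedBall_zero_iff.1 hz
  have hzA : z ∈ closedBall (0 : ℂ) A := mem_closedBall_zero_iff.2 (by linarith)
  have h1 := hSmax z hzA
  have h2 : ‖z‖ ^ 2 ≤ (A / 2) ^ 2 := pow_le_pow_left₀ (norm_nonneg _) hzn 2
  have h3 : (3 * A ^ 2 / 4) ^ 4 ≤ (A ^ 2 - ‖z‖ ^ 2) ^ 4 :=
    pow_le_pow_left₀ (by positivity) (by linarith [h2, (by ring : (A / 2) ^ 2 = A ^ 2 / 4)]) 4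
  have h4 : √(gsq q z) ≤ 2 * K1 / (3 * A ^ 2 / 4) ^ 4 * D := by
    rw [div_mul_eq_mul_div, le_div_iff₀ (by positivity)]
    have h5 : √(gsq q z) * (3 * A ^ 2 / 4) ^ 4 ≤ √(gsq q z) * (A ^ 2 - ‖z‖ ^ 2) ^ 4 :=
      mul_le_mul_of_nonneg_left h3 (Real.sqrt_nonneg _)
    linarith
  calc gsq q z = √(gsq q z) ^ 2 := (Real.sq_sqrt (hg0 z)).symm
    _ ≤ (2 * K1 / (3 * A ^ 2 / 4) ^ 4 * D) ^ 2 := pow_le_pow_left₀ (Real.sqrt_nonneg _) h4 2

end Pool.Agent.Helper904_Yau.PCE
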