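import Pool.Agent.Helper904_Yau.Stmts

/-!
# Piece CT: geometry at a contact point of a cone
-/

set_option autoImplicit false

open MeasureTheory Set Metric Filter Topology
open scoped ContDiff
open Pool.Agent.Helper904_QS

namespace Pool.Agent.Helper904_Yau.PCT

/-- necessary conditions at a local minimum -/
theorem second_nec (f g : ℝ → ℝ) (c : ℝ) (hmin : IsLocalMin f 0)
    (h1 : ∀ᶠ T in 𝓝 (0 : ℝ), HasDerivAt f (g T) T) (h2 : HasDerivAt g c 0) :
    g 0 = 0 ∧ 0 ≤ c := by
  have h0 : HasDerivAt f (g 0) 0 := h1.self_of_nhds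
  have hg0 : g 0 = 0 := hmin.hasDerivAt_eq_zero h0
  refine ⟨hg0, ?_⟩
  by_contra hc
  push Not at hc
  have hd : deriv f =ᶠ[𝓝 0] g := by
    filter_upwards [h1] with T hT using hT.deriv
  have hdd : deriv (deriv f) 0 = c := by
    rw [hd.deriv_eq]; exact h2.deriv
  have hmax : IsLocalMax f 0 :=
    isLocalMax_of_deriv_deriv_neg (by rw [hdd]; exact hc) (by rw [h0.deriv, hg0])
      h0.continuousAt
  have hconst : f =ᶠ[𝓝 0] fun _ => f 0 := by
    filter_upwards [hmin, hmax] with T h3 h4 using le_antisymm h4 h3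
  have hd0 : deriv f =ᶠ[𝓝 0] fun _ => 0 := by
    have := hconst.deriv
    filter_upwards [this] with T hT
    rw [hT]; simp
  have : deriv (deriv f) 0 = 0 := by
    rw [hd0.deriv_eq]; simp
  rw [hdd] at this
  linarith

theorem hasDerivAt_line (f : ℂ → ℝ) (y : ℂ) (a b T : ℝ)
    (hf : DifferentiableAt ℝ f (y + T * ((a : ℂ) + b * Complex.I))) :
    HasDerivAt (fun T : ℝ => f (y + T * ((a : ℂ) + b * Complex.I)))
      (a * dx f (y + T * ((a : ℂ) + b * Complex.I)) +
        b * dy f (y + T * ((a : ℂ) + b * Complex.I))) T := by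
  have h1 : HasDerivAt (fun T : ℝ => y + (T : ℂ) * ((a : ℂ) + b * Complex.I))
      ((a : ℂ) + b * Complex.I) T := by
    have h2 : HasDerivAt (fun T : ℝ => (T : ℂ)) 1 T := Complex.ofRealCLM.hasDerivAt
    have := (h2.mul_const ((a : ℂ) + b * Complex.I)).const_add y
    simpa using this
  have h3 := hf.hasFDerivAt.comp_hasDerivAt T h1
  have h4 : fderiv ℝ f (y + T * ((a : ℂ) + b * Complex.I)) ((a : ℂ) + b * Complex.I) =
      a * dx f (y + T * ((a : ℂ) + b * Complex.I)) +
        b * dy f (y + T * ((a : ℂ) + b * Complex.I)) := by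
    unfold dx dy
    have : ((a : ℂ) + b * Complex.I) = a • (1 : ℂ) + b • Complex.I := by simp
    rw [this, map_add, map_smul, map_smul]
    simp
  rw [h4] at h3
  exact h3

theorem t_CT : S_CT := by
  intro N x y e t ρ hN ht hρ he hy hNy hev
  -- rotated coordinates
  have hesq : e.re ^ 2 + e.im ^ 2 = 1 := by
    have := Complex.sq_norm e
    rw [he, Complex.normSq_apply] at this
    nlinarith
  have key : ∀ a b : ℝ,
      a * dx N y + b * dy N y = N y * (t * (e.re * a + e.im * b)) ∧
      a * (a * dx (dx N) y + b * dy (dx N) y) + b * (a * dx (dy N) y + b * dy (dy N) y) ≤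
        N y * (t ^ 2 * (e.re * a + e.im * b) ^ 2 + t / ρ * (-e.im * a + e.re * b) ^ 2) := by
    intro a b
    set α : ℝ := e.re * a + e.im * b with hα
    set β : ℝ := -e.im * a + e.re * b with hβ
    set q : ℝ → ℝ := fun T => (ρ + T * α) ^ 2 + (T * β) ^ 2 with hq
    have hnorm : ∀ T : ℝ, ‖y + T * ((a : ℂ) + b * Complex.I) - x‖ = √(q T) := by
      intro T
      rw [Complex.norm_def, Complex.normSq_apply, hy]
      congr 1
      simp only [hq, hα, hβ]
      simp
      linear_combination (ρ ^ 2 - T ^ 2 * (a ^ 2 + b ^ 2)) * hesq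
    -- derivative of q and of its root
    have hq' : ∀ T, HasDerivAt q (2 * ((ρ + T * α) * α + T * β ^ 2)) T := by
      intro T
      have h1 : HasDerivAt (fun T : ℝ => ρ + T * α) α T := by
        simpa using ((hasDerivAt_id T).mul_const α).const_add ρ
      have h2 : HasDerivAt (fun T : ℝ => T * β) β T := by
        simpa using (hasDerivAt_id T).mul_const β
      have := (h1.pow 2).add (h2.pow 2)
      refine this.congr_deriv ?_
      ring
    have hq0 : q 0 = ρ ^ 2 := by simp [hq]
    have hqc : Continuous q := by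
      simp only [hq]; fun_prop
    have hqpos : ∀ᶠ T in 𝓝 (0 : ℝ), 0 < q T := by
      apply hqc.continuousAt.eventually_const_lt
      rw [hq0]; positivity
    set n : ℝ → ℝ := fun T => √(q T) with hn
    have hn0 : n 0 = ρ := by
      simp only [hn, hq0]; exact Real.sqrt_sq hρ.le
    have hn' : ∀ T, 0 < q T → HasDerivAt n (((ρ + T * α) * α + T * β ^ 2) / n T) T := by
      intro T hT
      have := (hq' T).sqrt hT.ne'
      refine this.congr_deriv ?_
      simp only [hn]
      have : √(q T) ≠ 0 := (Real.sqrt_pos.2 hT).ne'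
      field_simp
    -- the upper function
    set ψ : ℝ → ℝ := fun T => N y * Real.exp (t * (n T - ρ)) with hψ
    have hψ' : ∀ T, 0 < q T → HasDerivAt ψ
        (ψ T * (t * (((ρ + T * α) * α + T * β ^ 2) / n T))) T := by
      intro T hT
      have := ((((hn' T hT).sub_const ρ).const_mul t).exp).const_mul (N y)
      refine this.congr_deriv ?_
      simp only [hψ]
      ring
    -- the lower function
    set φ : ℝ → ℝ := fun T => N (y + T * ((a : ℂ) + b * Complex.I)) with hφ
    have hNd : Differentiable ℝ N := hN.differentiable (by norm_num)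
    have hφ' : ∀ T : ℝ, HasDerivAt φ (a * dx N (y + T * ((a : ℂ) + b * Complex.I)) +
        b * dy N (y + T * ((a : ℂ) + b * Complex.I))) T := fun T =>
      hasDerivAt_line N y a b T (hNd _)
    have hφ0 : φ 0 = N y := by simp [hφ]
    have hψ0 : ψ 0 = N y := by simp [hψ, hn0]
    have hcont : Tendsto (fun T : ℝ => y + T * ((a : ℂ) + b * Complex.I)) (𝓝 0) (𝓝 y) := by
      have : Continuous (fun T : ℝ => y + T * ((a : ℂ) + b * Complex.I)) := by fun_prop
      have h := this.tendsto 0
      simpa using h
    have hmin : IsLocalMin (fun T => ψ T - φ T) 0 := by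
      have h1 := hcont.eventually hev
      unfold IsLocalMin IsMinFilter
      filter_upwards [h1] with T hT
      rw [hφ0, hψ0, sub_self]
      rw [hnorm T] at hT
      simp only [hψ, hφ, hn]
      linarith
    have h1 : ∀ᶠ T in 𝓝 (0 : ℝ), HasDerivAt (fun T => ψ T - φ T)
        (ψ T * (t * (((ρ + T * α) * α + T * β ^ 2) / n T)) -
          (a * dx N (y + T * ((a : ℂ) + b * Complex.I)) +
            b * dy N (y + T * ((a : ℂ) + b * Complex.I)))) T := by
      filter_upwards [hqpos] with T hT using (hψ' T hT).sub (hφ' T)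
    have hdxN : Differentiable ℝ (dx N) := (contDiff_dx1 hN).differentiable (by norm_num)
    have hdyN : Differentiable ℝ (dy N) := (contDiff_dy1 hN).differentiable (by norm_num)
    have h2 : HasDerivAt (fun T => ψ T * (t * (((ρ + T * α) * α + T * β ^ 2) / n T)) -
          (a * dx N (y + T * ((a : ℂ) + b * Complex.I)) +
            b * dy N (y + T * ((a : ℂ) + b * Complex.I))))
        (N y * (t ^ 2 * α ^ 2 + t / ρ * β ^ 2) -
          (a * (a * dx (dx N) y + b * dy (dx N) y) + b * (a * dx (dy N) y + b * dy (dy N) y)))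
        0 := by
      have hq00 : 0 < q 0 := by rw [hq0]; positivity
      have e1 : HasDerivAt (fun T : ℝ => (ρ + T * α) * α + T * β ^ 2) (α * α + β ^ 2) 0 := by
        have h1 : HasDerivAt (fun T : ℝ => ρ + T * α) α 0 := by
          simpa using ((hasDerivAt_id (0 : ℝ)).mul_const α).const_add ρ
        have h2 : HasDerivAt (fun T : ℝ => T * β ^ 2) (β ^ 2) 0 := by
          simpa using (hasDerivAt_id (0 : ℝ)).mul_const (β ^ 2)
        exact (h1.mul_const α).add h2
      have e2 := e1.div (hn' 0 hq00) (by rw [hn0]; exact hρ.ne')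
      have e3 := (hψ' 0 hq00).mul (e2.const_mul t)
      have e4 := ((hasDerivAt_line (dx N) y a b 0 (hdxN _)).const_mul a).add
        ((hasDerivAt_line (dy N) y a b 0 (hdyN _)).const_mul b)
      have e5 := e3.sub e4
      refine e5.congr_deriv ?_
      simp only [Pi.div_apply]
      rw [hn0, hψ0]
      simp
      field_simp
      ring
    have h3 := second_nec _ _ _ hmin h1 h2
    constructor
    · have := h3.1
      simp only [hn0, hψ0] at this
      simp at this
      have h5 : ρ * α / ρ = α := by field_simp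
      rw [h5] at this
      linarith
    · linarith [h3.2]
  have k1 := (key 1 0).1
  have k2 := (key 0 1).1
  refine ⟨by linarith, by linarith, ?_⟩
  intro a b
  have k3 := (key a b).2
  rw [dx_dy hN y]
  rw [dx_dy hN y] at k3
  nlinarith [k3]

end Pool.Agent.Helper904_Yau.PCT
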