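import Pool.Agent.Helper904_Yau.Stmts

/-!
# MP_c7f82c_an, piece DBL: doubling index and slope.
-/

set_option autoImplicit false

open MeasureTheory Set Metric Filter Topology
open scoped ContDiff
open Pool.Agent.Helper904_QS

namespace Pool.Agent.Helper904_Yau.PDBL

open Pool.Agent.Helper904_Yau

/-- the volume of a disc -/
theorem vol_ball (z : ℂ) {s : ℝ} (hs : 0 ≤ s) : volume.real (ball z s) = Real.pi * s ^ 2 := by
  rw [measureReal_def, Complex.volume_ball]
  simp only [ENNReal.toReal_mul, ENNReal.toReal_pow]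
  rw [ENNReal.toReal_ofReal hs]
  have : (NNReal.pi : ℝ) = Real.pi := rfl
  simp only [ENNReal.coe_toReal, this]
  ring

/-- the integral of a bounded function over a disc -/
theorem int_le {f : ℂ → ℝ} (hf : Continuous f) (z : ℂ) {s S : ℝ} (hs : 0 ≤ s)
    (h : ∀ w ∈ ball z s, |f w| ≤ S) : ∫ w in ball z s, |f w| ≤ Real.pi * s ^ 2 * S := by
  have hint : IntegrableOn (fun w => |f w|) (ball z s) :=
    (hf.abs.continuousOn.integrableOn_compact (isCompact_closedBall z s)).mono_set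
      ball_subset_closedBall
  have h2 : ∫ w in ball z s, |f w| ≤ ∫ _w in ball z s, S :=
    setIntegral_mono_on hint (integrableOn_const measure_ball_lt_top.ne) measurableSet_ball h
  rw [setIntegral_const, smul_eq_mul, vol_ball z hs] at h2
  exact h2

/-- the gradient at `z` of a solution bounded by `S` on `ball z ρ` -/
theorem grad_le {C m Λ k : ℝ} (hC : 0 < C) (hm : 0 < m)
    (hGE : ∀ (f : ℂ → ℝ) (y : ℂ) (r M : ℝ), ContDiff ℝ 2 f → 0 < r →
      0 ≤ M → (∀ z ∈ ball y r, |lap f z| ≤ M) →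
      gsq f y ≤ (C * ((∫ z in ball y r, |f z|) / r ^ 3 + r * M)) ^ 2)
    {u σ : ℂ → ℝ} {U : Set ℂ} (hS : Sol m Λ k U u σ) {z : ℂ} {ρ S : ℝ} (hρ : 0 < ρ) (hS0 : 0 ≤ S)
    (hsub : ball z ρ ⊆ U) (hb : ∀ w ∈ ball z ρ, |u w| ≤ S) :
    gsq u z ≤ (C * S * (Real.pi / ρ + ρ * (k ^ 2 * Λ ^ 2))) ^ 2 := by
  have hu2 : ContDiff ℝ 2 u := hS.hu.of_le (by norm_num)
  have h1 := hGE u z ρ (k ^ 2 * Λ ^ 2 * S) hu2 hρ (by positivity) (by
    intro w hw
    rw [hS.eq w (hsub hw), abs_neg, abs_mul, abs_mul, abs_of_nonneg (sq_nonneg k),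
      abs_of_nonneg (sq_nonneg (σ w))]
    have h2 : σ w ^ 2 ≤ Λ ^ 2 :=
      pow_le_pow_left₀ (hm.le.trans (hS.low w (hsub hw))) (hS.up w (hsub hw)) 2
    exact mul_le_mul (mul_le_mul_of_nonneg_left h2 (sq_nonneg k)) (hb w hw) (abs_nonneg _)
      (by positivity))
  refine h1.trans ?_
  have h3 := int_le hS.hu.continuous z hρ.le hb
  have h4 : 0 ≤ ∫ w in ball z ρ, |u w| := integral_nonneg fun _ => abs_nonneg _
  apply pow_le_pow_left₀ (by positivity)
  have e : C * S * (Real.pi / ρ + ρ * (k ^ 2 * Λ ^ 2)) =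
      C * (Real.pi * ρ ^ 2 * S / ρ ^ 3 + ρ * (k ^ 2 * Λ ^ 2 * S)) := by
    field_simp
  rw [e]
  gcongr

theorem t_DBL (hG : S_GE) : S_DBL := by
  obtain ⟨C, hC, hGE⟩ := hG
  intro m Λ c' C' C₀ hm hmΛ hc' hcC hC₀
  have hΛ : 0 < Λ := lt_of_lt_of_le hm hmΛ
  have hC' : 0 < C' := lt_of_lt_of_le hc' hcC
  refine ⟨(C * (2 * Real.pi / (c' * C₀) + c' * C₀ * Λ ^ 2 / 2) + Λ) / m, by positivity, ?_⟩
  set B : ℝ := (C * (2 * Real.pi / (c' * C₀) + c' * C₀ * Λ ^ 2 / 2) + Λ) / m with hB
  have hB0 : 0 < B := by positivity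
  intro k r s S p z u σ hk hr hkr hs hCr hSol hp hz hzU hb w hw
  have hS0 : 0 ≤ S := (abs_nonneg _).trans (hb p (mem_ball_self (by positivity)))
  rw [mem_ball, dist_zero_right] at hp
  rw [mem_ball, dist_eq_norm] at hz hw
  have hcr : c' * r ≤ C' * r := mul_le_mul_of_nonneg_right hcC hr.le
  set ρ : ℝ := c' * r / 2 with hρ
  have hρ0 : 0 < ρ := by positivity
  have hsub1 : ball z ρ ⊆ ball p (c' * r) := by
    intro v hv
    rw [mem_ball, dist_eq_norm] at hv ⊢
    have e : v - p = (v - z) + (z - p) := by ring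
    rw [e]
    refine (norm_add_le _ _).trans_lt ?_
    have e2 : c' * r = ρ + ρ := by rw [hρ]; ring
    linarith
  have hsub2 : ball p (c' * r) ⊆ ball (0 : ℂ) (7 / 4) := by
    intro v hv
    rw [mem_ball, dist_eq_norm] at hv
    rw [mem_ball, dist_zero_right]
    have := norm_le_norm_add_norm_sub' v p
    linarith
  have hzp : z ∈ ball p (c' * r) := by
    rw [mem_ball, dist_eq_norm]
    have : ρ ≤ c' * r := by rw [hρ]; linarith [show 0 < c' * r by positivity]
    linarith
  have hwU : w ∈ ball (0 : ℂ) (7 / 4) := by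
    rw [mem_ball, dist_zero_right]
    have := norm_le_norm_add_norm_sub' w p
    linarith
  have hw32 : w ∈ closedBall (0 : ℂ) (3 / 2) := by
    rw [mem_closedBall, dist_zero_right]
    have := norm_le_norm_add_norm_sub' w p
    linarith
  have hg := grad_le hC hm hGE hSol hρ0 hS0 (hsub1.trans hsub2) (fun v hv => hb v (hsub1 hv))
  set G : ℝ := C * S * (Real.pi / ρ + ρ * (k ^ 2 * Λ ^ 2)) with hGdef
  have hG0 : 0 ≤ G := by positivity
  have hNz : NN u σ k z ≤ (G + k * Λ * S) ^ 2 := by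
    unfold NN
    have h1 : (k * σ z * u z) ^ 2 ≤ (k * Λ * S) ^ 2 := by
      rw [← sq_abs]
      apply pow_le_pow_left₀ (abs_nonneg _)
      have hσ0 : 0 ≤ σ z := hm.le.trans (hSol.low z (hsub2 hzp))
      rw [abs_mul, abs_mul, abs_of_pos hk, abs_of_nonneg hσ0]
      exact mul_le_mul (mul_le_mul_of_nonneg_left (hSol.up z (hsub2 hzp)) hk.le) (hb z hzp)
        (abs_nonneg _) (by positivity)
    have h2 : 0 ≤ G * (k * Λ * S) := by positivity
    nlinarith
  have hNw : NN u σ k w ≤ NN u σ k z * Real.exp (s * ‖w - z‖) := by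
    by_contra hcon
    push Not at hcon
    exact hzU ⟨w, hw32, hcon⟩
  have hwz : ‖w - z‖ ≤ 2 * (C' * r) := by
    have e : w - z = (w - p) - (z - p) := by ring
    rw [e]
    refine (norm_sub_le _ _).trans ?_
    have : ρ ≤ C' * r := by rw [hρ]; linarith [show 0 < c' * r by positivity]
    linarith
  have hkey : (k * σ w * u w) ^ 2 ≤ ((G + k * Λ * S) * Real.exp (C' * r * s)) ^ 2 := by
    calc (k * σ w * u w) ^ 2 ≤ NN u σ k w := by
          unfold NN gsq
          nlinarith [sq_nonneg (dx u w), sq_nonneg (dy u w)]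
      _ ≤ NN u σ k z * Real.exp (s * ‖w - z‖) := hNw
      _ ≤ (G + k * Λ * S) ^ 2 * Real.exp (2 * (C' * r * s)) := by
          apply mul_le_mul hNz _ (Real.exp_pos _).le (by positivity)
          apply Real.exp_le_exp.mpr
          nlinarith [mul_le_mul_of_nonneg_left hwz hs]
      _ = ((G + k * Λ * S) * Real.exp (C' * r * s)) ^ 2 := by
          rw [mul_pow, ← Real.exp_nat_mul]
          push_cast
          ring_nf
  have h5 := abs_le_of_sq_le_sq hkey (by positivity)
  rw [abs_mul, abs_mul, abs_of_pos hk, abs_of_pos (hm.trans_le (hSol.low w hwU))] at h5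
  have h6 : k * m * |u w| ≤ (G + k * Λ * S) * Real.exp (C' * r * s) := by
    refine le_trans ?_ h5
    exact mul_le_mul_of_nonneg_right (mul_le_mul_of_nonneg_left (hSol.low w hwU) hk.le)
      (abs_nonneg _)
  have hkr' : r = C₀ / k := by rw [← hkr]; field_simp
  have h7 : G + k * Λ * S = k * m * (B * S) := by
    rw [hGdef, hB, hρ, hkr']
    field_simp
  rw [h7] at h6
  have h8 : |u w| ≤ B * S * Real.exp (C' * r * s) := by
    have hkm : 0 < k * m := by positivity
    have : k * m * |u w| ≤ k * m * (B * S * Real.exp (C' * r * s)) := by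
      refine h6.trans (le_of_eq (by ring))
    exact le_of_mul_le_mul_left this hkm
  refine h8.trans ?_
  rw [Real.exp_add]
  have h9 : B ≤ Real.exp B := by linarith [Real.add_one_le_exp B]
  calc B * S * Real.exp (C' * r * s) = B * Real.exp (C' * r * s) * S := by ring
    _ ≤ Real.exp B * Real.exp (C' * r * s) * S := by gcongr

end Pool.Agent.Helper904_Yau.PDBL
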