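import Pool.Agent.Helper904_Yau.StmtsABP

/-!
FIB: the integral over a fibre.
-/

set_option autoImplicit false

open MeasureTheory Set Metric Filter Topology
open scoped ContDiff
open Pool.Agent.Helper904_QS

namespace Pool.Agent.Helper904_Yau.PFIB

/-- the algebra -/
theorem alg {lam mu nu δ τ : ℝ} (hτ : 0 < τ)
    (h : ∀ α β : ℝ, -lam * α ^ 2 + 2 * nu * (α * β) + mu * β ^ 2 ≤ 1 / τ * β ^ 2)
    (htr : -(2 * δ / τ) ≤ -lam + mu) :
    0 ≤ lam - τ * (lam * mu + nu ^ 2) ∧
      lam * τ - τ ^ 2 * (lam * mu + nu ^ 2) / 2 ≤ (1 + δ) ^ 2 / 2 := by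
  have h1 : 0 ≤ lam := by have := h 1 0; norm_num at this; linarith
  have h2 : mu ≤ 1 / τ := by have := h 0 1; norm_num at this; simpa using this
  have h3 : nu ^ 2 ≤ lam * (1 / τ - mu) := by
    rcases h1.eq_or_lt with h0 | h0
    · have ha := h (1 / τ - mu + 1) nu
      rw [← h0] at ha ⊢
      nlinarith [sq_nonneg nu]
    · have ha := h nu lam
      have e : -lam * nu ^ 2 + 2 * nu * (nu * lam) + mu * lam ^ 2 - 1 / τ * lam ^ 2 =
        lam * (nu ^ 2 - lam * (1 / τ - mu)) := by ring
      have hb : lam * (nu ^ 2 - lam * (1 / τ - mu)) ≤ 0 := by rw [← e]; linarith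
      by_contra hc
      rw [not_le] at hc
      have : 0 < lam * (nu ^ 2 - lam * (1 / τ - mu)) := mul_pos h0 (by linarith)
      linarith
  have h4 : τ * nu ^ 2 ≤ lam * (1 - τ * mu) := by
    have := mul_le_mul_of_nonneg_left h3 hτ.le
    have e : τ * (lam * (1 / τ - mu)) = lam * (1 - τ * mu) := by field_simp
    rwa [e] at this
  refine ⟨by nlinarith, ?_⟩
  have hX : τ * mu ≤ 1 := by
    have := mul_le_mul_of_nonneg_left h2 hτ.le
    rwa [mul_one_div_cancel hτ.ne'] at this
  have hY : τ * lam ≤ τ * mu + 2 * δ := by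
    have := mul_le_mul_of_nonneg_left htr hτ.le
    have e : τ * -(2 * δ / τ) = -(2 * δ) := by field_simp
    rw [e] at this
    linarith
  have hY0 : 0 ≤ τ * lam := by positivity
  set X := τ * mu
  set Y := τ * lam
  have e1 : τ ^ 2 * (lam * mu + nu ^ 2) = X * Y + τ ^ 2 * nu ^ 2 := by ring
  have h5 : lam * τ - τ ^ 2 * (lam * mu + nu ^ 2) / 2 ≤ Y * (1 - X / 2) := by
    rw [e1]
    have : lam * τ = Y := by ring
    rw [this]
    nlinarith [sq_nonneg (τ * nu)]
  have h6 : Y * (1 - X / 2) ≤ (X + 2 * δ) * (1 - X / 2) :=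
    mul_le_mul_of_nonneg_right hY (by linarith)
  nlinarith [sq_nonneg (X - 1 + δ)]

theorem t_FIB : S_FIB := by
  intro N y e t δ E ht hδ hδ1 he hg hpos hdown hE
  have he2 : e.re ^ 2 + e.im ^ 2 = 1 := by
    have := Complex.sq_norm e
    rw [he, Complex.normSq_apply] at this
    nlinarith
  set A := h11 N y with hA
  set B := h12 N y with hB
  set C := h22 N y with hC
  set lam := -(A * e.re ^ 2 + 2 * B * (e.re * e.im) + C * e.im ^ 2) with hlam
  set mu := A * e.im ^ 2 - 2 * B * (e.re * e.im) + C * e.re ^ 2 with hmu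
  set nu := -A * (e.re * e.im) + B * (e.re ^ 2 - e.im ^ 2) + C * (e.re * e.im) with hnu
  set K := lam * mu + nu ^ 2 with hK
  have hJ : ∀ τ : ℝ, Jd N y τ = -(t ^ 2 * (lam - τ * K)) := by
    intro τ
    have hre : (gv N y).re = t * e.re := by rw [hg]; simp
    have him : (gv N y).im = t * e.im := by rw [hg]; simp
    have hn : ‖gv N y‖ ^ 2 = t ^ 2 := by
      rw [Complex.sq_norm, Complex.normSq_apply, hre, him]
      have : t * e.re * (t * e.re) + t * e.im * (t * e.im) = t ^ 2 * (e.re ^ 2 + e.im ^ 2) := by ring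
      rw [this, he2, mul_one]
    have hK2 : K = -(A * C - B ^ 2) := by
      have : K = -((A * C - B ^ 2) * (e.re ^ 2 + e.im ^ 2) ^ 2) := by
        rw [hK, hlam, hmu, hnu]; ring
      rw [this, he2]; ring
    unfold Jd
    rw [hn, hre, him, hK2, hlam]
    ring
  have hmain : ∀ τ ∈ E, 0 ≤ lam - τ * K ∧ lam * τ - τ ^ 2 * K / 2 ≤ (1 + δ) ^ 2 / 2 := by
    intro τ hτ
    obtain ⟨h1, h2⟩ := hE τ hτ
    refine alg (hpos τ hτ) (fun α β => ?_) ?_
    · have h3 := h1 (α * e.re - β * e.im) (α * e.im + β * e.re)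
      have e1 : -e.im * (α * e.re - β * e.im) + e.re * (α * e.im + β * e.re) =
        β * (e.re ^ 2 + e.im ^ 2) := by ring
      rw [e1, he2, mul_one] at h3
      refine le_trans (le_of_eq ?_) h3
      rw [hlam, hmu, hnu]; ring
    · have e2 : -lam + mu = (A + C) * (e.re ^ 2 + e.im ^ 2) := by rw [hlam, hmu]; ring
      rw [e2, he2, mul_one]
      exact h2
  have habs : ∀ τ : ℝ, 0 ≤ lam - τ * K → |Jd N y τ| = t ^ 2 * (lam - τ * K) := by
    intro τ h
    rw [hJ, abs_neg, abs_of_nonneg (mul_nonneg (sq_nonneg t) h)]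
  by_cases hbd : BddAbove E
  · by_cases hne : E.Nonempty
    · set S := sSup E with hS
      obtain ⟨τ0, hτ0⟩ := hne
      have hS0 : 0 < S := (hpos τ0 hτ0).trans_le (le_csSup hbd hτ0)
      have hin : Ioo 0 S ⊆ E := by
        intro τ hτ
        obtain ⟨τ', h1, h2⟩ := exists_lt_of_lt_csSup ⟨τ0, hτ0⟩ hτ.2
        exact hdown τ' h1 τ hτ.1 h2.le
      have hcl1 : Icc 0 S ⊆ {τ : ℝ | 0 ≤ lam - τ * K} := by
        rw [← closure_Ioo hS0.ne]
        refine (IsClosed.closure_subset_iff ?_).2 fun τ hτ => (hmain τ (hin hτ)).1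
        exact isClosed_le continuous_const (by fun_prop)
      have hcl2 : Icc 0 S ⊆ {τ : ℝ | lam * τ - τ ^ 2 * K / 2 ≤ (1 + δ) ^ 2 / 2} := by
        rw [← closure_Ioo hS0.ne]
        refine (IsClosed.closure_subset_iff ?_).2 fun τ hτ => (hmain τ (hin hτ)).2
        exact isClosed_le (by fun_prop) continuous_const
      have hsub : E ⊆ Ioc 0 S := fun τ hτ => ⟨hpos τ hτ, le_csSup hbd hτ⟩
      calc ∫⁻ τ in E, ENNReal.ofReal |Jd N y τ|
          ≤ ∫⁻ τ in Ioc 0 S, ENNReal.ofReal |Jd N y τ| := lintegral_mono_set hsub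
        _ = ∫⁻ τ in Ioc 0 S, ENNReal.ofReal (t ^ 2 * (lam - τ * K)) := by
            refine setLIntegral_congr_fun measurableSet_Ioc fun τ hτ => ?_
            rw [habs τ (hcl1 ⟨hτ.1.le, hτ.2⟩)]
        _ = ENNReal.ofReal (∫ τ in Ioc 0 S, t ^ 2 * (lam - τ * K)) := by
            rw [ofReal_integral_eq_lintegral_ofReal]
            · have : Continuous fun τ : ℝ => t ^ 2 * (lam - τ * K) := by fun_prop
              exact (this.integrableOn_Icc (a := 0) (b := S)).mono_set Ioc_subset_Icc_self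
            · refine (ae_restrict_iff' measurableSet_Ioc).2 (Eventually.of_forall fun τ hτ => ?_)
              exact mul_nonneg (sq_nonneg t) (hcl1 ⟨hτ.1.le, hτ.2⟩)
        _ ≤ ENNReal.ofReal ((1 + δ) ^ 2 / 2 * t ^ 2) := by
            apply ENNReal.ofReal_le_ofReal
            rw [← intervalIntegral.integral_of_le hS0.le]
            have hint : ∫ τ in (0 : ℝ)..S, t ^ 2 * (lam - τ * K) = t ^ 2 * (lam * S - S ^ 2 * K / 2) := by
              rw [intervalIntegral.integral_const_mul, intervalIntegral.integral_sub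
                intervalIntegrable_const (by
                  apply Continuous.intervalIntegrable; fun_prop),
                intervalIntegral.integral_const, intervalIntegral.integral_mul_const, integral_id,
                smul_eq_mul]
              ring
            rw [hint]
            have h := hcl2 ⟨hS0.le, le_refl S⟩
            rw [mem_ofPred_eq] at h
            nlinarith [mul_le_mul_of_nonneg_left h (sq_nonneg t)]
    · rw [not_nonempty_iff_eq_empty] at hne
      rw [hne]; simp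
  · -- unbounded: everything vanishes
    have hall : ∀ τ : ℝ, 0 < τ → τ ∈ E := by
      intro τ hτ
      rw [not_bddAbove_iff] at hbd
      obtain ⟨τ', h1, h2⟩ := hbd τ
      exact hdown τ' h1 τ hτ h2.le
    have h1 : ∀ τ : ℝ, 0 < τ → 0 ≤ lam - τ * K := fun τ hτ => (hmain τ (hall τ hτ)).1
    have h2 : ∀ τ : ℝ, 0 < τ → lam * τ - τ ^ 2 * K / 2 ≤ (1 + δ) ^ 2 / 2 := fun τ hτ =>
      (hmain τ (hall τ hτ)).2
    set c := (1 + δ) ^ 2 / 2 with hc
    have hc0 : 0 < c := by positivity
    have hK0 : K ≤ 0 := by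
      by_contra hcon
      rw [not_le] at hcon
      have h3 := h1 ((|lam| + 1) / K) (by positivity)
      rw [div_mul_cancel₀ _ hcon.ne'] at h3
      have := le_abs_self lam
      linarith
    have hl0 : 0 ≤ lam := by
      by_contra hcon
      rw [not_le] at hcon
      have hd : 0 < 2 * (1 - K) := by linarith
      have h3 := h1 (-lam / (2 * (1 - K))) (div_pos (by linarith) hd)
      have h4 : -lam / (2 * (1 - K)) * (-K) ≤ -lam / 2 := by
        rw [div_mul_eq_mul_div, div_le_div_iff₀ hd two_pos]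
        nlinarith
      linarith
    have hl1 : lam ≤ 0 := by
      by_contra hcon
      rw [not_le] at hcon
      have hp : 0 < (c + 1) / lam := by positivity
      have h3 := h2 _ hp
      rw [mul_div_cancel₀ _ hcon.ne'] at h3
      nlinarith [mul_nonneg (sq_nonneg ((c + 1) / lam)) (neg_nonneg.2 hK0)]
    have hl : lam = 0 := le_antisymm hl1 hl0
    have hK1 : 0 ≤ K := by
      by_contra hcon
      rw [not_le] at hcon
      have hq : 0 < 2 * (c + 1) / (-K) := div_pos (by linarith) (by linarith)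
      have hp : 0 < 1 + 2 * (c + 1) / (-K) := by linarith
      have h3 := h2 _ hp
      rw [hl] at h3
      have h4 : (-K) * (2 * (c + 1) / (-K)) = 2 * (c + 1) := by
        rw [mul_div_cancel₀ _ (by linarith : (-K) ≠ 0)]
      nlinarith [mul_pos (neg_pos.2 hcon) (mul_pos hq hq)]
    have hK2 : K = 0 := le_antisymm hK0 hK1
    have hz : ∀ τ : ℝ, ENNReal.ofReal |Jd N y τ| = 0 := by
      intro τ
      rw [hJ, hl, hK2]; simp
    simp only [hz]
    simp

end Pool.Agent.Helper904_Yau.PFIB
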