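import Pool.Agent.Helper904_Yau.StmtsM
import Pool.Agent.Helper904_QSG.HM

/-!
# GEO: the isothermal discs are uniformly comparable with geodesic discs (from LIP)
-/

set_option autoImplicit false

open MeasureTheory Set Metric Filter Topology Bundle
open scoped ContDiff Manifold
open Pool.Agent.Helper904_QS
open Pool.Agent.Helper904_QSG (IsoPar IsEigenfunction S_LIP)

namespace Pool.Agent.Helper904_Yau.PGEO

theorem t_GEO (hLIP : S_LIP) : S_GEO := by
  intro E _ _ b M _ _ _ _ _ _ _ ι _ e ψ σ hP hcov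
  -- local statement
  have hloc : ∀ x₀ : M, ∃ (V : Set M) (i : ι) (B : ℝ), V ∈ 𝓝 x₀ ∧ 1 ≤ B ∧
      ∀ B' : ℝ, B ≤ B' → ∀ x ∈ V, ∃ p ∈ ball (0 : ℂ) (1 / 2), ψ i p = x ∧
        ∀ r ∈ Ioc (0 : ℝ) B'⁻¹, (∀ z ∈ ball p (B'⁻¹ * r), ψ i z ∈ ball x r) ∧
          ∀ y ∈ ball x (2 * r), ∃ z ∈ ball p (2 * B' * r), ψ i z = y := by
    intro x₀
    obtain ⟨i, p₀, hp₀, hx₀⟩ := hcov x₀
    have hp2 : p₀ ∈ ball (0 : ℂ) 2 := ball_subset_ball (by norm_num) hp₀
    have hF : ContDiffAt ℝ 1 (fun z => e i (ψ i z)) p₀ :=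
      ((hP i).sm.contDiffAt (isOpen_ball.mem_nhds hp2)).of_le (by norm_num)
    obtain ⟨K₁, s₁, hs₁, hK₁⟩ := Helper904_QSG.PHM.local_antilip _ p₀ hF ((hP i).imm p₀ hp2)
    obtain ⟨K₂, s₂, hs₂, hK₂⟩ := hF.exists_lipschitzOnWith
    obtain ⟨C, U, hU, hUs, hl1, hl2⟩ := hLIP E b M (e i) (hP i).chart (ψ i p₀) ((hP i).src p₀ hp2)
    have hψ : ContinuousAt (ψ i) p₀ := (hP i).cont.continuousAt (isOpen_ball.mem_nhds hp2)
    have hW : s₁ ∩ s₂ ∩ (ψ i) ⁻¹' U ∩ ball (0 : ℂ) (1 / 2) ∈ 𝓝 p₀ :=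
      inter_mem (inter_mem (inter_mem hs₁ hs₂) (hψ.preimage_mem_nhds hU))
        (isOpen_ball.mem_nhds hp₀)
    obtain ⟨δ₀, hδ₀, hball⟩ := Metric.mem_nhds_iff.1 hW
    set δ : ℝ := δ₀ / 2 with hδdef
    have hδ : 0 < δ := by positivity
    have hWb : ball p₀ (2 * δ) ⊆ s₁ ∩ s₂ ∩ (ψ i) ⁻¹' U ∩ ball (0 : ℂ) (1 / 2) := by
      have : 2 * δ = δ₀ := by rw [hδdef]; ring
      rw [this]; exact hball
    -- the bounds
    have hup : ∀ a ∈ ball p₀ (2 * δ), ∀ c ∈ ball p₀ (2 * δ),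
        dist (ψ i a) (ψ i c) ≤ (C * K₂ : NNReal) * dist a c := by
      intro a ha c hc
      have h1 : edist (ψ i a) (ψ i c) ≤ (C * K₂ : NNReal) * edist a c := by
        calc edist (ψ i a) (ψ i c) ≤ C * edist (e i (ψ i a)) (e i (ψ i c)) :=
              hl2 _ (hWb ha).1.2 _ (hWb hc).1.2
          _ ≤ C * (K₂ * edist a c) := by
              gcongr
              exact hK₂ (hWb ha).1.1.2 (hWb hc).1.1.2
          _ = _ := by push_cast; ring
      rw [edist_dist, edist_dist, ← ENNReal.ofReal_coe_nnreal, ← ENNReal.ofReal_mul (by positivity)]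
        at h1
      exact (ENNReal.ofReal_le_ofReal_iff (by positivity)).1 h1
    have hlow : ∀ a ∈ ball p₀ (2 * δ), ∀ c ∈ ball p₀ (2 * δ),
        dist a c ≤ (K₁ * C : NNReal) * dist (ψ i a) (ψ i c) := by
      intro a ha c hc
      have h1 : edist a c ≤ (K₁ * C : NNReal) * edist (ψ i a) (ψ i c) := by
        calc edist a c ≤ K₁ * edist (e i (ψ i a)) (e i (ψ i c)) :=
              hK₁ _ (hWb ha).1.1.1 _ (hWb hc).1.1.1
          _ ≤ K₁ * (C * edist (ψ i a) (ψ i c)) := by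
              gcongr
              exact hl1 _ (hWb ha).1.2 _ (hWb hc).1.2
          _ = _ := by push_cast; ring
      rw [edist_dist, edist_dist, ← ENNReal.ofReal_coe_nnreal, ← ENNReal.ofReal_mul (by positivity)]
        at h1
      exact (ENNReal.ofReal_le_ofReal_iff (by positivity)).1 h1
    -- the open sets
    have hsub2 : ball p₀ (2 * δ) ⊆ ball (0 : ℂ) 2 := fun z hz =>
      ball_subset_ball (by norm_num) (hWb hz).2
    have hO : IsOpen (ψ i '' ball p₀ (2 * δ)) := (hP i).opn _ hsub2 isOpen_ball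
    have hO' : IsOpen (ψ i '' ball p₀ δ) :=
      (hP i).opn _ ((ball_subset_ball (by linarith)).trans hsub2) isOpen_ball
    have hxO : x₀ ∈ ψ i '' ball p₀ (2 * δ) := ⟨p₀, mem_ball_self (by positivity), hx₀⟩
    have hxO' : x₀ ∈ ψ i '' ball p₀ δ := ⟨p₀, mem_ball_self hδ, hx₀⟩
    obtain ⟨ε, hε, hεb⟩ := Metric.mem_nhds_iff.1 (hO.mem_nhds hxO)
    set B : ℝ := 1 + (C * K₂ : NNReal) + (K₁ * C : NNReal) + δ⁻¹ + 4 / ε with hB
    have hB1 : 1 ≤ B := by
      have : (0 : ℝ) ≤ (C * K₂ : NNReal) := NNReal.coe_nonneg _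
      have : (0 : ℝ) ≤ (K₁ * C : NNReal) := NNReal.coe_nonneg _
      have : (0 : ℝ) ≤ δ⁻¹ + 4 / ε := by positivity
      linarith
    refine ⟨ψ i '' ball p₀ δ ∩ ball x₀ (ε / 2), i, B,
      inter_mem (hO'.mem_nhds hxO') (ball_mem_nhds _ (by positivity)), hB1, ?_⟩
    rintro B' hBB' x ⟨⟨p, hp, rfl⟩, hxε⟩
    have hB'0 : 0 < B' := by linarith
    have c1 : ((C * K₂ : NNReal) : ℝ) ≤ B' := by
      have : (0 : ℝ) ≤ (K₁ * C : NNReal) := NNReal.coe_nonneg _
      have : (0 : ℝ) ≤ δ⁻¹ + 4 / ε := by positivity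
      linarith
    have c2 : ((K₁ * C : NNReal) : ℝ) ≤ B' := by
      have : (0 : ℝ) ≤ (C * K₂ : NNReal) := NNReal.coe_nonneg _
      have : (0 : ℝ) ≤ δ⁻¹ + 4 / ε := by positivity
      linarith
    have c3 : δ⁻¹ ≤ B' := by
      have : (0 : ℝ) ≤ (C * K₂ : NNReal) := NNReal.coe_nonneg _
      have : (0 : ℝ) ≤ (K₁ * C : NNReal) := NNReal.coe_nonneg _
      have : (0 : ℝ) ≤ 4 / ε := by positivity
      linarith
    have c4 : 4 / ε ≤ B' := by
      have : (0 : ℝ) ≤ (C * K₂ : NNReal) := NNReal.coe_nonneg _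
      have : (0 : ℝ) ≤ (K₁ * C : NNReal) := NNReal.coe_nonneg _
      have : (0 : ℝ) ≤ δ⁻¹ := by positivity
      linarith
    have hpW : p ∈ ball p₀ (2 * δ) := ball_subset_ball (by linarith) hp
    refine ⟨p, (hWb hpW).2, rfl, ?_⟩
    rintro r ⟨hr0, hr⟩
    have hrδ : r ≤ δ := hr.trans (inv_le_of_inv_le₀ hδ c3)
    have hrε : 4 * r ≤ ε := by
      have h1 : B'⁻¹ ≤ (4 / ε)⁻¹ := inv_anti₀ (by positivity) c4
      rw [inv_div] at h1
      linarith
    constructor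
    · intro z hz
      have hB'1 : B'⁻¹ ≤ 1 := inv_le_one_of_one_le₀ (hB1.trans hBB')
      have hzr : dist z p < B'⁻¹ * r := hz
      have hzW : z ∈ ball p₀ (2 * δ) := by
        rw [mem_ball] at hp ⊢
        have : B'⁻¹ * r ≤ 1 * δ := by gcongr
        calc dist z p₀ ≤ dist z p + dist p p₀ := dist_triangle _ _ _
          _ < δ + δ := by linarith
          _ = 2 * δ := by ring
      rw [mem_ball]
      calc dist (ψ i z) (ψ i p) ≤ (C * K₂ : NNReal) * dist z p := hup z hzW p hpW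
        _ ≤ B' * dist z p := by gcongr
        _ < B' * (B'⁻¹ * r) := by gcongr
        _ = r := by field_simp
    · intro y hy
      have hyO : y ∈ ball x₀ ε := by
        rw [mem_ball] at hxε hy ⊢
        calc dist y x₀ ≤ dist y (ψ i p) + dist (ψ i p) x₀ := dist_triangle _ _ _
          _ < 2 * r + ε / 2 := by linarith
          _ ≤ ε := by linarith
      obtain ⟨z, hz, rfl⟩ := hεb hyO
      refine ⟨z, ?_, rfl⟩
      rw [mem_ball] at hy ⊢
      calc dist z p ≤ (K₁ * C : NNReal) * dist (ψ i z) (ψ i p) := hlow z hz p hpW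
        _ ≤ B' * dist (ψ i z) (ψ i p) := by gcongr
        _ < B' * (2 * r) := by gcongr
        _ = 2 * B' * r := by ring
  choose V i B hV hB1 hloc using hloc
  obtain ⟨t, ht⟩ := isCompact_univ.elim_nhds_subcover V (fun x _ => hV x)
  obtain ⟨B', hB'⟩ := (t.image B).exists_le
  set B'' : ℝ := max 1 B' with hB''
  have hB''1 : 1 ≤ B'' := le_max_left _ _
  have hB''0 : 0 < B'' := by linarith
  refine ⟨B''⁻¹, 2 * B'', (8 * B'')⁻¹, by positivity, ?_, by positivity, ?_, ?_⟩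
  · have : B''⁻¹ ≤ 1 := inv_le_one_of_one_le₀ hB''1
    linarith
  · field_simp
    norm_num
  · intro x
    have hx := ht.2 (mem_univ x)
    simp only [mem_iUnion] at hx
    obtain ⟨x₀, hx₀, hxV⟩ := hx
    have hle : B x₀ ≤ B'' := (hB' _ (Finset.mem_image_of_mem B hx₀)).trans (le_max_right _ _)
    obtain ⟨p, hp, hpx, h⟩ := hloc x₀ B'' hle x hxV
    refine ⟨i x₀, p, hp, hpx, ?_⟩
    rintro r ⟨hr0, hr⟩
    refine h r ⟨hr0, hr.trans ?_⟩
    apply inv_anti₀ hB''0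
    linarith

end Pool.Agent.Helper904_Yau.PGEO
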