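import Pool.Agent.Helper904_Yau.Stmts

/-!
# MP_c7f82c_an, piece GRON: Gronwall along rays
-/

set_option autoImplicit false

open MeasureTheory Set Metric Filter Topology
open scoped ContDiff
open Pool.Agent.Helper904_QS

namespace Pool.Agent.Helper904_Yau.PGRON

theorem fderiv_formula (f : ℂ → ℝ) (y v : ℂ) :
    fderiv ℝ f y v = v.re * dx f y + v.im * dy f y := by
  have h : v = v.re • (1 : ℂ) + v.im • Complex.I := by
    apply Complex.ext <;> simp
  conv_lhs => rw [h]
  rw [map_add, map_smul, map_smul]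
  rfl

theorem deriv_ray {f : ℂ → ℝ} (hf : ContDiff ℝ 1 f) (z : ℂ) (t : ℝ) :
    HasDerivAt (fun t : ℝ => f (t * z)) (z.re * dx f (t * z) + z.im * dy f (t * z)) t := by
  have h1 : HasFDerivAt f (fderiv ℝ f (t * z)) ((t : ℂ) * z) :=
    (hf.differentiable (by norm_num) _).hasFDerivAt
  have h2 : HasDerivAt (fun t : ℝ => (t : ℂ) * z) z t := by
    simpa using (Complex.ofRealCLM.hasDerivAt (x := t)).mul_const z
  have h3 := h1.comp_hasDerivAt t h2
  rw [fderiv_formula] at h3
  exact h3

theorem t_GRON : S_GRON := by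
  intro R hR
  set K : ℝ := 4 * R with hK
  have hK0 : 0 < K := by positivity
  set E : ℝ := Real.exp K with hE
  have hE0 : 0 < E := Real.exp_pos _
  -- the constant
  refine ⟨2 * E + 4 * R * E + 1, by positivity, ?_⟩
  intro u T hu hT hx0 hy0 hw
  have hdu : Differentiable ℝ u := hu.differentiable (by norm_num)
  have hux : ContDiff ℝ 1 (dx u) := contDiff_dx1 hu
  have huy : ContDiff ℝ 1 (dy u) := contDiff_dy1 hu
  have hdux : Differentiable ℝ (dx u) := hux.differentiable (by norm_num)
  have hduy : Differentiable ℝ (dy u) := huy.differentiable (by norm_num)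
  -- second derivatives
  have wx : ∀ z, dx (wp u) z = 2 * dx (dx u) z - dx u z := by
    intro z
    unfold wp
    rw [dx_sub ((hdux z).const_mul 2) (hdu z), dx_const_mul 2 (hdux z)]
  have wy : ∀ z, dy (wp u) z = 2 * dx (dy u) z - dy u z := by
    intro z
    unfold wp
    rw [dy_sub ((hdux z).const_mul 2) (hdu z), dy_const_mul 2 (hdux z), dx_dy hu z]
  have key : ∀ z ∈ ball (0 : ℂ) R, gsq u z ≤ (2 * E * T) ^ 2 := by
    intro z hz
    have hzR : ‖z‖ < R := by simpa using hz
    set F : ℝ → ℂ := fun t => ⟨dx u (t * z), dy u (t * z)⟩ with hF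
    set F' : ℝ → ℂ := fun t => ⟨z.re * dx (dx u) (t * z) + z.im * dy (dx u) (t * z),
      z.re * dx (dy u) (t * z) + z.im * dy (dy u) (t * z)⟩ with hF'
    have hFd : ∀ t, HasDerivAt F (F' t) t := by
      intro t
      have h1 := deriv_ray hux z t
      have h2 := deriv_ray huy z t
      have h3 : HasDerivAt (fun t : ℝ => ((dx u (t * z) : ℝ) : ℂ) +
          ((dy u (t * z) : ℝ) : ℂ) * Complex.I)
          (((z.re * dx (dx u) (t * z) + z.im * dy (dx u) (t * z) : ℝ) : ℂ) +
            ((z.re * dx (dy u) (t * z) + z.im * dy (dy u) (t * z) : ℝ) : ℂ) * Complex.I) t :=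
        (h1.ofReal_comp).add ((h2.ofReal_comp).mul_const Complex.I)
      convert h3 using 1
      · ext t
        simp only [hF]
        apply Complex.ext <;> simp
      · simp only [hF']
        apply Complex.ext <;> simp
    have hbd : ∀ t ∈ Ico (0 : ℝ) 1, ‖F' t‖ ≤ K * ‖F t‖ + K * T := by
      intro t ht
      have htz : (t : ℂ) * z ∈ ball (0 : ℂ) R := by
        simp only [mem_ball_zero_iff, norm_mul, Complex.norm_real, Real.norm_eq_abs]
        rw [abs_of_nonneg ht.1]
        have : t * ‖z‖ ≤ 1 * ‖z‖ := mul_le_mul_of_nonneg_right ht.2.le (norm_nonneg _)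
        linarith
      obtain ⟨h1, h2⟩ := hw _ htz
      set y : ℂ := (t : ℂ) * z
      have hFn : ‖F t‖ ^ 2 = dx u y ^ 2 + dy u y ^ 2 := by
        rw [← Complex.normSq_eq_norm_sq, Complex.normSq_apply]
        simp only [hF]; ring
      have a1 : |dx u y| ≤ ‖F t‖ := by
        apply abs_le_of_sq_le_sq _ (norm_nonneg _); rw [hFn]; nlinarith [sq_nonneg (dy u y)]
      have a2 : |dy u y| ≤ ‖F t‖ := by
        apply abs_le_of_sq_le_sq _ (norm_nonneg _); rw [hFn]; nlinarith [sq_nonneg (dx u y)]
      unfold gsq at h1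
      have b1 : |dx (wp u) y| ≤ T := by
        apply abs_le_of_sq_le_sq _ hT; nlinarith [sq_nonneg (dy (wp u) y)]
      have b2 : |dy (wp u) y| ≤ T := by
        apply abs_le_of_sq_le_sq _ hT; nlinarith [sq_nonneg (dx (wp u) y)]
      rw [wx y] at b1
      rw [wy y] at b2
      have c1 : |dx (dx u) y| ≤ (T + ‖F t‖) / 2 := by
        rw [abs_le] at a1 b1 ⊢; constructor <;> linarith [a1.1, a1.2, b1.1, b1.2]
      have c2 : |dx (dy u) y| ≤ (T + ‖F t‖) / 2 := by
        rw [abs_le] at a2 b2 ⊢; constructor <;> linarith [a2.1, a2.2, b2.1, b2.2]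
      have c3 : |dy (dy u) y| ≤ (T + ‖F t‖) / 2 + T := by
        unfold lap at h2
        rw [abs_le] at c1 h2 ⊢; constructor <;> linarith [c1.1, c1.2, h2.1, h2.2]
      have zr : |z.re| ≤ R := (Complex.abs_re_le_norm z).trans hzR.le
      have zi : |z.im| ≤ R := (Complex.abs_im_le_norm z).trans hzR.le
      have hn0 := norm_nonneg (F t)
      have m1 : |z.re * dx (dx u) y| ≤ R * ((T + ‖F t‖) / 2) := by
        rw [abs_mul]; exact mul_le_mul zr c1 (abs_nonneg _) hR.le
      have m2 : |z.im * dy (dx u) y| ≤ R * ((T + ‖F t‖) / 2) := by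
        rw [abs_mul, ← dx_dy hu]; exact mul_le_mul zi c2 (abs_nonneg _) hR.le
      have m3 : |z.re * dx (dy u) y| ≤ R * ((T + ‖F t‖) / 2) := by
        rw [abs_mul]; exact mul_le_mul zr c2 (abs_nonneg _) hR.le
      have m4 : |z.im * dy (dy u) y| ≤ R * ((T + ‖F t‖) / 2 + T) := by
        rw [abs_mul]; exact mul_le_mul zi c3 (abs_nonneg _) hR.le
      have n1 := Complex.norm_le_abs_re_add_abs_im (F' t)
      have r1 : |(F' t).re| ≤ |z.re * dx (dx u) y| + |z.im * dy (dx u) y| := abs_add_le _ _
      have r2 : |(F' t).im| ≤ |z.re * dx (dy u) y| + |z.im * dy (dy u) y| := abs_add_le _ _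
      calc ‖F' t‖ ≤ |(F' t).re| + |(F' t).im| := n1
        _ ≤ R * ((T + ‖F t‖) / 2) + R * ((T + ‖F t‖) / 2) + (R * ((T + ‖F t‖) / 2) +
            R * ((T + ‖F t‖) / 2 + T)) := by linarith
        _ ≤ K * ‖F t‖ + K * T := by
            rw [hK]; nlinarith [mul_nonneg hR.le hn0, mul_nonneg hR.le hT]
    have hF0 : ‖F 0‖ ≤ 0 := by
      have : F 0 = 0 := by
        simp only [hF]; apply Complex.ext <;> simp [hx0, hy0]
      rw [this]; simp
    have hg := norm_le_gronwallBound_of_norm_deriv_right_le (f := F) (f' := F') (δ := 0) (K := K)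
      (ε := K * T) (a := 0) (b := 1) (fun t _ => (hFd t).continuousAt.continuousWithinAt)
      (fun t _ => (hFd t).hasDerivWithinAt) hF0 hbd 1 (by simp)
    rw [gronwallBound_of_K_ne_0 hK0.ne'] at hg
    have hg2 : ‖F 1‖ ≤ T * (E - 1) := by
      calc ‖F 1‖ ≤ _ := hg
        _ = T * (E - 1) := by
          rw [hE]; field_simp; ring_nf
    have hF1 : gsq u z = ‖F 1‖ ^ 2 := by
      rw [← Complex.normSq_eq_norm_sq, Complex.normSq_apply]
      simp only [hF, gsq]; simp; ring
    rw [hF1]
    have hE1 : 1 ≤ E := Real.one_le_exp hK0.le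
    apply pow_le_pow_left₀ (norm_nonneg _)
    nlinarith [mul_nonneg hE0.le hT]
  intro z hz
  have hzR : ‖z‖ < R := by simpa using hz
  constructor
  · refine (key z hz).trans ?_
    apply pow_le_pow_left₀ (by positivity)
    have : 0 ≤ (4 * R * E + 1) * T := by positivity
    nlinarith
  · have hmv := norm_image_sub_le_of_norm_deriv_le_segment_01' (f := fun t : ℝ => u (t * z))
      (f' := fun t : ℝ => z.re * dx u (t * z) + z.im * dy u (t * z)) (C := 4 * R * E * T)
      (fun t _ => (deriv_ray (hu.of_le (by norm_num)) z t).hasDerivWithinAt) (by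
        intro t ht
        have htz : (t : ℂ) * z ∈ ball (0 : ℂ) R := by
          simp only [mem_ball_zero_iff, norm_mul, Complex.norm_real, Real.norm_eq_abs]
          rw [abs_of_nonneg ht.1]
          have : t * ‖z‖ ≤ 1 * ‖z‖ := mul_le_mul_of_nonneg_right ht.2.le (norm_nonneg _)
          linarith
        have hk := key _ htz
        set y : ℂ := (t : ℂ) * z
        unfold gsq at hk
        have hET : 0 ≤ 2 * E * T := by positivity
        have a1 : |dx u y| ≤ 2 * E * T := by
          apply abs_le_of_sq_le_sq _ hET; nlinarith [sq_nonneg (dy u y)]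
        have a2 : |dy u y| ≤ 2 * E * T := by
          apply abs_le_of_sq_le_sq _ hET; nlinarith [sq_nonneg (dx u y)]
        have zr : |z.re| ≤ R := (Complex.abs_re_le_norm z).trans hzR.le
        have zi : |z.im| ≤ R := (Complex.abs_im_le_norm z).trans hzR.le
        have m1 : |z.re * dx u y| ≤ R * (2 * E * T) := by
          rw [abs_mul]; exact mul_le_mul zr a1 (abs_nonneg _) hR.le
        have m2 : |z.im * dy u y| ≤ R * (2 * E * T) := by
          rw [abs_mul]; exact mul_le_mul zi a2 (abs_nonneg _) hR.le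
        rw [Real.norm_eq_abs]
        calc |z.re * dx u y + z.im * dy u y| ≤ |z.re * dx u y| + |z.im * dy u y| := abs_add_le _ _
          _ ≤ 4 * R * E * T := by linarith)
    simp only [Complex.ofReal_one, one_mul, Complex.ofReal_zero, zero_mul, Real.norm_eq_abs] at hmv
    refine hmv.trans ?_
    nlinarith [mul_nonneg hE0.le hT]

end Pool.Agent.Helper904_Yau.PGRON
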