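import Pool.Agent.Helper904_Yau.Stmts
import Pool.Agent.Helper904_QS.LK
import Pool.Agent.Helper904_QS.HK

/-!
# MP_c7f82c_an, piece GROW: growth estimate on the whole surface.
-/

set_option autoImplicit false

open MeasureTheory Set Metric Filter Topology
open scoped ContDiff
open Pool.Agent.Helper904_QS

namespace Pool.Agent.Helper904_Yau.PGROW

open Pool.Agent.Helper904_Yau
open Pool.Agent.Helper904_QS.PHK (bnd low gsq_nonneg cmp1)

theorem Sol_mono {m Λ k : ℝ} {U V : Set ℂ} {u σ : ℂ → ℝ} (h : Sol m Λ k U u σ) (hsub : V ⊆ U) :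
    Sol m Λ k V u σ :=
  ⟨h.hu, h.hs, fun z hz => h.low z (hsub hz), fun z hz => h.up z (hsub hz),
    fun z hz => h.d1x z (hsub hz), fun z hz => h.d1y z (hsub hz),
    fun z hz => h.d2xx z (hsub hz), fun z hz => h.d2xy z (hsub hz),
    fun z hz => h.d2yy z (hsub hz), fun z hz => h.eq z (hsub hz)⟩

theorem continuous_NN {u σ : ℂ → ℝ} (hu : ContDiff ℝ 4 u) (hσ : Continuous σ) (k : ℝ) :
    Continuous (NN u σ k) := by
  have c0 := hu.continuous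
  have c1 : Continuous (dx u) := continuous_dx (hu.of_le (by norm_num))
  have c2 : Continuous (dy u) := continuous_dy (hu.of_le (by norm_num))
  unfold NN gsq
  fun_prop

section

variable {M ι : Type} [TopologicalSpace M] {ψ : ι → ℂ → M} {σ : ι → ℂ → ℝ}

/-- common constants -/
theorem consts [Fintype ι] (hAtl : Atl M ι ψ σ) : ∃ m Λ : ℝ, 0 < m ∧ m ≤ Λ ∧
    ∀ (k : ℝ) (u : M → ℝ) (f : ι → ℂ → ℝ), Eig M ι ψ σ k u f →
    ∀ i, Sol m Λ k (ball 0 (7 / 4)) (f i) (σ i) := by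
  have hK : IsCompact (closedBall (0 : ℂ) (7 / 4)) := isCompact_closedBall _ _
  have hs2 : ∀ i, ContDiff ℝ 2 (σ i) := fun i => (hAtl.sm i).of_le (by norm_num)
  have hs1 : ∀ i, ContDiff ℝ 1 (σ i) := fun i => (hAtl.sm i).of_le (by norm_num)
  obtain ⟨m, hm, hlow⟩ := low σ hK (fun i => (hAtl.sm i).continuous.continuousOn)
    (fun i z hz => hAtl.pos i z hz)
  obtain ⟨B0, hB0, hb0⟩ := bnd σ hK (fun i => (hAtl.sm i).continuous.continuousOn)
  obtain ⟨B1, hB1, hb1⟩ := bnd (fun i => dx (σ i)) hK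
    (fun i => (continuous_dx (hs1 i)).continuousOn)
  obtain ⟨B2, hB2, hb2⟩ := bnd (fun i => dy (σ i)) hK
    (fun i => (continuous_dy (hs1 i)).continuousOn)
  obtain ⟨B3, hB3, hb3⟩ := bnd (fun i => dx (dx (σ i))) hK
    (fun i => (continuous_dx (contDiff_dx1 (hs2 i))).continuousOn)
  obtain ⟨B4, hB4, hb4⟩ := bnd (fun i => dx (dy (σ i))) hK
    (fun i => (continuous_dx (contDiff_dy1 (hs2 i))).continuousOn)
  obtain ⟨B5, hB5, hb5⟩ := bnd (fun i => dy (dy (σ i))) hK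
    (fun i => (continuous_dy (contDiff_dy1 (hs2 i))).continuousOn)
  refine ⟨m, m + B0 + B1 + B2 + B3 + B4 + B5, hm, by linarith, ?_⟩
  intro k u f hE i
  have hb : ∀ z ∈ ball (0 : ℂ) (7 / 4), z ∈ closedBall (0 : ℂ) (7 / 4) :=
    fun z hz => ball_subset_closedBall hz
  refine ⟨hE.sm i, hAtl.sm i, fun z hz => hlow i z (hb z hz), fun z hz => ?_, fun z hz => ?_,
    fun z hz => ?_, fun z hz => ?_, fun z hz => ?_, fun z hz => ?_,
    fun z hz => hE.eq i z hz⟩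
  · have := (le_abs_self _).trans (hb0 i z (hb z hz)); linarith
  · have := hb1 i z (hb z hz); linarith
  · have := hb2 i z (hb z hz); linarith
  · have := hb3 i z (hb z hz); linarith
  · have := hb4 i z (hb z hz); linarith
  · have := hb5 i z (hb z hz); linarith

/-- comparison of the densities in two discs -/
theorem cmpN [Fintype ι] (hAtl : Atl M ι ψ σ) (hY : CompY M ι ψ) : ∃ C : ℝ, 1 ≤ C ∧
    ∀ (k : ℝ) (u : M → ℝ) (f : ι → ℂ → ℝ), Eig M ι ψ σ k u f →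
    ∀ i j, ∀ z ∈ closedBall (0 : ℂ) (3 / 2), ∀ z' ∈ closedBall (0 : ℂ) (1 / 2), ψ i z = ψ j z' →
    NN (f i) (σ i) k z ≤ C * NN (f j) (σ j) k z' := by
  obtain ⟨C, hC1, hC⟩ := hY
  obtain ⟨m, Λ, hm, hmΛ, hsol⟩ := consts hAtl
  have hr1 : 1 ≤ Λ / m := (one_le_div hm).2 hmΛ
  refine ⟨C * (Λ / m) ^ 2, ?_, ?_⟩
  · have : 1 ≤ (Λ / m) ^ 2 := one_le_pow₀ hr1
    nlinarith
  intro k u f hE i j z hz z' hz' hψ
  have hz7 : z ∈ ball (0 : ℂ) (7 / 4) := closedBall_subset_ball (by norm_num) hz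
  have hz7' : z' ∈ ball (0 : ℂ) (7 / 4) := closedBall_subset_ball (by norm_num) hz'
  have hg := hC u f hE.sm hE.rep i j z hz z' hz' hψ
  have hff : f i z = f j z' := by rw [hE.rep i z hz7, hE.rep j z' hz7', hψ]
  have h1 := (hsol k u f hE i).low z hz7
  have h2 := (hsol k u f hE i).up z hz7
  have h3 := (hsol k u f hE j).low z' hz7'
  have hss : σ i z ≤ Λ / m * σ j z' := by
    calc σ i z ≤ Λ := h2
      _ = Λ / m * m := by field_simp
      _ ≤ Λ / m * σ j z' := by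
        have : 0 < Λ / m := by linarith
        gcongr
  have h4 := cmp1 (k := k) (ε := 0) (v := f j z') hC1 hr1 (gsq_nonneg (f j) z') le_rfl hg
    (hm.le.trans h1) hss
  unfold NN
  rw [hff]
  simpa using h4

end

/-- the common hypotheses -/
structure Hyp (M ι : Type) (ψ : ι → ℂ → M) (σ : ι → ℂ → ℝ) (k Q : ℝ) (u : M → ℝ)
    (f : ι → ℂ → ℝ) : Prop where
  hk : 0 < k
  hE : Eig M ι ψ σ k u f
  hQ : ∀ i, ∀ z ∈ closedBall (0 : ℂ) (3 / 2), NN (f i) (σ i) k z ≤ Real.exp Q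

section

variable {M ι : Type} [TopologicalSpace M] {ψ : ι → ℂ → M} {σ : ι → ℂ → ℝ}

/-- the barrier at one point -/
theorem bar [Fintype ι] (hBAR : S_BAR) (hAtl : Atl M ι ψ σ) : ∀ M₁ : ℝ, 0 < M₁ →
    ∃ M₂ : ℝ, 0 < M₂ ∧ ∀ (i : ι) (k Q : ℝ) (u : M → ℝ) (f : ι → ℂ → ℝ), Hyp M ι ψ σ k Q u f →
    ∀ p ∈ closedBall (0 : ℂ) (5 / 4),
    (∃ z ∈ closedBall p (1 / 16), Real.exp (Q - M₁ * max k 1) ≤ NN (f i) (σ i) k z) →
    ∀ r ∈ Ioc (0 : ℝ) (1 / 16), ∃ z ∈ closedBall p r,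
      Real.exp (Q - M₂ * max k 1 / r) ≤ NN (f i) (σ i) k z := by
  obtain ⟨m, Λ, hm, hmΛ, hsol⟩ := consts hAtl
  intro M₁ hM₁
  obtain ⟨M₀, hM₀, h⟩ := hBAR m Λ M₁ hm hmΛ hM₁
  refine ⟨M₀, hM₀, ?_⟩
  intro i k Q u f hH p hp hz r hr
  have hsub : ball p (1 / 4) ⊆ closedBall (0 : ℂ) (3 / 2) := by
    intro w hw
    rw [mem_closedBall, dist_zero_right] at hp ⊢
    rw [mem_ball, dist_eq_norm] at hw
    have := norm_le_norm_add_norm_sub' w p
    linarith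
  have hsub2 : ball p (1 / 4) ⊆ ball (0 : ℂ) (7 / 4) :=
    hsub.trans (closedBall_subset_ball (by norm_num))
  exact h k Q p (f i) (σ i) hH.hk (Sol_mono (hsol k u f hH.hE i) hsub2)
    (fun w hw => hH.hQ i w (hsub hw)) hz r hr

/-- a chain of barriers -/
theorem steps [Fintype ι] (hBAR : S_BAR) (hAtl : Atl M ι ψ σ) (n : ℕ) : ∀ M₁ : ℝ, 0 < M₁ →
    ∃ M₂ : ℝ, 0 < M₂ ∧ ∀ (i : ι) (k Q : ℝ) (u : M → ℝ) (f : ι → ℂ → ℝ), Hyp M ι ψ σ k Q u f →
    ∀ p ∈ closedBall (0 : ℂ) (5 / 4),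
    (∃ z ∈ closedBall p (1 / 32), Real.exp (Q - M₁ * max k 1) ≤ NN (f i) (σ i) k z) →
    ∀ p' ∈ closedBall (0 : ℂ) (5 / 4), ‖p' - p‖ ≤ n / 32 →
    ∃ z ∈ closedBall p' (1 / 32), Real.exp (Q - M₂ * max k 1) ≤ NN (f i) (σ i) k z := by
  induction n with
  | zero =>
    intro M₁ hM₁
    refine ⟨M₁, hM₁, ?_⟩
    intro i k Q u f hH p hp hz p' hp' hd
    have h0 : ‖p' - p‖ ≤ 0 := by simpa using hd
    have : p' = p := sub_eq_zero.mp (norm_le_zero_iff.mp h0)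
    rw [this]
    exact hz
  | succ n ih =>
    intro M₁ hM₁
    obtain ⟨M₂, hM₂, h2⟩ := ih M₁ hM₁
    obtain ⟨M₃, hM₃, h3⟩ := bar hBAR hAtl M₂ hM₂
    refine ⟨32 * M₃, by positivity, ?_⟩
    intro i k Q u f hH p hp hz p' hp' hd
    have hn : (0 : ℝ) < (n : ℝ) + 1 := by positivity
    set q : ℂ := p + ((n : ℝ) / (n + 1)) • (p' - p) with hq
    have hq1 : q ∈ closedBall (0 : ℂ) (5 / 4) := by
      have hcv := convex_closedBall (0 : ℂ) (5 / 4)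
      have ht1 : (n : ℝ) / (n + 1) ≤ 1 := by
        rw [div_le_one hn]
        linarith
      exact hcv.add_smul_sub_mem hp hp' ⟨by positivity, ht1⟩
    have hqp : ‖q - p‖ ≤ n / 32 := by
      rw [hq, add_sub_cancel_left, norm_smul, Real.norm_of_nonneg (by positivity)]
      calc (n : ℝ) / (n + 1) * ‖p' - p‖ ≤ (n : ℝ) / (n + 1) * (((n + 1 : ℕ) : ℝ) / 32) := by gcongr
        _ = n / 32 := by
          push_cast
          field_simp
    have hpq : ‖p' - q‖ ≤ 1 / 32 := by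
      have e : p' - q = (1 / ((n : ℝ) + 1)) • (p' - p) := by
        have e1 : (1 / ((n : ℝ) + 1)) = 1 - (n : ℝ) / (n + 1) := by
          field_simp
          ring
        rw [e1, hq, sub_smul, one_smul]
        ring
      rw [e, norm_smul, Real.norm_of_nonneg (by positivity)]
      calc 1 / ((n : ℝ) + 1) * ‖p' - p‖ ≤ 1 / ((n : ℝ) + 1) * (((n + 1 : ℕ) : ℝ) / 32) := by gcongr
        _ = 1 / 32 := by
          push_cast
          field_simp
    obtain ⟨z, hz1, hz2⟩ := h2 i k Q u f hH p hp hz q hq1 hqp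
    have hz3 : z ∈ closedBall p' (1 / 16) := by
      rw [mem_closedBall, dist_eq_norm] at hz1 ⊢
      have e : z - p' = (z - q) - (p' - q) := by ring
      rw [e]
      refine (norm_sub_le _ _).trans ?_
      linarith
    obtain ⟨w, hw1, hw2⟩ := h3 i k Q u f hH p' hp' ⟨z, hz3, hz2⟩ (1 / 32)
      ⟨by norm_num, by norm_num⟩
    refine ⟨w, hw1, ?_⟩
    have e : Q - 32 * M₃ * max k 1 = Q - M₃ * max k 1 / (1 / 32) := by ring
    rw [e]
    exact hw2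

/-- one large value in a disc gives large values everywhere in that disc -/
theorem full [Fintype ι] (hBAR : S_BAR) (hAtl : Atl M ι ψ σ) : ∀ M₁ : ℝ, 0 < M₁ →
    ∃ M₂ : ℝ, 0 < M₂ ∧ ∀ (i : ι) (k Q : ℝ) (u : M → ℝ) (f : ι → ℂ → ℝ), Hyp M ι ψ σ k Q u f →
    (∃ z ∈ closedBall (0 : ℂ) (5 / 4), Real.exp (Q - M₁ * max k 1) ≤ NN (f i) (σ i) k z) →
    ∀ p ∈ closedBall (0 : ℂ) (5 / 4), ∀ r ∈ Ioc (0 : ℝ) (1 / 16), ∃ z ∈ closedBall p r,
      Real.exp (Q - M₂ * max k 1 / r) ≤ NN (f i) (σ i) k z := by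
  intro M₁ hM₁
  obtain ⟨M₂, hM₂, h2⟩ := steps hBAR hAtl 80 M₁ hM₁
  obtain ⟨M₃, hM₃, h3⟩ := bar hBAR hAtl M₂ hM₂
  refine ⟨M₃, hM₃, ?_⟩
  intro i k Q u f hH hz p hp r hr
  obtain ⟨z, hz1, hz2⟩ := hz
  have hd : ‖p - z‖ ≤ ((80 : ℕ) : ℝ) / 32 := by
    rw [mem_closedBall, dist_zero_right] at hz1 hp
    have := norm_sub_le p z
    push_cast
    linarith
  obtain ⟨w, hw1, hw2⟩ := h2 i k Q u f hH z hz1 ⟨z, mem_closedBall_self (by norm_num), hz2⟩ p hp hd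
  exact h3 i k Q u f hH p hp ⟨w, closedBall_subset_closedBall (by norm_num) hw1, hw2⟩ r hr

/-- transfer of a large value from the disc `i` to the disc `j` -/
def T (M ι : Type) (ψ : ι → ℂ → M) (σ : ι → ℂ → ℝ) (i j : ι) : Prop :=
  ∀ M₁ : ℝ, 0 < M₁ → ∃ M₂ : ℝ, 0 < M₂ ∧ ∀ (k Q : ℝ) (u : M → ℝ) (f : ι → ℂ → ℝ),
    Hyp M ι ψ σ k Q u f →
    (∃ z ∈ closedBall (0 : ℂ) (5 / 4), Real.exp (Q - M₁ * max k 1) ≤ NN (f i) (σ i) k z) →
    ∃ z ∈ closedBall (0 : ℂ) (5 / 4), Real.exp (Q - M₂ * max k 1) ≤ NN (f j) (σ j) k z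

/-- comparison of exponentials -/
theorem exp_cmp {C N N' X Q : ℝ} (hC : 1 ≤ C) (h1 : Real.exp (Q - X) ≤ N) (h2 : N ≤ C * N')
    {k : ℝ} : Real.exp (Q - (X + Real.log C * max k 1)) ≤ N' := by
  have hC0 : 0 < C := by linarith
  have hl : 0 ≤ Real.log C := Real.log_nonneg hC
  have h3 : Real.exp (Q - (X + Real.log C * max k 1)) ≤ Real.exp (Q - X) / C := by
    have e : Real.exp (Q - X) / C = Real.exp (Q - X - Real.log C) := by
      rw [Real.exp_sub (Q - X), Real.exp_log hC0]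
    rw [e]
    apply Real.exp_le_exp.mpr
    have : Real.log C * 1 ≤ Real.log C * max k 1 :=
      mul_le_mul_of_nonneg_left (le_max_right _ _) hl
    linarith
  refine h3.trans ?_
  rw [div_le_iff₀ hC0, mul_comm]
  exact h1.trans h2

theorem T_step [Fintype ι] (hBAR : S_BAR) (hAtl : Atl M ι ψ σ) (hY : CompY M ι ψ) {i j : ι}
    (hR : PLK.R ψ i j) : T M ι ψ σ i j := by
  obtain ⟨C, hC1, hC⟩ := cmpN hAtl hY
  -- the overlap seen in the disc `i`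
  set O : Set ℂ := {z | z ∈ ball (0 : ℂ) (1 / 2) ∧ ψ i z ∈ ψ j '' ball (0 : ℂ) (1 / 2)} with hO
  have hOo : IsOpen O := by
    have h1 : ContinuousOn (ψ i) (ball (0 : ℂ) (1 / 2)) :=
      (hAtl.cont i).mono (ball_subset_ball (by norm_num))
    exact h1.isOpen_inter_preimage isOpen_ball
      (hAtl.opn j _ (ball_subset_ball (by norm_num)) isOpen_ball)
  obtain ⟨x, ⟨z, hz, hzx⟩, hx2⟩ := hR
  have hzO : z ∈ O := ⟨hz, by rw [hzx]; exact hx2⟩
  obtain ⟨r, hr, hrO⟩ := Metric.isOpen_iff.mp hOo z hzO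
  set r' : ℝ := min (r / 2) (1 / 16) with hr'
  have hr'0 : 0 < r' := lt_min (by positivity) (by norm_num)
  have hr'O : closedBall z r' ⊆ O :=
    (closedBall_subset_ball (by
      have := min_le_left (r / 2) (1 / 16)
      linarith)).trans hrO
  intro M₁ hM₁
  obtain ⟨M₂, hM₂, h2⟩ := full hBAR hAtl M₁ hM₁
  have hl : 0 ≤ Real.log C := Real.log_nonneg hC1
  refine ⟨M₂ / r' + Real.log C, by positivity, ?_⟩
  intro k Q u f hH hst
  have hz54 : z ∈ closedBall (0 : ℂ) (5 / 4) :=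
    closedBall_subset_closedBall (by norm_num) (ball_subset_closedBall hz)
  obtain ⟨w, hw1, hw2⟩ := h2 i k Q u f hH hst z hz54 r' ⟨hr'0, min_le_right _ _⟩
  obtain ⟨hw3, w', hw4, hw5⟩ := hr'O hw1
  refine ⟨w', closedBall_subset_closedBall (by norm_num) (ball_subset_closedBall hw4), ?_⟩
  have h3 := hC k u f hH.hE i j w
    (closedBall_subset_closedBall (by norm_num) (ball_subset_closedBall hw3)) w'
    (ball_subset_closedBall hw4) hw5.symm
  have h4 := exp_cmp (k := k) hC1 hw2 h3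
  have e : (M₂ / r' + Real.log C) * max k 1 = M₂ * max k 1 / r' + Real.log C * max k 1 := by ring
  rw [e]
  exact h4

omit [TopologicalSpace M] in
theorem T_refl (i : ι) : T M ι ψ σ i i := fun M₁ hM₁ => ⟨M₁, hM₁, fun _ _ _ _ _ h => h⟩

omit [TopologicalSpace M] in
theorem T_trans {a b c : ι} (h1 : T M ι ψ σ a b) (h2 : T M ι ψ σ b c) : T M ι ψ σ a c := by
  intro M₁ hM₁
  obtain ⟨M₂, hM₂, h3⟩ := h1 M₁ hM₁
  obtain ⟨M₃, hM₃, h4⟩ := h2 M₂ hM₂
  exact ⟨M₃, hM₃, fun k Q u f hH h => h4 k Q u f hH (h3 k Q u f hH h)⟩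

theorem T_all [Fintype ι] [ConnectedSpace M] (hBAR : S_BAR) (hAtl : Atl M ι ψ σ)
    (hY : CompY M ι ψ) (i j : ι) : T M ι ψ σ i j := by
  have hab := PLK.chain hAtl i j
  induction hab with
  | refl => exact T_refl i
  | tail _ hbc ih => exact T_trans ih (T_step hBAR hAtl hY hbc)

/-- the maximum of the densities -/
theorem exists_Q [Fintype ι] (hAtl : Atl M ι ψ σ) (hY : CompY M ι ψ) : ∃ M₁ : ℝ, 0 < M₁ ∧
    ∀ (k : ℝ) (u : M → ℝ) (f : ι → ℂ → ℝ), 0 < k → Eig M ι ψ σ k u f →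
    ∃ Q : ℝ, Hyp M ι ψ σ k Q u f ∧ ∃ i, ∃ z ∈ closedBall (0 : ℂ) (5 / 4),
      Real.exp (Q - M₁ * max k 1) ≤ NN (f i) (σ i) k z := by
  obtain ⟨C, hC1, hC⟩ := cmpN hAtl hY
  have hl : 0 ≤ Real.log C := Real.log_nonneg hC1
  refine ⟨Real.log C + 1, by positivity, ?_⟩
  intro k u f hk hE
  have hcont : ∀ i, Continuous (NN (f i) (σ i) k) := fun i =>
    continuous_NN (hE.sm i) (hAtl.sm i).continuous k
  obtain ⟨x, hx⟩ := hE.ne
  obtain ⟨i₁, z₁, hz₁, hψ₁⟩ := hAtl.cover x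
  have h1 : ∀ i, ∃ z ∈ closedBall (0 : ℂ) (3 / 2), ∀ z' ∈ closedBall (0 : ℂ) (3 / 2),
      NN (f i) (σ i) k z' ≤ NN (f i) (σ i) k z := by
    intro i
    obtain ⟨z, hz, hmax⟩ := (isCompact_closedBall (0 : ℂ) (3 / 2)).exists_isMaxOn
      ⟨0, mem_closedBall_self (by norm_num)⟩ (hcont i).continuousOn
    exact ⟨z, hz, fun z' hz' => hmax hz'⟩
  choose zz hzz hmax using h1
  obtain ⟨i, -, hi⟩ := Finset.exists_max_image (Finset.univ : Finset ι)
    (fun i => NN (f i) (σ i) k (zz i)) ⟨i₁, Finset.mem_univ _⟩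
  have hpos : 0 < NN (f i) (σ i) k (zz i) := by
    have hz7 : z₁ ∈ ball (0 : ℂ) (7 / 4) := ball_subset_ball (by norm_num) hz₁
    have hf : f i₁ z₁ ≠ 0 := by
      rw [hE.rep i₁ z₁ hz7, hψ₁]
      exact hx
    have hσ : 0 < σ i₁ z₁ := hAtl.pos i₁ z₁ (ball_subset_closedBall hz7)
    have h2 : 0 < NN (f i₁) (σ i₁) k z₁ := by
      unfold NN
      have h3 : 0 < (k * σ i₁ z₁ * f i₁ z₁) ^ 2 := by positivity
      have h4 := gsq_nonneg (f i₁) z₁
      linarith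
    exact h2.trans_le ((hmax i₁ z₁ (closedBall_subset_closedBall (by norm_num)
      (ball_subset_closedBall hz₁))).trans (hi i₁ (Finset.mem_univ _)))
  refine ⟨Real.log (NN (f i) (σ i) k (zz i)), ⟨hk, hE, ?_⟩, ?_⟩
  · intro l z hz
    rw [Real.exp_log hpos]
    exact (hmax l z hz).trans (hi l (Finset.mem_univ _))
  · obtain ⟨j, z', hz', hψ'⟩ := hAtl.cover (ψ i (zz i))
    refine ⟨j, z', closedBall_subset_closedBall (by norm_num) (ball_subset_closedBall hz'), ?_⟩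
    have h3 := hC k u f hE i j (zz i) (hzz i) z' (ball_subset_closedBall hz') hψ'.symm
    have h4 : Real.exp (Real.log (NN (f i) (σ i) k (zz i)) - 0) ≤ NN (f i) (σ i) k (zz i) := by
      rw [sub_zero, Real.exp_log hpos]
    have h5 := exp_cmp (k := k) hC1 h4 h3
    refine le_trans (Real.exp_le_exp.mpr ?_) h5
    have h6 : 0 ≤ max k 1 := zero_le_one.trans (le_max_right _ _)
    nlinarith

end

theorem t_GROW (hBAR : S_BAR) : S_GROW := by
  intro M ι _ _ _ _ ψ σ hAtl hY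
  obtain ⟨M₁, hM₁, h1⟩ := exists_Q hAtl hY
  have h2 : ∀ q : ι × ι, ∃ M₂ : ℝ, 0 < M₂ ∧ ∀ (k Q : ℝ) (u : M → ℝ) (f : ι → ℂ → ℝ),
      Hyp M ι ψ σ k Q u f →
      (∃ z ∈ closedBall (0 : ℂ) (5 / 4), Real.exp (Q - M₁ * max k 1) ≤ NN (f q.1) (σ q.1) k z) →
      ∃ z ∈ closedBall (0 : ℂ) (5 / 4), Real.exp (Q - M₂ * max k 1) ≤ NN (f q.2) (σ q.2) k z :=
    fun q => T_all hBAR hAtl hY q.1 q.2 M₁ hM₁
  choose m₂ hm₂ h3 using h2
  set M₂ : ℝ := 1 + ∑ q, m₂ q with hM₂def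
  have hM₂ : 0 < M₂ := by
    have : 0 ≤ ∑ q, m₂ q := Finset.sum_nonneg fun q _ => (hm₂ q).le
    linarith
  have hle : ∀ q, m₂ q ≤ M₂ := by
    intro q
    have := Finset.single_le_sum (f := m₂) (fun q _ => (hm₂ q).le) (Finset.mem_univ q)
    linarith
  obtain ⟨M₃, hM₃, h4⟩ := full hBAR hAtl M₂ hM₂
  refine ⟨M₃, hM₃, ?_⟩
  intro k u f hk hE
  obtain ⟨Q, hH, i, hz⟩ := h1 k u f hk hE
  refine ⟨Q, hH.hQ, ?_⟩
  intro j p hp r hr
  obtain ⟨z, hz1, hz2⟩ := h3 (i, j) k Q u f hH hz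
  refine h4 j k Q u f hH ⟨z, hz1, le_trans (Real.exp_le_exp.mpr ?_) hz2⟩ p hp r hr
  have h6 : 0 ≤ max k 1 := zero_le_one.trans (le_max_right _ _)
  have := mul_le_mul_of_nonneg_right (hle (i, j)) h6
  linarith

end Pool.Agent.Helper904_Yau.PGROW
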