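import Pool.Agent.Helper904_Yau.BAR

/-!
# LOC: local decay of the slope, from the area inequality for cones and the rigidity lemma
-/

set_option autoImplicit false

open MeasureTheory Set Metric Filter Topology
open scoped ContDiff
open Pool.Agent.Helper904_QS

namespace Pool.Agent.Helper904_Yau.PLOC

open Pool.Agent.Helper904_Yau.PBAR

theorem t_LOC (hABP : S_ABP) (hCT : S_CT) (hRL : S_RL) : S_LOC := by
  intro m Λ Mg hm hmΛ hMg
  obtain ⟨A, C₀, hA, hC₀, H⟩ := hRL m Λ (1 / 10) hm hmΛ (by norm_num)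
  obtain ⟨C₁, hC₁⟩ : ∃ C₁ : ℝ, C₁ = 40000 * Mg + C₀ + 8 * A + 4 := ⟨_, rfl⟩
  have hC₁0 : 0 < C₁ := by rw [hC₁]; positivity
  refine ⟨C₁, hC₁0, ?_⟩
  intro k Q u σ hk hS hQ hgrow
  obtain ⟨K, hK⟩ : ∃ K : ℝ, K = max k 1 := ⟨_, rfl⟩
  have hK1 : 1 ≤ K := by rw [hK]; exact le_max_right _ _
  have hK0 : 0 < K := by linarith
  have hkK : k ≤ K := by rw [hK]; exact le_max_left _ _
  rw [← hK] at hgrow ⊢
  obtain ⟨N, hN⟩ : ∃ N : ℂ → ℝ, N = NN u σ k := ⟨_, rfl⟩
  rw [← hN] at hgrow hQ ⊢
  have hNC : ContDiff ℝ 2 N := by rw [hN]; exact contDiff_NN hS.hu hS.hs k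
  have hN0 : ∀ z, 0 ≤ N z := by
    intro z
    rw [hN]
    unfold NN gsq
    positivity
  obtain ⟨s, hs⟩ : ∃ s : ℕ → ℝ, s = fun j => C₁ * K * (11 / 10) ^ j := ⟨_, rfl⟩
  obtain ⟨r, hr⟩ : ∃ r : ℕ → ℝ, r = fun j => 3 / 4 + (24 / 25) ^ j / 4 := ⟨_, rfl⟩
  obtain ⟨ρ, hρ⟩ : ∃ ρ : ℕ → ℝ, ρ = fun j => (24 / 25) ^ j / 100 := ⟨_, rfl⟩
  have hs1 : ∀ j, s (j + 1) = 11 / 10 * s j := by
    intro j
    simp only [hs, pow_succ]
    ring
  have hs0 : ∀ j, 0 < s j := by
    intro j
    simp only [hs]
    positivity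
  have hsC : ∀ j, C₁ * K ≤ s j := by
    intro j
    simp only [hs]
    have h1 : (1 : ℝ) ≤ (11 / 10) ^ j := one_le_pow₀ (by norm_num)
    nlinarith [mul_pos hC₁0 hK0]
  have hrρ : ∀ j, r (j + 1) + ρ j = r j := by
    intro j
    simp only [hr, hρ, pow_succ]
    ring
  have hρ0 : ∀ j, 0 < ρ j := by
    intro j
    simp only [hρ]
    positivity
  have hρ1 : ∀ j, ρ j ≤ 1 / 100 := by
    intro j
    simp only [hρ]
    have : ((24 : ℝ) / 25) ^ j ≤ 1 := pow_le_one₀ (by norm_num) (by norm_num)
    linarith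
  have hr1 : ∀ j, r j ≤ 1 := by
    intro j
    simp only [hr]
    have : ((24 : ℝ) / 25) ^ j ≤ 1 := pow_le_one₀ (by norm_num) (by norm_num)
    linarith
  have hr0 : ∀ j, 3 / 4 < r j := by
    intro j
    simp only [hr]
    have : 0 < ((24 : ℝ) / 25) ^ j := by positivity
    linarith
  -- the step
  have hstep : ∀ j, volume.real (ball 0 (r (j + 1)) ∩ US N (s (j + 1))) ≤
      7 / 8 * volume.real (ball 0 (r j) ∩ US N (s j)) := by
    intro j
    have hABPj := hABP N (s j) (s (j + 1)) (r (j + 1)) (ρ j) (1 / 10) hNC hN0 (hs0 j)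
      (by rw [hs1]; linarith [hs0 j]) (by linarith [hr0 (j + 1)]) (hρ0 j)
      (by rw [hrρ]; linarith [hr1 j]) (by norm_num) (by norm_num) ?_ ?_
    · rw [hrρ, hs1] at hABPj
      rw [hs1]
      obtain ⟨a, ha⟩ : ∃ a : ℝ, a = volume.real (ball 0 (r (j + 1)) ∩ US N (11 / 10 * s j)) := ⟨_, rfl⟩
      obtain ⟨b, hb⟩ : ∃ b : ℝ, b = volume.real (ball 0 (r j) ∩ US N (s j)) := ⟨_, rfl⟩
      rw [← ha, ← hb] at hABPj
      rw [← ha, ← hb]
      have hb0 : 0 ≤ b := by rw [hb]; exact measureReal_nonneg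
      have hss : 0 < s j ^ 2 := pow_pos (hs0 j) 2
      have h1 : s j ^ 2 * (a * (21 / 200)) ≤ s j ^ 2 * (14641 / 20000 * (b - a)) := by
        nlinarith
      have h2 := le_of_mul_le_mul_left h1 hss
      linarith
    · -- near
      intro x hx t ht y hy hNy hmax
      rw [mem_ball_zero_iff] at hx
      have hx1 : ‖x‖ < 1 := hx.trans_le (hr1 _)
      have ht0 : 0 < t := (hs0 j).trans ht.1
      obtain ⟨w, hw⟩ : ∃ w : ℝ, w = √(Mg * K / t) := ⟨_, rfl⟩
      have hw0 : 0 < w := by rw [hw]; positivity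
      have hw2 : w ^ 2 = Mg * K / t := by rw [hw]; exact Real.sq_sqrt (by positivity)
      have hwt : w ^ 2 * t = Mg * K := by rw [hw2]; field_simp
      have hwρ : w < ρ j / 2 := by
        have h1 : s j * ρ j ^ 2 ≥ 4 * (Mg * K) := by
          have h2 : s j * ρ j ^ 2 = C₁ * K * (11 / 10 * (24 / 25) ^ 2) ^ j / 10000 := by
            simp only [hs, hρ]
            rw [mul_pow, ← pow_mul, mul_comm 2 j, pow_mul]
            ring
          have h3 : (1 : ℝ) ≤ (11 / 10 * (24 / 25) ^ 2) ^ j := one_le_pow₀ (by norm_num)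
          have h4 : C₁ * K ≥ 40000 * (Mg * K) := by
            rw [hC₁]
            nlinarith
          rw [h2]
          have h5 : C₁ * K * 1 ≤ C₁ * K * (11 / 10 * (24 / 25) ^ 2) ^ j :=
            mul_le_mul_of_nonneg_left h3 (by positivity)
          linarith
        have h6 : w ^ 2 * t < (ρ j / 2) ^ 2 * t := by
          rw [hwt]
          have : s j * ρ j ^ 2 < t * ρ j ^ 2 := mul_lt_mul_of_pos_right ht.1 (pow_pos (hρ0 j) 2)
          nlinarith
        have h7 : w ^ 2 < (ρ j / 2) ^ 2 := lt_of_mul_lt_mul_right h6 ht0.le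
        exact lt_of_pow_lt_pow_left₀ 2 (by linarith [hρ0 j]) h7
      obtain ⟨z', hz', hNz'⟩ := hgrow x (by rw [mem_closedBall_zero_iff]; linarith) w
        ⟨hw0, by linarith [hρ1 j]⟩
      rw [mem_closedBall_iff_norm] at hz'
      have hz'2 : z' ∈ closedBall (0 : ℂ) (3 / 2) := by
        rw [mem_closedBall_zero_iff]
        calc ‖z'‖ = ‖(z' - x) + x‖ := by congr 1; ring
          _ ≤ ‖z' - x‖ + ‖x‖ := norm_add_le _ _
          _ ≤ 3 / 2 := by linarith [hρ1 j]
      have h1 := hmax z' hz'2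
      have h2 : N y * Real.exp (-(t * ‖y - x‖)) ≤ Real.exp (Q - t * ‖y - x‖) := by
        rw [sub_eq_add_neg Q, Real.exp_add]
        exact mul_le_mul_of_nonneg_right (hQ y hy) (Real.exp_pos _).le
      have h3 : Real.exp (Q - Mg * K / w - t * w) ≤ N z' * Real.exp (-(t * ‖z' - x‖)) := by
        rw [sub_eq_add_neg _ (t * w), Real.exp_add]
        refine mul_le_mul hNz' ?_ (Real.exp_pos _).le (hN0 _)
        rw [Real.exp_le_exp]
        nlinarith
      have h4 := Real.exp_le_exp.1 (h3.trans (h1.trans h2))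
      have h5 : Mg * K / w = t * w := by
        rw [← hwt]
        field_simp
      have h6 : t * ‖y - x‖ ≤ t * (2 * w) := by
        rw [h5] at h4
        linarith
      have h7 := le_of_mul_le_mul_left h6 ht0
      linarith
    · -- curvature
      intro t ht y hy x hxy hyx hNy hcone
      rw [mem_ball_zero_iff] at hy
      have ht0 : 0 < t := (hs0 j).trans ht.1
      have htC : C₁ * K ≤ t := (hsC j).trans ht.1.le
      obtain ⟨l, hl⟩ : ∃ l : ℝ, l = ‖y - x‖ := ⟨_, rfl⟩
      rw [← hl] at hyx hcone ⊢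
      have hl0 : 0 < l := by rw [hl]; exact norm_pos_iff.2 (sub_ne_zero.2 hxy.symm)
      have hl1 : l < 1 := by linarith [hρ1 j]
      have hAt : A / t ≤ 1 / 8 := by
        rw [div_le_iff₀ ht0]
        have : 8 * A ≤ C₁ * K := by
          rw [hC₁]
          nlinarith
        linarith
      have hAt0 : 0 < A / t := by positivity
      obtain ⟨e, he⟩ : ∃ e : ℂ, e = ((l : ℂ))⁻¹ * (y - x) := ⟨_, rfl⟩
      have hle : (l : ℂ) * e = y - x := by
        rw [he]
        have : (l : ℂ) ≠ 0 := by exact_mod_cast hl0.ne'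
        field_simp
      have he1 : ‖e‖ = 1 := by
        rw [he, norm_mul, norm_inv, Complex.norm_real, Real.norm_of_nonneg hl0.le, ← hl]
        exact inv_mul_cancel₀ hl0.ne'
      have hsub : ball y (A / t) ⊆ closedBall (0 : ℂ) (3 / 2) := by
        intro z hz
        rw [mem_ball_iff_norm] at hz
        rw [mem_closedBall_zero_iff]
        calc ‖z‖ = ‖(z - y) + y‖ := by congr 1; ring
          _ ≤ ‖z - y‖ + ‖y‖ := norm_add_le _ _
          _ ≤ 3 / 2 := by linarith
      have hct := hCT N x y e t l hNC ht0 hl0 he1 (by rw [hle]; ring) hNy (by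
        filter_upwards [ball_mem_nhds y hAt0] with z hz
        exact hcone z (hsub hz))
      have hR := H k t (t / l) y e u σ hk ?_ ?_ (by positivity) he1
        (Sol_mono hS ?_) (by rw [← hN]; exact hNy) ?_ ?_ ?_
      · rw [← hN] at hR
        refine le_trans ?_ hR
        refine mul_le_mul_of_nonneg_right ?_ hNy.le
        have h1 : t ≤ t / l := by
          rw [le_div_iff₀ hl0]
          nlinarith
        have h2 : 2 * (1 / 10) * t / l = 2 / 10 * (t / l) := by ring
        rw [h2]
        linarith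
      · have : C₀ ≤ C₁ * K := by
          rw [hC₁]
          nlinarith
        linarith
      · have : C₀ * k ≤ C₁ * K := by
          rw [hC₁]
          nlinarith
        linarith
      · intro z hz
        have h1 := hsub hz
        rw [mem_closedBall_zero_iff] at h1
        rw [mem_ball_zero_iff]
        linarith
      · rw [← hN]
        exact hct.1
      · rw [← hN]
        exact hct.2.1
      · intro z hz
        rw [← hN]
        refine (hcone z (hsub hz)).trans (mul_le_mul_of_nonneg_left ?_ hNy.le)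
        rw [Real.exp_le_exp]
        have h1 : z - x = (y - x) + (z - y) := by ring
        have h2 : ‖z - x‖ ^ 2 = l ^ 2 + 2 * ((y - x).re * (z - y).re + (y - x).im * (z - y).im) +
            ‖z - y‖ ^ 2 := by
          rw [h1, PBAR.norm_add_sq, ← hl]
        have h3 : (y - x).re = l * e.re := by rw [← hle, Complex.re_ofReal_mul]
        have h4 : (y - x).im = l * e.im := by rw [← hle, Complex.im_ofReal_mul]
        rw [h3, h4] at h2
        have h5 : ‖z - x‖ - l ≤ (e.re * (z - y).re + e.im * (z - y).im) + ‖z - y‖ ^ 2 / (2 * l) := by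
          have h6 : ‖z - x‖ * (2 * l) ≤ ‖z - x‖ ^ 2 + l ^ 2 := by
            nlinarith [sq_nonneg (‖z - x‖ - l)]
          have h7 : ‖z - x‖ ≤ (‖z - x‖ ^ 2 + l ^ 2) / (2 * l) := by
            rw [le_div_iff₀ (by positivity)]
            exact h6
          refine (sub_le_sub_right h7 l).trans (le_of_eq ?_)
          rw [h2]
          field_simp
          ring
        calc t * (‖z - x‖ - l) ≤ t * ((e.re * (z - y).re + e.im * (z - y).im) +
              ‖z - y‖ ^ 2 / (2 * l)) := mul_le_mul_of_nonneg_left h5 ht0.le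
          _ = _ := by field_simp
  have hmain : ∀ j, volume.real (ball 0 (r j) ∩ US N (s j)) ≤ C₁ * (7 / 8) ^ j := by
    intro j
    induction j with
    | zero =>
      rw [pow_zero, mul_one]
      have h1 : volume.real (ball (0 : ℂ) (r 0) ∩ US N (s 0)) ≤ volume.real (ball (0 : ℂ) 1) := by
        refine measureReal_mono ?_ ?_
        · refine inter_subset_left.trans (ball_subset_ball (hr1 0))
        · exact measure_ball_lt_top.ne
      have h2 : volume.real (ball (0 : ℂ) 1) = Real.pi := by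
        rw [measureReal_def, Complex.volume_ball]
        simp
      rw [h2] at h1
      have h3 := Real.pi_lt_four
      have h4 : 4 ≤ C₁ := by rw [hC₁]; nlinarith
      linarith
    | succ j ih =>
      rw [pow_succ]
      have := hstep j
      linarith
  intro j
  have h1 : volume.real (ball (0 : ℂ) (3 / 4) ∩ US N (C₁ * K * (11 / 10) ^ j)) ≤
      volume.real (ball (0 : ℂ) (r j) ∩ US N (s j)) := by
    refine measureReal_mono ?_ ?_
    · simp only [hs]
      exact inter_subset_inter_left _ (ball_subset_ball (hr0 j).le)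
    · exact (measure_mono inter_subset_left).trans_lt measure_ball_lt_top |>.ne
  exact h1.trans (hmain j)

end Pool.Agent.Helper904_Yau.PLOC
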