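import Pool.Agent.Helper904_Yau.MEb

/-!
# The main estimate ME
-/

set_option autoImplicit false

open MeasureTheory Set Metric Filter Topology
open scoped ContDiff
open Pool.Agent.Helper904_QS

namespace Pool.Agent.Helper904_Yau.PME

variable {m Λ K A a ε κ θ : ℝ} {u ς : ℂ → ℝ}

theorem Sit.w0 (h : Sit m Λ K A a ε κ θ u ς) : a * |wp u 0| ≤ 3 * θ := by
  have h1 := h.n0
  unfold NN at h1
  have h2 : gsq u 0 ≤ 1 ^ 2 := by nlinarith [sq_nonneg (a * ς 0 * u 0)]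
  have h3 := abs_dx_le (by norm_num) h2
  have h4 := h.au 0 h.mem0
  have h5 := h.aθ
  have h6 := h.ha
  have h7 : |wp u 0| ≤ 2 * 1 + |u 0| := by
    unfold wp
    refine (abs_sub _ _).trans ?_
    rw [abs_mul, abs_two]
    linarith
  calc a * |wp u 0| ≤ a * (2 * 1 + |u 0|) := by gcongr
    _ = 2 * a + a * |u 0| := by ring
    _ ≤ 3 * θ := by linarith

theorem Sit.lap_ui (h : Sit m Λ K A a ε κ θ u ς) (hQF : S_QF) {z : ℂ}
    (hz : z ∈ ball (0 : ℂ) A) : |lap (ui a u ς) z| ≤ 15 * K ^ 4 * θ := by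
  have hK := h.K0
  have hK1 := h.hK1
  have ht := h.ht
  have hθ := h.θ0
  have ha := h.ha
  have hθ1 : θ ≤ 1 := by linarith [h.θ1]
  have haθ := h.aθ
  have h1 := h.hh_bd hQF hz
  have h2 := (h.U_bd hQF hz).2.2
  have h3 := h.au z hz
  have h4 := h.al_sq_le
  have h5 := h.al_sq_le'
  have hε1 : ε ≤ 1 := h.εθ.trans hθ1
  have e : lap (ui a u ς) z = hh (al a ς) (ui a u ς) z - al a ς ^ 2 * u z +
      al a ς ^ 2 * UU a u ς z := by
    unfold hh ui
    ring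
  have k1 : |al a ς ^ 2 * u z| ≤ K ^ 2 * θ := by
    rw [abs_mul, abs_of_nonneg (sq_nonneg _)]
    calc al a ς ^ 2 * |u z| ≤ K ^ 2 * a ^ 2 * |u z| := by gcongr
      _ = K ^ 2 * a * (a * |u z|) := by ring
      _ ≤ K ^ 2 * 1 * θ := by
          have : a ≤ 1 := haθ.trans hθ1
          gcongr
      _ = K ^ 2 * θ := by ring
  have k2 : |al a ς ^ 2 * UU a u ς z| ≤ 4 * K ^ 3 * θ := by
    rw [abs_mul, abs_of_nonneg (sq_nonneg _)]
    calc al a ς ^ 2 * |UU a u ς z| ≤ K ^ 2 * θ ^ 2 * (4 * K) := by gcongr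
      _ = 4 * K ^ 3 * (θ * θ) := by ring
      _ ≤ 4 * K ^ 3 * (θ * 1) := by gcongr
      _ = 4 * K ^ 3 * θ := by ring
  have k3 : 10 * K ^ 4 * (ε * θ) ≤ 10 * K ^ 4 * (1 * θ) := by gcongr
  have k4 : K ^ 2 * θ ≤ K ^ 4 * θ := by
    have : K ^ 2 ≤ K ^ 4 := pow_le_pow_right₀ hK1 (by norm_num)
    gcongr
  have k5 : K ^ 3 * θ ≤ K ^ 4 * θ := by
    have : K ^ 3 ≤ K ^ 4 := pow_le_pow_right₀ hK1 (by norm_num)
    gcongr
  rw [e]
  calc |hh (al a ς) (ui a u ς) z - al a ς ^ 2 * u z + al a ς ^ 2 * UU a u ς z| ≤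
        |hh (al a ς) (ui a u ς) z - al a ς ^ 2 * u z| + |al a ς ^ 2 * UU a u ς z| :=
        abs_add_le _ _
    _ ≤ |hh (al a ς) (ui a u ς) z| + |al a ς ^ 2 * u z| + |al a ς ^ 2 * UU a u ς z| :=
        add_le_add (abs_sub _ _) le_rfl
    _ ≤ 15 * K ^ 4 * θ := by linarith

theorem Sit.toAD (h : Sit m Λ K A a ε κ θ u ς) (hQF : S_QF) (hPW : S_PW) :
    AD (102 * K ^ 6) A (al a ς) ε κ θ (al a ς ^ 2 * wp u 0) (al a ς ^ 2 * wp u 0 ^ 2)
      ((cA u : ℂ) + cB a u ς * Complex.I) (qi a u ς) (wp u) (ui a u ς) := by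
  have hK := h.K0
  have hK1 := h.hK1
  have ht := h.ht
  have hθ := h.θ0
  have ha := h.ha
  have hθ1 : θ ≤ 1 := by linarith [h.θ1]
  have haθ := h.aθ
  have hw0 := h.w0
  have P1 : K ≤ K ^ 6 := le_self_pow₀ hK1 (by norm_num)
  have P2 : K ^ 2 ≤ K ^ 6 := pow_le_pow_right₀ hK1 (by norm_num)
  have P4 : K ^ 4 ≤ K ^ 6 := pow_le_pow_right₀ hK1 (by norm_num)
  have hKQ : K ≤ 102 * K ^ 6 := by linarith
  have hn : ‖(cA u : ℂ) + cB a u ς * Complex.I‖ ^ 2 = cA u ^ 2 + cB a u ς ^ 2 := by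
    rw [← Complex.normSq_eq_norm_sq, Complex.normSq_apply]
    simp
    ring
  have hc0 := h.c0_norm
  have hn0 := norm_nonneg ((cA u : ℂ) + cB a u ς * Complex.I)
  refine
  { hA := h.hA
    hQ1 := hK1.trans hKQ
    hAQ := h.hAK.trans hKQ
    hEQ := h.hEK.trans hKQ
    hε := h.hε
    hκ := h.hκ
    εθ := h.εθ
    κθ := h.κθ
    θ1 := hθ1
    αθ := ?_
    cq := h.q_cd hQF
    cv := ?_
    cu := (h.cui hQF).of_le (by norm_num)
    vu := (h.wp_ui hQF).symm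
    ux := h.dx_ui_zero hQF
    uy := h.dy_ui_zero hQF
    u10 := Sit.ui_zero a u ς
    lu := ?_
    hp := rfl
    hc := rfl
    pθ := ?_
    cθ := ?_
    n1 := ?_
    n2 := ?_
    f4 := ?_
    f5 := ?_
    f6 := ?_
    f7 := ?_
    f8 := ?_ }
  · refine h.al_sq_le'.trans ?_
    have : K ^ 2 ≤ 102 * K ^ 6 := by linarith
    gcongr
  · have h1 : ContDiff ℝ 1 (dx u) := (contDiff_dx3 h.sol.hu).of_le (by norm_num)
    have h2 : ContDiff ℝ 1 u := h.sol.hu.of_le (by norm_num)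
    unfold wp
    exact (contDiff_const.mul h1).sub h2
  · intro z hz
    refine (h.lap_ui hQF hz).trans ?_
    have : 15 * K ^ 4 ≤ 102 * K ^ 6 := by nlinarith
    gcongr
  · rw [abs_mul, abs_of_nonneg (sq_nonneg _)]
    have h1 := h.al_sq_le
    calc al a ς ^ 2 * |wp u 0| ≤ K ^ 2 * a ^ 2 * |wp u 0| := by gcongr
      _ = K ^ 2 * a * (a * |wp u 0|) := by ring
      _ ≤ K ^ 2 * 1 * (3 * θ) := by
          have : a ≤ 1 := haθ.trans hθ1
          gcongr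
      _ = 3 * K ^ 2 * θ := by ring
      _ ≤ 102 * K ^ 6 * θ := by
          have : 3 * K ^ 2 ≤ 102 * K ^ 6 := by nlinarith
          gcongr
  · have h1 := h.al_sq_le
    have h0 : 0 ≤ a * |wp u 0| := by positivity
    calc al a ς ^ 2 * wp u 0 ^ 2 ≤ K ^ 2 * a ^ 2 * wp u 0 ^ 2 := by gcongr
      _ = K ^ 2 * (a * |wp u 0|) ^ 2 := by rw [mul_pow, sq_abs]; ring
      _ ≤ K ^ 2 * (3 * θ) ^ 2 := by gcongr
      _ = 9 * K ^ 2 * (θ * θ) := by ring
      _ ≤ 9 * K ^ 2 * (1 * θ) := by gcongr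
      _ ≤ 102 * K ^ 6 * θ := by
          have : 9 * K ^ 2 ≤ 102 * K ^ 6 := by nlinarith
          rw [one_mul]
          gcongr
  · nlinarith [hc0.1]
  · nlinarith [hc0.2]
  · intro z hz
    refine (h.f4 hQF hz).trans ?_
    have : 4 * K ^ 4 ≤ 102 * K ^ 6 := by nlinarith
    gcongr
  · intro z hz G hG hq
    refine (h.f5 hQF hz hG hq).trans ?_
    have h0 : 0 ≤ G + al a ς ^ 2 * |wp u z| + ε * θ := by positivity
    have : 100 * K ^ 6 ≤ 102 * K ^ 6 := by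
      have : 0 ≤ K ^ 6 := by positivity
      linarith
    gcongr
  · intro z hz g hg hw
    refine (h.f6 hQF hz hg hw).trans ?_
    have h0 : 0 ≤ al a ς ^ 2 * (g + |wp u z|) + ε * θ := by positivity
    have : 100 * K ^ 6 ≤ 102 * K ^ 6 := by
      have : 0 ≤ K ^ 6 := by positivity
      linarith
    gcongr
  · intro z hz g hg hw
    exact h.f7 hQF hz hg hw
  · refine (h.f8 hQF hPW).trans ?_
    have : 2 * K ^ 2 ≤ 102 * K ^ 6 := by nlinarith
    gcongr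

/-- gradient bound from the domination -/
theorem gu_pre {m Λ a ε κ A K : ℝ} {u ς : ℂ → ℝ} (hK1 : 1 ≤ K)
    (hAK : A ≤ K) (hEK : Real.exp A ≤ K) (hκ : 0 ≤ κ) (hκs : 4 * (K ^ 2 * κ) ≤ 1)
    (dom : ∀ z ∈ ball (0 : ℂ) A, NN u ς a z ≤ Real.exp (z.re + κ / 2 * ‖z‖ ^ 2))
    (_ : NSol m Λ a ε (ball 0 A) u ς) :
    ∀ z ∈ ball (0 : ℂ) A, gsq u z ≤ (2 * K) ^ 2 := by
  intro z hz
  have h0 : ‖z‖ < A := by simpa using hz
  have h1 : z.re ≤ A := ((le_abs_self _).trans (Complex.abs_re_le_norm z)).trans h0.le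
  have h2 : ‖z‖ ^ 2 ≤ K ^ 2 := pow_le_pow_left₀ (norm_nonneg z) (by linarith) 2
  have h3 : κ / 2 * ‖z‖ ^ 2 ≤ 1 / 8 := by
    have : κ * ‖z‖ ^ 2 ≤ κ * K ^ 2 := by gcongr
    linarith
  have h4 : Real.exp (1 / 8) ≤ 2 := by
    have := Real.abs_exp_sub_one_le (x := 1 / 8) (by rw [abs_of_pos] <;> norm_num)
    rw [abs_of_pos (a := (1 / 8 : ℝ)) (by norm_num)] at this
    have := (abs_le.1 this).2
    linarith
  have h5 : NN u ς a z ≤ K * 2 := by
    refine (dom z hz).trans ?_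
    rw [Real.exp_add]
    exact mul_le_mul ((Real.exp_le_exp.2 h1).trans hEK) ((Real.exp_le_exp.2 h3).trans h4)
      (Real.exp_pos _).le (by linarith)
  have h6 : gsq u z ≤ NN u ς a z := by
    unfold NN
    nlinarith [sq_nonneg (a * ς z * u z)]
  nlinarith

/-- ME -/
theorem t_ME (hCE : S_CE) (hMODE : S_MODE) (hGRON : S_GRON) (hQF : S_QF) (hPW : S_PW)
    (hPS : S_PS) : S_ME := by
  intro m Λ δ hm hmΛ hδ
  obtain ⟨CM, hCM, hMO⟩ := hMODE
  set R : ℝ := 4 * CM * (1 + 1 / δ) + 1 with hR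
  have hR1 : 1 ≤ R := by
    have : 0 < 4 * CM * (1 + 1 / δ) := by positivity
    linarith
  obtain ⟨CG, hCG, hGR⟩ := hGRON R (by linarith)
  set A : ℝ := 2 * R with hA
  have hA0 : 0 < A := by linarith
  obtain ⟨C, τ, hC, hτ, hCE'⟩ := hCE A hA0
  obtain ⟨CP, aP, hCP, haP, hPS'⟩ := hPS m Λ hm hmΛ
  set K : ℝ := Real.exp A + Λ + A + 1 with hK
  have hexpA := Real.exp_pos A
  have hK1 : 1 ≤ K := by linarith
  have hAK : A ≤ K := by linarith
  have hEK : Real.exp A ≤ K := by linarith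
  have hLK : Λ ≤ K := by linarith
  have hK0 : 0 < K := by linarith
  clear_value K
  set Q : ℝ := 102 * K ^ 6 with hQ
  have hQ0 : 0 < Q := by positivity
  set M : ℝ := Q ^ 2 * (4 * Q ^ 3 * (2 * Q * (C + 1)) + 1) + Q +
    2 * Q * CG * (8 * Q ^ 3 * (2 * Q * (C + 1)) + Q) with hM
  have hM0 : 0 < M := by positivity
  set E : ℝ := 4 * K ^ 2 + 4 * Q ^ 3 + 4 * Q ^ 4 / τ + 2 * M * (1 + CM) + 1 with hE
  have hE1 : 1 ≤ E := by
    have : 0 < 4 * K ^ 2 + 4 * Q ^ 3 + 4 * Q ^ 4 / τ + 2 * M * (1 + CM) := by positivity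
    linarith
  have hE0 : 0 < E := by linarith
  set L : ℝ := 3 * CP + 2 * K ^ 2 with hL
  have hL1 : 1 ≤ L := by nlinarith
  have hL0 : 0 < L := by linarith
  set t : ℝ := min (1 / (L * E)) (min 1 aP) with ht
  have ht0 : 0 < t := by
    rw [ht]
    exact lt_min (by positivity) (lt_min one_pos haP)
  have ht1 : t ≤ 1 := (min_le_right _ _).trans (min_le_left _ _)
  have htP : t ≤ aP := (min_le_right _ _).trans (min_le_right _ _)
  have htE : t ≤ 1 / (L * E) := min_le_left _ _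
  have htt : t ^ 2 ≤ t := by nlinarith
  refine ⟨A, t ^ 2, hA0, by positivity, ?_⟩
  intro a ε κ u ς ha ha0 hε hε0 hκ hκ0 hsol n0 nx ny dom
  set θ : ℝ := L * t with hθ
  have hθ0 : 0 < θ := by positivity
  have hθE : θ * E ≤ 1 := by
    have : L * t * E ≤ L * (1 / (L * E)) * E := by gcongr
    calc θ * E ≤ L * (1 / (L * E)) * E := this
      _ = 1 := by field_simp
  have htθ : t ≤ θ := le_mul_of_one_le_left ht0.le hL1
  have hθ1 : θ ≤ 1 := by nlinarith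
  have hθ2 : θ ^ 2 ≤ θ := by nlinarith
  have c1 : 4 * (K ^ 2 * θ) ≤ 1 := by
    have : θ * (4 * K ^ 2) ≤ θ * E := by
      apply mul_le_mul_of_nonneg_left _ hθ0.le
      have : 0 < 4 * Q ^ 3 + 4 * Q ^ 4 / τ + 2 * M * (1 + CM) := by positivity
      linarith
    linarith
  have c2 : 4 * (Q ^ 3 * θ ^ 2) ≤ 1 := by
    have h1 : θ * (4 * Q ^ 3) ≤ θ * E := by
      apply mul_le_mul_of_nonneg_left _ hθ0.le
      have : 0 < 4 * K ^ 2 + 4 * Q ^ 4 / τ + 2 * M * (1 + CM) := by positivity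
      linarith
    have h2 : Q ^ 3 * θ ^ 2 ≤ Q ^ 3 * θ := by gcongr
    linarith
  have c3 : 4 * (Q ^ 4 * θ ^ 2) ≤ τ := by
    have h1 : θ * (4 * Q ^ 4 / τ) ≤ θ * E := by
      apply mul_le_mul_of_nonneg_left _ hθ0.le
      have : 0 < 4 * K ^ 2 + 4 * Q ^ 3 + 2 * M * (1 + CM) := by positivity
      linarith
    have h3 : θ * (4 * Q ^ 4 / τ) ≤ 1 := h1.trans hθE
    have h4 : θ * (4 * Q ^ 4) ≤ τ := by
      rw [← mul_div_assoc, div_le_iff₀ hτ] at h3
      linarith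
    have h2 : Q ^ 4 * θ ^ 2 ≤ Q ^ 4 * θ := by gcongr
    linarith
  have c4 : 2 * (M * θ) * (1 + CM) ≤ 1 := by
    have : θ * (2 * M * (1 + CM)) ≤ θ * E := by
      apply mul_le_mul_of_nonneg_left _ hθ0.le
      have : 0 < 4 * K ^ 2 + 4 * Q ^ 3 + 4 * Q ^ 4 / τ := by positivity
      linarith
    linarith
  have hat : a ≤ t := ha0.trans htt
  have hεt : ε ≤ t := hε0.trans htt
  have hκt : κ ≤ t := hκ0.trans htt
  have hκs : √κ ≤ t := by
    rw [← Real.sqrt_sq ht0.le]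
    exact Real.sqrt_le_sqrt hκ0
  have hεs : √ε ≤ t := by
    rw [← Real.sqrt_sq ht0.le]
    exact Real.sqrt_le_sqrt hε0
  -- the bound for `a |u|`
  have hgu := gu_pre hK1 hAK hEK hκ (by
    have : K ^ 2 * κ ≤ K ^ 2 * θ := by
      have := hκt.trans htθ
      gcongr
    linarith) dom hsol
  have hu0 := (hPS' a ε κ A u ς ha (hat.trans htP) hε (hεt.trans htP) hκ hA0 hsol n0 nx ny).2.2 dom
  have hu1 : a * |u 0| ≤ 3 * CP * t := by
    refine hu0.trans ?_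
    have : a + √κ + √ε ≤ 3 * t := by linarith
    calc CP * (a + √κ + √ε) ≤ CP * (3 * t) := by gcongr
      _ = 3 * CP * t := by ring
  have hau : ∀ z ∈ ball (0 : ℂ) A, a * |u z| ≤ θ := by
    intro z hz
    have h1 := mvt (hsol.hu.of_le (by norm_num)) (convex_ball (0 : ℂ) A) (G := 2 * K)
      (by positivity) (mem_ball_self hA0) hgu z hz
    have h2 : ‖z‖ ≤ K := by
      have : ‖z‖ < A := by simpa using hz
      linarith
    have h3 : |u z| ≤ |u 0| + 2 * K * K := by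
      have e1 : |u z| ≤ |u z - u 0| + |u 0| := by
        have := abs_add_le (u z - u 0) (u 0)
        simpa using this
      have e2 : 2 * K * ‖z‖ ≤ 2 * K * K := by gcongr
      linarith
    calc a * |u z| ≤ a * (|u 0| + 2 * K * K) := by gcongr
      _ = a * |u 0| + a * (2 * K ^ 2) := by ring
      _ ≤ 3 * CP * t + t * (2 * K ^ 2) := by gcongr
      _ = θ := by rw [hθ, hL]; ring
  have hS : Sit m Λ K A a ε κ θ u ς :=
    { hm := hm
      hA := hA0
      hK1 := hK1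
      hAK := hAK
      hLK := hLK
      hEK := hEK
      ha := ha
      hε := hε
      hκ := hκ
      aθ := hat.trans htθ
      εθ := hεt.trans htθ
      κθ := hκt.trans htθ
      small := c1
      sol := hsol
      n0 := n0
      nx := nx
      ny := ny
      dom := dom
      au := hau }
  exact (hS.toAD hQF hPW).final hδ hC hCG hCM hR hA hCE' hGR hMO c2 c3 c4

end Pool.Agent.Helper904_Yau.PME
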