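import Pool.Agent.Helper904_Yau.Stmts
import Pool.Agent.Helper904_QS.IE
import Pool.Agent.Helper904_QS.Bump
import Pool.Agent.Helper904_QS.J
import Pool.Agent.Helper904_QS.KER
import Pool.Agent.Helper904_QS.WMP

/-!
# MP_c7f82c_an, piece MODE: the first Fourier mode
-/

set_option autoImplicit false

open MeasureTheory Set Metric Filter Topology
open scoped ContDiff
open Pool.Agent.Helper904_QS

namespace Pool.Agent.Helper904_Yau.PMODE

/-! ### real parts of entire functions -/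

theorem hasFD {h : ℂ → ℂ} (hd : Differentiable ℂ h) (z v : ℂ) :
    fderiv ℝ (fun z => (h z).re) z v = (v * deriv h z).re := by
  have h1 : HasFDerivAt h ((ContinuousLinearMap.toSpanSingleton ℂ (deriv h z)).restrictScalars ℝ) z :=
    ((hd z).hasDerivAt.hasFDerivAt).restrictScalars ℝ
  have h2 : HasFDerivAt (fun z => (h z).re)
      (Complex.reCLM.comp ((ContinuousLinearMap.toSpanSingleton ℂ (deriv h z)).restrictScalars ℝ)) z :=
    Complex.reCLM.hasFDerivAt.comp z h1
  rw [h2.fderiv]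
  simp

theorem dx_reC {h : ℂ → ℂ} (hd : Differentiable ℂ h) (z : ℂ) :
    dx (fun z => (h z).re) z = (deriv h z).re := by
  unfold dx; rw [hasFD hd]; simp

theorem dy_reC {h : ℂ → ℂ} (hd : Differentiable ℂ h) (z : ℂ) :
    dy (fun z => (h z).re) z = -(deriv h z).im := by
  unfold dy; rw [hasFD hd]; simp

theorem dderiv {h : ℂ → ℂ} (hd : Differentiable ℂ h) : Differentiable ℂ (deriv h) :=
  (hd.contDiff (n := 2)).differentiable_deriv_two

theorem contDiff_reC {h : ℂ → ℂ} (hd : Differentiable ℂ h) (n : ℕ∞ω) :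
    ContDiff ℝ n (fun z => (h z).re) :=
  Complex.reCLM.contDiff.comp ((hd.contDiff (n := n)).restrict_scalars ℝ)

theorem lap_reC {h : ℂ → ℂ} (hd : Differentiable ℂ h) (z : ℂ) :
    lap (fun z => (h z).re) z = 0 := by
  have h1 : dx (fun z => (h z).re) = fun z => (deriv h z).re := by ext y; exact dx_reC hd y
  have h2 : dy (fun z => (h z).re) = fun z => -(deriv h z).im := by ext y; exact dy_reC hd y
  have h3 : (fun z => -(deriv h z).im) = fun z => (Complex.I * deriv h z).re := by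
    ext y; simp
  have d1 := dderiv hd
  have d2 : Differentiable ℂ (fun z => Complex.I * deriv h z) := d1.const_mul _
  unfold lap
  rw [h1, h2, h3, dx_reC d1, dy_reC d2, deriv_const_mul _ (d1 z)]
  simp

/-! ### the entire function `c (1 - e^{-z/2}) / z` -/

noncomputable def g0 (c : ℂ) (z : ℂ) : ℂ := c * (1 - Complex.exp (-z / 2))

noncomputable def h0 (c : ℂ) : ℂ → ℂ := dslope (g0 c) 0

theorem der_g0 (c z : ℂ) : HasDerivAt (g0 c) (c / 2 * Complex.exp (-z / 2)) z := by
  have h1 : HasDerivAt (fun z : ℂ => -z / 2) (-1 / 2) z := ((hasDerivAt_id z).neg).div_const 2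
  have h2 := (h1.cexp.const_sub 1).const_mul c
  have e : c / 2 * Complex.exp (-z / 2) = c * -(Complex.exp (-z / 2) * (-1 / 2)) := by ring
  rw [e]
  exact h2

theorem diff_g0 (c : ℂ) : Differentiable ℂ (g0 c) := fun z => (der_g0 c z).differentiableAt

theorem diff_h0 (c : ℂ) : Differentiable ℂ (h0 c) := by
  have := (Complex.differentiableOn_dslope (s := univ) (c := 0) (f := g0 c) univ_mem).2
    (diff_g0 c).differentiableOn
  exact differentiableOn_univ.1 this

theorem mul_h0 (c z : ℂ) : z * h0 c z = g0 c z := by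
  have := sub_smul_dslope (g0 c) 0 z
  simpa [g0, h0] using this

theorem der1 (c z : ℂ) : h0 c z + z * deriv (h0 c) z = c / 2 * Complex.exp (-z / 2) := by
  have h1 : HasDerivAt (fun z => z * h0 c z) (1 * h0 c z + z * deriv (h0 c) z) z :=
    (hasDerivAt_id z).mul (diff_h0 c z).hasDerivAt
  have h2 : (fun z => z * h0 c z) = g0 c := by ext y; exact mul_h0 c y
  rw [h2] at h1
  have := h1.unique (der_g0 c z)
  rw [← this]; ring

theorem h0_zero (c : ℂ) : h0 c 0 = c / 2 := by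
  have := der1 c 0
  simpa using this

theorem dh0_zero (c : ℂ) : deriv (h0 c) 0 = -(c / 8) := by
  have d1 := diff_h0 c
  have d2 := dderiv d1
  have h1 : HasDerivAt (fun z => h0 c z + z * deriv (h0 c) z)
      (deriv (h0 c) 0 + (1 * deriv (h0 c) 0 + 0 * deriv (deriv (h0 c)) 0)) 0 :=
    (d1 0).hasDerivAt.add ((hasDerivAt_id (0 : ℂ)).mul (d2 0).hasDerivAt)
  have h2 : (fun z => h0 c z + z * deriv (h0 c) z) = fun z => c / 2 * Complex.exp (-z / 2) := by
    ext y; exact der1 c y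
  rw [h2] at h1
  have h3 : HasDerivAt (fun z : ℂ => -z / 2) (-1 / 2) 0 := ((hasDerivAt_id (0:ℂ)).neg).div_const 2
  have h4 := h3.cexp.const_mul (c / 2)
  have h5 := h1.unique h4
  simp only [neg_zero, zero_div, Complex.exp_zero, one_mul, zero_mul, add_zero] at h5
  have h6 : 2 * deriv (h0 c) 0 = c / 2 * (-1 / 2) := by rw [← h5]; ring
  have h7 : deriv (h0 c) 0 = (2 * deriv (h0 c) 0) / 2 := by ring
  rw [h7, h6]; ring

/-! ### the comparison function -/

noncomputable def PP (R : ℝ) (z : ℂ) : ℝ := R ^ 2 - (z.re ^ 2 + z.im ^ 2)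

theorem contDiff_PP (R : ℝ) (n : ℕ∞ω) : ContDiff ℝ n (PP R) := by
  unfold PP
  exact contDiff_const.sub ((Complex.reCLM.contDiff.pow 2).add (Complex.imCLM.contDiff.pow 2))

theorem dx_PP (R : ℝ) : dx (PP R) = fun z => -2 * z.re := by
  ext z
  unfold PP
  have d1 : DifferentiableAt ℝ (fun z : ℂ => z.re ^ 2) z := (dre z).fun_pow 2
  have d2 : DifferentiableAt ℝ (fun z : ℂ => z.im ^ 2) z := (dim z).fun_pow 2
  rw [dx_sub (differentiableAt_const _) (d1.fun_add d2), dx_const,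
    dx_add d1 d2, dx_sq (dre z), dx_sq (dim z), dx_re, dx_im]
  ring

theorem dy_PP (R : ℝ) : dy (PP R) = fun z => -2 * z.im := by
  ext z
  unfold PP
  have d1 : DifferentiableAt ℝ (fun z : ℂ => z.re ^ 2) z := (dre z).fun_pow 2
  have d2 : DifferentiableAt ℝ (fun z : ℂ => z.im ^ 2) z := (dim z).fun_pow 2
  rw [dy_sub (differentiableAt_const _) (d1.fun_add d2), dy_const,
    dy_add d1 d2, dy_sq (dre z), dy_sq (dim z), dy_re, dy_im]
  ring

theorem lap_PP (R : ℝ) (z : ℂ) : lap (PP R) z = -4 := by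
  unfold lap
  rw [dx_PP, dy_PP, dx_const_mul _ (dre z), dy_const_mul _ (dim z), dx_re, dy_im]
  norm_num

/-- `Γ` -/
noncomputable def GG (c : ℂ) (R : ℝ) (z : ℂ) : ℝ := 1 / 2 * (PP R z * (h0 c z).re)

theorem contDiff_GG (c : ℂ) (R : ℝ) (n : ℕ∞ω) : ContDiff ℝ n (GG c R) :=
  contDiff_const.mul ((contDiff_PP R n).mul (contDiff_reC (diff_h0 c) n))

theorem lap_GG (c : ℂ) (R : ℝ) (z : ℂ) :
    lap (GG c R) z = -(c * Complex.exp (-z / 2)).re := by
  have e1 : GG c R = fun z => 1 / 2 * (PP R z * (h0 c z).re) := rfl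
  have hg : ContDiff ℝ 2 (fun z => (h0 c z).re) := contDiff_reC (diff_h0 c) 2
  rw [e1, lap_const_mul _ ((contDiff_PP R 2).mul hg), lap_mul (contDiff_PP R 2) hg, lap_reC (diff_h0 c),
    lap_PP, dx_PP, dy_PP, dx_reC (diff_h0 c), dy_reC (diff_h0 c)]
  have h1 := congrArg Complex.re (der1 c z)
  have h2 : (c * Complex.exp (-z / 2)).re = 2 * (c / 2 * Complex.exp (-z / 2)).re := by
    have : c * Complex.exp (-z / 2) = ((2 : ℝ) : ℂ) * (c / 2 * Complex.exp (-z / 2)) := by
      push_cast; ring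
    rw [this, Complex.re_ofReal_mul]
  rw [h2, ← h1]
  simp only [Complex.add_re, Complex.mul_re]
  ring

theorem GG_sphere (c : ℂ) (R : ℝ) (z : ℂ) (hz : ‖z‖ = R) : GG c R z = 0 := by
  have : PP R z = 0 := by
    unfold PP
    rw [← hz, ← Complex.normSq_eq_norm_sq, Complex.normSq_apply]; ring
  unfold GG
  rw [this]; ring

theorem GG_zero (c : ℂ) (R : ℝ) : GG c R 0 = R ^ 2 * c.re / 4 := by
  unfold GG PP
  rw [h0_zero]
  simp
  ring

theorem dx_GG_zero (c : ℂ) (R : ℝ) : dx (GG c R) 0 = -(R ^ 2 * c.re / 16) := by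
  have e1 : GG c R = fun z => 1 / 2 * (PP R z * (h0 c z).re) := rfl
  have hg : Differentiable ℝ (fun z => (h0 c z).re) :=
    (contDiff_reC (diff_h0 c) 2).differentiable (by norm_num)
  have hP : Differentiable ℝ (PP R) := (contDiff_PP R 2).differentiable (by norm_num)
  rw [e1, dx_const_mul _ ((hP 0).fun_mul (hg 0)), dx_mul (hP 0) (hg 0), dx_PP, dx_reC (diff_h0 c), dh0_zero]
  unfold PP
  simp
  ring

theorem dy_GG_zero (c : ℂ) (R : ℝ) : dy (GG c R) 0 = R ^ 2 * c.im / 16 := by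
  have e1 : GG c R = fun z => 1 / 2 * (PP R z * (h0 c z).re) := rfl
  have hg : Differentiable ℝ (fun z => (h0 c z).re) :=
    (contDiff_reC (diff_h0 c) 2).differentiable (by norm_num)
  have hP : Differentiable ℝ (PP R) := (contDiff_PP R 2).differentiable (by norm_num)
  rw [e1, dy_const_mul _ ((hP 0).fun_mul (hg 0)), dy_mul (hP 0) (hg 0), dy_PP, dy_reC (diff_h0 c), dh0_zero]
  unfold PP
  simp
  ring

/-! ### `e^{-x}` -/

theorem contDiff_ex (n : ℕ∞ω) : ContDiff ℝ n (fun z : ℂ => Real.exp (-z.re)) :=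
  Real.contDiff_exp.comp (Complex.reCLM.contDiff.neg)

theorem dx_ex : dx (fun z : ℂ => Real.exp (-z.re)) = fun z => -Real.exp (-z.re) := by
  ext z
  have h1 : DifferentiableAt ℝ (fun z : ℂ => -z.re) z := (dre z).neg
  rw [dx_comp (g := Real.exp) (f := fun z : ℂ => -z.re) (Real.hasDerivAt_exp _) h1, dx_neg, dx_re]
  ring

theorem dy_ex : dy (fun z : ℂ => Real.exp (-z.re)) = fun _ => 0 := by
  ext z
  have h1 : DifferentiableAt ℝ (fun z : ℂ => -z.re) z := (dre z).neg
  rw [dy_comp (g := Real.exp) (f := fun z : ℂ => -z.re) (Real.hasDerivAt_exp _) h1, dy_neg, dy_re]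
  ring

theorem lap_ex (z : ℂ) : lap (fun z : ℂ => Real.exp (-z.re)) z = Real.exp (-z.re) := by
  unfold lap
  rw [dx_ex, dy_ex, dy_const, dx_neg, dx_ex]
  ring

theorem Phi_even (R : ℝ) (z : ℂ) : Phi R (-z) = Phi R z := by
  unfold Phi; simp

theorem int_Phi_ex (hK : S_KER) (hI : S_INT) {R : ℝ} (hR : 0 < R) :
    Real.pi * R ^ 2 / 6 ≤ ∫ z, Phi R z * Real.exp (-z.re) := by
  obtain ⟨_, _, _, _, _, _, _, k8, k9, k10, _, _, k13, _⟩ := hK R hR
  have c1 : Continuous (fun z : ℂ => Real.exp (-z.re)) := (contDiff_ex 0).continuous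
  have c2 : Continuous (fun z : ℂ => 1 - z.re) := continuous_const.sub Complex.continuous_re
  have c3 : Continuous (fun z : ℂ => z.re) := Complex.continuous_re
  have h1 : ∫ z, Phi R z * (1 - z.re) ≤ ∫ z, Phi R z * Real.exp (-z.re) := by
    apply PIE.Phi_mono hK hI c2 c1 hR
    intro z _
    have := Real.add_one_le_exp (-z.re)
    linarith
  have h2 : ∫ z, Phi R z * z.re = 0 := by
    have h3 : ∫ z : ℂ, Phi R z * z.re = ∫ z : ℂ, Phi R (-z) * (-z).re :=
      (integral_neg_eq_self (fun z : ℂ => Phi R z * z.re) volume).symm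
    have h4 : (fun z : ℂ => Phi R (-z) * (-z).re) = fun z => -(Phi R z * z.re) := by
      ext z; rw [Phi_even]; simp
    rw [h4, integral_neg] at h3
    linarith
  have h5 : ∫ z, Phi R z * (1 - z.re) = Real.pi * R ^ 2 / 6 := by
    have e : (fun z : ℂ => Phi R z * (1 - z.re)) = fun z => Phi R z - Phi R z * z.re := by
      ext z; ring
    rw [e, integral_sub k8 (PIE.int_Phi hI c3 hR), h2, k13]; ring
  rw [← h5]; exact h1

theorem int_chi_ex (hJ : S_J) (hK : S_KER) (hI : S_INT) {R : ℝ} (hR : 0 < R) :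
    2 * Real.pi + Real.pi * R ^ 2 / 6 ≤ ∫ z, chi R z * Real.exp (-z.re) := by
  have h := PIE.J0 hJ (contDiff_ex 2) hR
  simp only [lap_ex] at h
  have h2 := int_Phi_ex hK hI hR
  simp only [Complex.zero_re, neg_zero, Real.exp_zero, mul_one] at h
  linarith

theorem sq_arith {a b x y G c : ℝ} (hG : 0 ≤ G) (hc : 0 ≤ c) (h1 : a ^ 2 + b ^ 2 ≤ G ^ 2)
    (h2 : x ^ 2 + y ^ 2 ≤ c ^ 2) : (a + 2 * x) ^ 2 + (b + 2 * y) ^ 2 ≤ (2 * G + 3 * c) ^ 2 := by
  have h3 : (a + 2 * x) ^ 2 ≤ 2 * a ^ 2 + 8 * x ^ 2 := by nlinarith [sq_nonneg (a - 2 * x)]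
  have h4 : (b + 2 * y) ^ 2 ≤ 2 * b ^ 2 + 8 * y ^ 2 := by nlinarith [sq_nonneg (b - 2 * y)]
  have h5 : 0 ≤ G * c := mul_nonneg hG hc
  nlinarith [sq_nonneg G, sq_nonneg c]

/-- the real inequalities at the end -/
theorem arith {CG R p κ c₂ e n H I : ℝ} (hCG : 0 < CG) (hR : 1 ≤ R) (hκ : 0 ≤ κ) (hc : 0 ≤ c₂)
    (he : 0 ≤ e) (hp : 0 ≤ p)
    (h1 : H ≤ κ * R ^ 2 + c₂ + e + p * R ^ 2 / 2)
    (h2 : c₂ * (2 * Real.pi + Real.pi * R ^ 2 / 6) ≤
      2 * Real.pi * H + 2 * e * (Real.pi * R ^ 2 / 6) + Real.pi * e * R ^ 2)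
    (h3 : I ≤ R ^ 2 / 3 * (2 * Real.pi * (H + e * R ^ 2 / 2) + 2 * e * (Real.pi * R ^ 2 / 6)))
    (h4 : p * (R ^ 2 * n / 16) ≤ 2 * (CG * (I / (R / 2) ^ 3 + R / 2 * (2 * e))) + 3 * (c₂ + e)) :
    p * n * R ≤ (15296 * CG + 1008) * (κ + p + e) ∧ c₂ ≤ (15296 * CG + 1008) * (κ + p + e) := by
  have hpi := Real.pi_pos
  have hpi4 := Real.pi_lt_four
  have hR0 : 0 < R := by linarith
  have hR2 : 1 ≤ R ^ 2 := by nlinarith
  have hc2 : c₂ ≤ 12 * κ + 6 * p + 20 * e := by
    have a1 : 2 * Real.pi * H ≤ 2 * Real.pi * (κ * R ^ 2 + c₂ + e + p * R ^ 2 / 2) :=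
      mul_le_mul_of_nonneg_left h1 (by positivity)
    have a2 : Real.pi * (c₂ * R ^ 2) ≤ Real.pi * ((12 * κ + 6 * p + 8 * e) * R ^ 2 + 12 * e) := by
      nlinarith
    have a3 : c₂ * R ^ 2 ≤ (12 * κ + 6 * p + 8 * e) * R ^ 2 + 12 * e :=
      le_of_mul_le_mul_left a2 hpi
    have a4 : 12 * e ≤ 12 * e * R ^ 2 := by nlinarith
    have a5 : c₂ * R ^ 2 ≤ (12 * κ + 6 * p + 20 * e) * R ^ 2 := by nlinarith
    exact le_of_mul_le_mul_right a5 (by positivity)
  set S := κ + p + e with hS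
  have hS0 : 0 ≤ S := by positivity
  have hc20 : c₂ ≤ 20 * S := by rw [hS]; linarith
  refine ⟨?_, ?_⟩
  swap
  · have : 0 ≤ (15296 * CG + 988) * S := by positivity
    linarith
  -- divide by `R`
  have b1 : H ≤ R ^ 2 * (21 * S) := by
    have : c₂ + e ≤ (c₂ + e) * R ^ 2 := by nlinarith
    have : κ * R ^ 2 + c₂ + e + p * R ^ 2 / 2 ≤ R ^ 2 * (κ + (c₂ + e) + p / 2) := by nlinarith
    have h5 : κ + (c₂ + e) + p / 2 ≤ 21 * S := by rw [hS]; rw [hS] at hc20; linarith
    have h6 : R ^ 2 * (κ + (c₂ + e) + p / 2) ≤ R ^ 2 * (21 * S) :=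
      mul_le_mul_of_nonneg_left h5 (by positivity)
    linarith
  have heS : e ≤ S := by rw [hS]; linarith
  have b2 : I ≤ R ^ 4 * (58 * S) := by
    have c2 : R ^ 2 * e ≤ R ^ 2 * S := mul_le_mul_of_nonneg_left heS (by positivity)
    have c3 : 2 * (H + e * R ^ 2 / 2) + 2 * e * (R ^ 2 / 6) ≤ R ^ 2 * (43.5 * S) := by
      have : 0 ≤ R ^ 2 * S := by positivity
      linarith
    have c4 : Real.pi * (2 * (H + e * R ^ 2 / 2) + 2 * e * (R ^ 2 / 6)) ≤
        4 * (R ^ 2 * (43.5 * S)) := by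
      calc Real.pi * (2 * (H + e * R ^ 2 / 2) + 2 * e * (R ^ 2 / 6))
          ≤ Real.pi * (R ^ 2 * (43.5 * S)) := mul_le_mul_of_nonneg_left c3 hpi.le
        _ ≤ 4 * (R ^ 2 * (43.5 * S)) := mul_le_mul_of_nonneg_right hpi4.le (by positivity)
    calc I ≤ R ^ 2 / 3 * (2 * Real.pi * (H + e * R ^ 2 / 2) + 2 * e * (Real.pi * R ^ 2 / 6)) := h3
      _ = R ^ 2 / 3 * (Real.pi * (2 * (H + e * R ^ 2 / 2) + 2 * e * (R ^ 2 / 6))) := by ring
      _ ≤ R ^ 2 / 3 * (4 * (R ^ 2 * (43.5 * S))) := mul_le_mul_of_nonneg_left c4 (by positivity)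
      _ = R ^ 4 * (58 * S) := by ring
  have b3 : I / (R / 2) ^ 3 ≤ R * (464 * S) := by
    rw [div_le_iff₀ (by positivity)]
    calc I ≤ R ^ 4 * (58 * S) := b2
      _ = R * (464 * S) * (R / 2) ^ 3 := by ring
  have b4 : CG * (I / (R / 2) ^ 3 + R / 2 * (2 * e)) ≤ CG * (R * (465 * S)) := by
    apply mul_le_mul_of_nonneg_left _ hCG.le
    have : R * e ≤ R * S := mul_le_mul_of_nonneg_left heS hR0.le
    linarith
  have b5 : 3 * (c₂ + e) ≤ R * (63 * S) := by
    have : 3 * (c₂ + e) ≤ 63 * S := by linarith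
    have h6 : 1 * (63 * S) ≤ R * (63 * S) := mul_le_mul_of_nonneg_right hR (by positivity)
    linarith
  have b6 : R * (p * n * R) ≤ R * (16 * (2 * (CG * (465 * S)) + 63 * S)) := by
    have e1 : R * (p * n * R) = 16 * (p * (R ^ 2 * n / 16)) := by ring
    rw [e1]
    have e2 : R * (16 * (2 * (CG * (465 * S)) + 63 * S)) =
        16 * (2 * (CG * (R * (465 * S))) + R * (63 * S)) := by ring
    rw [e2]
    linarith
  have b7 := le_of_mul_le_mul_left b6 hR0
  have : 0 ≤ CG * S := by positivity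
  nlinarith

set_option maxHeartbeats 1000000 in
theorem t_MODE (hJ : S_J) (hK : S_KER) (hI : S_INT) (hW : S_WMP) (hGE : S_GE) : S_MODE := by
  obtain ⟨CG, hCG, hGE⟩ := hGE
  refine ⟨15296 * CG + 1008, by positivity, ?_⟩
  intro R p κ c₂ e c₀ q hR hκ hc₂ he hc₀ hq hq0 hgq hlap hle
  have hR0 : 0 < R := by linarith
  obtain ⟨_, k2, _, k4, k5, _⟩ := hK R hR0
  -- the function H
  set H : ℂ → ℝ := fun z => (κ * R ^ 2 + c₂ + e) + (-2 * q z + p * GG c₀ R z) with hH
  have cG := contDiff_GG c₀ R 2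
  have hH2 : ContDiff ℝ 2 H := contDiff_const.add ((contDiff_const.mul hq).add (contDiff_const.mul cG))
  have hdq : Differentiable ℝ q := hq.differentiable (by norm_num)
  have hdG : Differentiable ℝ (GG c₀ R) := cG.differentiable (by norm_num)
  have lapH : ∀ z, lap H z = -2 * (lap q z + p / 2 * (c₀ * Complex.exp (-z / 2)).re) := by
    intro z
    have e1 : lap H z = lap (fun _ : ℂ => κ * R ^ 2 + c₂ + e) z +
        (lap (fun z => -2 * q z) z + lap (fun z => p * GG c₀ R z) z) := by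
      rw [← lap_add (contDiff_const.mul hq) (contDiff_const.mul cG), ← lap_add contDiff_const
        ((contDiff_const.mul hq).add (contDiff_const.mul cG))]
    rw [e1, lap_const, lap_const_mul _ hq, lap_const_mul _ cG, lap_GG]
    ring
  have lapH_le : ∀ z ∈ ball (0 : ℂ) R, |lap H z| ≤ 2 * e := by
    intro z hz
    rw [lapH, abs_mul, show |(-2 : ℝ)| = 2 by norm_num]
    have := hlap z hz
    linarith
  -- the bound on the closed disc
  have hle' : ∀ z ∈ closedBall (0 : ℂ) R, 2 * q z ≤ κ * R ^ 2 + c₂ - c₂ * Real.exp (-z.re) + e := by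
    have hcl : closedBall (0 : ℂ) R = closure (ball (0 : ℂ) R) := (closure_ball 0 hR0.ne').symm
    intro z hz
    rw [hcl] at hz
    have c1 : Continuous fun z : ℂ => 2 * q z := continuous_const.mul hq.continuous
    have c2 : Continuous fun z : ℂ => κ * R ^ 2 + c₂ - c₂ * Real.exp (-z.re) + e :=
      (continuous_const.sub (continuous_const.mul (contDiff_ex 0).continuous)).add continuous_const
    have hclosed : IsClosed {z : ℂ | 2 * q z ≤ κ * R ^ 2 + c₂ - c₂ * Real.exp (-z.re) + e} :=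
      isClosed_le c1 c2
    exact hclosed.closure_subset_iff.2 (fun z hz => hle z hz) hz
  have hsph : ∀ z ∈ sphere (0 : ℂ) R, c₂ * Real.exp (-z.re) - H z ≤ 0 := by
    intro z hz
    have h1 := hle' z (sphere_subset_closedBall hz)
    have h2 : GG c₀ R z = 0 := GG_sphere c₀ R z (by simpa using hz)
    simp only [hH, h2]
    linarith
  have hHlow : ∀ z ∈ closedBall (0 : ℂ) R, c₂ * Real.exp (-z.re) - e * R ^ 2 / 2 ≤ H z := by
    have cf : ContDiff ℝ 2 (fun z : ℂ => c₂ * Real.exp (-z.re)) := contDiff_const.mul (contDiff_ex 2)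
    have := hW (fun z => c₂ * Real.exp (-z.re) - H z) 0 R (2 * e) 0 (cf.sub hH2) hR0 (by positivity)
      (by
        intro z hz
        rw [lap_sub cf hH2, lap_const_mul _ (contDiff_ex 2), lap_ex]
        have := abs_le.1 (lapH_le z hz)
        have := Real.exp_pos (-z.re)
        have : 0 ≤ c₂ * Real.exp (-z.re) := by positivity
        linarith [this, (abs_le.1 (lapH_le z hz)).2]) hsph
    intro z hz
    have := this z hz
    linarith
  have hH0 : H 0 = κ * R ^ 2 + c₂ + e + p * (R ^ 2 * c₀.re / 4) := by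
    simp only [hH, hq0, GG_zero]; ring
  have hre : |c₀.re| ≤ 2 := (Complex.abs_re_le_norm c₀).trans hc₀
  have h1 : H 0 ≤ κ * R ^ 2 + c₂ + e + |p| * R ^ 2 / 2 := by
    rw [hH0]
    have : p * (R ^ 2 * c₀.re / 4) ≤ |p| * (R ^ 2 * 2 / 4) := by
      calc p * (R ^ 2 * c₀.re / 4) ≤ |p * (R ^ 2 * c₀.re / 4)| := le_abs_self _
        _ = |p| * (R ^ 2 * |c₀.re| / 4) := by
            rw [abs_mul, abs_div, abs_mul, abs_of_nonneg (sq_nonneg R)]; norm_num
        _ ≤ _ := by
            apply mul_le_mul_of_nonneg_left _ (abs_nonneg p)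
            have := mul_le_mul_of_nonneg_left hre (sq_nonneg R)
            linarith
    linarith
  -- J for H
  have hJH := PIE.J0 hJ hH2 hR0
  have hlc : Continuous (lap H) := continuous_lap hH2
  have hPl : ∫ z, Phi R z * lap H z ≤ Real.pi * R ^ 2 / 6 * (2 * e) := by
    rw [← PIE.Phi_const hK hR0]
    exact PIE.Phi_mono hK hI hlc continuous_const hR0 (fun z hz => (abs_le.1 (lapH_le z hz)).2)
  have hcex : Continuous (fun z : ℂ => Real.exp (-z.re)) := (contDiff_ex 0).continuous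
  have h2 : c₂ * (2 * Real.pi + Real.pi * R ^ 2 / 6) ≤
      2 * Real.pi * H 0 + 2 * e * (Real.pi * R ^ 2 / 6) + Real.pi * e * R ^ 2 := by
    have a1 : ∫ z, chi R z * (c₂ * Real.exp (-z.re) - e * R ^ 2 / 2) ≤ ∫ z, chi R z * H z := by
      apply PIE.chi_mono hK hI ((continuous_const.mul hcex).sub continuous_const) hH2.continuous hR0
      intro z hz
      exact hHlow z (ball_subset_closedBall hz)
    have a2 : ∫ z, chi R z * (c₂ * Real.exp (-z.re) - e * R ^ 2 / 2) =
        c₂ * (∫ z, chi R z * Real.exp (-z.re)) - 2 * Real.pi * (e * R ^ 2 / 2) := by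
      rw [← PIE.chi_const hK hR0, ← integral_const_mul, ← integral_sub
        ((PIE.int_chi hI hcex hR0).const_mul _) (PIE.int_chi hI continuous_const hR0)]
      congr 1
      ext z; ring
    have a3 := mul_le_mul_of_nonneg_left (int_chi_ex hJ hK hI hR0) hc₂
    linarith
  -- the gradient estimate
  have hI1 : ∫ z in ball (0 : ℂ) (R / 2), |H z + e * R ^ 2 / 2| ≤
      R ^ 2 / 3 * (2 * Real.pi * (H 0 + e * R ^ 2 / 2) + 2 * e * (Real.pi * R ^ 2 / 6)) := by
    have hH'c : Continuous (fun z => H z + e * R ^ 2 / 2) := hH2.continuous.add continuous_const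
    have hpos : ∀ z ∈ ball (0 : ℂ) R, 0 ≤ H z + e * R ^ 2 / 2 := by
      intro z hz
      have := hHlow z (ball_subset_closedBall hz)
      have : 0 ≤ c₂ * Real.exp (-z.re) := by positivity
      linarith
    have hint : Integrable (fun z => chi R z * (H z + e * R ^ 2 / 2)) := PIE.int_chi hI hH'c hR0
    have b0 : ∀ z, 0 ≤ R ^ 2 / 3 * (chi R z * (H z + e * R ^ 2 / 2)) := by
      intro z
      by_cases hz : ‖z‖ < R
      · have := hpos z (by simpa using hz)
        have := k2 z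
        positivity
      · simp [k4 z (not_lt.1 hz)]
    calc ∫ z in ball (0 : ℂ) (R / 2), |H z + e * R ^ 2 / 2|
        ≤ ∫ z in ball (0 : ℂ) (R / 2), R ^ 2 / 3 * (chi R z * (H z + e * R ^ 2 / 2)) := by
          apply setIntegral_mono_on _ (hint.const_mul _).integrableOn measurableSet_ball
          · intro z hz
            have hz' : ‖z‖ < R / 2 := by simpa using hz
            have p1 := hpos z (by simp; linarith)
            have p2 := k5 z hz'.le
            rw [abs_of_nonneg p1]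
            have p3 : 1 ≤ R ^ 2 / 3 * chi R z := by
              calc (1 : ℝ) = R ^ 2 / 3 * (3 / R ^ 2) := by field_simp
                _ ≤ _ := mul_le_mul_of_nonneg_left p2 (by positivity)
            nlinarith
          · exact (hH'c.abs.locallyIntegrable.integrableOn_isCompact
              (isCompact_closedBall (0 : ℂ) (R / 2))).mono_set ball_subset_closedBall
      _ ≤ ∫ z, R ^ 2 / 3 * (chi R z * (H z + e * R ^ 2 / 2)) :=
          setIntegral_le_integral (hint.const_mul _) (Eventually.of_forall b0)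
      _ = R ^ 2 / 3 * ((∫ z, chi R z * H z) + 2 * Real.pi * (e * R ^ 2 / 2)) := by
          rw [integral_const_mul, ← PIE.chi_const hK hR0, ← integral_add
            (PIE.int_chi hI hH2.continuous hR0) (PIE.int_chi hI continuous_const hR0)]
          congr 2
          ext z; ring
      _ ≤ _ := by
          apply mul_le_mul_of_nonneg_left _ (by positivity)
          linarith
  have hGE1 := hGE (fun z => H z + e * R ^ 2 / 2) 0 (R / 2) (2 * e) (hH2.add contDiff_const)
    (by positivity) (by positivity) (by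
      intro z hz
      rw [lap_add hH2 contDiff_const, lap_const, add_zero]
      apply lapH_le
      simp only [mem_ball_zero_iff] at hz ⊢
      linarith)
  set I := ∫ z in ball (0 : ℂ) (R / 2), |H z + e * R ^ 2 / 2| with hIdef
  have hI0 : 0 ≤ I := integral_nonneg fun z => abs_nonneg _
  set G := CG * (I / (R / 2) ^ 3 + R / 2 * (2 * e)) with hG
  have hG0 : 0 ≤ G := by positivity
  have h4 : |p| * (R ^ 2 * ‖c₀‖ / 16) ≤ 2 * G + 3 * (c₂ + e) := by
    apply le_of_sq_le_sq _ (by positivity)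
    have hx : dx H 0 = -2 * dx q 0 + p * (-(R ^ 2 * c₀.re / 16)) := by
      have e1 : dx H 0 = dx (fun _ : ℂ => κ * R ^ 2 + c₂ + e) 0 +
          (dx (fun z => -2 * q z) 0 + dx (fun z => p * GG c₀ R z) 0) := by
        rw [← dx_add ((hdq 0).const_mul _) ((hdG 0).const_mul _), ← dx_add
          (differentiableAt_const _) (((hdq 0).const_mul _).fun_add ((hdG 0).const_mul _))]
      rw [e1, dx_const, dx_const_mul _ (hdq 0), dx_const_mul _ (hdG 0), dx_GG_zero]
      ring
    have hy : dy H 0 = -2 * dy q 0 + p * (R ^ 2 * c₀.im / 16) := by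
      have e1 : dy H 0 = dy (fun _ : ℂ => κ * R ^ 2 + c₂ + e) 0 +
          (dy (fun z => -2 * q z) 0 + dy (fun z => p * GG c₀ R z) 0) := by
        rw [← dy_add ((hdq 0).const_mul _) ((hdG 0).const_mul _), ← dy_add
          (differentiableAt_const _) (((hdq 0).const_mul _).fun_add ((hdG 0).const_mul _))]
      rw [e1, dy_const, dy_const_mul _ (hdq 0), dy_const_mul _ (hdG 0), dy_GG_zero]
      ring
    have hdH : Differentiable ℝ H := hH2.differentiable (by norm_num)
    have hgH : gsq (fun z => H z + e * R ^ 2 / 2) 0 = dx H 0 ^ 2 + dy H 0 ^ 2 := by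
      unfold gsq
      rw [dx_add (hdH 0) (differentiableAt_const _), dy_add (hdH 0) (differentiableAt_const _),
        dx_const, dy_const]
      ring
    rw [hgH] at hGE1
    unfold gsq at hgq
    have hc2 : ‖c₀‖ ^ 2 = c₀.re ^ 2 + c₀.im ^ 2 := by
      rw [← Complex.normSq_eq_norm_sq, Complex.normSq_apply]; ring
    have e3 : (|p| * (R ^ 2 * ‖c₀‖ / 16)) ^ 2 =
        (dx H 0 + 2 * dx q 0) ^ 2 + (dy H 0 + 2 * dy q 0) ^ 2 := by
      rw [hx, hy, mul_pow, sq_abs, div_pow, mul_pow, hc2]; ring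
    rw [e3]
    exact sq_arith hG0 (by positivity) hGE1 hgq
  exact arith hCG hR hκ hc₂ he (abs_nonneg p) h1 h2 hI1 h4

/-- MODE from GE alone -/
theorem t_MODE' (hGE : S_GE) : S_MODE :=
  t_MODE PJ.t_J PKER.t_KER PKER.t_INT PWMP.t_WMP hGE

end Pool.Agent.Helper904_Yau.PMODE
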