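import Pool.Agent.Helper904_Yau.QF
import Pool.Agent.Helper904_Yau.CT

/-!
PS: consequences at a normalised contact point.
-/

set_option autoImplicit false

open MeasureTheory Set Metric Filter Topology
open scoped ContDiff
open Pool.Agent.Helper904_QS

namespace Pool.Agent.Helper904_Yau

namespace PPS

/-- the Laplacian is nonnegative at a local minimum -/
theorem lap_nonneg_of_min {f : ℂ → ℝ} (hf : ContDiff ℝ 2 f) (y : ℂ)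
    (hmin : ∀ᶠ z in 𝓝 y, f y ≤ f z) : 0 ≤ lap f y := by
  have key : ∀ a b : ℝ, 0 ≤ a * (a * dx (dx f) y + b * dy (dx f) y) +
      b * (a * dx (dy f) y + b * dy (dy f) y) := by
    intro a b
    have d0 := hf.differentiable (by norm_num)
    have d1 := (contDiff_dx1 hf).differentiable (by norm_num)
    have d2 := (contDiff_dy1 hf).differentiable (by norm_num)
    have h0 : ∀ T : ℝ, HasDerivAt (fun T : ℝ => f (y + T * ((a : ℂ) + b * Complex.I)))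
      (a * dx f (y + T * ((a : ℂ) + b * Complex.I)) +
        b * dy f (y + T * ((a : ℂ) + b * Complex.I))) T := fun T =>
      PCT.hasDerivAt_line f y a b T (d0 _)
    have h1 := PCT.hasDerivAt_line (dx f) y a b 0 (d1 _)
    have h2 := PCT.hasDerivAt_line (dy f) y a b 0 (d2 _)
    have h3 := (h1.const_mul a).add (h2.const_mul b)
    have hcont : Tendsto (fun T : ℝ => y + T * ((a : ℂ) + b * Complex.I)) (𝓝 0) (𝓝 y) := by
      have : Continuous (fun T : ℝ => y + T * ((a : ℂ) + b * Complex.I)) := by fun_prop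
      have h := this.tendsto 0
      simpa using h
    have hm : IsLocalMin (fun T : ℝ => f (y + T * ((a : ℂ) + b * Complex.I))) 0 := by
      have h4 := hcont.eventually hmin
      unfold IsLocalMin IsMinFilter
      filter_upwards [h4] with T hT
      simpa using hT
    have h5 := (PCT.second_nec _ _ _ hm (Eventually.of_forall h0) h3).2
    simpa using h5
  have k1 := key 1 0
  have k2 := key 0 1
  simp at k1 k2
  unfold lap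
  linarith

/-- the paraboloid `x + κ/2 |z|²` -/
noncomputable def pp (κ : ℝ) (z : ℂ) : ℝ := Real.exp (z.re + κ / 2 * ‖z‖ ^ 2)

theorem pp_contDiff (κ : ℝ) {n : ℕ∞ω} : ContDiff ℝ n (pp κ) := by
  have h1 : ContDiff ℝ n (fun z : ℂ => z.re) := Complex.reCLM.contDiff
  have h2 : ContDiff ℝ n (fun z : ℂ => ‖z‖ ^ 2) := contDiff_norm_sq ℝ
  unfold pp
  exact (h1.add (contDiff_const.mul h2)).exp

theorem pp_hasFDerivAt (κ : ℝ) (z : ℂ) : HasFDerivAt (pp κ)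
    ((pp κ z * (1 + κ * z.re)) • Complex.reCLM + (pp κ z * (κ * z.im)) • Complex.imCLM) z := by
  have h1 := PQF.hasFDerivAt_re z
  have h2 := PQF.hasFDerivAt_im z
  have h3 := (h1.fun_add (((h1.pow 2).fun_add (h2.pow 2)).const_mul (κ / 2))).exp
  have e : (fun z : ℂ => Real.exp (z.re + κ / 2 * (z.re ^ 2 + z.im ^ 2))) = pp κ := by
    ext z; unfold pp
    rw [Complex.sq_norm, Complex.normSq_apply]
    congr 1; ring
  rw [e] at h3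
  refine h3.congr_fderiv ?_
  have e2 : Real.exp (z.re + κ / 2 * (z.re ^ 2 + z.im ^ 2)) = pp κ z := by rw [← e]
  rw [e2]
  ext v
  simp
  ring

theorem pp_dx (κ : ℝ) (z : ℂ) : dx (pp κ) z = pp κ z * (1 + κ * z.re) := by
  unfold dx
  rw [(pp_hasFDerivAt κ z).fderiv]
  simp

theorem pp_dy (κ : ℝ) (z : ℂ) : dy (pp κ) z = pp κ z * (κ * z.im) := by
  unfold dy
  rw [(pp_hasFDerivAt κ z).fderiv]
  simp

theorem pp_lap (κ : ℝ) : lap (pp κ) 0 = 1 + 2 * κ := by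
  have d0 : DifferentiableAt ℝ (pp κ) 0 := (pp_hasFDerivAt κ 0).differentiableAt
  have hr : HasFDerivAt (fun z : ℂ => 1 + κ * z.re) (κ • Complex.reCLM) 0 := by
    simpa using ((PQF.hasFDerivAt_re 0).const_mul κ).const_add 1
  have hi : HasFDerivAt (fun z : ℂ => κ * z.im) (κ • Complex.imCLM) 0 := by
    simpa using ((PQF.hasFDerivAt_im 0).const_mul κ)
  have h1 : dx (pp κ) = fun z => pp κ z * (1 + κ * z.re) := by ext z; exact pp_dx κ z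
  have h2 : dy (pp κ) = fun z => pp κ z * (κ * z.im) := by ext z; exact pp_dy κ z
  have e1 : dx (fun z : ℂ => 1 + κ * z.re) 0 = κ := by unfold dx; rw [hr.fderiv]; simp
  have e2 : dy (fun z : ℂ => κ * z.im) 0 = κ := by unfold dy; rw [hi.fderiv]; simp
  have e0 : pp κ 0 = 1 := by unfold pp; simp
  unfold lap
  rw [h1, h2, dx_mul d0 hr.differentiableAt, dy_mul d0 hi.differentiableAt, e1, e2, pp_dx, pp_dy,
    e0]
  simp
  ring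

/-- the error term -/
def EE (a s u p q sx sy sl : ℝ) : ℝ :=
  4 * a ^ 2 * s * u * (p * sx + q * sy) + 2 * a ^ 2 * u ^ 2 * (s * sl + (sx ^ 2 + sy ^ 2)) -
    2 * (2 * a ^ 2 * s * u ^ 2) * sx + (2 * a ^ 2 * s * u ^ 2) ^ 2 * (sx ^ 2 + sy ^ 2)

theorem EE_bound {m Λ a ε s u p q sx sy sl : ℝ} (hm : 0 < m) (hmΛ : m ≤ Λ) (ha : 0 < a)
    (ha1 : a ≤ 1) (hε : 0 < ε) (hε1 : ε ≤ 1) (hs : m ≤ s) (hs' : s ≤ Λ)
    (hsx : |sx| ≤ Λ * ε) (hsy : |sy| ≤ Λ * ε) (hsl : |sl| ≤ 2 * Λ * ε ^ 2)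
    (hN : p ^ 2 + q ^ 2 + (a * s * u) ^ 2 = 1) :
    |EE a s u p q sx sy sl| ≤
      (8 * Λ ^ 2 + 12 * Λ ^ 2 / m + 8 * Λ ^ 4 / m ^ 3) * ε * (a * |u|) := by
  have hΛ : 0 < Λ := hm.trans_le hmΛ
  have hs0 : 0 < s := hm.trans_le hs
  have hp : |p| ≤ 1 := by
    rw [← sq_le_one_iff_abs_le_one]; nlinarith [sq_nonneg q, sq_nonneg (a * s * u)]
  have hq : |q| ≤ 1 := by
    rw [← sq_le_one_iff_abs_le_one]; nlinarith [sq_nonneg p, sq_nonneg (a * s * u)]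
  have hasu : |a * s * u| ≤ 1 := by
    rw [← sq_le_one_iff_abs_le_one]; nlinarith [sq_nonneg p, sq_nonneg q]
  set t : ℝ := a * |u| with ht
  have ht0 : 0 ≤ t := by positivity
  have htm : t ≤ 1 / m := by
    rw [le_div_iff₀ hm]
    have h1 : |a * s * u| = a * s * |u| := by
      rw [abs_mul, abs_of_pos (by positivity : 0 < a * s)]
    rw [h1] at hasu
    calc t * m ≤ t * s := by gcongr
      _ = a * s * |u| := by rw [ht]; ring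
      _ ≤ 1 := hasu
  have hsx2 : sx ^ 2 ≤ Λ ^ 2 * ε ^ 2 := by
    rw [← sq_abs, ← mul_pow]; gcongr
  have hsy2 : sy ^ 2 ≤ Λ ^ 2 * ε ^ 2 := by
    rw [← sq_abs sy, ← mul_pow]; gcongr
  have hau : a ^ 2 * u ^ 2 = t ^ 2 := by rw [ht, mul_pow, sq_abs]
  have hε2 : ε ^ 2 ≤ ε := by nlinarith
  have T1 : |4 * a ^ 2 * s * u * (p * sx + q * sy)| ≤ 8 * Λ ^ 2 * ε * t := by
    have e1 : |4 * a ^ 2 * s * u * (p * sx + q * sy)| = 4 * a * s * t * |p * sx + q * sy| := by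
      rw [abs_mul, abs_mul, abs_of_pos (by positivity : 0 < 4 * a ^ 2 * s), ht]; ring
    have e2 : |p * sx + q * sy| ≤ 2 * (Λ * ε) := by
      calc |p * sx + q * sy| ≤ |p| * |sx| + |q| * |sy| := by
            rw [← abs_mul, ← abs_mul]; exact abs_add_le _ _
        _ ≤ 1 * (Λ * ε) + 1 * (Λ * ε) := by gcongr
        _ = 2 * (Λ * ε) := by ring
    rw [e1]
    calc 4 * a * s * t * |p * sx + q * sy| ≤ 4 * 1 * Λ * t * (2 * (Λ * ε)) := by gcongr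
      _ = 8 * Λ ^ 2 * ε * t := by ring
  have T2 : |2 * a ^ 2 * u ^ 2 * (s * sl + (sx ^ 2 + sy ^ 2))| ≤ 8 * Λ ^ 2 / m * ε * t := by
    have e1 : |2 * a ^ 2 * u ^ 2 * (s * sl + (sx ^ 2 + sy ^ 2))| =
        2 * t ^ 2 * |s * sl + (sx ^ 2 + sy ^ 2)| := by
      rw [abs_mul, abs_of_nonneg (by positivity : 0 ≤ 2 * a ^ 2 * u ^ 2), ← hau]; ring
    have e2 : |s * sl + (sx ^ 2 + sy ^ 2)| ≤ 4 * Λ ^ 2 * ε := by
      calc |s * sl + (sx ^ 2 + sy ^ 2)| ≤ |s * sl| + |sx ^ 2 + sy ^ 2| := abs_add_le _ _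
        _ = s * |sl| + (sx ^ 2 + sy ^ 2) := by
            rw [abs_mul, abs_of_pos hs0, abs_of_nonneg (by positivity : 0 ≤ sx ^ 2 + sy ^ 2)]
        _ ≤ Λ * (2 * Λ * ε ^ 2) + (Λ ^ 2 * ε ^ 2 + Λ ^ 2 * ε ^ 2) := by gcongr
        _ = 4 * Λ ^ 2 * ε ^ 2 := by ring
        _ ≤ 4 * Λ ^ 2 * ε := by gcongr
    rw [e1]
    calc 2 * t ^ 2 * |s * sl + (sx ^ 2 + sy ^ 2)| ≤ 2 * t ^ 2 * (4 * Λ ^ 2 * ε) := by gcongr
      _ = 8 * Λ ^ 2 * ε * t * t := by ring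
      _ ≤ 8 * Λ ^ 2 * ε * t * (1 / m) := by gcongr
      _ = 8 * Λ ^ 2 / m * ε * t := by ring
  have T3 : |2 * (2 * a ^ 2 * s * u ^ 2) * sx| ≤ 4 * Λ ^ 2 / m * ε * t := by
    have e1 : |2 * (2 * a ^ 2 * s * u ^ 2) * sx| = 4 * s * t ^ 2 * |sx| := by
      rw [abs_mul, abs_of_nonneg (by positivity : 0 ≤ 2 * (2 * a ^ 2 * s * u ^ 2)), ← hau]; ring
    rw [e1]
    calc 4 * s * t ^ 2 * |sx| ≤ 4 * Λ * t ^ 2 * (Λ * ε) := by gcongr
      _ = 4 * Λ ^ 2 * ε * t * t := by ring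
      _ ≤ 4 * Λ ^ 2 * ε * t * (1 / m) := by gcongr
      _ = 4 * Λ ^ 2 / m * ε * t := by ring
  have T4 : |(2 * a ^ 2 * s * u ^ 2) ^ 2 * (sx ^ 2 + sy ^ 2)| ≤ 8 * Λ ^ 4 / m ^ 3 * ε * t := by
    have e1 : |(2 * a ^ 2 * s * u ^ 2) ^ 2 * (sx ^ 2 + sy ^ 2)| =
        4 * s ^ 2 * t ^ 4 * (sx ^ 2 + sy ^ 2) := by
      rw [abs_of_nonneg (by positivity)]
      have : t ^ 4 = (a ^ 2 * u ^ 2) ^ 2 := by rw [hau]; ring
      rw [this]; ring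
    rw [e1]
    calc 4 * s ^ 2 * t ^ 4 * (sx ^ 2 + sy ^ 2) ≤
          4 * Λ ^ 2 * t ^ 4 * (Λ ^ 2 * ε ^ 2 + Λ ^ 2 * ε ^ 2) := by gcongr
      _ = 8 * Λ ^ 4 * ε ^ 2 * t * t ^ 3 := by ring
      _ ≤ 8 * Λ ^ 4 * ε * t * (1 / m) ^ 3 := by gcongr
      _ = 8 * Λ ^ 4 / m ^ 3 * ε * t := by ring
  unfold EE
  set x1 := 4 * a ^ 2 * s * u * (p * sx + q * sy)
  set x2 := 2 * a ^ 2 * u ^ 2 * (s * sl + (sx ^ 2 + sy ^ 2))
  set x3 := 2 * (2 * a ^ 2 * s * u ^ 2) * sx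
  set x4 := (2 * a ^ 2 * s * u ^ 2) ^ 2 * (sx ^ 2 + sy ^ 2)
  calc |x1 + x2 - x3 + x4| ≤ |x1| + |x2| + |x3| + |x4| := by
        have h1 := abs_add_le (x1 + x2 - x3) x4
        have h2 := abs_sub (x1 + x2) x3
        have h3 := abs_add_le x1 x2
        linarith
    _ ≤ 8 * Λ ^ 2 * ε * t + 8 * Λ ^ 2 / m * ε * t + 4 * Λ ^ 2 / m * ε * t +
        8 * Λ ^ 4 / m ^ 3 * ε * t := by gcongr
    _ = (8 * Λ ^ 2 + 12 * Λ ^ 2 / m + 8 * Λ ^ 4 / m ^ 3) * ε * t := by ring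

/-- second estimate, algebraic part -/
theorem alg2 {m Λ a ε s u p q sx sy w wx wy : ℝ} (hm : 0 < m) (hmΛ : m ≤ Λ) (ha : 0 < a)
    (ha1 : a ≤ 1) (hε : 0 < ε) (hs : m ≤ s) (hs' : s ≤ Λ)
    (hsx : |sx| ≤ Λ * ε) (hsy : |sy| ≤ Λ * ε)
    (hN : p ^ 2 + q ^ 2 + (a * s * u) ^ 2 = 1) (h4 : (a * s * u) ^ 2 ≤ 1 / 4)
    (e1 : p * wx + q * wy = -((a * s) ^ 2 * u * w + 2 * a ^ 2 * s * sx * u ^ 2))
    (e2 : q * wx - p * wy = 2 * a ^ 2 * s * sy * u ^ 2) :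
    2 * (a * s) ^ 2 * (|u| * |wx|) ≤ |(a * s) ^ 2 * w| + 3 * Λ ^ 2 * ε * (a * |u|) := by
  have hΛ : 0 < Λ := hm.trans_le hmΛ
  have hs0 : 0 < s := hm.trans_le hs
  have hp : |p| ≤ 1 := by
    rw [← sq_le_one_iff_abs_le_one]; nlinarith [sq_nonneg q, sq_nonneg (a * s * u)]
  have hq : |q| ≤ 1 := by
    rw [← sq_le_one_iff_abs_le_one]; nlinarith [sq_nonneg p, sq_nonneg (a * s * u)]
  set t : ℝ := a * |u| with ht
  have ht0 : 0 ≤ t := by positivity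
  have hau : a ^ 2 * u ^ 2 = t ^ 2 := by rw [ht, mul_pow, sq_abs]
  have hst : s ^ 2 * t ^ 2 ≤ 1 / 4 := by
    calc s ^ 2 * t ^ 2 = (a * s * u) ^ 2 := by rw [← hau]; ring
      _ ≤ 1 / 4 := h4
  have g1 : |2 * a ^ 2 * s * sx * u ^ 2| ≤ 2 * Λ ^ 2 * ε * t ^ 2 := by
    have : |2 * a ^ 2 * s * sx * u ^ 2| = 2 * s * |sx| * t ^ 2 := by
      rw [← hau, abs_mul, abs_mul, abs_of_pos (by positivity : 0 < 2 * a ^ 2 * s),
        abs_of_nonneg (sq_nonneg u)]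
      ring
    rw [this]
    calc 2 * s * |sx| * t ^ 2 ≤ 2 * Λ * (Λ * ε) * t ^ 2 := by gcongr
      _ = 2 * Λ ^ 2 * ε * t ^ 2 := by ring
  have g2 : |2 * a ^ 2 * s * sy * u ^ 2| ≤ 2 * Λ ^ 2 * ε * t ^ 2 := by
    have : |2 * a ^ 2 * s * sy * u ^ 2| = 2 * s * |sy| * t ^ 2 := by
      rw [← hau, abs_mul, abs_mul, abs_of_pos (by positivity : 0 < 2 * a ^ 2 * s),
        abs_of_nonneg (sq_nonneg u)]
      ring
    rw [this]
    calc 2 * s * |sy| * t ^ 2 ≤ 2 * Λ * (Λ * ε) * t ^ 2 := by gcongr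
      _ = 2 * Λ ^ 2 * ε * t ^ 2 := by ring
  have h5 : (p ^ 2 + q ^ 2) * wx = -(p * ((a * s) ^ 2 * u * w)) + -(p * (2 * a ^ 2 * s * sx * u ^ 2))
      + q * (2 * a ^ 2 * s * sy * u ^ 2) := by
    linear_combination p * e1 + q * e2
  have h6 : 3 / 4 * |wx| ≤ |(a * s) ^ 2 * w| * |u| + 4 * Λ ^ 2 * ε * t ^ 2 := by
    calc 3 / 4 * |wx| ≤ (p ^ 2 + q ^ 2) * |wx| := by
          gcongr; linarith
      _ = |(p ^ 2 + q ^ 2) * wx| := by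
          rw [abs_mul, abs_of_nonneg (by positivity : 0 ≤ p ^ 2 + q ^ 2)]
      _ ≤ |p * ((a * s) ^ 2 * u * w)| + |p * (2 * a ^ 2 * s * sx * u ^ 2)| +
          |q * (2 * a ^ 2 * s * sy * u ^ 2)| := by
          rw [h5]
          refine (abs_add_le _ _).trans ?_
          gcongr
          refine (abs_add_le _ _).trans ?_
          rw [abs_neg, abs_neg]
      _ = |p| * (|(a * s) ^ 2 * w| * |u|) + |p| * |2 * a ^ 2 * s * sx * u ^ 2| +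
          |q| * |2 * a ^ 2 * s * sy * u ^ 2| := by
          rw [abs_mul, abs_mul p, abs_mul q, show (a * s) ^ 2 * u * w = (a * s) ^ 2 * w * u by ring,
            abs_mul ((a * s) ^ 2 * w)]
      _ ≤ 1 * (|(a * s) ^ 2 * w| * |u|) + 1 * (2 * Λ ^ 2 * ε * t ^ 2) +
          1 * (2 * Λ ^ 2 * ε * t ^ 2) := by gcongr
      _ = |(a * s) ^ 2 * w| * |u| + 4 * Λ ^ 2 * ε * t ^ 2 := by ring
  have h7 : |wx| ≤ 4 / 3 * (|(a * s) ^ 2 * w| * |u| + 4 * Λ ^ 2 * ε * t ^ 2) := by linarith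
  have hu2 : |u| ^ 2 = u ^ 2 := sq_abs u
  calc 2 * (a * s) ^ 2 * (|u| * |wx|) ≤
      2 * (a * s) ^ 2 * (|u| * (4 / 3 * (|(a * s) ^ 2 * w| * |u| + 4 * Λ ^ 2 * ε * t ^ 2))) := by
        gcongr
    _ = 8 / 3 * (a * s * u) ^ 2 * |(a * s) ^ 2 * w| +
        32 / 3 * (a * Λ ^ 2 * ε * t) * (s ^ 2 * t ^ 2) := by
        rw [ht]; linear_combination (8 / 3 * (a * s) ^ 2 * |(a * s) ^ 2 * w|) * hu2
    _ ≤ 8 / 3 * (1 / 4) * |(a * s) ^ 2 * w| + 32 / 3 * (1 * Λ ^ 2 * ε * t) * (1 / 4) := by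
        gcongr
    _ ≤ |(a * s) ^ 2 * w| + 3 * Λ ^ 2 * ε * t := by
        have h8 : 0 ≤ |(a * s) ^ 2 * w| := abs_nonneg _
        have h9 : 0 ≤ Λ ^ 2 * ε * t := by positivity
        linarith

/-- third estimate, algebraic part -/
theorem alg3 {m Λ a ε s u p q sx X Y w wx wy κ e : ℝ} (hm : 0 < m) (hmΛ : m ≤ Λ) (ha : 0 < a)
    (ha1 : a * Λ ≤ 1 / 4) (hε : 0 < ε) (hε1 : 2 * Λ ^ 2 * ε ≤ m ^ 2 / 4) (hs : m ≤ s) (hs' : s ≤ Λ)
    (hsx : |sx| ≤ Λ * ε)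
    (hN : p ^ 2 + q ^ 2 + (a * s * u) ^ 2 = 1)
    (hw : w = 2 * p - u) (hwx : wx = 2 * X - p) (hwy : wy = 2 * Y - q)
    (e1 : p * wx + q * wy = -((a * s) ^ 2 * u * w + 2 * a ^ 2 * s * sx * u ^ 2))
    (e3 : (a * s) ^ 2 * ((1 + u * wx - p * w) ^ 2 + (u * wy - q * w) ^ 2) ≤
      2 * κ + (a * s) ^ 2 + e) :
    (m * (a * |u|)) ^ 2 ≤ 16 * Λ ^ 2 * a ^ 2 + 16 * κ + 8 * e := by
  have hΛ : 0 < Λ := hm.trans_le hmΛ
  have hs0 : 0 < s := hm.trans_le hs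
  have hp : |p| ≤ 1 := by
    rw [← sq_le_one_iff_abs_le_one]; nlinarith [sq_nonneg q, sq_nonneg (a * s * u)]
  have hasu : |a * s * u| ≤ 1 := by
    rw [← sq_le_one_iff_abs_le_one]; nlinarith [sq_nonneg p, sq_nonneg q]
  set t : ℝ := a * |u| with ht
  have ht0 : 0 ≤ t := by positivity
  have hau : a ^ 2 * u ^ 2 = t ^ 2 := by rw [ht, mul_pow, sq_abs]
  have hst : s ^ 2 * t ^ 2 = (a * s * u) ^ 2 := by rw [← hau]; ring
  have hst1 : s ^ 2 * t ^ 2 ≤ 1 := by rw [hst]; nlinarith [sq_nonneg p, sq_nonneg q]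
  have hmt : m ^ 2 * t ^ 2 ≤ 1 := by
    calc m ^ 2 * t ^ 2 ≤ s ^ 2 * t ^ 2 := by gcongr
      _ ≤ 1 := hst1
  set Q1 : ℝ := 2 * X + (a * s) ^ 2 * u with hQ1
  set Q2 : ℝ := -(2 * Y) with hQ2
  have g1 : |2 * a ^ 2 * s * sx * u ^ 2| ≤ 1 / 4 := by
    have : |2 * a ^ 2 * s * sx * u ^ 2| = 2 * s * |sx| * t ^ 2 := by
      rw [← hau, abs_mul, abs_mul, abs_of_pos (by positivity : 0 < 2 * a ^ 2 * s),
        abs_of_nonneg (sq_nonneg u)]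
      ring
    rw [this]
    calc 2 * s * |sx| * t ^ 2 ≤ 2 * Λ * (Λ * ε) * t ^ 2 := by gcongr
      _ = 2 * Λ ^ 2 * ε * t ^ 2 := by ring
      _ ≤ m ^ 2 / 4 * t ^ 2 := by gcongr
      _ ≤ 1 / 4 := by linarith
  have g2 : |(a * s) ^ 2 * u * p| ≤ 1 / 4 := by
    have : |(a * s) ^ 2 * u * p| = (a * s) * |a * s * u| * |p| := by
      rw [show (a * s) ^ 2 * u * p = (a * s) * (a * s * u) * p by ring, abs_mul, abs_mul,
        abs_of_pos (by positivity : 0 < a * s)]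
    rw [this]
    calc (a * s) * |a * s * u| * |p| ≤ (a * Λ) * 1 * 1 := by gcongr
      _ ≤ 1 / 4 := by linarith
  have k1 : p * Q1 - q * Q2 + (a * s) ^ 2 * u * p + 2 * a ^ 2 * s * sx * u ^ 2 = 1 := by
    rw [hQ1, hQ2]
    rw [hw, hwx, hwy] at e1
    linear_combination e1 + hN
  have k2 : 1 / 2 ≤ p * Q1 - q * Q2 := by
    have h1 := (abs_le.1 g1).2
    have h2 := (abs_le.1 g2).2
    linarith
  have k3 : 1 / 4 ≤ Q1 ^ 2 + Q2 ^ 2 := by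
    have h1 : (p * Q1 - q * Q2) ^ 2 ≤ (p ^ 2 + q ^ 2) * (Q1 ^ 2 + Q2 ^ 2) := by
      nlinarith [sq_nonneg (p * Q2 + q * Q1)]
    have h2 : (p ^ 2 + q ^ 2) * (Q1 ^ 2 + Q2 ^ 2) ≤ 1 * (Q1 ^ 2 + Q2 ^ 2) := by
      gcongr
      nlinarith [sq_nonneg (a * s * u)]
    have h3 : (1 / 2 : ℝ) ^ 2 ≤ (p * Q1 - q * Q2) ^ 2 := by gcongr
    nlinarith
  set Rr : ℝ := 1 + u * wx - p * w with hRr
  set Ii : ℝ := u * wy - q * w with hIi
  have r1 : u * Q1 = Rr + (p ^ 2 - q ^ 2) := by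
    rw [hRr, hQ1, hwx, hw]
    linear_combination hN
  have r2 : u * Q2 = -Ii - 2 * p * q := by
    rw [hIi, hQ2, hwy, hw]
    ring
  have r3 : (u * Q1) ^ 2 + (u * Q2) ^ 2 ≤ 2 * (Rr ^ 2 + Ii ^ 2) + 2 := by
    have h1 : (u * Q1) ^ 2 + (u * Q2) ^ 2 ≤
        2 * (Rr ^ 2 + Ii ^ 2) + 2 * (p ^ 2 + q ^ 2) ^ 2 := by
      rw [r1, r2]
      nlinarith [sq_nonneg (Rr - (p ^ 2 - q ^ 2)), sq_nonneg (-Ii + 2 * p * q)]
    have h2 : (p ^ 2 + q ^ 2) ^ 2 ≤ 1 ^ 2 := by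
      gcongr
      nlinarith [sq_nonneg (a * s * u)]
    linarith
  have r4 : (a * s * u) ^ 2 * (Q1 ^ 2 + Q2 ^ 2) ≤ 4 * κ + 4 * (a * s) ^ 2 + 2 * e := by
    have h1 : (a * s) ^ 2 * ((u * Q1) ^ 2 + (u * Q2) ^ 2) ≤
        (a * s) ^ 2 * (2 * (Rr ^ 2 + Ii ^ 2) + 2) := by gcongr
    nlinarith
  have r5 : (a * s * u) ^ 2 * (1 / 4) ≤ (a * s * u) ^ 2 * (Q1 ^ 2 + Q2 ^ 2) := by gcongr
  have r6 : (a * s) ^ 2 ≤ Λ ^ 2 * a ^ 2 := by
    rw [mul_pow, mul_comm]; gcongr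
  calc (m * t) ^ 2 = m ^ 2 * t ^ 2 := by ring
    _ ≤ s ^ 2 * t ^ 2 := by gcongr
    _ = (a * s * u) ^ 2 := hst
    _ ≤ 16 * Λ ^ 2 * a ^ 2 + 16 * κ + 8 * e := by linarith

theorem sum_sq_le {x y z : ℝ} (hx : 0 ≤ x) (hy : 0 ≤ y) (hz : 0 ≤ z) :
    x ^ 2 + y ^ 2 + z ^ 2 ≤ (x + y + z) ^ 2 := by
  nlinarith [mul_nonneg hx hy, mul_nonneg hx hz, mul_nonneg hy hz]

theorem le_sq_of {x C : ℝ} (h1 : x ≤ C) (h2 : 1 ≤ C) : x ≤ C ^ 2 := by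
  nlinarith

theorem sq_aux (x y : ℝ) : 1 + 2 * x ≤ (1 + x) ^ 2 + y ^ 2 := by
  nlinarith [sq_nonneg x, sq_nonneg y]

theorem const_le {x1 x2 x3 x4 x5 x6 : ℝ} (h1 : 0 ≤ x1) (h2 : 0 ≤ x2) (h3 : 0 ≤ x3)
    (h4 : 0 ≤ x4) (h5 : 0 ≤ x5) (h6 : 0 ≤ x6) :
    x1 ≤ x1 + x2 + x3 + x4 + x5 + x6 + 1 ∧ x2 ≤ x1 + x2 + x3 + x4 + x5 + x6 + 1 ∧
    x3 ≤ x1 + x2 + x3 + x4 + x5 + x6 + 1 ∧ x4 ≤ x1 + x2 + x3 + x4 + x5 + x6 + 1 ∧
    x5 ≤ x1 + x2 + x3 + x4 + x5 + x6 + 1 ∧ x6 ≤ x1 + x2 + x3 + x4 + x5 + x6 + 1 ∧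
    1 ≤ x1 + x2 + x3 + x4 + x5 + x6 + 1 := by
  refine ⟨?_, ?_, ?_, ?_, ?_, ?_, ?_⟩ <;> linarith

theorem t_PS : S_PS := by
  intro m Λ hm hmΛ
  have hΛ : 0 < Λ := hm.trans_le hmΛ
  set K : ℝ := 8 * Λ ^ 2 + 12 * Λ ^ 2 / m + 8 * Λ ^ 4 / m ^ 3 with hK
  have hK0 : 0 < K := by positivity
  set C : ℝ := Λ ^ 2 + K / m + (K + 3 * Λ ^ 2) + 4 * Λ / m + 4 / m + 8 * K / m ^ 3 + 1 with hC
  set a₀ : ℝ := min 1 (min (1 / (4 * Λ)) (m ^ 2 / (8 * Λ ^ 2))) with ha₀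
  have hC0 : 0 < C := by positivity
  obtain ⟨k1, k2, k3, k4, k5, k6, k7⟩ := const_le (show 0 ≤ Λ ^ 2 by positivity)
    (show 0 ≤ K / m by positivity) (show 0 ≤ K + 3 * Λ ^ 2 by positivity)
    (show 0 ≤ 4 * Λ / m by positivity) (show 0 ≤ 4 / m by positivity)
    (show 0 ≤ 8 * K / m ^ 3 by positivity)
  rw [← hC] at k1 k2 k3 k4 k5 k6 k7
  have ha₀0 : 0 < a₀ := by
    rw [ha₀]; refine lt_min one_pos (lt_min (by positivity) (by positivity))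
  refine ⟨C, a₀, hC0, ha₀0, ?_⟩
  intro a ε κ r u ς ha haa hε hεa hκ hr h hN hNx hNy
  have ha1 : a ≤ 1 := haa.trans (min_le_left _ _)
  have hε1 : ε ≤ 1 := hεa.trans (min_le_left _ _)
  have haΛ : a * Λ ≤ 1 / 4 := by
    have h1 : a ≤ 1 / (4 * Λ) := haa.trans ((min_le_right _ _).trans (min_le_left _ _))
    calc a * Λ ≤ 1 / (4 * Λ) * Λ := by gcongr
      _ = 1 / 4 := by field_simp
  have hεΛ : 2 * Λ ^ 2 * ε ≤ m ^ 2 / 4 := by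
    have h1 : ε ≤ m ^ 2 / (8 * Λ ^ 2) := hεa.trans ((min_le_right _ _).trans (min_le_right _ _))
    calc 2 * Λ ^ 2 * ε ≤ 2 * Λ ^ 2 * (m ^ 2 / (8 * Λ ^ 2)) := by gcongr
      _ = m ^ 2 / 4 := by field_simp; norm_num
  obtain ⟨hNc, -, hpw⟩ := PPW.t_PW m Λ a ε (ball 0 r) u ς isOpen_ball h
  have h0 : (0 : ℂ) ∈ ball (0 : ℂ) r := mem_ball_self hr
  obtain ⟨e1, e2, e3⟩ := hpw 0 h0
  have hlow := h.low 0 h0
  have hup := h.up 0 h0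
  have hsx := h.d1x 0 h0
  have hsy := h.d1y 0 h0
  have hsl : |lap ς 0| ≤ 2 * Λ * ε ^ 2 := by
    unfold lap
    have h1 := h.d2xx 0 h0
    have h2 := h.d2yy 0 h0
    have h3 := abs_add_le (dx (dx ς) 0) (dy (dy ς) 0)
    linarith
  have w0 : wp u 0 = 2 * dx u 0 - u 0 := rfl
  have hu2 : ContDiff ℝ 2 u := h.hu.of_le (by norm_num)
  have wx0 := PPW.wp_dx hu2 0
  have wy0 := PPW.wp_dy hu2 0
  have hN1 : dx u 0 ^ 2 + dy u 0 ^ 2 + (a * ς 0 * u 0) ^ 2 = 1 := hN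
  have g0 : gsq (NN u ς a) 0 = 1 := by unfold gsq; rw [hNx, hNy]; ring
  have g1 : gsq ς 0 = dx ς 0 ^ 2 + dy ς 0 ^ 2 := rfl
  rw [hNx, hN] at e1
  rw [hNy] at e2
  rw [g0, g1, hNx, hNy, hN] at e3
  set s := ς 0
  set u' := u 0
  set p := dx u 0
  set q := dy u 0
  set sx := dx ς 0
  set sy := dy ς 0
  set sl := lap ς 0
  set w := wp u 0
  set wx := dx (wp u) 0
  set wy := dy (wp u) 0
  set L := lap (NN u ς a) 0
  have e1' : p * wx + q * wy = -((a * s) ^ 2 * u' * w + 2 * a ^ 2 * s * sx * u' ^ 2) := by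
    linarith
  have e2' : q * wx - p * wy = 2 * a ^ 2 * s * sy * u' ^ 2 := by linarith
  have e3' : L - 1 = (a * s) ^ 2 * ((1 + u' * wx - p * w) ^ 2 + (u' * wy - q * w) ^ 2) -
      (a * s) ^ 2 + EE a s u' p q sx sy sl := by
    unfold EE
    linarith
  have hE := EE_bound hm hmΛ ha ha1 hε hε1 hlow hup hsx hsy hsl hN1
  rw [← hK] at hE
  have hs0 : 0 < s := hm.trans_le hlow
  have hasu : |a * s * u'| ≤ 1 := by
    rw [← sq_le_one_iff_abs_le_one]; linarith [sq_nonneg p, sq_nonneg q]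
  have ht0 : 0 ≤ a * |u'| := by positivity
  have htm : a * |u'| ≤ 1 / m := by
    rw [le_div_iff₀ hm]
    have h1 : |a * s * u'| = a * s * |u'| := by
      rw [abs_mul, abs_of_pos (by positivity : 0 < a * s)]
    rw [h1] at hasu
    calc a * |u'| * m ≤ a * |u'| * s := by gcongr
      _ = a * s * |u'| := by ring
      _ ≤ 1 := hasu
  have hEm : |EE a s u' p q sx sy sl| ≤ K / m * ε := by
    calc |EE a s u' p q sx sy sl| ≤ K * ε * (a * |u'|) := hE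
      _ ≤ K * ε * (1 / m) := by gcongr
      _ = K / m * ε := by ring
  have hcΛ : (a * s) ^ 2 ≤ Λ ^ 2 * a ^ 2 := by
    rw [mul_pow, mul_comm]; gcongr
  have hE1 := abs_le.1 hE
  have hE2 := abs_le.1 hEm
  refine ⟨?_, ?_, ?_⟩
  · have h1 : 0 ≤ (a * s) ^ 2 * ((1 + u' * wx - p * w) ^ 2 + (u' * wy - q * w) ^ 2) := by
      positivity
    have h2 : Λ ^ 2 * a ^ 2 + K / m * ε ≤ C * (a ^ 2 + ε) := by
      have h3 : Λ ^ 2 ≤ C := k1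
      have h4 : K / m ≤ C := k2
      calc Λ ^ 2 * a ^ 2 + K / m * ε ≤ C * a ^ 2 + C * ε := by gcongr
        _ = C * (a ^ 2 + ε) := by ring
    linarith [hE2.1]
  · intro h4
    have h1 := alg2 hm hmΛ ha ha1 hε hlow hup hsx hsy hN1 h4 e1' e2'
    have hp : |p| ≤ 1 := by
      rw [← sq_le_one_iff_abs_le_one]; linarith [sq_nonneg q, sq_nonneg (a * s * u')]
    have h2 : (a * s) ^ 2 + 2 * (a * s) ^ 2 * (u' * wx - p * w) ≤
        (a * s) ^ 2 * ((1 + u' * wx - p * w) ^ 2 + (u' * wy - q * w) ^ 2) := by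
      have h3 : 1 + 2 * (u' * wx - p * w) ≤
          (1 + u' * wx - p * w) ^ 2 + (u' * wy - q * w) ^ 2 := by
        have h9 := sq_aux (u' * wx - p * w) (u' * wy - q * w)
        rwa [← add_sub_assoc] at h9
      calc (a * s) ^ 2 + 2 * (a * s) ^ 2 * (u' * wx - p * w) =
          (a * s) ^ 2 * (1 + 2 * (u' * wx - p * w)) := by ring
        _ ≤ _ := by gcongr
    have h5 : -(|u'| * |wx|) ≤ u' * wx := by
      rw [← abs_mul]; exact neg_abs_le _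
    have h6 : (a * s) ^ 2 * (p * w) ≤ |(a * s) ^ 2 * w| := by
      calc (a * s) ^ 2 * (p * w) ≤ |(a * s) ^ 2 * (p * w)| := le_abs_self _
        _ = |p| * |(a * s) ^ 2 * w| := by rw [← abs_mul]; congr 1; ring
        _ ≤ 1 * |(a * s) ^ 2 * w| := by gcongr
        _ = |(a * s) ^ 2 * w| := one_mul _
    have h7 : 2 * (a * s) ^ 2 * (-(|u'| * |wx|)) ≤ 2 * (a * s) ^ 2 * (u' * wx) := by
      gcongr
    have h8 : (K + 3 * Λ ^ 2) * ε * (a * |u'|) ≤ C * ε * (a * |u'|) := by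
      have h3 : (K + 3 * Λ ^ 2) ≤ C := k3
      gcongr
    linarith [hE1.1]
  · intro hle
    have hmin : ∀ᶠ z in 𝓝 (0 : ℂ), (fun z => pp κ z - NN u ς a z) 0 ≤
        (fun z => pp κ z - NN u ς a z) z := by
      filter_upwards [isOpen_ball.mem_nhds h0] with z hz
      have h1 := hle z hz
      have h2 : pp κ 0 = 1 := by unfold pp; simp
      have h3 : pp κ z = Real.exp (z.re + κ / 2 * ‖z‖ ^ 2) := rfl
      show pp κ 0 - NN u ς a 0 ≤ pp κ z - NN u ς a z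
      rw [h2, hN, h3]
      linarith
    have h1 := lap_nonneg_of_min ((pp_contDiff κ (n := 2)).sub hNc) 0 hmin
    have h2 : L ≤ 1 + 2 * κ := by
      have h3 := lap_sub (pp_contDiff κ (n := 2)) hNc 0
      have h4 : lap (pp κ - NN u ς a) 0 = lap (fun z => pp κ z - NN u ς a z) 0 := rfl
      rw [pp_lap] at h3
      linarith
    have e3'' : (a * s) ^ 2 * ((1 + u' * wx - p * w) ^ 2 + (u' * wy - q * w) ^ 2) ≤
        2 * κ + (a * s) ^ 2 + K / m * ε := by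
      linarith [hE2.1]
    have h3 := alg3 hm hmΛ ha haΛ hε hεΛ hlow hup hsx hN1 w0 wx0 wy0 e1' e3''
    have hC1 : 4 * Λ / m ≤ C := k4
    have hC2 : 4 / m ≤ C := k5
    have hC3 : 8 * K / m ^ 3 ≤ C ^ 2 := le_sq_of k6 k7
    have hC1' : 16 * Λ ^ 2 ≤ C ^ 2 * m ^ 2 := by
      have h5 : (4 * Λ / m) ^ 2 ≤ C ^ 2 := by gcongr
      calc 16 * Λ ^ 2 = (4 * Λ / m) ^ 2 * m ^ 2 := by field_simp; norm_num
        _ ≤ C ^ 2 * m ^ 2 := by gcongr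
    have hC2' : 16 ≤ C ^ 2 * m ^ 2 := by
      have h5 : (4 / m) ^ 2 ≤ C ^ 2 := by gcongr
      calc (16 : ℝ) = (4 / m) ^ 2 * m ^ 2 := by field_simp; norm_num
        _ ≤ C ^ 2 * m ^ 2 := by gcongr
    have hC3' : 8 * (K / m) ≤ C ^ 2 * m ^ 2 := by
      calc 8 * (K / m) = 8 * K / m ^ 3 * m ^ 2 := by field_simp
        _ ≤ C ^ 2 * m ^ 2 := by gcongr
    have h4 : (m * (a * |u'|)) ^ 2 ≤ (m * (C * (a + √κ + √ε))) ^ 2 := by
      have s1 := Real.sq_sqrt hκ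
      have s2 := Real.sq_sqrt hε.le
      have s3 := Real.sqrt_nonneg κ
      have s4 := Real.sqrt_nonneg ε
      have h5 : a ^ 2 + κ + ε ≤ (a + √κ + √ε) ^ 2 := by
        have h6 := sum_sq_le ha.le s3 s4
        rwa [s1, s2] at h6
      calc (m * (a * |u'|)) ^ 2 ≤ 16 * Λ ^ 2 * a ^ 2 + 16 * κ + 8 * (K / m * ε) := h3
        _ = 16 * Λ ^ 2 * a ^ 2 + 16 * κ + 8 * (K / m) * ε := by ring
        _ ≤ C ^ 2 * m ^ 2 * a ^ 2 + C ^ 2 * m ^ 2 * κ + C ^ 2 * m ^ 2 * ε := by gcongr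
        _ = C ^ 2 * m ^ 2 * (a ^ 2 + κ + ε) := by ring
        _ ≤ C ^ 2 * m ^ 2 * (a + √κ + √ε) ^ 2 := by gcongr
        _ = (m * (C * (a + √κ + √ε))) ^ 2 := by ring
    have h5 : m * (a * |u'|) ≤ m * (C * (a + √κ + √ε)) :=
      (sq_le_sq₀ (by positivity) (by positivity)).1 h4
    exact le_of_mul_le_mul_left h5 hm

end PPS

end Pool.Agent.Helper904_Yau
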