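import Pool.Agent.Helper904_Yau.Stmts
import Pool.Agent.Helper904_QS.Curv1

/-!
PW: pointwise facts for `N = |∇u|² + a²ς²u²`.
-/

set_option autoImplicit false

open MeasureTheory Set Metric Filter Topology
open scoped ContDiff
open Pool.Agent.Helper904_QS

namespace Pool.Agent.Helper904_Yau

namespace PPW

section
variable {m Λ a ε : ℝ} {U : Set ℂ} {u ς : ℂ → ℝ}

theorem NSol.toSol (h : NSol m Λ a ε U u ς) :
    Sol m (max Λ (max (Λ * ε) (Λ * ε ^ 2))) a U u ς where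
  hu := h.hu
  hs := h.hs
  low := h.low
  up := fun z hz => (h.up z hz).trans (le_max_left _ _)
  d1x := fun z hz => (h.d1x z hz).trans ((le_max_left _ _).trans (le_max_right _ _))
  d1y := fun z hz => (h.d1y z hz).trans ((le_max_left _ _).trans (le_max_right _ _))
  d2xx := fun z hz => (h.d2xx z hz).trans ((le_max_right _ _).trans (le_max_right _ _))
  d2xy := fun z hz => (h.d2xy z hz).trans ((le_max_right _ _).trans (le_max_right _ _))
  d2yy := fun z hz => (h.d2yy z hz).trans ((le_max_right _ _).trans (le_max_right _ _))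
  eq := h.eq

/-- the function written with squares of `dx u`, `dy u`, `sc a u ς` -/
theorem NN_eq (a : ℝ) (u ς : ℂ → ℝ) :
    NN u ς a = fun z => (dx u z ^ 2 + dy u z ^ 2) + sc a u ς z ^ 2 := by
  ext z; unfold NN gsq sc; ring

theorem NN_contDiff {Λ' : ℝ} (h : Sol m Λ' a U u ς) : ContDiff ℝ 2 (NN u ς a) := by
  rw [NN_eq]
  exact (((contDiff_dx2 h.u3).pow 2).add ((contDiff_dy2 h.u3).pow 2)).add ((sc_contDiff h).pow 2)

theorem NN_dx {Λ' : ℝ} (h : Sol m Λ' a U u ς) (z : ℂ) :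
    dx (NN u ς a) z = 2 * dx u z * dx (dx u) z + 2 * dy u z * dx (dy u) z +
      2 * sc a u ς z * dx (sc a u ς) z := by
  have d1 := h.dux z
  have d2 := h.duy z
  have d3 := (sc_contDiff h).differentiable (by norm_num) z
  rw [NN_eq, dx_add ((d1.fun_pow 2).fun_add (d2.fun_pow 2)) (d3.fun_pow 2),
    dx_add (d1.fun_pow 2) (d2.fun_pow 2), dx_sq d1, dx_sq d2, dx_sq d3]

theorem NN_dy {Λ' : ℝ} (h : Sol m Λ' a U u ς) (z : ℂ) :
    dy (NN u ς a) z = 2 * dx u z * dx (dy u) z + 2 * dy u z * dy (dy u) z +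
      2 * sc a u ς z * dy (sc a u ς) z := by
  have d1 := h.dux z
  have d2 := h.duy z
  have d3 := (sc_contDiff h).differentiable (by norm_num) z
  rw [NN_eq, dy_add ((d1.fun_pow 2).fun_add (d2.fun_pow 2)) (d3.fun_pow 2),
    dy_add (d1.fun_pow 2) (d2.fun_pow 2), dy_sq d1, dy_sq d2, dy_sq d3, dx_dy h.u2]

theorem NN_lap {Λ' : ℝ} (h : Sol m Λ' a U u ς) (z : ℂ) :
    lap (NN u ς a) z = 2 * (dx (dx u) z ^ 2 + 2 * dx (dy u) z ^ 2 + dy (dy u) z ^ 2) +
      2 * (dx u z * dx (lap u) z + dy u z * dy (lap u) z) +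
      2 * (dx (sc a u ς) z ^ 2 + dy (sc a u ς) z ^ 2) + 2 * sc a u ς z * lap (sc a u ς) z := by
  have c1 := (contDiff_dx2 h.u3)
  have c2 := (contDiff_dy2 h.u3)
  have c3 := sc_contDiff h
  rw [NN_eq, lap_add ((c1.pow 2).add (c2.pow 2)) (c3.pow 2), lap_add (c1.pow 2) (c2.pow 2),
    lap_sq c1, lap_sq c2, lap_sq c3, lap_dx h.u3, lap_dy h.u3]
  unfold gsq
  rw [dx_dy h.u2]
  ring

theorem wp_dx (hu : ContDiff ℝ 2 u) (z : ℂ) : dx (wp u) z = 2 * dx (dx u) z - dx u z := by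
  have d1 : DifferentiableAt ℝ (dx u) z := (contDiff_dx1 hu).differentiable (by norm_num) z
  have d0 := hu.differentiable (by norm_num) z
  have e : wp u = fun z => 2 * dx u z - u z := rfl
  rw [e, dx_sub (d1.const_mul 2) d0, dx_const_mul _ d1]

theorem wp_dy (hu : ContDiff ℝ 2 u) (z : ℂ) : dy (wp u) z = 2 * dx (dy u) z - dy u z := by
  have d1 : DifferentiableAt ℝ (dx u) z := (contDiff_dx1 hu).differentiable (by norm_num) z
  have d0 := hu.differentiable (by norm_num) z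
  have e : wp u = fun z => 2 * dx u z - u z := rfl
  rw [e, dy_sub (d1.const_mul 2) d0, dy_const_mul _ d1, dx_dy hu]

end

theorem t_PW : S_PW := by
  intro m Λ a ε U u ς hU h0
  have h := NSol.toSol h0
  refine ⟨NN_contDiff h, fun z => by unfold NN gsq; positivity, ?_⟩
  intro z hz
  have hlap : dy (dy u) z = -(a ^ 2 * ς z ^ 2 * u z) - dx (dx u) z := by
    have := h.eq z hz
    unfold lap at this
    linarith
  have hl : lap u z = -(a ^ 2 * ς z ^ 2 * u z) := h.eq z hz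
  have e1 := NN_dx h z
  have e2 := NN_dy h z
  have e3 := NN_lap h z
  rw [dx_lap h hU z hz, dy_lap h hU z hz, sc_lap h, hl] at e3
  rw [sc_dx h, sc_dy h] at e3
  rw [sc_dx h] at e1
  rw [sc_dy h] at e2
  have e0 : NN u ς a z = dx u z ^ 2 + dy u z ^ 2 + (a * ς z * u z) ^ 2 := rfl
  have w0 : wp u z = 2 * dx u z - u z := rfl
  have g0 : gsq (NN u ς a) z = dx (NN u ς a) z ^ 2 + dy (NN u ς a) z ^ 2 := rfl
  have g1 : gsq ς z = dx ς z ^ 2 + dy ς z ^ 2 := rfl
  have s0 : sc a u ς z = a * (ς z * u z) := rfl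
  rw [s0] at e1
  rw [s0, hlap] at e2 e3
  rw [g0, g1, e1, e2, e3, e0, w0, wp_dx h.u2, wp_dy h.u2]
  refine ⟨?_, ?_, ?_⟩
  · ring
  · ring
  · ring

end PPW

end Pool.Agent.Helper904_Yau
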