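import Pool.Agent.Helper904_Yau.Stmts
import Pool.Agent.Helper904_Yau.PW

/-!
QF: formulas for the linearised quantity.
-/

set_option autoImplicit false

open MeasureTheory Set Metric Filter Topology
open scoped ContDiff
open Pool.Agent.Helper904_QS

namespace Pool.Agent.Helper904_Yau

namespace PQF

section
variable (A B β : ℝ)

theorem u0_contDiff {n : ℕ∞ω} : ContDiff ℝ n (u0 A B β) := by
  have h1 : ContDiff ℝ n (fun z : ℂ => z.re) := Complex.reCLM.contDiff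
  have h2 : ContDiff ℝ n (fun z : ℂ => z.im) := Complex.imCLM.contDiff
  unfold u0
  fun_prop

theorem hasFDerivAt_re (z : ℂ) : HasFDerivAt (fun z : ℂ => z.re) Complex.reCLM z :=
  Complex.reCLM.hasFDerivAt

theorem hasFDerivAt_im (z : ℂ) : HasFDerivAt (fun z : ℂ => z.im) Complex.imCLM z :=
  Complex.imCLM.hasFDerivAt

theorem u0_hasFDerivAt (z : ℂ) : HasFDerivAt (u0 A B β)
    ((u0 A B β z / 2) • Complex.reCLM + (β * u0 B (-A) β z) • Complex.imCLM) z := by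
  have h1 := (((hasFDerivAt_re z).mul_const (1 / 2 : ℝ))).exp
  have h2 := ((hasFDerivAt_im z).const_mul β).cos
  have h3 := ((hasFDerivAt_im z).const_mul β).sin
  have h4 := h1.fun_mul ((h2.const_mul A).fun_add (h3.const_mul B))
  have e : (fun z : ℂ => Real.exp (z.re * (1 / 2)) *
      (A * Real.cos (β * z.im) + B * Real.sin (β * z.im))) = u0 A B β := by
    ext z; unfold u0; rw [show z.re * (1 / 2) = z.re / 2 by ring]
  rw [e] at h4
  refine h4.congr_fderiv ?_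
  ext v
  · simp only [ContinuousLinearMap.add_apply, ContinuousLinearMap.smul_apply, smul_eq_mul,
      Complex.reCLM_apply, Complex.imCLM_apply, u0]
    rw [show z.re * (1 / 2) = z.re / 2 by ring]
    simp
    ring
  

theorem u0_dx (z : ℂ) : dx (u0 A B β) z = u0 A B β z / 2 := by
  unfold dx
  rw [(u0_hasFDerivAt A B β z).fderiv]
  simp

theorem u0_dy (z : ℂ) : dy (u0 A B β) z = β * u0 B (-A) β z := by
  unfold dy
  rw [(u0_hasFDerivAt A B β z).fderiv]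
  simp

theorem u0_neg (z : ℂ) : u0 (-A) (-B) β z = -u0 A B β z := by
  unfold u0; ring

theorem ex_hasFDerivAt (z : ℂ) : HasFDerivAt (fun z : ℂ => Real.exp (-z.re))
    ((-Real.exp (-z.re)) • Complex.reCLM) z := by
  have h1 := ((hasFDerivAt_re z).neg).exp
  refine h1.congr_fderiv ?_
  ext v <;> simp

theorem ex_contDiff {n : ℕ∞ω} : ContDiff ℝ n (fun z : ℂ => Real.exp (-z.re)) := by
  have h1 : ContDiff ℝ n (fun z : ℂ => z.re) := Complex.reCLM.contDiff
  fun_prop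

theorem ex_dx (z : ℂ) : dx (fun z : ℂ => Real.exp (-z.re)) z = -Real.exp (-z.re) := by
  unfold dx
  rw [(ex_hasFDerivAt z).fderiv]
  simp

theorem ex_dy (z : ℂ) : dy (fun z : ℂ => Real.exp (-z.re)) z = 0 := by
  unfold dy
  rw [(ex_hasFDerivAt z).fderiv]
  simp

theorem ex_lap (z : ℂ) : lap (fun z : ℂ => Real.exp (-z.re)) z = Real.exp (-z.re) := by
  have h1 : dx (fun z : ℂ => Real.exp (-z.re)) = fun z : ℂ => -Real.exp (-z.re) := by
    ext z; exact ex_dx z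
  have h2 : dy (fun z : ℂ => Real.exp (-z.re)) = fun z : ℂ => 0 := by
    ext z; exact ex_dy z
  unfold lap
  rw [h1, h2, dx_neg, dy_const, ex_dx]
  ring

theorem dx_u0 : dx (u0 A B β) = fun z => (1 / 2) * u0 A B β z := by
  ext z; rw [u0_dx]; ring
theorem dy_u0 : dy (u0 A B β) = fun z => β * u0 B (-A) β z := by
  ext z; rw [u0_dy]

theorem u0_d (z : ℂ) : DifferentiableAt ℝ (u0 A B β) z :=
  (u0_hasFDerivAt A B β z).differentiableAt

theorem u0_dxx (z : ℂ) : dx (dx (u0 A B β)) z = u0 A B β z / 4 := by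
  rw [dx_u0, dx_const_mul _ (u0_d A B β z), u0_dx]; ring
theorem u0_dxy (z : ℂ) : dx (dy (u0 A B β)) z = β * u0 B (-A) β z / 2 := by
  rw [dy_u0, dx_const_mul _ (u0_d B (-A) β z), u0_dx]; ring
theorem u0_dyy (z : ℂ) : dy (dy (u0 A B β)) z = -(β ^ 2 * u0 A B β z) := by
  rw [dy_u0, dy_const_mul _ (u0_d B (-A) β z), u0_dy, u0_neg]; ring

theorem u0_lap {α : ℝ} (h : β ^ 2 = 1 / 4 + α ^ 2) (z : ℂ) :
    lap (u0 A B β) z = -(α ^ 2 * u0 A B β z) := by
  unfold lap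
  rw [u0_dxx, u0_dyy, h]; ring

theorem u0_sq (z : ℂ) : u0 A B β z ^ 2 + u0 B (-A) β z ^ 2 = Real.exp z.re * (A ^ 2 + B ^ 2) := by
  unfold u0
  have h1 : Real.exp z.re = Real.exp (z.re / 2) ^ 2 := by
    rw [← Real.exp_nat_mul]; congr 1; push_cast; ring
  have h2 := Real.sin_sq_add_cos_sq (β * z.im)
  rw [h1]
  linear_combination (Real.exp (z.re / 2) ^ 2 * (A ^ 2 + B ^ 2)) * h2

end

section
variable {α β A B : ℝ} {u₁ : ℂ → ℝ}

/-- the bracket in `qq` -/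
noncomputable def FF (α β A B : ℝ) (u₁ : ℂ → ℝ) (z : ℂ) : ℝ :=
  (dx (u0 A B β) z * dx u₁ z + dy (u0 A B β) z * dy u₁ z) + α ^ 2 * (u0 A B β z * u₁ z)

theorem qq_eq : qq α β A B u₁ = fun z => Real.exp (-z.re) * FF α β A B u₁ z := by
  ext z; unfold qq FF; ring

theorem X_contDiff : ContDiff ℝ 2 (dx (u0 A B β)) := contDiff_dx2 (u0_contDiff A B β)
theorem Y_contDiff : ContDiff ℝ 2 (dy (u0 A B β)) := contDiff_dy2 (u0_contDiff A B β)

theorem FF_contDiff (hu : ContDiff ℝ 4 u₁) : ContDiff ℝ 2 (FF α β A B u₁) := by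
  have h1 := (contDiff_dx3 hu).of_le (show (2 : ℕ∞ω) ≤ 3 by norm_num)
  have h2 := (contDiff_dy3 hu).of_le (show (2 : ℕ∞ω) ≤ 3 by norm_num)
  have h3 := hu.of_le (show (2 : ℕ∞ω) ≤ 4 by norm_num)
  exact ((X_contDiff.mul h1).add (Y_contDiff.mul h2)).add
    (contDiff_const.mul ((u0_contDiff A B β).mul h3))

theorem FF_dx (hu : ContDiff ℝ 4 u₁) (z : ℂ) : dx (FF α β A B u₁) z =
    u0 A B β z / 2 * dx (dx u₁) z + u0 A B β z / 4 * dx u₁ z +
    (β * u0 B (-A) β z * dx (dy u₁) z + β * u0 B (-A) β z / 2 * dy u₁ z) +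
    α ^ 2 * (u0 A B β z * dx u₁ z + u0 A B β z / 2 * u₁ z) := by
  have d1 := (contDiff_dx3 hu).differentiable (by norm_num) z
  have d2 := (contDiff_dy3 hu).differentiable (by norm_num) z
  have d3 := hu.differentiable (by norm_num) z
  have d4 : DifferentiableAt ℝ (dx (u0 A B β)) z := X_contDiff.differentiable (by norm_num) z
  have d5 : DifferentiableAt ℝ (dy (u0 A B β)) z := Y_contDiff.differentiable (by norm_num) z
  have d6 := u0_d A B β z
  have e : FF α β A B u₁ = fun z => (dx (u0 A B β) z * dx u₁ z + dy (u0 A B β) z * dy u₁ z) +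
    α ^ 2 * (u0 A B β z * u₁ z) := rfl
  rw [e, dx_add ((d4.fun_mul d1).fun_add (d5.fun_mul d2)) ((d6.fun_mul d3).const_mul _),
    dx_add (d4.fun_mul d1) (d5.fun_mul d2), dx_const_mul _ (d6.fun_mul d3), dx_mul d4 d1,
    dx_mul d5 d2, dx_mul d6 d3, u0_dxx, u0_dxy, u0_dx, u0_dy]

theorem FF_dy (hu : ContDiff ℝ 4 u₁) (z : ℂ) : dy (FF α β A B u₁) z =
    u0 A B β z / 2 * dx (dy u₁) z + β * u0 B (-A) β z / 2 * dx u₁ z +
    (β * u0 B (-A) β z * dy (dy u₁) z + -(β ^ 2 * u0 A B β z) * dy u₁ z) +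
    α ^ 2 * (u0 A B β z * dy u₁ z + β * u0 B (-A) β z * u₁ z) := by
  have d1 := (contDiff_dx3 hu).differentiable (by norm_num) z
  have d2 := (contDiff_dy3 hu).differentiable (by norm_num) z
  have d3 := hu.differentiable (by norm_num) z
  have d4 : DifferentiableAt ℝ (dx (u0 A B β)) z := X_contDiff.differentiable (by norm_num) z
  have d5 : DifferentiableAt ℝ (dy (u0 A B β)) z := Y_contDiff.differentiable (by norm_num) z
  have d6 := u0_d A B β z
  have c2 : ContDiff ℝ 2 u₁ := hu.of_le (by norm_num)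
  have e : FF α β A B u₁ = fun z => (dx (u0 A B β) z * dx u₁ z + dy (u0 A B β) z * dy u₁ z) +
    α ^ 2 * (u0 A B β z * u₁ z) := rfl
  rw [e, dy_add ((d4.fun_mul d1).fun_add (d5.fun_mul d2)) ((d6.fun_mul d3).const_mul _),
    dy_add (d4.fun_mul d1) (d5.fun_mul d2), dy_const_mul _ (d6.fun_mul d3), dy_mul d4 d1,
    dy_mul d5 d2, dy_mul d6 d3, u0_dyy, ← dx_dy c2, ← dx_dy (u0_contDiff A B β), u0_dxy, u0_dx,
    u0_dy]

theorem hh_contDiff (hu : ContDiff ℝ 4 u₁) : ContDiff ℝ 2 (hh α u₁) :=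
  (contDiff_lap2 hu).add (contDiff_const.mul (hu.of_le (by norm_num)))

theorem lap_dx_hh (hu : ContDiff ℝ 4 u₁) (z : ℂ) :
    lap (dx u₁) z = dx (hh α u₁) z - α ^ 2 * dx u₁ z := by
  have c3 : ContDiff ℝ 3 u₁ := hu.of_le (by norm_num)
  have d1 := (contDiff_lap2 hu).differentiable (by norm_num) z
  have d3 := hu.differentiable (by norm_num) z
  have e : hh α u₁ = fun z => lap u₁ z + α ^ 2 * u₁ z := rfl
  rw [lap_dx c3, e, dx_add d1 (d3.const_mul _), dx_const_mul _ d3]; ring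

theorem lap_dy_hh (hu : ContDiff ℝ 4 u₁) (z : ℂ) :
    lap (dy u₁) z = dy (hh α u₁) z - α ^ 2 * dy u₁ z := by
  have c3 : ContDiff ℝ 3 u₁ := hu.of_le (by norm_num)
  have d1 := (contDiff_lap2 hu).differentiable (by norm_num) z
  have d3 := hu.differentiable (by norm_num) z
  have e : hh α u₁ = fun z => lap u₁ z + α ^ 2 * u₁ z := rfl
  rw [lap_dy c3, e, dy_add d1 (d3.const_mul _), dy_const_mul _ d3]; ring

theorem lap_X (h : β ^ 2 = 1 / 4 + α ^ 2) (z : ℂ) :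
    lap (dx (u0 A B β)) z = -(α ^ 2 * (u0 A B β z / 2)) := by
  rw [dx_u0, lap_const_mul _ (u0_contDiff A B β), u0_lap A B β h]; ring

theorem lap_Y (h : β ^ 2 = 1 / 4 + α ^ 2) (z : ℂ) :
    lap (dy (u0 A B β)) z = -(α ^ 2 * (β * u0 B (-A) β z)) := by
  rw [dy_u0, lap_const_mul _ (u0_contDiff B (-A) β), u0_lap B (-A) β h]; ring

theorem FF_lap (hu : ContDiff ℝ 4 u₁) (h : β ^ 2 = 1 / 4 + α ^ 2) (z : ℂ) :
    lap (FF α β A B u₁) z =
    (u0 A B β z / 2 * (dx (hh α u₁) z - α ^ 2 * dx u₁ z) +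
      2 * (u0 A B β z / 4 * dx (dx u₁) z + β * u0 B (-A) β z / 2 * dx (dy u₁) z) +
      dx u₁ z * -(α ^ 2 * (u0 A B β z / 2))) +
    (β * u0 B (-A) β z * (dy (hh α u₁) z - α ^ 2 * dy u₁ z) +
      2 * (β * u0 B (-A) β z / 2 * dx (dy u₁) z + -(β ^ 2 * u0 A B β z) * dy (dy u₁) z) +
      dy u₁ z * -(α ^ 2 * (β * u0 B (-A) β z))) +
    α ^ 2 * (u0 A B β z * (hh α u₁ z - α ^ 2 * u₁ z) +
      2 * (u0 A B β z / 2 * dx u₁ z + β * u0 B (-A) β z * dy u₁ z) +
      u₁ z * -(α ^ 2 * u0 A B β z)) := by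
  have c2 : ContDiff ℝ 2 u₁ := hu.of_le (by norm_num)
  have c0 : ContDiff ℝ 2 (u0 A B β) := u0_contDiff A B β
  have h1 := (contDiff_dx3 hu).of_le (show (2 : ℕ∞ω) ≤ 3 by norm_num)
  have h2 := (contDiff_dy3 hu).of_le (show (2 : ℕ∞ω) ≤ 3 by norm_num)
  have e : FF α β A B u₁ = fun z => (dx (u0 A B β) z * dx u₁ z + dy (u0 A B β) z * dy u₁ z) +
    α ^ 2 * (u0 A B β z * u₁ z) := rfl
  have hl : lap u₁ z = hh α u₁ z - α ^ 2 * u₁ z := by unfold hh; ring
  rw [e, lap_add ((X_contDiff.mul h1).add (Y_contDiff.mul h2)) (contDiff_const.mul (c0.mul c2)),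
    lap_add (X_contDiff.mul h1) (Y_contDiff.mul h2), lap_const_mul _ (c0.mul c2),
    lap_mul X_contDiff h1, lap_mul Y_contDiff h2, lap_mul c0 c2, lap_dx_hh (α := α) hu,
    lap_dy_hh (α := α) hu, lap_X h, lap_Y h, u0_lap A B β h, hl, u0_dyy, u0_dxx, u0_dxy,
    ← dx_dy c0, u0_dxy, ← dx_dy c2, u0_dx, u0_dy]

end

theorem t_QF : S_QF := by
  intro α β A B u₁ hu hβ
  have c0 : ContDiff ℝ 2 (u0 A B β) := u0_contDiff A B β
  have c2 : ContDiff ℝ 2 u₁ := hu.of_le (by norm_num)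
  have cF := FF_contDiff (α := α) (β := β) (A := A) (B := B) hu
  refine ⟨u0_contDiff A B β, ?_, hh_contDiff hu, u0_dx A B β, u0_dy A B β, u0_lap A B β hβ,
    ?_, ?_, ?_, ?_, ?_, ?_⟩
  · rw [qq_eq]; exact ex_contDiff.mul cF
  · intro z
    unfold gsq
    rw [u0_dx, u0_dy]
    linear_combination (β ^ 2) * u0_sq A B β z - (u0 A B β z) ^ 2 * hβ
  · intro z
    unfold gsq
    rw [u0_dx, u0_dy]
    have h1 := u0_sq A B β z
    have h2 : 0 ≤ α ^ 2 * u0 B (-A) β z ^ 2 := by positivity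
    nlinarith
  · intro z
    have d0 := c0.differentiable (by norm_num) z
    have d1 := c2.differentiable (by norm_num) z
    have g0 : gsq (fun w => u0 A B β w + u₁ w) z =
        (u0 A B β z / 2 + dx u₁ z) ^ 2 + (β * u0 B (-A) β z + dy u₁ z) ^ 2 := by
      unfold gsq
      rw [dx_add d0 d1, dy_add d0 d1, u0_dx, u0_dy]
    have h1 := u0_sq A B β z
    have h2 : Real.exp (-z.re) * Real.exp z.re = 1 := by rw [← Real.exp_add]; simp
    rw [g0]
    unfold qq gsq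
    rw [u0_dx, u0_dy]
    linear_combination (Real.exp (-z.re) * β ^ 2) * h1 + (β ^ 2 * (A ^ 2 + B ^ 2)) * h2 -
      (Real.exp (-z.re) * u0 A B β z ^ 2) * hβ
  · intro z
    have dF := cF.differentiable (by norm_num) z
    have dE : DifferentiableAt ℝ (fun z : ℂ => Real.exp (-z.re)) z :=
      (ex_hasFDerivAt z).differentiableAt
    rw [qq_eq, dx_mul dE dF, ex_dx, FF_dx hu, PPW.wp_dx c2, PPW.wp_dy c2, u0_dx, u0_dy]
    unfold FF wp
    rw [u0_dx, u0_dy]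
    ring
  · intro z
    have dF := cF.differentiable (by norm_num) z
    have dE : DifferentiableAt ℝ (fun z : ℂ => Real.exp (-z.re)) z :=
      (ex_hasFDerivAt z).differentiableAt
    rw [qq_eq, dy_mul dE dF, ex_dy, FF_dy hu, PPW.wp_dx c2, PPW.wp_dy c2, u0_dx, u0_dy]
    unfold hh lap
    linear_combination (-(Real.exp (-z.re) * u0 A B β z * dy u₁ z)) * hβ
  · intro z
    rw [qq_eq, lap_mul ex_contDiff cF, ex_lap, ex_dx, ex_dy, FF_lap hu hβ, FF_dx hu,
      PPW.wp_dx c2, u0_dx, u0_dy]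
    have hl : dy (dy u₁) z = hh α u₁ z - α ^ 2 * u₁ z - dx (dx u₁) z := by
      unfold hh lap; ring
    rw [hl]
    unfold FF wp
    rw [u0_dx, u0_dy]
    linear_combination (-2 * Real.exp (-z.re) * u0 A B β z *
      (hh α u₁ z - α ^ 2 * u₁ z - dx (dx u₁) z)) * hβ

end PQF

end Pool.Agent.Helper904_Yau
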