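import Pool.Agent.Helper904_Yau.Stmts

/-!
# RL: the rigidity lemma by rotation and scaling from RL0
-/

set_option autoImplicit false

open MeasureTheory Set Metric Filter Topology
open scoped ContDiff
open Pool.Agent.Helper904_QS

namespace Pool.Agent.Helper904_Yau.PRL

/-- the similarity `z ↦ y + l z` -/
def FF (y l : ℂ) (z : ℂ) : ℂ := y + l * z

theorem contDiff_FF (y l : ℂ) {n : ℕ∞ω} : ContDiff ℝ n (FF y l) :=
  contDiff_const.add (contDiff_const.mul contDiff_id)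

theorem hasFDerivAt_FF (y l z : ℂ) :
    HasFDerivAt (FF y l) ((ContinuousLinearMap.mul ℝ ℂ l)) z := by
  have h : HasFDerivAt (fun z : ℂ => l * z) (ContinuousLinearMap.mul ℝ ℂ l) z :=
    (ContinuousLinearMap.mul ℝ ℂ l).hasFDerivAt
  exact h.const_add y

theorem lin (L : ℂ →L[ℝ] ℝ) (w : ℂ) : L w = w.re * L 1 + w.im * L Complex.I := by
  have h : w = w.re • (1 : ℂ) + w.im • Complex.I := by
    apply Complex.ext <;> simp
  conv_lhs => rw [h]
  rw [map_add, map_smul, map_smul, smul_eq_mul, smul_eq_mul]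

theorem fd_comp {g : ℂ → ℝ} (y l z : ℂ) (hg : DifferentiableAt ℝ g (FF y l z)) (v : ℂ) :
    fderiv ℝ (fun z => g (FF y l z)) z v = fderiv ℝ g (FF y l z) (l * v) := by
  have h := hg.hasFDerivAt.comp z (hasFDerivAt_FF y l z)
  have h2 : fderiv ℝ (fun z => g (FF y l z)) z =
      (fderiv ℝ g (FF y l z)).comp (ContinuousLinearMap.mul ℝ ℂ l) := h.fderiv
  rw [h2]
  rfl

theorem dx_comp {g : ℂ → ℝ} (y l z : ℂ) (hg : DifferentiableAt ℝ g (FF y l z)) :
    dx (fun z => g (FF y l z)) z = l.re * dx g (FF y l z) + l.im * dy g (FF y l z) := by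
  unfold dx dy
  rw [fd_comp y l z hg, mul_one, lin]

theorem dy_comp {g : ℂ → ℝ} (y l z : ℂ) (hg : DifferentiableAt ℝ g (FF y l z)) :
    dy (fun z => g (FF y l z)) z = -l.im * dx g (FF y l z) + l.re * dy g (FF y l z) := by
  unfold dx dy
  rw [fd_comp y l z hg, lin]
  simp

theorem gsq_comp {g : ℂ → ℝ} (y l z : ℂ) (hg : DifferentiableAt ℝ g (FF y l z)) :
    gsq (fun z => g (FF y l z)) z = (l.re ^ 2 + l.im ^ 2) * gsq g (FF y l z) := by
  unfold gsq
  rw [dx_comp y l z hg, dy_comp y l z hg]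
  ring

section second

variable {g : ℂ → ℝ} (hg : ContDiff ℝ 2 g) (y l z : ℂ)

include hg

theorem dxx_comp : dx (dx (fun z => g (FF y l z))) z =
    l.re * (l.re * dx (dx g) (FF y l z) + l.im * dx (dy g) (FF y l z)) +
      l.im * (l.re * dx (dy g) (FF y l z) + l.im * dy (dy g) (FF y l z)) := by
  have hgd := hg.differentiable (by norm_num)
  have hx := (contDiff_dx1 hg).differentiable (by norm_num)
  have hy := (contDiff_dy1 hg).differentiable (by norm_num)
  have hF := (contDiff_FF y l (n := 1)).differentiable (by norm_num)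
  have h1 : dx (fun z => g (FF y l z)) =
      fun z => l.re * dx g (FF y l z) + l.im * dy g (FF y l z) := by
    ext w; exact dx_comp y l w (hgd _)
  have hcx : DifferentiableAt ℝ (fun z => dx g (FF y l z)) z := (hx _).comp z (hF z)
  have hcy : DifferentiableAt ℝ (fun z => dy g (FF y l z)) z := (hy _).comp z (hF z)
  rw [h1, dx_add (hcx.const_mul _) (hcy.const_mul _), dx_const_mul _ hcx, dx_const_mul _ hcy,
    dx_comp y l z (hx _), dx_comp y l z (hy _), dx_dy hg]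

theorem dxy_comp : dx (dy (fun z => g (FF y l z))) z =
    -l.im * (l.re * dx (dx g) (FF y l z) + l.im * dx (dy g) (FF y l z)) +
      l.re * (l.re * dx (dy g) (FF y l z) + l.im * dy (dy g) (FF y l z)) := by
  have hgd := hg.differentiable (by norm_num)
  have hx := (contDiff_dx1 hg).differentiable (by norm_num)
  have hy := (contDiff_dy1 hg).differentiable (by norm_num)
  have hF := (contDiff_FF y l (n := 1)).differentiable (by norm_num)
  have h1 : dy (fun z => g (FF y l z)) =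
      fun z => -l.im * dx g (FF y l z) + l.re * dy g (FF y l z) := by
    ext w; exact dy_comp y l w (hgd _)
  have hcx : DifferentiableAt ℝ (fun z => dx g (FF y l z)) z := (hx _).comp z (hF z)
  have hcy : DifferentiableAt ℝ (fun z => dy g (FF y l z)) z := (hy _).comp z (hF z)
  rw [h1, dx_add (hcx.const_mul _) (hcy.const_mul _), dx_const_mul _ hcx, dx_const_mul _ hcy,
    dx_comp y l z (hx _), dx_comp y l z (hy _), dx_dy hg]

theorem dyy_comp : dy (dy (fun z => g (FF y l z))) z =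
    -l.im * (-l.im * dx (dx g) (FF y l z) + l.re * dx (dy g) (FF y l z)) +
      l.re * (-l.im * dx (dy g) (FF y l z) + l.re * dy (dy g) (FF y l z)) := by
  have hgd := hg.differentiable (by norm_num)
  have hx := (contDiff_dx1 hg).differentiable (by norm_num)
  have hy := (contDiff_dy1 hg).differentiable (by norm_num)
  have hF := (contDiff_FF y l (n := 1)).differentiable (by norm_num)
  have h1 : dy (fun z => g (FF y l z)) =
      fun z => -l.im * dx g (FF y l z) + l.re * dy g (FF y l z) := by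
    ext w; exact dy_comp y l w (hgd _)
  have hcx : DifferentiableAt ℝ (fun z => dx g (FF y l z)) z := (hx _).comp z (hF z)
  have hcy : DifferentiableAt ℝ (fun z => dy g (FF y l z)) z := (hy _).comp z (hF z)
  rw [h1, dy_add (hcx.const_mul _) (hcy.const_mul _), dy_const_mul _ hcx, dy_const_mul _ hcy,
    dy_comp y l z (hx _), dy_comp y l z (hy _), dx_dy hg]

theorem lap_comp : lap (fun z => g (FF y l z)) z = (l.re ^ 2 + l.im ^ 2) * lap g (FF y l z) := by
  unfold lap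
  rw [dxx_comp hg, dyy_comp hg]
  ring

end second

theorem contDiff_NN {u σ : ℂ → ℝ} (hu : ContDiff ℝ 4 u) (hs : ContDiff ℝ 3 σ) (k : ℝ) :
    ContDiff ℝ 2 (NN u σ k) := by
  have h1 : ContDiff ℝ 2 (dx u) := (contDiff_dx3 hu).of_le (by norm_num)
  have h2 : ContDiff ℝ 2 (dy u) := (contDiff_dy3 hu).of_le (by norm_num)
  have h3 : ContDiff ℝ 2 u := hu.of_le (by norm_num)
  have h4 : ContDiff ℝ 2 σ := hs.of_le (by norm_num)
  exact ((h1.pow 2).add (h2.pow 2)).add (((contDiff_const.mul h4).mul h3).pow 2)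

theorem re_le_one {e : ℂ} (he : ‖e‖ = 1) : |e.re| ≤ 1 := he ▸ Complex.abs_re_le_norm e
theorem im_le_one {e : ℂ} (he : ‖e‖ = 1) : |e.im| ≤ 1 := he ▸ Complex.abs_im_le_norm e

theorem bound2 {Λ s p q x y : ℝ} (hs : 0 < s) (hp : |p| ≤ 1) (hq : |q| ≤ 1) (hx : |x| ≤ Λ)
    (hy : |y| ≤ Λ) : |p * s⁻¹ * x + q * s⁻¹ * y| ≤ 4 * Λ * s⁻¹ := by
  have h0 : 0 ≤ Λ := (abs_nonneg x).trans hx
  have hi : 0 < s⁻¹ := inv_pos.2 hs
  have h1 : |p * x| ≤ Λ := by rw [abs_mul]; nlinarith [abs_nonneg p, abs_nonneg x]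
  have h2 : |q * y| ≤ Λ := by rw [abs_mul]; nlinarith [abs_nonneg q, abs_nonneg y]
  have h3 : p * s⁻¹ * x + q * s⁻¹ * y = (p * x + q * y) * s⁻¹ := by ring
  rw [h3, abs_mul, abs_of_pos hi]
  refine mul_le_mul_of_nonneg_right ?_ hi.le
  refine (abs_add_le _ _).trans ?_
  linarith

theorem bound4 {Λ s p q r t x y z w : ℝ} (hs : 0 < s) (hp : |p| ≤ 1) (hq : |q| ≤ 1) (hr : |r| ≤ 1)
    (ht : |t| ≤ 1) (hx : |x| ≤ Λ) (hy : |y| ≤ Λ) (hz : |z| ≤ Λ) (hw : |w| ≤ Λ) :
    |p * s⁻¹ * (q * s⁻¹ * x + r * s⁻¹ * y) + t * s⁻¹ * (q * s⁻¹ * z + r * s⁻¹ * w)| ≤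
      4 * Λ * s⁻¹ ^ 2 := by
  have h0 : 0 ≤ Λ := (abs_nonneg x).trans hx
  have hi : 0 < s⁻¹ := inv_pos.2 hs
  have key : ∀ a b c : ℝ, |a| ≤ 1 → |b| ≤ 1 → |c| ≤ Λ → |a * b * c| ≤ Λ := by
    intro a b c ha hb hc
    rw [abs_mul, abs_mul]
    have h1 : |a| * |b| ≤ 1 := mul_le_one₀ ha (abs_nonneg b) hb
    calc |a| * |b| * |c| ≤ 1 * |c| := mul_le_mul_of_nonneg_right h1 (abs_nonneg c)
      _ ≤ Λ := by rw [one_mul]; exact hc
  have h3 : p * s⁻¹ * (q * s⁻¹ * x + r * s⁻¹ * y) + t * s⁻¹ * (q * s⁻¹ * z + r * s⁻¹ * w) =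
      (p * q * x + p * r * y + (t * q * z + t * r * w)) * s⁻¹ ^ 2 := by ring
  rw [h3, abs_mul, abs_of_pos (pow_pos hi 2)]
  refine mul_le_mul_of_nonneg_right ?_ (pow_pos hi 2).le
  have e1 := key p q x hp hq hx
  have e2 := key p r y hp hr hy
  have e3 := key t q z ht hq hz
  have e4 := key t r w ht hr hw
  rw [abs_le] at e1 e2 e3 e4 ⊢
  constructor <;> linarith

/-- RL -/
theorem t_RL (h0 : S_RL0) : S_RL := by
  intro m Λ δ hm hΛ hδ
  obtain ⟨A, a₀, hA, ha₀, H⟩ := h0 m (4 * Λ) δ hm (by linarith) hδ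
  refine ⟨A, a₀⁻¹, hA, inv_pos.2 ha₀, ?_⟩
  intro k s κ₁ y e u σ hk hs hks hκ he hSol hN hNx hNy hle
  have hspos : 0 < s := lt_of_lt_of_le (inv_pos.2 ha₀) hs
  have hi : 0 < s⁻¹ := inv_pos.2 hspos
  have hre := re_le_one he
  have him := im_le_one he
  have hee : e.re ^ 2 + e.im ^ 2 = 1 := by
    have h := Complex.sq_norm e
    rw [he, Complex.normSq_apply] at h
    nlinarith [h]
  set l : ℂ := e * (s⁻¹ : ℝ) with hl
  have lre : l.re = e.re * s⁻¹ := by rw [hl, Complex.re_mul_ofReal]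
  have lim : l.im = e.im * s⁻¹ := by rw [hl, Complex.im_mul_ofReal]
  have lnorm : ‖l‖ = s⁻¹ := by
    rw [hl, norm_mul, he, one_mul, Complex.norm_real, Real.norm_of_nonneg hi.le]
  have lsq : l.re ^ 2 + l.im ^ 2 = s⁻¹ ^ 2 := by
    rw [lre, lim]
    linear_combination s⁻¹ ^ 2 * hee
  set Ny : ℝ := NN u σ k y with hNydef
  set μ : ℝ := s / √Ny with hμ
  have hsq : √Ny ^ 2 = Ny := Real.sq_sqrt hN.le
  have hsqpos : 0 < √Ny := Real.sqrt_pos.2 hN
  have hμ2 : μ ^ 2 * s⁻¹ ^ 2 = Ny⁻¹ := by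
    rw [hμ, div_pow, hsq]
    field_simp
  let ut : ℂ → ℝ := fun z => μ * u (FF y l z)
  let vs : ℂ → ℝ := fun z => σ (FF y l z)
  have hFF0 : FF y l 0 = y := by simp [FF]
  have hmem : ∀ z ∈ ball (0 : ℂ) A, FF y l z ∈ ball y (A / s) := by
    intro z hz
    rw [mem_ball_zero_iff] at hz
    rw [mem_ball_iff_norm]
    have : FF y l z - y = l * z := by unfold FF; ring
    rw [this, norm_mul, lnorm, div_eq_mul_inv, mul_comm A]
    exact mul_lt_mul_of_pos_left hz hi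
  have hud := hSol.hu.differentiable (by norm_num)
  have hu2 : ContDiff ℝ 2 u := hSol.hu.of_le (by norm_num)
  have hs2 : ContDiff ℝ 2 σ := hSol.hs.of_le (by norm_num)
  have hcomp4 : ContDiff ℝ 4 (fun z => u (FF y l z)) := hSol.hu.comp (contDiff_FF y l)
  have hcomp2 : ContDiff ℝ 2 (fun z => u (FF y l z)) := hu2.comp (contDiff_FF y l)
  have hut4 : ContDiff ℝ 4 ut := contDiff_const.mul hcomp4
  have hvs3 : ContDiff ℝ 3 vs := hSol.hs.comp (contDiff_FF y l)
  have hdc : ∀ z, DifferentiableAt ℝ (fun z => u (FF y l z)) z := hcomp2.differentiable (by norm_num)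
  -- gradient of `ut`
  have hgut : ∀ z, gsq ut z = μ ^ 2 * s⁻¹ ^ 2 * gsq u (FF y l z) := by
    intro z
    have e1 : dx ut z = μ * dx (fun z => u (FF y l z)) z := dx_const_mul μ (hdc z)
    have e2 : dy ut z = μ * dy (fun z => u (FF y l z)) z := dy_const_mul μ (hdc z)
    have e3 := gsq_comp y l z (hud (FF y l z))
    unfold gsq at e3 ⊢
    rw [e1, e2]
    rw [lsq] at e3
    linear_combination μ ^ 2 * e3
  have hNt : NN ut vs (k * s⁻¹) = fun z => Ny⁻¹ * NN u σ k (FF y l z) := by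
    ext z
    show gsq ut z + (k * s⁻¹ * σ (FF y l z) * (μ * u (FF y l z))) ^ 2 =
      Ny⁻¹ * (gsq u (FF y l z) + (k * σ (FF y l z) * u (FF y l z)) ^ 2)
    rw [hgut, ← hμ2]
    ring
  have hNC := contDiff_NN hSol.hu hSol.hs k
  have hNd := hNC.differentiable (by norm_num)
  have hNcomp : ContDiff ℝ 2 (fun z => NN u σ k (FF y l z)) := hNC.comp (contDiff_FF y l)
  have hNcd := hNcomp.differentiable (by norm_num)
  have key := H (k * s⁻¹) s⁻¹ (κ₁ * s⁻¹ ^ 2) ut vs (mul_pos hk hi) ?_ hi ?_ (by positivity) ?_ ?_ ?_ ?_ ?_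
  · have hlap : lap (NN ut vs (k * s⁻¹)) 0 = Ny⁻¹ * (s⁻¹ ^ 2 * lap (NN u σ k) y) := by
      rw [hNt, lap_const_mul _ hNcomp, lap_comp hNC, lsq, hFF0]
    rw [hlap] at key
    have e1 : Ny⁻¹ * (s⁻¹ ^ 2 * lap (NN u σ k) y) * (s ^ 2 * Ny) = lap (NN u σ k) y := by
      field_simp
    have e2 : κ₁ * s⁻¹ ^ 2 * (s ^ 2) = κ₁ := by field_simp
    have e3 : s⁻¹ * s ^ 2 = s := by field_simp
    have h1 := mul_le_mul_of_nonneg_right key (by positivity : 0 ≤ s ^ 2 * Ny)
    have h2 : -(δ * (κ₁ * s⁻¹ ^ 2 + s⁻¹)) * (s ^ 2 * Ny) = -(δ * (κ₁ + s)) * Ny := by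
      linear_combination -δ * Ny * e2 - δ * Ny * e3
    have h3 : (Ny⁻¹ * (s⁻¹ ^ 2 * lap (NN u σ k) y) - 1) * (s ^ 2 * Ny) =
        lap (NN u σ k) y - s ^ 2 * Ny := by
      linear_combination e1
    rw [h2, h3] at h1
    exact h1
  · -- a ≤ a₀
    rw [← div_eq_mul_inv, div_le_iff₀ hspos]
    have := mul_le_mul_of_nonneg_left hks ha₀.le
    rw [← mul_assoc, mul_inv_cancel₀ ha₀.ne', one_mul] at this
    exact this
  · exact inv_le_of_inv_le₀ ha₀ hs
  · -- NSol
    refine ⟨hut4, hvs3, fun z hz => hSol.low _ (hmem z hz), fun z hz => ?_, fun z hz => ?_,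
      fun z hz => ?_, fun z hz => ?_, fun z hz => ?_, fun z hz => ?_, fun z hz => ?_⟩
    · have := hSol.up _ (hmem z hz)
      have h2 := hSol.low _ (hmem z hz)
      show σ (FF y l z) ≤ _
      linarith
    · show |dx (fun z => σ (FF y l z)) z| ≤ _
      rw [dx_comp y l z (hs2.differentiable (by norm_num) _), lre, lim]
      exact bound2 hspos hre him (hSol.d1x _ (hmem z hz)) (hSol.d1y _ (hmem z hz))
    · show |dy (fun z => σ (FF y l z)) z| ≤ _
      rw [dy_comp y l z (hs2.differentiable (by norm_num) _), lre, lim]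
      have := bound2 hspos (p := -e.im) (by rwa [abs_neg]) hre (hSol.d1x _ (hmem z hz))
        (hSol.d1y _ (hmem z hz))
      rwa [neg_mul] at this
    · show |dx (dx (fun z => σ (FF y l z))) z| ≤ _
      rw [dxx_comp hs2, lre, lim]
      exact bound4 hspos hre hre him him (hSol.d2xx _ (hmem z hz)) (hSol.d2xy _ (hmem z hz))
        (hSol.d2xy _ (hmem z hz)) (hSol.d2yy _ (hmem z hz))
    · show |dx (dy (fun z => σ (FF y l z))) z| ≤ _
      rw [dxy_comp hs2, lre, lim]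
      have := bound4 hspos (p := -e.im) (by rwa [abs_neg]) hre him hre (hSol.d2xx _ (hmem z hz))
        (hSol.d2xy _ (hmem z hz)) (hSol.d2xy _ (hmem z hz)) (hSol.d2yy _ (hmem z hz))
      rwa [neg_mul] at this
    · show |dy (dy (fun z => σ (FF y l z))) z| ≤ _
      rw [dyy_comp hs2, lre, lim]
      have := bound4 hspos (p := -e.im) (q := -e.im) (by rwa [abs_neg]) (by rwa [abs_neg]) hre hre
        (hSol.d2xx _ (hmem z hz)) (hSol.d2xy _ (hmem z hz)) (hSol.d2xy _ (hmem z hz))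
        (hSol.d2yy _ (hmem z hz))
      rwa [neg_mul] at this
    · show lap (fun z => μ * u (FF y l z)) z =
        -((k * s⁻¹) ^ 2 * σ (FF y l z) ^ 2 * (μ * u (FF y l z)))
      rw [lap_const_mul _ hcomp2, lap_comp hu2, lsq, hSol.eq _ (hmem z hz)]
      ring
  · -- NN at 0
    rw [hNt]
    show Ny⁻¹ * NN u σ k (FF y l 0) = 1
    rw [hFF0]
    exact inv_mul_cancel₀ hN.ne'
  · rw [hNt, dx_const_mul _ (hNcd 0), dx_comp y l 0 (hNd _), hFF0, hNx, hNy, lre, lim]
    have h1 : Ny⁻¹ * (e.re * s⁻¹ * (s * e.re * Ny) + e.im * s⁻¹ * (s * e.im * Ny)) =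
        (Ny⁻¹ * Ny) * (s⁻¹ * s) * (e.re ^ 2 + e.im ^ 2) := by ring
    rw [h1, inv_mul_cancel₀ hN.ne', inv_mul_cancel₀ hspos.ne', hee]
    norm_num
  · rw [hNt, dy_const_mul _ (hNcd 0), dy_comp y l 0 (hNd _), hFF0, hNx, hNy, lre, lim]
    ring
  · intro z hz
    have h1 := hle _ (hmem z hz)
    have hFy : FF y l z - y = l * z := by unfold FF; ring
    rw [hFy] at h1
    have e1 : s * (e.re * (l * z).re + e.im * (l * z).im) = z.re := by
      have m1 : (l * z).re = e.re * s⁻¹ * z.re - e.im * s⁻¹ * z.im := by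
        rw [← lre, ← lim]; exact Complex.mul_re l z
      have m2 : (l * z).im = e.re * s⁻¹ * z.im + e.im * s⁻¹ * z.re := by
        rw [← lre, ← lim]; exact Complex.mul_im l z
      rw [m1, m2]
      have : s * (e.re * (e.re * s⁻¹ * z.re - e.im * s⁻¹ * z.im) +
          e.im * (e.re * s⁻¹ * z.im + e.im * s⁻¹ * z.re)) =
          (s * s⁻¹) * (e.re ^ 2 + e.im ^ 2) * z.re := by ring
      rw [this, hee, mul_inv_cancel₀ hspos.ne']
      ring
    have e2 : κ₁ / 2 * ‖l * z‖ ^ 2 = κ₁ * s⁻¹ ^ 2 / 2 * ‖z‖ ^ 2 := by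
      rw [norm_mul, lnorm]
      ring
    rw [e1, e2] at h1
    rw [hNt]
    show Ny⁻¹ * NN u σ k (FF y l z) ≤ _
    rw [inv_mul_le_iff₀ hN]
    exact h1

end Pool.Agent.Helper904_Yau.PRL
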