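import Pool.Agent.Helper904_Yau.Stmts

/-!
# RL0: the normalised rigidity lemma, from ME and PS.
-/

set_option autoImplicit false

open MeasureTheory Set Metric Filter Topology
open scoped ContDiff
open Pool.Agent.Helper904_QS

namespace Pool.Agent.Helper904_Yau.PRL0

theorem t_RL0 (hME : S_ME) (hPS : S_PS) : S_RL0 := by
  intro m Λ δ hm hmΛ hδ
  obtain ⟨A, a₁, hA, ha₁, h1⟩ := hME m Λ (δ / 6) hm hmΛ (by positivity)
  obtain ⟨C, a₂, hC, ha₂, h2⟩ := hPS m Λ hm hmΛ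
  have hΛ : 0 < Λ := lt_of_lt_of_le hm hmΛ
  -- the smallness parameter
  obtain ⟨t, ht0, ht1, ht2, ht3⟩ : ∃ t : ℝ, 0 < t ∧ t ≤ 1 ∧ C * (3 * t) * Λ ≤ 1 / 2 ∧
      C * (C * (3 * t)) ≤ δ / 2 := by
    refine ⟨min 1 (min (1 / (6 * C * Λ)) (δ / (6 * C ^ 2))), by positivity, min_le_left _ _, ?_, ?_⟩
    · have h : min 1 (min (1 / (6 * C * Λ)) (δ / (6 * C ^ 2))) ≤ 1 / (6 * C * Λ) :=
        (min_le_right _ _).trans (min_le_left _ _)
      calc _ ≤ C * (3 * (1 / (6 * C * Λ))) * Λ := by gcongr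
        _ = 1 / 2 := by field_simp; norm_num
    · have h : min 1 (min (1 / (6 * C * Λ)) (δ / (6 * C ^ 2))) ≤ δ / (6 * C ^ 2) :=
        (min_le_right _ _).trans (min_le_right _ _)
      calc _ ≤ C * (C * (3 * (δ / (6 * C ^ 2)))) := by gcongr
        _ = δ / 2 := by field_simp; norm_num
  have ht2' : t ^ 2 ≤ t := by nlinarith
  set κ₀ : ℝ := min a₁ (t ^ 2) with hκ₀
  have hκ₀pos : 0 < κ₀ := by positivity
  set a₀ : ℝ := min (min a₁ a₂) (min (t ^ 2) (δ * κ₀ / (2 * C))) with ha₀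
  have ha₀pos : 0 < a₀ := by positivity
  have e1 : a₀ ≤ a₁ := (min_le_left _ _).trans (min_le_left _ _)
  have e2 : a₀ ≤ a₂ := (min_le_left _ _).trans (min_le_right _ _)
  have e3 : a₀ ≤ t ^ 2 := (min_le_right _ _).trans (min_le_left _ _)
  have e4 : a₀ ≤ δ * κ₀ / (2 * C) := (min_le_right _ _).trans (min_le_right _ _)
  refine ⟨A, a₀, hA, ha₀pos, ?_⟩
  intro a ε κ u ς ha haa hε hεa hκ hS hN hNx hNy hup
  obtain ⟨p1, p2, p3⟩ := h2 a ε κ A u ς ha (haa.trans e2) hε (hεa.trans e2) hκ hA hS hN hNx hNy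
  rcases le_or_gt κ κ₀ with hk | hk
  · -- small κ
    have hκ1 : κ ≤ a₁ := hk.trans (min_le_left _ _)
    have hκt : √κ ≤ t := by
      rw [Real.sqrt_le_left ht0.le]
      exact hk.trans (min_le_right _ _)
    have hεt : √ε ≤ t := by
      rw [Real.sqrt_le_left ht0.le]
      exact hεa.trans e3
    have hat : a ≤ t := (haa.trans e3).trans ht2'
    have h3 := p3 hup
    have h3' : a * |u 0| ≤ C * (3 * t) := by
      refine h3.trans ?_
      gcongr
      linarith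
    have h0 : 0 ≤ a * |u 0| := by positivity
    have hς0 : m ≤ ς 0 := hS.low 0 (by simp [hA])
    have hς1 : ς 0 ≤ Λ := hS.up 0 (by simp [hA])
    have hsmall : (a * ς 0 * u 0) ^ 2 ≤ 1 / 4 := by
      have h4 : |a * ς 0 * u 0| ≤ 1 / 2 := by
        rw [abs_mul, abs_mul, abs_of_pos ha, abs_of_pos (hm.trans_le hς0)]
        calc a * ς 0 * |u 0| = (a * |u 0|) * ς 0 := by ring
          _ ≤ (C * (3 * t)) * Λ := by
              apply mul_le_mul h3' hς1 (hm.le.trans hς0) (by positivity)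
          _ ≤ 1 / 2 := ht2
      rw [← sq_abs]
      nlinarith [abs_nonneg (a * ς 0 * u 0)]
    have h5 := p2 hsmall
    have h6 := h1 a ε κ u ς ha (haa.trans e1) hε (hεa.trans e1) hκ hκ1 hS hN hNx hNy hup
    have h7 : C * ε * (a * |u 0|) ≤ δ / 2 * ε := by
      calc C * ε * (a * |u 0|) ≤ C * ε * (C * (3 * t)) := by gcongr
        _ = ε * (C * (C * (3 * t))) := by ring
        _ ≤ ε * (δ / 2) := by gcongr
        _ = δ / 2 * ε := by ring
    nlinarith [mul_nonneg hδ.le hκ]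
  · -- large κ
    have h8 : C * (a ^ 2 + ε) ≤ δ * κ₀ := by
      have ha1 : a ^ 2 ≤ a₀ := by
        have : a ≤ 1 := ((haa.trans e3).trans ht2').trans ht1
        nlinarith
      calc C * (a ^ 2 + ε) ≤ C * (a₀ + a₀) := by gcongr
        _ ≤ C * (δ * κ₀ / (2 * C) + δ * κ₀ / (2 * C)) := by gcongr
        _ = δ * κ₀ := by field_simp; ring
    nlinarith [mul_nonneg hδ.le hε.le, mul_le_mul_of_nonneg_left hk.le hδ.le]

end Pool.Agent.Helper904_Yau.PRL0
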