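import Pool.Agent.Helper904_Yau.StmtsM
import Pool.Agent.Helper904_QSG.FIN

/-!
# YFIN: the assembly on the surface, from PAR, CMP (project QS) and GEO, AVGA.
-/

set_option autoImplicit false

open MeasureTheory Set Metric Filter Topology Bundle
open scoped ContDiff Manifold

namespace Pool.Agent.Helper904_Yau.PYFIN

open Pool.Agent.Helper904_QS Pool.Agent.Helper904_Yau
open Pool.Agent.Helper904_QSG (IsoPar IsEigenfunction)
open Pool.Agent.Helper904_QSG.PFIN

theorem t_YFIN (hPAR : Pool.Agent.Helper904_QSG.S_PAR) (hCMP : Pool.Agent.Helper904_QSG.S_CMP)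
    (hGEO : S_GEO) (hAVGA : S_AVGA) : S_YFIN := by
  intro E _ _ B M _ _ _ _ _ _ _ _
  choose e₀ ψ₀ σ₀ hI₀ h0₀ using hPAR E B M
  -- finite cover
  have hop : ∀ x : M, IsOpen (ψ₀ x '' ball 0 (1 / 2)) := fun x =>
    (hI₀ x).opn _ (ball_subset_ball (by norm_num)) isOpen_ball
  have hcov : ∀ x : M, x ∈ ψ₀ x '' ball 0 (1 / 2) := fun x =>
    ⟨0, mem_ball_self (by norm_num), h0₀ x⟩
  obtain ⟨t, ht⟩ := isCompact_univ.elim_finite_subcover (fun x : M => ψ₀ x '' ball 0 (1 / 2)) hop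
    (fun x _ => mem_iUnion.mpr ⟨x, hcov x⟩)
  let ι : Type := {x : M // x ∈ t}
  let e : ι → OpenPartialHomeomorph M E := fun i => e₀ i.1
  let ψ : ι → ℂ → M := fun i => ψ₀ i.1
  let σ : ι → ℂ → ℝ := fun i => σ₀ i.1
  have hI : ∀ i : ι, IsoPar B M (e i) (ψ i) (σ i) := fun i => hI₀ i.1
  have hcv : ∀ x : M, ∃ i : ι, ∃ z ∈ ball (0 : ℂ) (1 / 2), ψ i z = x := by
    intro x
    have := ht (mem_univ x)
    simp only [mem_iUnion] at this
    obtain ⟨i, hi, z, hz, hzx⟩ := this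
    exact ⟨⟨i, hi⟩, z, hz, hzx⟩
  let σ' : ι → ℂ → ℝ := fun i z => cut z * σ i z
  have hAtl : Atl M ι ψ σ' := by
    refine ⟨fun i => (hI i).cont, fun i => (hI i).opn, hcv, ?_, ?_⟩
    · intro i
      exact cut_smooth (σ i) 3 ((hI i).ssm.of_le (by norm_num))
    · intro i z hz
      change 0 < cut z * σ i z
      rw [cut_one _ z hz]
      exact (hI i).spos z (closedBall_subset_ball (by norm_num) hz)
  have hComp : CompY M ι ψ := by
    obtain ⟨C, hC, h⟩ := hCMP E B M ι e ψ σ hI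
    exact ⟨C, hC, fun u f hf hr i j z hz z' hz' hzz => (h u f hf hr i j z hz z' hz' hzz).1⟩
  have hGeo : Geo M ι ψ := hGEO E B M ι e ψ σ hI hcv
  intro C₀ C₁ C₂ hC₀ hC₁ hC₂
  obtain ⟨A, hA⟩ := hAVGA M ι ψ σ' hAtl hComp hGeo C₀ C₁ C₂ hC₀ hC₁ hC₂
  refine ⟨A, ?_⟩
  intro lam φ hlam hφ n x _ hcover hlow _ hover
  set k : ℝ := √lam with hk
  have hk0 : 0 < k := Real.sqrt_pos.mpr hlam
  have hk2 : k ^ 2 = lam := Real.sq_sqrt hlam.le
  let f : ι → ℂ → ℝ := fun i z => cut z * φ (ψ i z)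
  have sφ : ∀ i : ι, ContDiffOn ℝ 5 (fun z => φ (ψ i z)) (ball 0 2) := by
    intro i
    have h1 : ContMDiffOn 𝓘(ℝ, E) 𝓘(ℝ, E) ∞ (e i).symm (e i).target :=
      contMDiffOn_symm_of_mem_maximalAtlas (IsManifold.subset_maximalAtlas (hI i).chart)
    have h2 : ContMDiffOn 𝓘(ℝ, E) 𝓘(ℝ, ℝ) ∞ (φ ∘ (e i).symm) (e i).target :=
      hφ.1.comp_contMDiffOn h1
    have h3 : ContDiffOn ℝ ∞ (φ ∘ (e i).symm) (e i).target := contMDiffOn_iff_contDiffOn.mp h2
    have h4 : ContDiffOn ℝ 5 ((φ ∘ (e i).symm) ∘ (fun z => e i (ψ i z))) (ball 0 2) :=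
      (h3.of_le ENat.LEInfty.out).comp (hI i).sm
        (fun z hz => (e i).map_source ((hI i).src z hz))
    refine h4.congr ?_
    intro z hz
    simp only [Function.comp]
    rw [(e i).left_inv ((hI i).src z hz)]
  have hEig : Eig M ι ψ σ' k φ f := by
    refine ⟨?_, ?_, ?_, hφ.2.1⟩
    · intro i
      exact cut_smooth (fun z => φ (ψ i z)) 4 ((sφ i).of_le (by norm_num))
    · intro i z hz
      exact cut_one (fun z => φ (ψ i z)) z (ball_subset_closedBall hz)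
    · intro i z hz
      have hz2 : z ∈ ball (0 : ℂ) 2 := ball_subset_ball (by norm_num) hz
      have h1 : lap (f i) z = lap (fun z => φ (ψ i z)) z :=
        lap_congr isOpen_ball
          (fun y hy => cut_one (fun z => φ (ψ i z)) y (ball_subset_closedBall hy)) z hz
      have h2 := (hI i).eig lam φ hφ z hz2
      have h3 : σ' i z = σ i z := cut_one (σ i) z (ball_subset_closedBall hz)
      have h4 : f i z = φ (ψ i z) :=
        cut_one (fun z => φ (ψ i z)) z (ball_subset_closedBall hz)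
      rw [h1, h2, h3, h4, hk2]
  have h := hA k φ f hk0 hEig n x (by rw [hk2]; exact hlow) hover
  -- `n > 0`
  have hn : 0 < n := by
    obtain ⟨y⟩ : Nonempty M := inferInstance
    obtain ⟨j, _⟩ := hcover y
    exact lt_of_le_of_lt (Nat.zero_le _) j.2
  rw [div_le_iff₀ (by exact_mod_cast hn)]
  exact h

end Pool.Agent.Helper904_Yau.PYFIN
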