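import Pool.Agent.Helper904_Yau.GE
import Pool.Agent.Helper904_Yau.MVB
import Pool.Agent.Helper904_Yau.CE
import Pool.Agent.Helper904_Yau.MODE
import Pool.Agent.Helper904_Yau.GRON
import Pool.Agent.Helper904_Yau.QF
import Pool.Agent.Helper904_Yau.PW
import Pool.Agent.Helper904_Yau.PS
import Pool.Agent.Helper904_Yau.ME
import Pool.Agent.Helper904_Yau.RL0
import Pool.Agent.Helper904_Yau.RL
import Pool.Agent.Helper904_Yau.BAR
import Pool.Agent.Helper904_Yau.CT
import Pool.Agent.Helper904_Yau.JAC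
import Pool.Agent.Helper904_Yau.FIB
import Pool.Agent.Helper904_Yau.ABP
import Pool.Agent.Helper904_Yau.LOC
import Pool.Agent.Helper904_Yau.DBL
import Pool.Agent.Helper904_Yau.GROW
import Pool.Agent.Helper904_Yau.AVS
import Pool.Agent.Helper904_Yau.AVL
import Pool.Agent.Helper904_Yau.AVGA
import Pool.Agent.Helper904_Yau.GEO
import Pool.Agent.Helper904_Yau.YFIN
import Pool.Agent.Helper904_QSG.ALL

/-!
Assembly of all the pieces.
-/

set_option autoImplicit false

namespace Pool.Agent.Helper904_Yau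

theorem all_CE : S_CE := PCE.t_CE

theorem all_MODE : S_MODE := PMODE.t_MODE' PGE.t_GE

theorem all_PS : S_PS := PPS.t_PS

theorem all_ME : S_ME := PME.t_ME all_CE all_MODE PGRON.t_GRON PQF.t_QF PPW.t_PW all_PS

theorem all_RL : S_RL := PRL.t_RL (PRL0.t_RL0 all_ME all_PS)

theorem all_BAR : S_BAR := PBAR.t_BAR all_RL

theorem all_ABP : S_ABP := PABP.t_ABP PCT.t_CT PJAC.t_JAC PFIB.t_FIB

theorem all_LOC : S_LOC := PLOC.t_LOC all_ABP PCT.t_CT all_RL

theorem all_DBL : S_DBL := PDBL.t_DBL PGE.t_GE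

theorem all_GROW : S_GROW := PGROW.t_GROW all_BAR

theorem all_AVS : S_AVS := PAVS.t_AVS all_GROW all_LOC all_DBL

theorem all_AVL : S_AVL := PAVL.t_AVL all_GROW PGE.t_GE

theorem all_AVGA : S_AVGA := PAVGA.t_AVGA all_AVS all_AVL

theorem all_GEO : S_GEO := PGEO.t_GEO Pool.Agent.Helper904_QSG.PLIP.t_LIP

theorem all_YFIN : S_YFIN :=
  PYFIN.t_YFIN Pool.Agent.Helper904_QSG.all_PAR Pool.Agent.Helper904_QSG.PCMP.t_CMP all_GEO all_AVGA

end Pool.Agent.Helper904_Yau
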