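import Pool.Agent.Helper904_Yau.Stmts
import Pool.Agent.Helper904_QS.HK

/-!
# Common constants for the discs of an atlas (used by GROW, AVS, AVL)
-/

set_option autoImplicit false

open MeasureTheory Set Metric Filter Topology
open scoped ContDiff
open Pool.Agent.Helper904_QS

namespace Pool.Agent.Helper904_Yau.PConst

/-- constants `m`, `Λ` valid in all the discs -/
theorem sol_const {M ι : Type} [TopologicalSpace M] [Fintype ι] {ψ : ι → ℂ → M}
    {σ : ι → ℂ → ℝ} (hAtl : Atl M ι ψ σ) :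
    ∃ m Λ : ℝ, 0 < m ∧ m ≤ Λ ∧ (∀ i, ∀ z ∈ closedBall (0 : ℂ) (7 / 4), m ≤ σ i z ∧ σ i z ≤ Λ) ∧
      ∀ (k : ℝ) (u : M → ℝ) (f : ι → ℂ → ℝ), Eig M ι ψ σ k u f →
        ∀ i, Sol m Λ k (ball 0 (7 / 4)) (f i) (σ i) := by
  have hK : IsCompact (closedBall (0 : ℂ) (7 / 4)) := isCompact_closedBall _ _
  have hs2 : ∀ i, ContDiff ℝ 2 (σ i) := fun i => (hAtl.sm i).of_le (by norm_num)
  have hs1 : ∀ i, ContDiff ℝ 1 (σ i) := fun i => (hAtl.sm i).of_le (by norm_num)
  obtain ⟨m, hm, hlow⟩ := PHK.low σ hK (fun i => (hAtl.sm i).continuous.continuousOn)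
    (fun i z hz => hAtl.pos i z hz)
  obtain ⟨B0, hB0, hb0⟩ := PHK.bnd σ hK (fun i => (hAtl.sm i).continuous.continuousOn)
  obtain ⟨B1, hB1, hb1⟩ := PHK.bnd (fun i => dx (σ i)) hK
    (fun i => (continuous_dx (hs1 i)).continuousOn)
  obtain ⟨B2, hB2, hb2⟩ := PHK.bnd (fun i => dy (σ i)) hK
    (fun i => (continuous_dy (hs1 i)).continuousOn)
  obtain ⟨B3, hB3, hb3⟩ := PHK.bnd (fun i => dx (dx (σ i))) hK
    (fun i => (continuous_dx (contDiff_dx1 (hs2 i))).continuousOn)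
  obtain ⟨B4, hB4, hb4⟩ := PHK.bnd (fun i => dx (dy (σ i))) hK
    (fun i => (continuous_dx (contDiff_dy1 (hs2 i))).continuousOn)
  obtain ⟨B5, hB5, hb5⟩ := PHK.bnd (fun i => dy (dy (σ i))) hK
    (fun i => (continuous_dy (contDiff_dy1 (hs2 i))).continuousOn)
  set Λ : ℝ := m + B0 + B1 + B2 + B3 + B4 + B5 with hΛ
  have hmΛ : m ≤ Λ := by linarith
  refine ⟨m, Λ, hm, hmΛ, ?_, ?_⟩
  · intro i z hz
    have := (le_abs_self _).trans (hb0 i z hz)
    exact ⟨hlow i z hz, by linarith⟩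
  · intro k u f hE i
    have hb : ∀ z ∈ ball (0 : ℂ) (7 / 4), z ∈ closedBall (0 : ℂ) (7 / 4) :=
      fun z hz => ball_subset_closedBall hz
    refine ⟨hE.sm i, hAtl.sm i, fun z hz => hlow i z (hb z hz), fun z hz => ?_, fun z hz => ?_,
      fun z hz => ?_, fun z hz => ?_, fun z hz => ?_, fun z hz => ?_,
      fun z hz => hE.eq i z hz⟩
    · have := (le_abs_self _).trans (hb0 i z (hb z hz)); linarith
    · have := hb1 i z (hb z hz); linarith
    · have := hb2 i z (hb z hz); linarith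
    · have := hb3 i z (hb z hz); linarith
    · have := hb4 i z (hb z hz); linarith
    · have := hb5 i z (hb z hz); linarith

theorem gsq_nonneg (f : ℂ → ℝ) (z : ℂ) : 0 ≤ gsq f z := by unfold gsq; positivity

theorem NN_nonneg (u σ : ℂ → ℝ) (k : ℝ) (z : ℂ) : 0 ≤ NN u σ k z := by
  unfold NN
  have := gsq_nonneg u z
  positivity

theorem continuous_NN {u σ : ℂ → ℝ} (hu : ContDiff ℝ 4 u) (hs : Continuous σ) (k : ℝ) :
    Continuous (NN u σ k) := by
  have c0 := hu.continuous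
  have c1 : Continuous (dx u) := continuous_dx (hu.of_le (by norm_num))
  have c2 : Continuous (dy u) := continuous_dy (hu.of_le (by norm_num))
  unfold NN gsq
  fun_prop

/-- `|k σ u| ≤ √N` -/
theorem abs_le_sqrt_NN (u σ : ℂ → ℝ) (k : ℝ) (z : ℂ) : |k * σ z * u z| ≤ √(NN u σ k z) := by
  rw [← Real.sqrt_sq_eq_abs]
  apply Real.sqrt_le_sqrt
  unfold NN
  have := gsq_nonneg u z
  linarith

/-- the set of steep points is open -/
theorem isOpen_US {N : ℂ → ℝ} (hN : Continuous N) (s : ℝ) : IsOpen (US N s) := by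
  have : US N s = ⋃ z ∈ closedBall (0 : ℂ) (3 / 2),
      {x : ℂ | N x * Real.exp (s * ‖z - x‖) < N z} := by
    ext x
    simp only [US, mem_ofPred_eq, mem_iUnion, exists_prop]
  rw [this]
  refine isOpen_biUnion fun z _ => ?_
  exact isOpen_lt (by fun_prop) continuous_const

end Pool.Agent.Helper904_Yau.PConst
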