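import Pool.Agent.Helper904_QS.Stmts
import Pool.Agent.Helper904_QS.Calc

/-!
# MP_c7f82c_an: definitions for the flat local analysis
-/

set_option autoImplicit false

open MeasureTheory Set Metric Filter Topology
open scoped ContDiff
open Pool.Agent.Helper904_QS

namespace Pool.Agent.Helper904_Yau

/-- `|∇u|² + k²σ²u²` -/
noncomputable def NN (u σ : ℂ → ℝ) (k : ℝ) (z : ℂ) : ℝ := gsq u z + (k * σ z * u z) ^ 2

/-- normalised solutions: `Δu = -a²ς²u`, and `ς` varies slowly (at scale `1/ε`) -/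
structure NSol (m Λ a ε : ℝ) (U : Set ℂ) (u ς : ℂ → ℝ) : Prop where
  hu : ContDiff ℝ 4 u
  hs : ContDiff ℝ 3 ς
  low : ∀ z ∈ U, m ≤ ς z
  up : ∀ z ∈ U, ς z ≤ Λ
  d1x : ∀ z ∈ U, |dx ς z| ≤ Λ * ε
  d1y : ∀ z ∈ U, |dy ς z| ≤ Λ * ε
  d2xx : ∀ z ∈ U, |dx (dx ς) z| ≤ Λ * ε ^ 2
  d2xy : ∀ z ∈ U, |dx (dy ς) z| ≤ Λ * ε ^ 2
  d2yy : ∀ z ∈ U, |dy (dy ς) z| ≤ Λ * ε ^ 2
  eq : ∀ z ∈ U, lap u z = -(a ^ 2 * ς z ^ 2 * u z)

/-- the deviation function `ϖ = 2 ∂₁u - u` -/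
noncomputable def wp (u : ℂ → ℝ) (z : ℂ) : ℝ := 2 * dx u z - u z

/-- the model solution `e^{x/2} (A cos βy + B sin βy)` -/
noncomputable def u0 (A B β : ℝ) (z : ℂ) : ℝ :=
  Real.exp (z.re / 2) * (A * Real.cos (β * z.im) + B * Real.sin (β * z.im))

/-- the linearised quantity `e^{-x} (∇u₀·∇u₁ + α² u₀ u₁)` -/
noncomputable def qq (α β A B : ℝ) (u₁ : ℂ → ℝ) (z : ℂ) : ℝ :=
  Real.exp (-z.re) * (dx (u0 A B β) z * dx u₁ z + dy (u0 A B β) z * dy u₁ z +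
    α ^ 2 * u0 A B β z * u₁ z)

/-- the inhomogeneity `h = Δu₁ + α² u₁` -/
noncomputable def hh (α : ℝ) (u₁ : ℂ → ℝ) (z : ℂ) : ℝ := lap u₁ z + α ^ 2 * u₁ z

/-- the set where the upward slope exceeds `s`:
`∃ z ∈ Ω, log N z - log N x > s |z - x|`, `Ω` the closed disc of radius `3/2`. -/
def US (N : ℂ → ℝ) (s : ℝ) : Set ℂ :=
  {x | ∃ z ∈ closedBall (0 : ℂ) (3 / 2), N x * Real.exp (s * ‖z - x‖) < N z}

end Pool.Agent.Helper904_Yau
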