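import Pool.Agent.Helper904_QSG.MDefs

/-!
# MP_c7f82c_an: the definitions used in the final statement.
-/

set_option autoImplicit false

open Set Metric

namespace Pool.Agent.Helper904_Yau

/-- The doubling index of `φ` on the disc `B(x,r)`:
`log₂ (sup_{B(x,2r)} |φ| / sup_{B(x,r)} |φ|)`. -/
noncomputable def doublingIndex {M : Type} [MetricSpace M] (φ : M → ℝ) (x : M) (r : ℝ) : ℝ :=
  Real.logb 2 ((⨆ y : ball x (2 * r), |φ y|) / ⨆ y : ball x r, |φ y|)

/-- The discs `B(x j, C/√lam)`, `j < n`, form an admissible covering for `φ` with the constants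
`C, C₁, C₂`: they cover `M`, their number is between `C₂⁻¹ lam` and `C₂ lam`, every point lies in
at most `C₁` of them, and `φ` vanishes at their centres. -/
structure AdmissibleCovering {M : Type} [MetricSpace M] (C C₁ C₂ lam : ℝ) (φ : M → ℝ) (n : ℕ)
    (x : Fin n → M) : Prop where
  cover : ∀ y : M, ∃ j, y ∈ ball (x j) (C / √lam)
  card_lower : C₂⁻¹ * lam ≤ n
  card_upper : n ≤ C₂ * lam
  overlap : ∀ y : M, ({j | y ∈ ball (x j) (C / √lam)}.ncard : ℝ) ≤ C₁
  zero : ∀ j, φ (x j) = 0

end Pool.Agent.Helper904_Yau
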