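import Pool.Agent.Helper904_Yau.POL

/-!
GE: interior gradient estimate, by the first Fourier mode.
-/

set_option autoImplicit false

open MeasureTheory Set Metric Filter Topology
open scoped ContDiff
open Pool.Agent.Helper904_QS Pool.Agent.Helper904_QS.PJC Pool.Agent.Helper904_Yau.PPOL

namespace Pool.Agent.Helper904_Yau.PGE

variable {f : ℂ → ℝ} {r : ℝ}

/-- the angular weight -/
noncomputable def om (α θ : ℝ) : ℝ := Real.cos (θ + α)

/-- its derivative -/
noncomputable def om' (α θ : ℝ) : ℝ := -Real.sin (θ + α)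

theorem om_deriv (α θ : ℝ) : HasDerivAt (om α) (om' α θ) θ := by
  have h := (Real.hasDerivAt_cos (θ + α)).comp θ ((hasDerivAt_id θ).add_const α)
  exact h.congr_deriv (by unfold om'; ring)

theorem om'_deriv (α θ : ℝ) : HasDerivAt (om' α) (-om α θ) θ := by
  have h := ((Real.hasDerivAt_sin (θ + α)).comp θ ((hasDerivAt_id θ).add_const α)).neg
  exact h.congr_deriv (by unfold om; ring)

theorem om_cont (α : ℝ) : Continuous (om α) := by unfold om; fun_prop

theorem om'_cont (α : ℝ) : Continuous (om' α) := by unfold om'; fun_prop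

theorem om_abs (α θ : ℝ) : |om α θ| ≤ 1 := Real.abs_cos_le_one _

theorem om_per (α : ℝ) : om α Real.pi = om α (-Real.pi) := by
  unfold om
  have h : Real.pi + α = (-Real.pi + α) + 2 * Real.pi := by ring
  rw [h, Real.cos_add_two_pi]

theorem om'_per (α : ℝ) : om' α Real.pi = om' α (-Real.pi) := by
  unfold om'
  have h : Real.pi + α = (-Real.pi + α) + 2 * Real.pi := by ring
  rw [h, Real.sin_add_two_pi]

theorem pp_per (y : ℂ) (ρ : ℝ) : pp y ρ Real.pi = pp y ρ (-Real.pi) := by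
  unfold pp
  simp

noncomputable def A0 (f : ℂ → ℝ) (y : ℂ) (α ρ : ℝ) : ℝ :=
  ∫ θ in (-Real.pi)..Real.pi, f (pp y ρ θ) * om α θ

noncomputable def A1 (f : ℂ → ℝ) (y : ℂ) (α ρ : ℝ) : ℝ :=
  ∫ θ in (-Real.pi)..Real.pi, aa f y ρ θ * om α θ

noncomputable def A2 (f : ℂ → ℝ) (y : ℂ) (α ρ : ℝ) : ℝ :=
  ∫ θ in (-Real.pi)..Real.pi, a2 f y ρ θ * om α θ

noncomputable def B0 (f : ℂ → ℝ) (y : ℂ) (α ρ : ℝ) : ℝ :=
  ∫ θ in (-Real.pi)..Real.pi, lap f (pp y ρ θ) * om α θ

theorem cont_om (α : ℝ) : Continuous (fun p : ℝ × ℝ => om α p.2) := (om_cont α).comp continuous_snd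

theorem cF (hf : ContDiff ℝ 2 f) (y : ℂ) (α : ℝ) :
    Continuous (fun p : ℝ × ℝ => f (pp y p.1 p.2) * om α p.2) :=
  (hf.continuous.comp (continuous_pp y)).mul (cont_om α)

theorem caa (hf : ContDiff ℝ 2 f) (y : ℂ) (α : ℝ) :
    Continuous (fun p : ℝ × ℝ => aa f y p.1 p.2 * om α p.2) := (continuous_aa hf y).mul (cont_om α)

theorem ca2 (hf : ContDiff ℝ 2 f) (y : ℂ) (α : ℝ) :
    Continuous (fun p : ℝ × ℝ => a2 f y p.1 p.2 * om α p.2) := (continuous_a2 hf y).mul (cont_om α)

theorem clap (hf : ContDiff ℝ 2 f) (y : ℂ) (α : ℝ) :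
    Continuous (fun p : ℝ × ℝ => lap f (pp y p.1 p.2) * om α p.2) :=
  ((continuous_lap hf).comp (continuous_pp y)).mul (cont_om α)

theorem dA0 (hf : ContDiff ℝ 2 f) (y : ℂ) (α ρ : ℝ) : HasDerivAt (A0 f y α) (A1 f y α ρ) ρ :=
  param_deriv (F := fun ρ θ => f (pp y ρ θ) * om α θ) (F' := fun ρ θ => aa f y ρ θ * om α θ)
    (cF hf y α) (caa hf y α) (fun ρ θ => (deriv_F hf y ρ θ).mul_const _) _ _ ρ

theorem dA1 (hf : ContDiff ℝ 2 f) (y : ℂ) (α ρ : ℝ) : HasDerivAt (A1 f y α) (A2 f y α ρ) ρ :=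
  param_deriv (F := fun ρ θ => aa f y ρ θ * om α θ) (F' := fun ρ θ => a2 f y ρ θ * om α θ)
    (caa hf y α) (ca2 hf y α) (fun ρ θ => (deriv_aa hf y ρ θ).mul_const _) _ _ ρ

theorem cont_A0 (hf : ContDiff ℝ 2 f) (y : ℂ) (α : ℝ) : Continuous (A0 f y α) :=
  param_cont (cF hf y α) _ _

theorem cont_A1 (hf : ContDiff ℝ 2 f) (y : ℂ) (α : ℝ) : Continuous (A1 f y α) :=
  param_cont (caa hf y α) _ _

theorem cont_B0 (hf : ContDiff ℝ 2 f) (y : ℂ) (α : ℝ) : Continuous (B0 f y α) :=
  param_cont (clap hf y α) _ _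

/-- `∂_θ (f ∘ pp) = ρ tt` -/
theorem deriv_Ftheta (hf : ContDiff ℝ 2 f) (y : ℂ) (ρ θ : ℝ) :
    HasDerivAt (fun θ => f (pp y ρ θ)) (ρ * tt f y ρ θ) θ := by
  have h := hasDerivAt_comp (hf.differentiable (by norm_num)) (hasDerivAt_theta y ρ θ)
  refine h.congr_deriv ?_
  unfold tt
  ring

theorem tt_cont (hf : ContDiff ℝ 2 f) (y : ℂ) (ρ : ℝ) : Continuous (fun θ => tt f y ρ θ) :=
  continuous_iff_continuousAt.2 fun θ => (deriv_tt hf y ρ θ).continuousAt

/-- the angular equation -/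
theorem theta_eq (hf : ContDiff ℝ 2 f) (y : ℂ) (α ρ : ℝ) :
    ρ ^ 2 * B0 f y α ρ = ρ ^ 2 * A2 f y α ρ + ρ * A1 f y α ρ - A0 f y α ρ := by
  -- first integration by parts
  have c1 : Continuous (fun θ => (ρ * b2 f y ρ θ - aa f y ρ θ)) := by
    have h1 := (continuous_b2 hf y).comp (Continuous.prodMk_right ρ)
    have h2 := (continuous_aa hf y).comp (Continuous.prodMk_right ρ)
    exact (continuous_const.mul h1).sub h2
  have i1 := intervalIntegral.integral_mul_deriv_eq_deriv_mul (a := -Real.pi) (b := Real.pi)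
    (u := om α) (u' := om' α) (v := fun θ => tt f y ρ θ) (v' := fun θ => ρ * b2 f y ρ θ - aa f y ρ θ)
    (fun θ _ => om_deriv α θ) (fun θ _ => deriv_tt hf y ρ θ)
    ((om'_cont α).intervalIntegrable _ _) (c1.intervalIntegrable _ _)
  -- second integration by parts
  have c2 : Continuous (fun θ => ρ * tt f y ρ θ) := continuous_const.mul (tt_cont hf y ρ)
  have i2 := intervalIntegral.integral_mul_deriv_eq_deriv_mul (a := -Real.pi) (b := Real.pi)
    (u := om' α) (u' := fun θ => -om α θ) (v := fun θ => f (pp y ρ θ)) (v' := fun θ => ρ * tt f y ρ θ)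
    (fun θ _ => om'_deriv α θ) (fun θ _ => deriv_Ftheta hf y ρ θ)
    ((om_cont α).neg.intervalIntegrable _ _) (c2.intervalIntegrable _ _)
  have e1 : tt f y ρ Real.pi = tt f y ρ (-Real.pi) := by
    unfold tt
    rw [pp_per]
    simp
  simp only [e1, om_per, pp_per, om'_per, sub_self, zero_sub] at i1 i2
  -- combine
  have e2 : ∫ θ in (-Real.pi)..Real.pi, om α θ * (ρ * (ρ * b2 f y ρ θ - aa f y ρ θ)) =
      -A0 f y α ρ := by
    have h1 : ∫ θ in (-Real.pi)..Real.pi, om α θ * (ρ * (ρ * b2 f y ρ θ - aa f y ρ θ)) =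
        ρ * ∫ θ in (-Real.pi)..Real.pi, om α θ * (ρ * b2 f y ρ θ - aa f y ρ θ) := by
      rw [← intervalIntegral.integral_const_mul]
      congr 1
      ext θ
      ring
    rw [h1, i1]
    have h2 : ∫ θ in (-Real.pi)..Real.pi, om' α θ * (ρ * tt f y ρ θ) =
        ρ * ∫ θ in (-Real.pi)..Real.pi, om' α θ * tt f y ρ θ := by
      rw [← intervalIntegral.integral_const_mul]
      congr 1
      ext θ
      ring
    rw [mul_neg, ← h2, i2]
    unfold A0
    rw [neg_neg, ← intervalIntegral.integral_neg]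
    congr 1
    ext θ
    ring
  have e3 : ρ ^ 2 * B0 f y α ρ = ρ ^ 2 * A2 f y α ρ + ρ * A1 f y α ρ +
      ∫ θ in (-Real.pi)..Real.pi, om α θ * (ρ * (ρ * b2 f y ρ θ - aa f y ρ θ)) := by
    unfold B0 A2 A1
    rw [← intervalIntegral.integral_const_mul, ← intervalIntegral.integral_const_mul,
      ← intervalIntegral.integral_const_mul, ← intervalIntegral.integral_add,
      ← intervalIntegral.integral_add]
    · congr 1
      ext θ
      rw [← a2_add_b2]
      ring
    · exact ((continuous_const.mul ((ca2 hf y α).comp (Continuous.prodMk_right ρ))).add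
        (continuous_const.mul ((caa hf y α).comp (Continuous.prodMk_right ρ)))).intervalIntegrable _ _
    · exact ((om_cont α).mul (continuous_const.mul c1)).intervalIntegrable _ _
    · exact (continuous_const.mul ((ca2 hf y α).comp (Continuous.prodMk_right ρ))).intervalIntegrable _ _
    · exact (continuous_const.mul ((caa hf y α).comp (Continuous.prodMk_right ρ))).intervalIntegrable _ _
  rw [e3, e2]
  ring

/-- the value at the centre -/
theorem A0_zero (f : ℂ → ℝ) (y : ℂ) (α : ℝ) : A0 f y α 0 = 0 := by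
  unfold A0
  have h : ∀ θ : ℝ, pp y 0 θ = y := fun θ => by unfold pp; simp
  simp only [h]
  rw [intervalIntegral.integral_const_mul]
  have h2 : ∫ θ in (-Real.pi)..Real.pi, om α θ = 0 := by
    have h3 := intervalIntegral.integral_eq_sub_of_hasDerivAt (a := -Real.pi) (b := Real.pi)
      (f := fun θ => -om' α θ) (f' := om α) (fun θ _ =>
        (om'_deriv α θ).neg.congr_deriv (neg_neg _)) ((om_cont α).intervalIntegrable _ _)
    rw [h3, om'_per, sub_self]
  rw [h2, mul_zero]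

theorem A1_zero (f : ℂ → ℝ) (y : ℂ) (α : ℝ) :
    A1 f y α 0 = Real.pi * (Real.cos α * dx f y - Real.sin α * dy f y) := by
  unfold A1 aa om
  have h : ∀ θ : ℝ, pp y 0 θ = y := fun θ => by unfold pp; simp
  simp only [h]
  have h1 : ∀ θ : ℝ, (Real.cos θ * dx f y + Real.sin θ * dy f y) * Real.cos (θ + α) =
      (Real.cos α * dx f y) * Real.cos θ ^ 2 + (Real.cos α * dy f y - Real.sin α * dx f y) *
        (Real.sin θ * Real.cos θ) - (Real.sin α * dy f y) * Real.sin θ ^ 2 := by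
    intro θ
    rw [Real.cos_add]
    ring
  simp only [h1]
  rw [intervalIntegral.integral_sub, intervalIntegral.integral_add,
    intervalIntegral.integral_const_mul, intervalIntegral.integral_const_mul,
    intervalIntegral.integral_const_mul, integral_cos_sq, integral_sin_sq, integral_sin_mul_cos₁]
  · simp
    ring
  · exact Continuous.intervalIntegrable (by fun_prop) _ _
  · exact Continuous.intervalIntegrable (by fun_prop) _ _
  · exact Continuous.intervalIntegrable (by fun_prop) _ _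
  · exact Continuous.intervalIntegrable (by fun_prop) _ _

/-- the potential -/
noncomputable def HH (f : ℂ → ℝ) (y : ℂ) (r α ρ : ℝ) : ℝ :=
  (1 - ρ ^ 2 / r ^ 2) ^ 2 * A1 f y α ρ + dslope (A0 f y α) 0 ρ +
    (2 * ρ / r ^ 2 - 3 * ρ ^ 3 / r ^ 4) * A0 f y α ρ

theorem HH_cont (hf : ContDiff ℝ 2 f) (y : ℂ) (r α : ℝ) : Continuous (HH f y r α) := by
  have h1 : Continuous (dslope (A0 f y α) 0) := by
    rw [continuous_iff_continuousAt]
    intro ρ
    by_cases h : ρ = 0
    · subst h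
      exact continuousAt_dslope_same.2 (dA0 hf y α 0).differentiableAt
    · exact (continuousAt_dslope_of_ne h).2 (cont_A0 hf y α).continuousAt
  have h2 := cont_A0 hf y α
  have h3 := cont_A1 hf y α
  unfold HH
  fun_prop

theorem HH_deriv (hf : ContDiff ℝ 2 f) (y : ℂ) (hr : 0 < r) (α ρ : ℝ) (hρ : 0 < ρ) :
    HasDerivAt (HH f y r α)
      ((1 - ρ ^ 2 / r ^ 2) ^ 2 * B0 f y α ρ - 8 * ρ ^ 2 / r ^ 4 * A0 f y α ρ) ρ := by
  have h0 := dA0 hf y α ρ
  have h1 := dA1 hf y α ρ
  have hB := theta_eq hf y α ρ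
  have e : ∀ᶠ t in 𝓝 ρ, HH f y r α t = (1 - t ^ 2 / r ^ 2) ^ 2 * A1 f y α t + A0 f y α t / t +
      (2 * t / r ^ 2 - 3 * t ^ 3 / r ^ 4) * A0 f y α t := by
    filter_upwards [eventually_gt_nhds hρ] with t ht
    unfold HH
    rw [dslope_of_ne _ ht.ne', slope_def_field, A0_zero, sub_zero, sub_zero]
  have d1 : HasDerivAt (fun t : ℝ => (1 - t ^ 2 / r ^ 2) ^ 2)
      (2 * (1 - ρ ^ 2 / r ^ 2) * (-(2 * ρ / r ^ 2))) ρ := by
    have := (((hasDerivAt_pow 2 ρ).div_const (r ^ 2)).const_sub 1).pow 2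
    exact this.congr_deriv (by push_cast; ring)
  have d2 : HasDerivAt (fun t : ℝ => 2 * t / r ^ 2 - 3 * t ^ 3 / r ^ 4)
      (2 / r ^ 2 - 9 * ρ ^ 2 / r ^ 4) ρ := by
    have := (((hasDerivAt_id ρ).const_mul 2).div_const (r ^ 2)).sub
      (((hasDerivAt_pow 3 ρ).const_mul 3).div_const (r ^ 4))
    exact this.congr_deriv (by push_cast; ring)
  have d3 := ((d1.mul h1).add (h0.div (hasDerivAt_id ρ) hρ.ne')).add (d2.mul h0)
  refine (d3.congr_of_eventuallyEq e).congr_deriv ?_
  have h2 : A2 f y α ρ = B0 f y α ρ - A1 f y α ρ / ρ + A0 f y α ρ / ρ ^ 2 := by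
    field_simp
    linarith
  simp only [id]
  rw [h2]
  field_simp
  ring

/-- the representation of the gradient at the centre -/
theorem rep (hf : ContDiff ℝ 2 f) (y : ℂ) (hr : 0 < r) (α : ℝ) :
    ∫ ρ in (0 : ℝ)..r, ((1 - ρ ^ 2 / r ^ 2) ^ 2 * B0 f y α ρ - 8 * ρ ^ 2 / r ^ 4 * A0 f y α ρ) =
      -(2 * (Real.pi * (Real.cos α * dx f y - Real.sin α * dy f y))) := by
  have h1 := cont_A0 hf y α
  have h2 := cont_B0 hf y α
  rw [intervalIntegral.integral_eq_sub_of_hasDerivAt_of_le hr.le (f := HH f y r α)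
    (HH_cont hf y r α).continuousOn (fun ρ hρ => HH_deriv hf y hr α ρ hρ.1)
    (Continuous.intervalIntegrable (by fun_prop) _ _)]
  have e1 : HH f y r α r = 0 := by
    unfold HH
    rw [dslope_of_ne _ hr.ne', slope_def_field, A0_zero, sub_zero, sub_zero]
    field_simp
    ring
  have e2 : HH f y r α 0 = 2 * A1 f y α 0 := by
    unfold HH
    rw [dslope_same, (dA0 hf y α 0).deriv]
    ring
  rw [e1, e2, A1_zero]
  ring

theorem bound (hf : ContDiff ℝ 2 f) (y : ℂ) (hr : 0 < r) (α : ℝ) {M : ℝ}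
    (hM : ∀ z ∈ ball y r, |lap f z| ≤ M) :
    |Real.cos α * dx f y - Real.sin α * dy f y| ≤
      2 * ((∫ z in ball y r, |f z|) / r ^ 3 + r * M) := by
  have hle : -Real.pi ≤ Real.pi := by have := Real.pi_pos; linarith
  have hpi := Real.pi_pos
  have hM0 : 0 ≤ M := le_trans (abs_nonneg _) (hM y (mem_ball_self hr))
  have h1 := cont_A0 hf y α
  have h2 := cont_B0 hf y α
  have hcJ : Continuous (fun ρ => ∫ θ in (-Real.pi)..Real.pi, |f (pp y ρ θ)|) :=
    param_cont (F := fun ρ θ => |f (pp y ρ θ)|) ((hf.continuous.comp (continuous_pp y)).abs) _ _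
  have hI : ∫ z in ball y r, |f z| =
      ∫ ρ in (0 : ℝ)..r, ρ * ∫ θ in (-Real.pi)..Real.pi, |f (pp y ρ θ)| :=
    polar (g := fun z => |f z|) hf.continuous.abs y hr
  have hA : ∀ ρ, |A0 f y α ρ| ≤ ∫ θ in (-Real.pi)..Real.pi, |f (pp y ρ θ)| := by
    intro ρ
    unfold A0
    refine le_trans (intervalIntegral.abs_integral_le_integral_abs hle) ?_
    have hc : Continuous (fun θ => f (pp y ρ θ)) :=
      hf.continuous.comp ((continuous_pp y).comp (Continuous.prodMk_right ρ))
    apply intervalIntegral.integral_mono_on hle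
    · exact ((hc.mul (om_cont α)).abs).intervalIntegrable _ _
    · exact hc.abs.intervalIntegrable _ _
    · intro θ _
      rw [abs_mul]
      exact mul_le_of_le_one_right (abs_nonneg _) (om_abs α θ)
  have hB : ∀ ρ ∈ Ioo 0 r, |B0 f y α ρ| ≤ 2 * Real.pi * M := by
    intro ρ hρ
    unfold B0
    rw [← Real.norm_eq_abs]
    have := intervalIntegral.norm_integral_le_of_norm_le_const (a := -Real.pi) (b := Real.pi)
      (f := fun θ => lap f (pp y ρ θ) * om α θ) (C := M) (fun θ _ => by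
        rw [Real.norm_eq_abs, abs_mul]
        have hin : pp y ρ θ ∈ ball y r := by
          rw [mem_ball, dist_eq_norm]
          have : pp y ρ θ - y = ρ * Complex.exp (θ * Complex.I) := by
            rw [Complex.exp_mul_I]
            unfold pp
            push_cast
            ring
          rw [this, norm_mul, Complex.norm_exp_ofReal_mul_I, mul_one, Complex.norm_real,
            Real.norm_eq_abs, abs_of_pos hρ.1]
          exact hρ.2
        exact le_trans (mul_le_of_le_one_right (abs_nonneg _) (om_abs α θ)) (hM _ hin))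
    refine le_trans this (le_of_eq ?_)
    rw [abs_of_pos (by linarith)]
    ring
  -- the bound
  have key : |∫ ρ in (0 : ℝ)..r, ((1 - ρ ^ 2 / r ^ 2) ^ 2 * B0 f y α ρ -
      8 * ρ ^ 2 / r ^ 4 * A0 f y α ρ)| ≤
      ∫ ρ in (0 : ℝ)..r, (2 * Real.pi * M + 8 / r ^ 3 * (ρ * ∫ θ in (-Real.pi)..Real.pi, |f (pp y ρ θ)|)) := by
    refine le_trans (intervalIntegral.abs_integral_le_integral_abs hr.le) ?_
    apply intervalIntegral.integral_mono_on_of_le_Ioo hr.le
    · exact Continuous.intervalIntegrable (by fun_prop) _ _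
    · exact Continuous.intervalIntegrable (by fun_prop) _ _
    · intro ρ hρ
      have hρ1 : ρ ^ 2 / r ^ 2 ≤ 1 := by
        rw [div_le_one (by positivity)]
        exact pow_le_pow_left₀ hρ.1.le hρ.2.le 2
      have hρ0 : 0 ≤ ρ ^ 2 / r ^ 2 := by positivity
      refine le_trans (abs_sub _ _) (add_le_add ?_ ?_)
      · rw [abs_mul, abs_of_nonneg (by positivity)]
        have h3 : (1 - ρ ^ 2 / r ^ 2) ^ 2 ≤ 1 := pow_le_one₀ (by linarith) (by linarith)
        calc (1 - ρ ^ 2 / r ^ 2) ^ 2 * |B0 f y α ρ| ≤ 1 * (2 * Real.pi * M) :=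
              mul_le_mul h3 (hB ρ hρ) (abs_nonneg _) zero_le_one
          _ = 2 * Real.pi * M := one_mul _
      · rw [abs_mul, abs_of_nonneg (by positivity)]
        have h4 : 8 * ρ ^ 2 / r ^ 4 ≤ 8 / r ^ 3 * ρ := by
          rw [div_mul_eq_mul_div, div_le_div_iff₀ (by positivity) (by positivity)]
          have : ρ * r ^ 3 ≤ r * r ^ 3 := mul_le_mul_of_nonneg_right hρ.2.le (by positivity)
          have hρp := hρ.1
          nlinarith [mul_le_mul_of_nonneg_left this hρp.le]
        calc 8 * ρ ^ 2 / r ^ 4 * |A0 f y α ρ| ≤ (8 / r ^ 3 * ρ) *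
              ∫ θ in (-Real.pi)..Real.pi, |f (pp y ρ θ)| :=
              mul_le_mul h4 (hA ρ) (abs_nonneg _) (by have := hρ.1; positivity)
          _ = _ := by ring
  rw [rep hf y hr α, intervalIntegral.integral_add (intervalIntegrable_const)
    (Continuous.intervalIntegrable (by fun_prop) _ _), intervalIntegral.integral_const,
    intervalIntegral.integral_const_mul, ← hI, abs_neg, abs_mul, abs_mul, abs_two,
    abs_of_pos hpi] at key
  set X := |Real.cos α * dx f y - Real.sin α * dy f y| with hX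
  set I := ∫ z in ball y r, |f z| with hI'
  have hI0 : 0 ≤ I := by
    rw [hI']
    exact integral_nonneg fun z => abs_nonneg _
  simp only [sub_zero, smul_eq_mul] at key
  have hpi3 := Real.pi_gt_three
  have h5 : 8 / r ^ 3 * I = 8 * (I / r ^ 3) := by ring
  rw [h5] at key
  have h6 : 0 ≤ I / r ^ 3 := by positivity
  have h7 : 0 ≤ r * M := by positivity
  by_contra hcon
  push Not at hcon
  nlinarith [mul_lt_mul_of_pos_left hcon hpi, mul_nonneg (by linarith : 0 ≤ Real.pi - 3) h6]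

/-- GE -/
theorem t_GE : S_GE := by
  refine ⟨3, by norm_num, ?_⟩
  intro f y r M hf hr hM0 hM
  have h1 := bound hf y hr 0 hM
  have h2 := bound hf y hr (-(Real.pi / 2)) hM
  rw [Real.cos_zero, Real.sin_zero, one_mul, zero_mul, sub_zero] at h1
  rw [Real.cos_neg, Real.cos_pi_div_two, Real.sin_neg, Real.sin_pi_div_two, zero_mul, zero_sub,
    neg_mul, one_mul, neg_neg] at h2
  set K := (∫ z in ball y r, |f z|) / r ^ 3 + r * M with hK
  have hK0 : 0 ≤ K := by
    rw [hK]
    have : 0 ≤ ∫ z in ball y r, |f z| := integral_nonneg fun z => abs_nonneg _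
    positivity
  unfold gsq
  have h3 : dx f y ^ 2 ≤ (2 * K) ^ 2 := by
    rw [← sq_abs]
    exact pow_le_pow_left₀ (abs_nonneg _) h1 2
  have h4 : dy f y ^ 2 ≤ (2 * K) ^ 2 := by
    rw [← sq_abs]
    exact pow_le_pow_left₀ (abs_nonneg _) h2 2
  nlinarith [sq_nonneg K]

end Pool.Agent.Helper904_Yau.PGE
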