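import Pool.Agent.Helper904_Yau.StmtsABP

/-!
JAC: the Jacobian of the map `(y, τ) ↦ (y - τ ∇log N(y), |∇ log N(y)|² / 2)`.
-/

set_option autoImplicit false

open MeasureTheory Set Metric Filter Topology
open scoped ContDiff
open Pool.Agent.Helper904_QS

namespace Pool.Agent.Helper904_Yau.PJAC

/-- the functional with the coordinates `a`, `b` -/
noncomputable def lf (a b : ℝ) : ℂ →L[ℝ] ℝ := a • Complex.reCLM + b • Complex.imCLM

theorem lf_apply (a b : ℝ) (v : ℂ) : lf a b v = a * v.re + b * v.im := by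
  simp [lf]

theorem has_lf {f : ℂ → ℝ} {y : ℂ} (hf : DifferentiableAt ℝ f y) :
    HasFDerivAt f (lf (dx f y) (dy f y)) y := by
  refine hf.hasFDerivAt.congr_fderiv ?_
  ext v
  rw [lf_apply]
  have e : v = v.re • (1 : ℂ) + v.im • Complex.I := by
    apply Complex.ext <;> simp
  conv_lhs => rw [e]
  rw [map_add, map_smul, map_smul]
  show v.re * dx f y + v.im * dy f y = _
  ring

theorem has_div {f g : ℂ → ℝ} {y : ℂ} {a b c d : ℝ} (hf : HasFDerivAt f (lf a b) y)
    (hg : HasFDerivAt g (lf c d) y) (h0 : g y ≠ 0) :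
    HasFDerivAt (fun y => f y / g y)
      (lf (a / g y - f y / g y * (c / g y)) (b / g y - f y / g y * (d / g y))) y := by
  have h1 : HasFDerivAt (fun y => (g y)⁻¹) (-((g y) ^ 2)⁻¹ • lf c d) y :=
    (hasDerivAt_inv h0).comp_hasFDerivAt y hg
  have h2 := hf.mul h1
  have e : (fun y => f y / g y) = fun y => f y * (g y)⁻¹ := by ext; rw [div_eq_mul_inv]
  rw [e]
  refine h2.congr_fderiv ?_
  ext v
  simp only [add_apply, smul_apply, smul_eq_mul, lf_apply]
  field_simp
  ring

/-- coordinates on `ℂ × ℝ` -/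
noncomputable def ec : (ℂ × ℝ) ≃ₗ[ℝ] (Fin 3 → ℝ) where
  toFun p := ![p.1.re, p.1.im, p.2]
  map_add' p q := by ext i; fin_cases i <;> simp
  map_smul' c p := by ext i; fin_cases i <;> simp
  invFun v := (⟨v 0, v 1⟩, v 2)
  left_inv p := by simp
  right_inv v := by ext i; fin_cases i <;> simp

theorem det3 (T : ℂ × ℝ →L[ℝ] ℂ × ℝ) (a b c d e f g h k : ℝ)
    (h1 : T (1, 0) = (⟨a, b⟩, c)) (h2 : T (Complex.I, 0) = (⟨d, e⟩, f))
    (h3 : T (0, 1) = (⟨g, h⟩, k)) :
    T.det = a * (e * k - h * f) - d * (b * k - h * c) + g * (b * f - e * c) := by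
  have e0 : T.det = LinearMap.det (T : (ℂ × ℝ) →ₗ[ℝ] (ℂ × ℝ)) := rfl
  rw [e0, ← LinearMap.det_conj (T : (ℂ × ℝ) →ₗ[ℝ] (ℂ × ℝ)) ec, ← LinearMap.det_toMatrix',
    Matrix.det_fin_three]
  have s0 : ec.symm (Pi.single 0 1) = ((1 : ℂ), (0 : ℝ)) := by
    rw [LinearEquiv.symm_apply_eq]; ext i; fin_cases i <;> simp [ec]
  have s1 : ec.symm (Pi.single 1 1) = (Complex.I, (0 : ℝ)) := by
    rw [LinearEquiv.symm_apply_eq]; ext i; fin_cases i <;> simp [ec]
  have s2 : ec.symm (Pi.single 2 1) = ((0 : ℂ), (1 : ℝ)) := by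
    rw [LinearEquiv.symm_apply_eq]; ext i; fin_cases i <;> simp [ec]
  simp only [LinearMap.toMatrix'_apply, LinearMap.comp_apply, LinearEquiv.coe_coe, s0, s1, s2,
    ContinuousLinearMap.coe_coe, h1, h2, h3]
  simp [ec]
  ring

theorem t_JAC : S_JAC := by
  intro N hN p hp
  obtain ⟨y, τ⟩ := p
  simp only at hp ⊢
  have dN : DifferentiableAt ℝ N y := hN.differentiable (by norm_num) y
  have dNx : DifferentiableAt ℝ (dx N) y := (contDiff_dx1 hN).differentiable (by norm_num) y
  have dNy : DifferentiableAt ℝ (dy N) y := (contDiff_dy1 hN).differentiable (by norm_num) y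
  have hG1 := has_div (has_lf dNx) (has_lf dN) hp.ne'
  have hG2 := has_div (has_lf dNy) (has_lf dN) hp.ne'
  set g1 : ℝ := dx N y / N y with hg1
  set g2 : ℝ := dy N y / N y with hg2
  have e11 : dx (dx N) y / N y - g1 * g1 = h11 N y := by rw [h11]; ring
  have e12 : dy (dx N) y / N y - g1 * g2 = h12 N y := by rw [h12, dx_dy hN]
  have e21 : dx (dy N) y / N y - g2 * g1 = h12 N y := by rw [h12]; ring
  have e22 : dy (dy N) y / N y - g2 * g2 = h22 N y := by rw [h22]; ring
  rw [e11, e12] at hG1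
  rw [e21, e22] at hG2
  set a := h11 N y
  set b := h12 N y
  set c := h22 N y
  -- the derivative of `gv N`
  have hgv : HasFDerivAt (gv N) (Complex.ofRealCLM.comp (lf a b) +
      (Complex.I : ℂ) • Complex.ofRealCLM.comp (lf b c)) y := by
    have h1 := Complex.ofRealCLM.hasFDerivAt.comp y hG1
    have h2 := (Complex.ofRealCLM.hasFDerivAt.comp y hG2).const_smul Complex.I
    have h3 := h1.add h2
    refine h3.congr_of_eventuallyEq (Eventually.of_forall fun z => ?_)
    apply Complex.ext <;> simp [gv]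
  set DG : ℂ →L[ℝ] ℂ := Complex.ofRealCLM.comp (lf a b) +
      (Complex.I : ℂ) • Complex.ofRealCLM.comp (lf b c) with hDG
  have hDGv : ∀ v : ℂ, DG v = ⟨a * v.re + b * v.im, b * v.re + c * v.im⟩ := by
    intro v
    rw [hDG]
    apply Complex.ext <;> simp [lf_apply]
  -- the derivative of the first component
  have hfst : HasFDerivAt (fun p : ℂ × ℝ => p.1) (ContinuousLinearMap.fst ℝ ℂ ℝ) (y, τ) :=
    hasFDerivAt_fst
  have hsnd : HasFDerivAt (fun p : ℂ × ℝ => p.2) (ContinuousLinearMap.snd ℝ ℂ ℝ) (y, τ) :=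
    hasFDerivAt_snd
  have hgv' : HasFDerivAt (fun p : ℂ × ℝ => gv N p.1) (DG.comp (ContinuousLinearMap.fst ℝ ℂ ℝ))
      (y, τ) := HasFDerivAt.comp (y, τ) (f := fun p : ℂ × ℝ => p.1) hgv hfst
  have hA := hfst.sub (hsnd.smul hgv')
  have hB := (hgv'.norm_sq).mul_const (1 / 2 : ℝ)
  have hT := hA.prodMk hB
  refine ⟨_, hT.congr_of_eventuallyEq (Eventually.of_forall fun p => ?_), ?_⟩
  · unfold Th
    ext1
    · simp
    · simp; ring
  · rw [det3 _ (1 - τ * a) (-τ * b) (g1 * a + g2 * b) (-τ * b) (1 - τ * c) (g1 * b + g2 * c)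
      (-g1) (-g2) 0]
    · unfold Jd
      have hre : (gv N y).re = g1 := rfl
      have him : (gv N y).im = g2 := rfl
      have hn : ‖gv N y‖ ^ 2 = g1 ^ 2 + g2 ^ 2 := by
        rw [Complex.sq_norm, Complex.normSq_apply, hre, him]; ring
      rw [hre, him, hn]
      congr 1
      ring
    · have hi : inner ℝ (gv N y) (DG 1) = g1 * a + g2 * b := by
        rw [hDGv, Complex.inner]; simp [gv]; ring
      refine Prod.ext ?_ ?_
      · simp [hDGv]
        apply Complex.ext <;> simp [gv] <;> ring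
      · simp [hi]; ring
    · have hi : inner ℝ (gv N y) (DG Complex.I) = g1 * b + g2 * c := by
        rw [hDGv, Complex.inner]; simp [gv]; ring
      refine Prod.ext ?_ ?_
      · simp [hDGv]
        apply Complex.ext <;> simp [gv] <;> ring
      · simp [hi]; ring
    · refine Prod.ext ?_ ?_
      · simp [hDGv]
        apply Complex.ext <;> simp [gv] <;> ring
      · simp

end Pool.Agent.Helper904_Yau.PJAC
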