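import Pool.Agent.Helper904_Yau.Stmts

/-!
# The main estimate ME, part a: the closing argument with abstract data (PAPER section 3, (f) to (i))
-/

set_option autoImplicit false

open MeasureTheory Set Metric Filter Topology
open scoped ContDiff
open Pool.Agent.Helper904_QS

namespace Pool.Agent.Helper904_Yau.PME

/-- the operator norm of the derivative -/
theorem norm_fderiv_le (f : ℂ → ℝ) (z : ℂ) : ‖fderiv ℝ f z‖ ≤ √(gsq f z) := by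
  refine ContinuousLinearMap.opNorm_le_bound _ (Real.sqrt_nonneg _) fun v => ?_
  have h1 : fderiv ℝ f z v = v.re * dx f z + v.im * dy f z := by
    have : v = v.re • (1 : ℂ) + v.im • Complex.I := by
      apply Complex.ext <;> simp
    conv_lhs => rw [this]
    rw [map_add, map_smul, map_smul]
    rfl
  rw [h1, Real.norm_eq_abs]
  have h2 : ‖v‖ = √(v.re ^ 2 + v.im ^ 2) := by
    rw [Complex.norm_def, Complex.normSq_apply]; congr 1; ring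
  rw [h2, ← Real.sqrt_mul (by unfold gsq; positivity)]
  refine Real.abs_le_sqrt ?_
  unfold gsq
  nlinarith [sq_nonneg (v.re * dy f z - v.im * dx f z)]

theorem gsq_nonneg (f : ℂ → ℝ) (z : ℂ) : 0 ≤ gsq f z := by unfold gsq; positivity

theorem continuous_gsq {f : ℂ → ℝ} (hf : ContDiff ℝ 1 f) : Continuous (gsq f) := by
  have h1 := continuous_dx hf
  have h2 := continuous_dy hf
  unfold gsq
  fun_prop

theorem mvt {f : ℂ → ℝ} (hf : ContDiff ℝ 1 f) {s : Set ℂ} (hs : Convex ℝ s) {G : ℝ} (hG : 0 ≤ G)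
    (h0 : (0 : ℂ) ∈ s) (h : ∀ z ∈ s, gsq f z ≤ G ^ 2) : ∀ z ∈ s, |f z - f 0| ≤ G * ‖z‖ := by
  intro z hz
  have h1 := hs.norm_image_sub_le_of_norm_fderiv_le (𝕜 := ℝ) (f := f) (C := G)
    (fun x _ => hf.differentiable (by norm_num) x)
    (fun x hx => (norm_fderiv_le f x).trans ((Real.sqrt_le_sqrt (h x hx)).trans
      (by rw [Real.sqrt_sq hG]))) h0 hz
  simpa using h1

theorem dx_sub_const {f : ℂ → ℝ} (c : ℝ) (z : ℂ) : dx (fun z => f z - c) z = dx f z := by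
  unfold dx
  rw [fderiv_sub_const]

theorem dy_sub_const {f : ℂ → ℝ} (c : ℝ) (z : ℂ) : dy (fun z => f z - c) z = dy f z := by
  unfold dy
  rw [fderiv_sub_const]

theorem gsq_sub_const {f : ℂ → ℝ} (c : ℝ) (z : ℂ) : gsq (fun z => f z - c) z = gsq f z := by
  unfold gsq
  rw [dx_sub_const, dy_sub_const]

theorem lap_sub_const {f : ℂ → ℝ} (c : ℝ) (z : ℂ) : lap (fun z => f z - c) z = lap f z := by
  have h1 : dx (fun z => f z - c) = dx f := by ext z; exact dx_sub_const c z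
  have h2 : dy (fun z => f z - c) = dy f := by ext z; exact dy_sub_const c z
  unfold lap
  rw [h1, h2]

/-- absorbing the error terms -/
theorem absorb {κ P c2 ε e μ CM R δ n : ℝ} (hκ : 0 ≤ κ) (hP : 0 ≤ P) (hε : 0 < ε)
    (he0 : 0 ≤ e) (hCM : 0 < CM) (hδ : 0 < δ) (hμ0 : 0 < μ) (hμ1 : 2 * μ * (1 + CM) ≤ 1)
    (heS : e ≤ μ * (κ + P + c2 + ε)) (hm1 : P * n * R ≤ CM * (κ + P + e)) (hn : 1 ≤ n)
    (hm2 : c2 ≤ CM * (κ + P + e)) (hR : R = 4 * CM * (1 + 1 / δ) + 1) (hR1 : 1 ≤ R) :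
    P ≤ δ * (κ + ε) := by
  have hμ2 : 2 * μ + 2 * (μ * CM) ≤ 1 := by linarith
  have hμ3 : μ * CM ≤ 1 / 2 := by linarith
  have b0 : μ * c2 ≤ μ * (CM * (κ + P + e)) := mul_le_mul_of_nonneg_left hm2 hμ0.le
  have b1 : e ≤ μ * (κ + P + ε) + (μ * CM) * (κ + P) + (μ * CM) * e := by
    have e1 : μ * (κ + P + c2 + ε) = μ * (κ + P + ε) + μ * c2 := by ring
    have e2 : μ * (CM * (κ + P + e)) = (μ * CM) * (κ + P) + (μ * CM) * e := by ring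
    linarith
  have b2 : μ * CM * e ≤ 1 / 2 * e := mul_le_mul_of_nonneg_right hμ3 he0
  have b3 : e ≤ κ + P + ε := by
    have c2' : μ * CM * (κ + P) ≤ μ * CM * (κ + P + ε) :=
      mul_le_mul_of_nonneg_left (by linarith) (by positivity)
    have c3 : (2 * μ + 2 * (μ * CM)) * (κ + P + ε) ≤ 1 * (κ + P + ε) :=
      mul_le_mul_of_nonneg_right hμ2 (by positivity)
    have c4 : (2 * μ + 2 * (μ * CM)) * (κ + P + ε) =
      2 * (μ * (κ + P + ε)) + 2 * (μ * CM * (κ + P + ε)) := by ring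
    linarith
  have b4 : P * R ≤ 2 * CM * (κ + P + ε) := by
    have c1 : P * 1 * R ≤ P * n * R := by gcongr
    have c2' : CM * (κ + P + e) ≤ CM * (2 * (κ + P + ε)) := by
      apply mul_le_mul_of_nonneg_left _ hCM.le
      linarith
    linarith
  have b5 : P * (2 * CM + 4 * CM / δ) ≤ 2 * CM * (κ + ε) := by
    have c1 : P * R = P * (2 * CM + 4 * CM / δ) + 2 * CM * P + P := by
      rw [hR]; ring
    linarith
  have b6 : P * (4 * CM / δ) ≤ 2 * CM * (κ + ε) := by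
    have : 0 ≤ P * (2 * CM) := by positivity
    linarith
  have b7 : P * (4 * CM) ≤ 2 * CM * (κ + ε) * δ := by
    have : P * (4 * CM / δ) * δ ≤ 2 * CM * (κ + ε) * δ :=
      mul_le_mul_of_nonneg_right b6 hδ.le
    calc P * (4 * CM) = P * (4 * CM / δ) * δ := by field_simp
      _ ≤ _ := this
  have b8 : 4 * CM * P ≤ 4 * CM * (δ * (κ + ε)) := by
    have : 0 ≤ CM * (κ + ε) * δ := by positivity
    linarith
  exact le_of_mul_le_mul_left b8 (by positivity)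

/-- auxiliary estimate of the error term -/
theorem err {Q Q7 D CG T1 α κ P c2 ε θ e : ℝ} (hQ1 : 1 ≤ Q) (hQ7 : 0 < Q7) (hCG : 0 < CG)
    (hκ : 0 ≤ κ) (hP : 0 ≤ P) (hc : 0 ≤ c2) (hε : 0 < ε) (hθ : 0 < θ) (hθ1 : θ ≤ 1)
    (hα : α ^ 2 ≤ Q * θ ^ 2) (hDS : D ≤ 2 * Q ^ 2 * (κ + P + c2 + ε))
    (hT1 : T1 ≤ CG * (8 * Q ^ 3 * Q7 + Q) * θ) (hD0 : 0 ≤ D)
    (he : e = Q * (α ^ 2 * (2 * Q * Q7 * D + P) + ε * θ) + 2 * Q * P * T1) :
    e ≤ (Q ^ 2 * (4 * Q ^ 3 * Q7 + 1) + Q + 2 * Q * CG * (8 * Q ^ 3 * Q7 + Q)) * θ *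
      (κ + P + c2 + ε) := by
  have hQ0 : 0 < Q := by linarith
  set S : ℝ := κ + P + c2 + ε with hS
  have hS0 : 0 < S := by rw [hS]; positivity
  have a1 : α ^ 2 ≤ Q * θ := by
    refine hα.trans ?_
    have : θ ^ 2 ≤ θ := by nlinarith
    gcongr
  have b2 : P ≤ S := by rw [hS]; linarith
  have a2 : 2 * Q * Q7 * D + P ≤ (4 * Q ^ 3 * Q7 + 1) * S := by
    have b1 : 2 * Q * Q7 * D ≤ 2 * Q * Q7 * (2 * Q ^ 2 * S) := by gcongr
    calc 2 * Q * Q7 * D + P ≤ 2 * Q * Q7 * (2 * Q ^ 2 * S) + S := by linarith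
      _ = (4 * Q ^ 3 * Q7 + 1) * S := by ring
  have a3 : α ^ 2 * (2 * Q * Q7 * D + P) ≤ Q * θ * ((4 * Q ^ 3 * Q7 + 1) * S) := by
    gcongr
  have a4 : ε * θ ≤ θ * S := by
    have : ε ≤ S := by rw [hS]; linarith
    rw [mul_comm]
    exact mul_le_mul_of_nonneg_left this hθ.le
  have a5 : 2 * Q * P * T1 ≤ 2 * Q * S * (CG * (8 * Q ^ 3 * Q7 + Q) * θ) := by
    calc 2 * Q * P * T1 ≤ 2 * Q * P * (CG * (8 * Q ^ 3 * Q7 + Q) * θ) := by gcongr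
      _ ≤ 2 * Q * S * (CG * (8 * Q ^ 3 * Q7 + Q) * θ) := by gcongr
  have a6 : Q * (α ^ 2 * (2 * Q * Q7 * D + P) + ε * θ) ≤
      Q * (Q * θ * ((4 * Q ^ 3 * Q7 + 1) * S) + θ * S) := by gcongr
  calc e ≤ Q * (Q * θ * ((4 * Q ^ 3 * Q7 + 1) * S) + θ * S) +
        2 * Q * S * (CG * (8 * Q ^ 3 * Q7 + Q) * θ) := by
        rw [he]
        linarith
    _ = (Q ^ 2 * (4 * Q ^ 3 * Q7 + 1) + Q + 2 * Q * CG * (8 * Q ^ 3 * Q7 + Q)) * θ * S := by ring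

/-- the one-sided bound -/
theorem onesided {ex qz g uz v0 a2 P T1 κ R2 c2 Q E X n2 : ℝ} (hex0 : 0 < ex) (hex : ex ≤ Q)
    (h4 : 2 * qz + ex * (g + a2 * uz ^ 2) ≤ κ * n2 + c2 + E) (hg : 0 ≤ g) (ha2 : 0 ≤ a2)
    (hP : P = a2 * |v0|) (hc : c2 = a2 * v0 ^ 2) (hT : 0 ≤ T1) (h1 : |uz - -v0| ≤ T1)
    (hn : κ * n2 ≤ κ * R2) (hX : 0 ≤ X) :
    2 * qz ≤ κ * R2 + c2 - c2 * ex + (X + E + 2 * Q * P * T1) := by
  have hP0 : 0 ≤ P := by rw [hP]; positivity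
  have g2 : c2 - 2 * P * T1 ≤ a2 * uz ^ 2 := by
    have a1 : v0 ^ 2 - 2 * |v0| * T1 ≤ uz ^ 2 := by
      have b1 : uz ^ 2 = v0 ^ 2 - 2 * (v0 * (uz - -v0)) + (uz - -v0) ^ 2 := by ring
      have b2 : v0 * (uz - -v0) ≤ |v0| * T1 := by
        calc v0 * (uz - -v0) ≤ |v0 * (uz - -v0)| := le_abs_self _
          _ = |v0| * |uz - -v0| := abs_mul _ _
          _ ≤ |v0| * T1 := by gcongr
      have b3 := sq_nonneg (uz - -v0)
      linarith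
    have a2' := mul_le_mul_of_nonneg_left a1 ha2
    calc c2 - 2 * P * T1 = a2 * (v0 ^ 2 - 2 * |v0| * T1) := by
          rw [hc, hP]; ring
      _ ≤ _ := a2'
  have g3 : ex * (c2 - 2 * P * T1) ≤ ex * (g + a2 * uz ^ 2) := by
    apply mul_le_mul_of_nonneg_left _ hex0.le
    linarith
  have g4 : ex * (2 * P * T1) ≤ Q * (2 * P * T1) :=
    mul_le_mul_of_nonneg_right hex (by positivity)
  have g5 : ex * (c2 - 2 * P * T1) = c2 * ex - ex * (2 * P * T1) := by ring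
  have g6 : Q * (2 * P * T1) = 2 * Q * P * T1 := by ring
  linarith

/-- abstract data for the closing argument; `Q` is the common constant -/
structure AD (Q A α ε κ θ p c2 : ℝ) (c0 : ℂ) (q v u1 : ℂ → ℝ) : Prop where
  hA : 0 < A
  hQ1 : 1 ≤ Q
  hAQ : A ≤ Q
  hEQ : Real.exp A ≤ Q
  hε : 0 < ε
  hκ : 0 ≤ κ
  εθ : ε ≤ θ
  κθ : κ ≤ θ
  θ1 : θ ≤ 1
  αθ : α ^ 2 ≤ Q * θ ^ 2
  cq : ContDiff ℝ 2 q
  cv : ContDiff ℝ 1 v
  cu : ContDiff ℝ 2 u1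
  vu : v = wp u1
  ux : dx u1 0 = 0
  uy : dy u1 0 = 0
  u10 : u1 0 = -v 0
  lu : ∀ z ∈ ball (0 : ℂ) A, |lap u1 z| ≤ Q * θ
  hp : p = α ^ 2 * v 0
  hc : c2 = α ^ 2 * v 0 ^ 2
  pθ : |p| ≤ Q * θ
  cθ : c2 ≤ Q * θ
  n1 : 1 ≤ ‖c0‖
  n2 : ‖c0‖ ≤ 2
  f4 : ∀ z ∈ ball (0 : ℂ) A, 2 * (q z - q 0) +
    Real.exp (-z.re) * (gsq u1 z + α ^ 2 * u1 z ^ 2) ≤ κ * ‖z‖ ^ 2 + c2 + Q * (ε * θ)
  f5 : ∀ z ∈ ball (0 : ℂ) A, ∀ G : ℝ, 0 ≤ G → gsq q z ≤ G ^ 2 →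
    gsq v z ≤ (Q * (G + α ^ 2 * |v z| + ε * θ)) ^ 2
  f6 : ∀ z ∈ ball (0 : ℂ) A, ∀ g : ℝ, 0 ≤ g → gsq v z ≤ g ^ 2 →
    |lap q z| ≤ Q * (α ^ 2 * (g + |v z|) + ε * θ)
  f7 : ∀ z ∈ ball (0 : ℂ) A, ∀ g : ℝ, 0 ≤ g → gsq v z ≤ g ^ 2 →
    |lap q z + p / 2 * (c0 * Complex.exp (-z / 2)).re| ≤
      Q * (α ^ 2 * (g + |v z - v 0| + |p|) + ε * θ)
  f8 : gsq q 0 ≤ (c2 + Q * (ε * θ)) ^ 2

namespace AD

variable {Q A α ε κ θ p c2 : ℝ} {c0 : ℂ} {q v u1 : ℂ → ℝ}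

theorem θ0 (h : AD Q A α ε κ θ p c2 c0 q v u1) : 0 < θ := h.hε.trans_le h.εθ

theorem abs_p (h : AD Q A α ε κ θ p c2 c0 q v u1) : |p| = α ^ 2 * |v 0| := by
  rw [h.hp, abs_mul, abs_of_nonneg (sq_nonneg α)]

theorem c2_nonneg (h : AD Q A α ε κ θ p c2 c0 q v u1) : 0 ≤ c2 := by
  rw [h.hc]; positivity

/-- from a bound for `|∇q|` to a bound for `|∇v|` -/
theorem W (h : AD Q A α ε κ θ p c2 c0 q v u1) (hs : 2 * (Q ^ 3 * θ ^ 2) ≤ 1) {ρ G : ℝ}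
    (hρ0 : 0 ≤ ρ) (hρ : ρ < A) (hG : 0 ≤ G)
    (hq : ∀ z ∈ closedBall (0 : ℂ) ρ, gsq q z ≤ G ^ 2) :
    ∀ z ∈ closedBall (0 : ℂ) ρ, gsq v z ≤ (2 * Q * (G + |p| + ε * θ)) ^ 2 ∧
      |v z - v 0| ≤ 2 * Q * (G + |p| + ε * θ) * Q := by
  have hθ := h.θ0
  have hε := h.hε
  have hQ1 := h.hQ1
  have hQ0 : 0 < Q := by linarith
  have hsub : closedBall (0 : ℂ) ρ ⊆ ball (0 : ℂ) A := closedBall_subset_ball hρ
  have h0 : (0 : ℂ) ∈ closedBall (0 : ℂ) ρ := mem_closedBall_self hρ0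
  obtain ⟨y, hy, hmax⟩ := (isCompact_closedBall (0 : ℂ) ρ).exists_isMaxOn ⟨0, h0⟩
    (continuous_gsq h.cv).continuousOn
  set w : ℝ := √(gsq v y) with hw
  have hw0 : 0 ≤ w := Real.sqrt_nonneg _
  have hw2 : w ^ 2 = gsq v y := Real.sq_sqrt (gsq_nonneg v y)
  have hall : ∀ z ∈ closedBall (0 : ℂ) ρ, gsq v z ≤ w ^ 2 := by
    intro z hz
    rw [hw2]
    exact hmax hz
  have hmv := mvt h.cv (convex_closedBall (0 : ℂ) ρ) hw0 h0 hall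
  have hn : ∀ z ∈ closedBall (0 : ℂ) ρ, ‖z‖ ≤ Q := by
    intro z hz
    have : ‖z‖ ≤ ρ := by simpa using hz
    linarith [h.hAQ]
  have hvy : |v y| ≤ |v 0| + w * Q := by
    have h1 := hmv y hy
    have h2 : |v y| ≤ |v y - v 0| + |v 0| := by
      have := abs_add_le (v y - v 0) (v 0)
      simpa using this
    have h3 : w * ‖y‖ ≤ w * Q := mul_le_mul_of_nonneg_left (hn y hy) hw0
    linarith
  have h5 := h.f5 y (hsub hy) G hG (hq y hy)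
  have h6 : w ≤ Q * (G + α ^ 2 * |v y| + ε * θ) := by
    have e : 0 ≤ Q * (G + α ^ 2 * |v y| + ε * θ) := by positivity
    rw [← hw2] at h5
    exact (pow_le_pow_iff_left₀ hw0 e two_ne_zero).1 h5
  have h7 : α ^ 2 * |v y| ≤ |p| + α ^ 2 * (w * Q) := by
    have := mul_le_mul_of_nonneg_left hvy (sq_nonneg α)
    rw [mul_add, ← h.abs_p] at this
    exact this
  have h8 : α ^ 2 * (w * Q) * Q ≤ w / 2 := by
    have e1 : α ^ 2 * (Q * Q) ≤ Q * θ ^ 2 * (Q * Q) :=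
      mul_le_mul_of_nonneg_right h.αθ (by positivity)
    have e2 : α ^ 2 * (Q * Q) * w ≤ Q * θ ^ 2 * (Q * Q) * w := mul_le_mul_of_nonneg_right e1 hw0
    have e3 : 2 * (Q ^ 3 * θ ^ 2) * w ≤ 1 * w := mul_le_mul_of_nonneg_right hs hw0
    nlinarith
  have h9 : w ≤ 2 * Q * (G + |p| + ε * θ) := by
    have e1 : Q * (G + α ^ 2 * |v y| + ε * θ) ≤ Q * (G + (|p| + α ^ 2 * (w * Q)) + ε * θ) := by
      gcongr
    have e2 : Q * (G + (|p| + α ^ 2 * (w * Q)) + ε * θ) =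
        Q * (G + |p| + ε * θ) + α ^ 2 * (w * Q) * Q := by ring
    linarith
  intro z hz
  refine ⟨(hall z hz).trans (pow_le_pow_left₀ hw0 h9 2), (hmv z hz).trans ?_⟩
  have e1 : 0 ≤ 2 * Q * (G + |p| + ε * θ) := by positivity
  calc w * ‖z‖ ≤ 2 * Q * (G + |p| + ε * θ) * ‖z‖ := mul_le_mul_of_nonneg_right h9 (norm_nonneg z)
    _ ≤ 2 * Q * (G + |p| + ε * θ) * Q := mul_le_mul_of_nonneg_left (hn z hz) e1

/-- CE gives the bound for `|∇q|` on the half disc -/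
theorem CE (h : AD Q A α ε κ θ p c2 c0 q v u1) {C τ : ℝ}
    (hCE : ∀ (q : ℂ → ℝ) (D : ℝ),
      ContDiff ℝ 2 q → 0 ≤ D → q 0 = 0 → (∀ z ∈ ball (0 : ℂ) A, q z ≤ D) →
      (∀ z ∈ ball (0 : ℂ) A, ∀ G : ℝ, 0 ≤ G → (∀ w ∈ closedBall (0 : ℂ) ‖z‖, gsq q w ≤ G ^ 2) →
        |lap q z| ≤ τ * G + D) →
      ∀ z ∈ closedBall (0 : ℂ) (A / 2), gsq q z ≤ (C * D) ^ 2)
    (hs : 2 * (Q ^ 3 * θ ^ 2) ≤ 1) (hs1 : 4 * (Q ^ 3 * θ ^ 2) ≤ 1)
    (hs2 : 4 * (Q ^ 4 * θ ^ 2) ≤ τ) :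
    ∀ z ∈ closedBall (0 : ℂ) (A / 2), gsq q z ≤
      (C * (2 * Q ^ 2 * (κ + |p| + c2 + ε * θ))) ^ 2 := by
  have hθ := h.θ0
  have hε := h.hε
  have hκ := h.hκ
  have hc := h.c2_nonneg
  have hQ1 := h.hQ1
  have hQ0 : 0 < Q := by linarith
  have hεθ : 0 < ε * θ := mul_pos hε hθ
  have hQQ : Q ≤ Q ^ 2 := by nlinarith
  have hQ2 : 1 ≤ Q ^ 2 := by nlinarith
  have key := hCE (fun z => q z - q 0) (2 * Q ^ 2 * (κ + |p| + c2 + ε * θ))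
    (h.cq.sub contDiff_const) (by positivity) (by simp) ?_ ?_
  · intro z hz
    have := key z hz
    rwa [gsq_sub_const] at this
  · intro z hz
    have h4 := h.f4 z hz
    have h5 : 0 ≤ Real.exp (-z.re) * (gsq u1 z + α ^ 2 * u1 z ^ 2) :=
      mul_nonneg (Real.exp_pos _).le (add_nonneg (gsq_nonneg _ _) (by positivity))
    have h6 : ‖z‖ ^ 2 ≤ Q ^ 2 := by
      have : ‖z‖ < A := by simpa using hz
      exact pow_le_pow_left₀ (norm_nonneg z) (by linarith [h.hAQ]) 2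
    have h7 : κ * ‖z‖ ^ 2 ≤ κ * Q ^ 2 := mul_le_mul_of_nonneg_left h6 hκ
    have h8 : c2 ≤ Q ^ 2 * c2 := le_mul_of_one_le_left hc hQ2
    have h9 : Q * (ε * θ) ≤ Q ^ 2 * (ε * θ) := mul_le_mul_of_nonneg_right hQQ hεθ.le
    have h10 : 0 ≤ Q ^ 2 * |p| := by positivity
    have h11 : 0 ≤ Q ^ 2 * κ := by positivity
    have h12 : 0 ≤ Q ^ 2 * (ε * θ) := by positivity
    show q z - q 0 ≤ _
    nlinarith
  · intro z hz G hG hG2
    rw [lap_sub_const]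
    have hzA : ‖z‖ < A := by simpa using hz
    have hW := h.W hs (norm_nonneg z) hzA hG (fun w hw => by
      have := hG2 w hw
      rwa [gsq_sub_const] at this) z (by simp)
    set w : ℝ := 2 * Q * (G + |p| + ε * θ) with hw
    have hw0 : 0 ≤ w := by rw [hw]; positivity
    have h6 := h.f6 z hz w hw0 hW.1
    have h7 : |v z| ≤ |v 0| + w * Q := by
      have h2 : |v z| ≤ |v z - v 0| + |v 0| := by
        have := abs_add_le (v z - v 0) (v 0)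
        simpa using this
      linarith [hW.2]
    have h8 : α ^ 2 * (w + |v z|) ≤ |p| + α ^ 2 * (2 * Q * w) := by
      have e1 : w + |v z| ≤ |v 0| + 2 * Q * w := by nlinarith
      have e2 := mul_le_mul_of_nonneg_left e1 (sq_nonneg α)
      rw [mul_add (α ^ 2) |v 0|, ← h.abs_p] at e2
      exact e2
    have h9 : α ^ 2 * (2 * Q * w) ≤ 4 * (Q ^ 3 * θ ^ 2) * (G + |p| + ε * θ) := by
      have e1 : α ^ 2 * (2 * Q * w) ≤ Q * θ ^ 2 * (2 * Q * w) :=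
        mul_le_mul_of_nonneg_right h.αθ (by positivity)
      calc α ^ 2 * (2 * Q * w) ≤ Q * θ ^ 2 * (2 * Q * w) := e1
        _ = 4 * (Q ^ 3 * θ ^ 2) * (G + |p| + ε * θ) := by rw [hw]; ring
    have h10 : 4 * (Q ^ 3 * θ ^ 2) * (|p| + ε * θ) ≤ 1 * (|p| + ε * θ) :=
      mul_le_mul_of_nonneg_right hs1 (by positivity)
    have h11 : 4 * (Q ^ 4 * θ ^ 2) * G ≤ τ * G := mul_le_mul_of_nonneg_right hs2 hG
    have h12 : |lap q z| ≤ Q * (2 * (|p| + ε * θ) + 4 * (Q ^ 3 * θ ^ 2) * G) := by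
      refine h6.trans (mul_le_mul_of_nonneg_left ?_ hQ0.le)
      nlinarith
    have h13 : Q * (|p| + ε * θ) ≤ Q ^ 2 * (|p| + ε * θ) :=
      mul_le_mul_of_nonneg_right hQQ (by positivity)
    have h14 : 0 ≤ Q ^ 2 * κ := by positivity
    have h15 : 0 ≤ Q ^ 2 * c2 := by positivity
    calc |lap q z| ≤ Q * (2 * (|p| + ε * θ) + 4 * (Q ^ 3 * θ ^ 2) * G) := h12
      _ = 2 * (Q * (|p| + ε * θ)) + 4 * (Q ^ 4 * θ ^ 2) * G := by ring
      _ ≤ 2 * (Q ^ 2 * (|p| + ε * θ)) + τ * G := by linarith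
      _ ≤ τ * G + 2 * Q ^ 2 * (κ + |p| + c2 + ε * θ) := by nlinarith

/-- the closing argument -/
theorem final (h : AD Q A α ε κ θ p c2 c0 q v u1) {δ C τ CG CM R : ℝ} (hδ : 0 < δ) (hC : 0 < C)
    (hCG : 0 < CG) (hCM : 0 < CM) (hR : R = 4 * CM * (1 + 1 / δ) + 1)
    (hAR : A = 2 * R)
    (hCE : ∀ (q : ℂ → ℝ) (D : ℝ),
      ContDiff ℝ 2 q → 0 ≤ D → q 0 = 0 → (∀ z ∈ ball (0 : ℂ) A, q z ≤ D) →
      (∀ z ∈ ball (0 : ℂ) A, ∀ G : ℝ, 0 ≤ G → (∀ w ∈ closedBall (0 : ℂ) ‖z‖, gsq q w ≤ G ^ 2) →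
        |lap q z| ≤ τ * G + D) →
      ∀ z ∈ closedBall (0 : ℂ) (A / 2), gsq q z ≤ (C * D) ^ 2)
    (hGR : ∀ (u : ℂ → ℝ) (T : ℝ), ContDiff ℝ 2 u →
      0 ≤ T → dx u 0 = 0 → dy u 0 = 0 →
      (∀ z ∈ ball (0 : ℂ) R, gsq (wp u) z ≤ T ^ 2 ∧ |lap u z| ≤ T) →
      ∀ z ∈ ball (0 : ℂ) R, gsq u z ≤ (CG * T) ^ 2 ∧ |u z - u 0| ≤ CG * T)
    (hMO : ∀ (R p κ c₂ e : ℝ) (c₀ : ℂ) (q : ℂ → ℝ), 1 ≤ R →
      0 ≤ κ → 0 ≤ c₂ → 0 ≤ e → ‖c₀‖ ≤ 2 → ContDiff ℝ 2 q → q 0 = 0 → gsq q 0 ≤ (c₂ + e) ^ 2 →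
      (∀ z ∈ ball (0 : ℂ) R, |lap q z + p / 2 * (c₀ * Complex.exp (-z / 2)).re| ≤ e) →
      (∀ z ∈ ball (0 : ℂ) R, 2 * q z ≤ κ * R ^ 2 + c₂ - c₂ * Real.exp (-z.re) + e) →
      |p| * ‖c₀‖ * R ≤ CM * (κ + |p| + e) ∧ c₂ ≤ CM * (κ + |p| + e))
    (hs1 : 4 * (Q ^ 3 * θ ^ 2) ≤ 1) (hs2 : 4 * (Q ^ 4 * θ ^ 2) ≤ τ)
    (hs3 : 2 * ((Q ^ 2 * (4 * Q ^ 3 * (2 * Q * (C + 1)) + 1) + Q +
      2 * Q * CG * (8 * Q ^ 3 * (2 * Q * (C + 1)) + Q)) * θ) * (1 + CM) ≤ 1) :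
    |p| ≤ δ * (κ + ε) := by
  have hθ := h.θ0
  have hθ1 := h.θ1
  have hε := h.hε
  have hκ := h.hκ
  have hεθ' := h.εθ
  have hκθ := h.κθ
  have hpθ := h.pθ
  have hcθ := h.cθ
  have hc := h.c2_nonneg
  have hQ1 := h.hQ1
  have hQ0 : 0 < Q := by linarith
  have hεθ : 0 < ε * θ := mul_pos hε hθ
  have hQQ : Q ≤ Q ^ 2 := by nlinarith
  have hQ2 : 1 ≤ Q ^ 2 := by nlinarith
  have hQ3 : Q ≤ Q ^ 3 := by nlinarith
  have hp0 : 0 ≤ |p| := abs_nonneg p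
  have hR1 : 1 ≤ R := by
    rw [hR]
    have : 0 < 4 * CM * (1 + 1 / δ) := by positivity
    linarith
  have hRA : R < A := by rw [hAR]; linarith
  have hRQ : R ≤ Q := by linarith [h.hAQ]
  have hs : 2 * (Q ^ 3 * θ ^ 2) ≤ 1 := by
    have : 0 ≤ Q ^ 3 * θ ^ 2 := by positivity
    linarith
  set S : ℝ := κ + |p| + c2 + ε with hS
  have hS0 : 0 < S := by rw [hS]; positivity
  set D : ℝ := 2 * Q ^ 2 * (κ + |p| + c2 + ε * θ) with hD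
  have hD0 : 0 ≤ D := by rw [hD]; positivity
  have hsmallε : ε * θ ≤ ε := mul_le_of_le_one_right hε.le hθ1
  have hDS : D ≤ 2 * Q ^ 2 * S := by
    rw [hD, hS]
    gcongr
  have hDp : |p| + ε * θ ≤ D := by
    rw [hD]
    have e1 : |p| + ε * θ ≤ κ + |p| + c2 + ε * θ := by linarith
    have e2 : 1 * (κ + |p| + c2 + ε * θ) ≤ 2 * Q ^ 2 * (κ + |p| + c2 + ε * θ) :=
      mul_le_mul_of_nonneg_right (by linarith) (by positivity)
    linarith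
  have hDθ : D ≤ 8 * Q ^ 3 * θ := by
    have e1 : κ + |p| + c2 + ε * θ ≤ 4 * (Q * θ) := by
      have : θ ≤ Q * θ := le_mul_of_one_le_left hθ.le hQ1
      linarith
    calc D ≤ 2 * Q ^ 2 * (4 * (Q * θ)) := by rw [hD]; gcongr
      _ = 8 * Q ^ 3 * θ := by ring
  -- the gradient bounds on the half disc
  have hgq := h.CE hCE hs hs1 hs2
  rw [← hD, show A / 2 = R by rw [hAR]; ring] at hgq
  have hW := h.W hs (by linarith) hRA (by positivity : 0 ≤ C * D) hgq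
  set Q7 : ℝ := 2 * Q * (C + 1) with hQ7
  have hQ7pos : 0 < Q7 := by rw [hQ7]; positivity
  have hQ71 : 1 ≤ Q7 := by rw [hQ7]; nlinarith
  have hWb : 2 * Q * (C * D + |p| + ε * θ) ≤ Q7 * D := by
    calc 2 * Q * (C * D + |p| + ε * θ) ≤ 2 * Q * (C * D + D) := by
          have : C * D + |p| + ε * θ ≤ C * D + D := by linarith
          gcongr
      _ = Q7 * D := by rw [hQ7]; ring
  have hg : ∀ z ∈ closedBall (0 : ℂ) R, gsq v z ≤ (Q7 * D) ^ 2 ∧ |v z - v 0| ≤ Q7 * D * Q := by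
    intro z hz
    have h1 := hW z hz
    refine ⟨h1.1.trans (pow_le_pow_left₀ (by positivity) hWb 2), h1.2.trans ?_⟩
    exact mul_le_mul_of_nonneg_right hWb hQ0.le
  -- Gronwall
  set T : ℝ := Q7 * D + Q * θ with hT
  have hT0 : 0 ≤ T := by rw [hT]; positivity
  have hgr := hGR u1 T h.cu hT0 h.ux h.uy (fun z hz => by
    refine ⟨?_, ?_⟩
    · rw [← h.vu]
      refine (hg z (ball_subset_closedBall hz)).1.trans (pow_le_pow_left₀ (by positivity) ?_ 2)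
      rw [hT]
      have : 0 ≤ Q * θ := by positivity
      linarith
    · refine (h.lu z (ball_subset_ball hRA.le hz)).trans ?_
      rw [hT]
      have : 0 ≤ Q7 * D := by positivity
      linarith)
  set T1 : ℝ := CG * T with hT1
  have hT10 : 0 ≤ T1 := by rw [hT1]; positivity
  have hT1θ : T1 ≤ CG * (8 * Q ^ 3 * Q7 + Q) * θ := by
    calc T1 ≤ CG * (Q7 * (8 * Q ^ 3 * θ) + Q * θ) := by rw [hT1, hT]; gcongr
      _ = CG * (8 * Q ^ 3 * Q7 + Q) * θ := by ring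
  -- MODE
  set e : ℝ := Q * (α ^ 2 * (2 * Q * Q7 * D + |p|) + ε * θ) + 2 * Q * |p| * T1 with he
  have he0 : 0 ≤ e := by rw [he]; positivity
  have hmode := hMO R p κ c2 e c0 (fun z => q z - q 0) hR1 hκ hc he0 h.n2
    (h.cq.sub contDiff_const) (by simp) ?_ ?_ ?_
  · obtain ⟨hm1, hm2⟩ := hmode
    have heS := err hQ1 hQ7pos hCG hκ hp0 hc hε hθ hθ1 h.αθ hDS hT1θ hD0 he
    exact absorb hκ hp0 hε he0 hCM hδ (by positivity) hs3 heS hm1 h.n1 hm2 hR hR1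
  · -- gradient at the centre
    rw [gsq_sub_const]
    refine h.f8.trans (pow_le_pow_left₀ (by positivity) ?_ 2)
    rw [he]
    have e1 : 0 ≤ Q * (α ^ 2 * (2 * Q * Q7 * D + |p|)) := by positivity
    have e2 : 0 ≤ 2 * Q * |p| * T1 := by positivity
    rw [mul_add]
    linarith
  · -- Laplacian
    intro z hz
    rw [lap_sub_const]
    have hz' := ball_subset_closedBall hz
    have h7 := h.f7 z (ball_subset_ball hRA.le hz) (Q7 * D) (by positivity) (hg z hz').1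
    refine h7.trans ?_
    have e1 : Q7 * D + |v z - v 0| + |p| ≤ 2 * Q * Q7 * D + |p| := by
      have a1 := (hg z hz').2
      have a2 : Q7 * D ≤ Q7 * D * Q := le_mul_of_one_le_right (by positivity) hQ1
      nlinarith
    have e2 : Q * (α ^ 2 * (Q7 * D + |v z - v 0| + |p|) + ε * θ) ≤
        Q * (α ^ 2 * (2 * Q * Q7 * D + |p|) + ε * θ) := by gcongr
    have e3 : 0 ≤ 2 * Q * |p| * T1 := by positivity
    rw [he]
    linarith
  · -- one-sided bound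
    intro z hz
    have hzA : z ∈ ball (0 : ℂ) A := ball_subset_ball hRA.le hz
    have h4 := h.f4 z hzA
    have hnz : ‖z‖ < R := by simpa using hz
    have g1 := (hgr z hz).2
    rw [h.u10] at g1
    have hexp : Real.exp (-z.re) ≤ Q := by
      refine le_trans (Real.exp_le_exp.2 ?_) h.hEQ
      have := (abs_le.1 (Complex.abs_re_le_norm z)).1
      linarith
    have g5 : κ * ‖z‖ ^ 2 ≤ κ * R ^ 2 := by gcongr
    have g6 : 0 ≤ Q * (α ^ 2 * (2 * Q * Q7 * D + |p|)) := by positivity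
    have := onesided (Real.exp_pos (-z.re)) hexp h4 (gsq_nonneg u1 z) (sq_nonneg α) h.abs_p h.hc
      hT10 g1 g5 g6
    rw [he, mul_add]
    exact this

end AD

end Pool.Agent.Helper904_Yau.PME
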