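import Pool.Agent.Helper904_Yau.MEa

/-!
# The main estimate ME, part b: the facts (a) to (e), (h) of PAPER section 3
-/

set_option autoImplicit false

open MeasureTheory Set Metric Filter Topology
open scoped ContDiff
open Pool.Agent.Helper904_QS

namespace Pool.Agent.Helper904_Yau.PME

/-- the situation of the main estimate, with a common constant `K` and a small parameter `θ` -/
structure Sit (m Λ K A a ε κ θ : ℝ) (u ς : ℂ → ℝ) : Prop where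
  hm : 0 < m
  hA : 0 < A
  hK1 : 1 ≤ K
  hAK : A ≤ K
  hLK : Λ ≤ K
  hEK : Real.exp A ≤ K
  ha : 0 < a
  hε : 0 < ε
  hκ : 0 ≤ κ
  aθ : a ≤ θ
  εθ : ε ≤ θ
  κθ : κ ≤ θ
  small : 4 * (K ^ 2 * θ) ≤ 1
  sol : NSol m Λ a ε (ball 0 A) u ς
  n0 : NN u ς a 0 = 1
  nx : dx (NN u ς a) 0 = 1
  ny : dy (NN u ς a) 0 = 0
  dom : ∀ z ∈ ball (0 : ℂ) A, NN u ς a z ≤ Real.exp (z.re + κ / 2 * ‖z‖ ^ 2)
  au : ∀ z ∈ ball (0 : ℂ) A, a * |u z| ≤ θ

/-- `α` -/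
noncomputable def al (a : ℝ) (ς : ℂ → ℝ) : ℝ := a * ς 0
/-- `β` -/
noncomputable def be (a : ℝ) (ς : ℂ → ℝ) : ℝ := √(1 / 4 + al a ς ^ 2)
/-- the first coefficient of the model solution -/
noncomputable def cA (u : ℂ → ℝ) : ℝ := 2 * dx u 0
/-- the second coefficient of the model solution -/
noncomputable def cB (a : ℝ) (u ς : ℂ → ℝ) : ℝ := dy u 0 / be a ς
/-- the model solution -/
noncomputable def UU (a : ℝ) (u ς : ℂ → ℝ) : ℂ → ℝ := u0 (cA u) (cB a u ς) (be a ς)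
/-- the deviation -/
noncomputable def ui (a : ℝ) (u ς : ℂ → ℝ) : ℂ → ℝ := fun z => u z - UU a u ς z
/-- the linearised quantity -/
noncomputable def qi (a : ℝ) (u ς : ℂ → ℝ) : ℂ → ℝ :=
  qq (al a ς) (be a ς) (cA u) (cB a u ς) (ui a u ς)

theorem be_sq (a : ℝ) (ς : ℂ → ℝ) : be a ς ^ 2 = 1 / 4 + al a ς ^ 2 :=
  Real.sq_sqrt (by positivity)

theorem be_ge (a : ℝ) (ς : ℂ → ℝ) : 1 / 2 ≤ be a ς := by
  have h : (1 / 2 : ℝ) = √(1 / 4) := by
    rw [show (1 / 4 : ℝ) = (1 / 2) ^ 2 by norm_num, Real.sqrt_sq (by norm_num)]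
  rw [h]
  exact Real.sqrt_le_sqrt (by nlinarith [sq_nonneg (al a ς)])

theorem be_le (a : ℝ) (ς : ℂ → ℝ) : be a ς - 1 / 2 ≤ al a ς ^ 2 := by
  have h1 := be_sq a ς
  have h2 := be_ge a ς
  nlinarith

theorem abs_dx_le {f : ℂ → ℝ} {z : ℂ} {G : ℝ} (hG : 0 ≤ G) (h : gsq f z ≤ G ^ 2) :
    |dx f z| ≤ G := by
  apply abs_le_of_sq_le_sq _ hG
  unfold gsq at h
  nlinarith [sq_nonneg (dy f z)]

theorem abs_dy_le {f : ℂ → ℝ} {z : ℂ} {G : ℝ} (hG : 0 ≤ G) (h : gsq f z ≤ G ^ 2) :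
    |dy f z| ≤ G := by
  apply abs_le_of_sq_le_sq _ hG
  unfold gsq at h
  nlinarith [sq_nonneg (dx f z)]

theorem cos_lip (x y : ℝ) : |Real.cos x - Real.cos y| ≤ |x - y| := Real.abs_cos_sub_cos_le x y

theorem sin_lip (x y : ℝ) : |Real.sin x - Real.sin y| ≤ |x - y| := Real.abs_sin_sub_sin_le x y

/-- bound for the Laplacian of the linearised quantity -/
theorem lapb {ex K α2 E U X Y wx w g W H Hx Hy : ℝ} (hex0 : 0 < ex) (hex : ex ≤ K) (hK : 1 ≤ K)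
    (hα : 0 ≤ α2) (hα1 : α2 ≤ 1 / 16) (hE : 0 ≤ E) (hg : 0 ≤ g) (hX : |X| ≤ 2 * K)
    (hY : |Y| ≤ 2 * K) (hU : |U| ≤ 4 * K) (hwx : |wx| ≤ g) (hw : |w| ≤ W)
    (hH : |H| ≤ 10 * K ^ 4 * E) (hHx : |Hx| ≤ 10 * K ^ 4 * E) (hHy : |Hy| ≤ 10 * K ^ 4 * E) :
    |ex / 2 * (α2 * U * (2 * wx - w) + 2 * (X * Hx + Y * Hy) - (1 + 2 * α2) * U * H)| ≤
      100 * K ^ 6 * (α2 * (g + W) + E) := by
  have hK0 : 0 < K := by linarith
  have hW : 0 ≤ W := (abs_nonneg w).trans hw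
  have t1 : |α2 * U * (2 * wx - w)| ≤ α2 * (4 * K) * (2 * g + W) := by
    rw [abs_mul, abs_mul, abs_of_nonneg hα]
    have : |2 * wx - w| ≤ 2 * g + W := by
      refine (abs_sub _ _).trans ?_
      rw [abs_mul, abs_two]
      linarith
    gcongr
  have t2 : |2 * (X * Hx + Y * Hy)| ≤ 80 * K ^ 5 * E := by
    rw [abs_mul, abs_two]
    have a1 : |X * Hx + Y * Hy| ≤ 2 * K * (10 * K ^ 4 * E) + 2 * K * (10 * K ^ 4 * E) := by
      refine (abs_add_le _ _).trans ?_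
      rw [abs_mul, abs_mul]
      gcongr
    nlinarith
  have t3 : |(1 + 2 * α2) * U * H| ≤ 60 * K ^ 5 * E := by
    rw [abs_mul, abs_mul, abs_of_nonneg (by positivity : 0 ≤ 1 + 2 * α2)]
    calc (1 + 2 * α2) * |U| * |H| ≤ (3 / 2) * (4 * K) * (10 * K ^ 4 * E) := by
          gcongr
          linarith
      _ = 60 * K ^ 5 * E := by ring
  have t4 : |α2 * U * (2 * wx - w) + 2 * (X * Hx + Y * Hy) - (1 + 2 * α2) * U * H| ≤
      α2 * (4 * K) * (2 * g + W) + 80 * K ^ 5 * E + 60 * K ^ 5 * E :=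
    (abs_sub _ _).trans (add_le_add ((abs_add_le _ _).trans (add_le_add t1 t2)) t3)
  rw [abs_mul, abs_of_pos (by positivity : 0 < ex / 2)]
  calc ex / 2 * |α2 * U * (2 * wx - w) + 2 * (X * Hx + Y * Hy) - (1 + 2 * α2) * U * H| ≤
        K / 2 * (α2 * (4 * K) * (2 * g + W) + 80 * K ^ 5 * E + 60 * K ^ 5 * E) := by gcongr
    _ = 2 * K ^ 2 * (α2 * (2 * g + W)) + 70 * K ^ 6 * E := by ring
    _ ≤ 2 * K ^ 6 * (α2 * (2 * (g + W))) + 100 * K ^ 6 * E := by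
        have c1 : K ^ 2 ≤ K ^ 6 := pow_le_pow_right₀ hK (by norm_num)
        have c2 : 2 * g + W ≤ 2 * (g + W) := by linarith
        gcongr
        norm_num
    _ ≤ 100 * K ^ 6 * (α2 * (g + W) + E) := by
        have : 0 ≤ K ^ 6 * (α2 * (g + W)) := by positivity
        nlinarith

namespace Sit

variable {m Λ K A a ε κ θ : ℝ} {u ς : ℂ → ℝ}

theorem θ0 (h : Sit m Λ K A a ε κ θ u ς) : 0 < θ := h.hε.trans_le h.εθ

theorem K0 (h : Sit m Λ K A a ε κ θ u ς) : 0 < K := by linarith [h.hK1]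

theorem Kθ (h : Sit m Λ K A a ε κ θ u ς) : 4 * (K * θ) ≤ 1 := by
  have h1 := h.small
  have h2 := h.hK1
  have h3 := h.θ0
  have : K * θ ≤ K ^ 2 * θ := by
    apply mul_le_mul_of_nonneg_right _ h3.le
    nlinarith
  linarith

theorem θ1 (h : Sit m Λ K A a ε κ θ u ς) : 4 * θ ≤ 1 := by
  have h1 := h.Kθ
  have : θ ≤ K * θ := le_mul_of_one_le_left h.θ0.le h.hK1
  linarith

theorem mem0 (h : Sit m Λ K A a ε κ θ u ς) : (0 : ℂ) ∈ ball (0 : ℂ) A := mem_ball_self h.hA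

theorem re_lt (h : Sit m Λ K A a ε κ θ u ς) {z : ℂ} (hz : z ∈ ball (0 : ℂ) A) :
    |z.re| ≤ A ∧ |z.im| ≤ A ∧ ‖z‖ ≤ K := by
  have h1 : ‖z‖ < A := by simpa using hz
  exact ⟨(Complex.abs_re_le_norm z).trans h1.le, (Complex.abs_im_le_norm z).trans h1.le,
    h1.le.trans h.hAK⟩

theorem exps (h : Sit m Λ K A a ε κ θ u ς) {z : ℂ} (hz : z ∈ ball (0 : ℂ) A) {t : ℝ}
    (ht : |t| ≤ |z.re|) : Real.exp t ≤ K := by
  refine (Real.exp_le_exp.2 ?_).trans h.hEK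
  exact (le_abs_self t).trans (ht.trans (h.re_lt hz).1)

theorem exp1 (h : Sit m Λ K A a ε κ θ u ς) {z : ℂ} (hz : z ∈ ball (0 : ℂ) A) :
    Real.exp z.re ≤ K := h.exps hz le_rfl

theorem exp2 (h : Sit m Λ K A a ε κ θ u ς) {z : ℂ} (hz : z ∈ ball (0 : ℂ) A) :
    Real.exp (-z.re) ≤ K := h.exps hz (by rw [abs_neg])

theorem exp3 (h : Sit m Λ K A a ε κ θ u ς) {z : ℂ} (hz : z ∈ ball (0 : ℂ) A) :
    Real.exp (-z.re / 2) ≤ K := by
  refine h.exps hz ?_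
  rw [abs_div, abs_neg, abs_two]
  have := abs_nonneg z.re
  linarith

theorem inv_exp (h : Sit m Λ K A a ε κ θ u ς) {z : ℂ} (hz : z ∈ ball (0 : ℂ) A) :
    1 ≤ K * Real.exp z.re := by
  have h1 := h.exp2 hz
  have h2 : Real.exp (-z.re) * Real.exp z.re = 1 := by rw [← Real.exp_add]; simp
  rw [← h2]
  exact mul_le_mul_of_nonneg_right h1 (Real.exp_pos _).le

/-- the paraboloid factor -/
theorem expκ (h : Sit m Λ K A a ε κ θ u ς) {z : ℂ} (hz : z ∈ ball (0 : ℂ) A) :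
    Real.exp (κ / 2 * ‖z‖ ^ 2) ≤ 1 + κ * ‖z‖ ^ 2 ∧ κ * ‖z‖ ^ 2 ≤ 1 / 4 := by
  have h1 := (h.re_lt hz).2.2
  have h2 : ‖z‖ ^ 2 ≤ K ^ 2 := pow_le_pow_left₀ (norm_nonneg z) h1 2
  have h3 : κ * ‖z‖ ^ 2 ≤ 1 / 4 := by
    calc κ * ‖z‖ ^ 2 ≤ θ * K ^ 2 := mul_le_mul h.κθ h2 (by positivity) h.θ0.le
      _ ≤ 1 / 4 := by linarith [h.small]
  have h4 : 0 ≤ κ * ‖z‖ ^ 2 := mul_nonneg h.hκ (by positivity)
  have h5 := Real.abs_exp_sub_one_le (x := κ / 2 * ‖z‖ ^ 2) (by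
    rw [abs_of_nonneg (by linarith)]; linarith)
  rw [abs_of_nonneg (a := κ / 2 * ‖z‖ ^ 2) (by linarith)] at h5
  have h6 := (abs_le.1 h5).2
  exact ⟨by linarith, h3⟩

theorem N_le (h : Sit m Λ K A a ε κ θ u ς) {z : ℂ} (hz : z ∈ ball (0 : ℂ) A) :
    NN u ς a z ≤ 2 * K := by
  refine (h.dom z hz).trans ?_
  rw [Real.exp_add]
  have h1 := h.expκ hz
  have h2 := h.exp1 hz
  have h3 := Real.exp_pos z.re
  have h4 := Real.exp_pos (κ / 2 * ‖z‖ ^ 2)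
  calc Real.exp z.re * Real.exp (κ / 2 * ‖z‖ ^ 2) ≤ K * 2 :=
        mul_le_mul h2 (by linarith) h4.le h.K0.le
    _ = 2 * K := by ring

theorem gu (h : Sit m Λ K A a ε κ θ u ς) {z : ℂ} (hz : z ∈ ball (0 : ℂ) A) :
    gsq u z ≤ (2 * K) ^ 2 := by
  have h1 := h.N_le hz
  unfold NN at h1
  have h2 := sq_nonneg (a * ς z * u z)
  have h3 := h.hK1
  nlinarith

theorem s_pos (h : Sit m Λ K A a ε κ θ u ς) {z : ℂ} (hz : z ∈ ball (0 : ℂ) A) :
    0 < ς z ∧ ς z ≤ K := ⟨h.hm.trans_le (h.sol.low z hz), (h.sol.up z hz).trans h.hLK⟩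

theorem sx (h : Sit m Λ K A a ε κ θ u ς) {z : ℂ} (hz : z ∈ ball (0 : ℂ) A) :
    |dx ς z| ≤ K * ε := (h.sol.d1x z hz).trans (mul_le_mul_of_nonneg_right h.hLK h.hε.le)

theorem sy (h : Sit m Λ K A a ε κ θ u ς) {z : ℂ} (hz : z ∈ ball (0 : ℂ) A) :
    |dy ς z| ≤ K * ε := (h.sol.d1y z hz).trans (mul_le_mul_of_nonneg_right h.hLK h.hε.le)

theorem s_diff (h : Sit m Λ K A a ε κ θ u ς) {z : ℂ} (hz : z ∈ ball (0 : ℂ) A) :
    |ς z - ς 0| ≤ 2 * K ^ 2 * ε := by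
  have hK := h.K0
  have hε := h.hε
  have h1 := mvt (h.sol.hs.of_le (by norm_num)) (convex_ball (0 : ℂ) A)
    (G := 2 * K * ε) (by positivity) h.mem0 (fun w hw => by
      unfold gsq
      have e1 := sq_le_sq' (abs_le.1 (h.sx hw)).1 (abs_le.1 (h.sx hw)).2
      have e2 := sq_le_sq' (abs_le.1 (h.sy hw)).1 (abs_le.1 (h.sy hw)).2
      nlinarith [sq_nonneg (K * ε)]) z hz
  refine h1.trans ?_
  have h2 := (h.re_lt hz).2.2
  calc 2 * K * ε * ‖z‖ ≤ 2 * K * ε * K := by gcongr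
    _ = 2 * K ^ 2 * ε := by ring

/-- `|a²ς² - α²| ≤ 4 K³ ε a²` -/
theorem c_diff (h : Sit m Λ K A a ε κ θ u ς) {z : ℂ} (hz : z ∈ ball (0 : ℂ) A) :
    |a ^ 2 * ς z ^ 2 - al a ς ^ 2| ≤ 4 * K ^ 3 * ε * a ^ 2 := by
  have hK := h.K0
  have hε := h.hε
  have h1 := h.s_diff hz
  have h2 := h.s_pos hz
  have h3 := h.s_pos h.mem0
  have h4 : |ς z + ς 0| ≤ 2 * K := by
    rw [abs_of_pos (by linarith [h2.1, h3.1])]
    linarith [h2.2, h3.2]
  have h5 : a ^ 2 * ς z ^ 2 - al a ς ^ 2 = a ^ 2 * ((ς z - ς 0) * (ς z + ς 0)) := by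
    unfold al; ring
  rw [h5, abs_mul, abs_mul, abs_of_nonneg (sq_nonneg a)]
  calc a ^ 2 * (|ς z - ς 0| * |ς z + ς 0|) ≤ a ^ 2 * (2 * K ^ 2 * ε * (2 * K)) := by gcongr
    _ = 4 * K ^ 3 * ε * a ^ 2 := by ring

theorem al_pos (h : Sit m Λ K A a ε κ θ u ς) : 0 < al a ς := by
  unfold al
  exact mul_pos h.ha (h.s_pos h.mem0).1

theorem al_sq_le (h : Sit m Λ K A a ε κ θ u ς) : al a ς ^ 2 ≤ K ^ 2 * a ^ 2 := by
  have h1 := h.s_pos h.mem0
  have h2 := h.ha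
  unfold al
  rw [mul_pow, mul_comm]
  apply mul_le_mul_of_nonneg_right _ (by positivity)
  exact pow_le_pow_left₀ h1.1.le h1.2 2

theorem al_sq_le' (h : Sit m Λ K A a ε κ θ u ς) : al a ς ^ 2 ≤ K ^ 2 * θ ^ 2 := by
  refine h.al_sq_le.trans ?_
  have := pow_le_pow_left₀ h.ha.le h.aθ 2
  gcongr

theorem al_sq_le1 (h : Sit m Λ K A a ε κ θ u ς) : al a ς ^ 2 ≤ 1 / 16 := by
  refine h.al_sq_le'.trans ?_
  have h1 := h.Kθ
  have h2 : 0 < K * θ := mul_pos h.K0 h.θ0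
  rw [← mul_pow]
  nlinarith

theorem be_sq_le (h : Sit m Λ K A a ε κ θ u ς) : be a ς ^ 2 ≤ 1 / 2 := by
  rw [be_sq]
  linarith [h.al_sq_le1]

theorem be_pos (_ : Sit m Λ K A a ε κ θ u ς) : 0 < be a ς := by linarith [be_ge a ς]

/-- `(α u(0))² ≤ K² θ² ≤ 1/16` -/
theorem au0 (h : Sit m Λ K A a ε κ θ u ς) : (a * ς 0 * u 0) ^ 2 ≤ 1 / 16 := by
  have h1 := h.au 0 h.mem0
  have h2 := h.s_pos h.mem0
  have h3 : |a * ς 0 * u 0| ≤ K * θ := by
    rw [show a * ς 0 * u 0 = ς 0 * (a * u 0) by ring, abs_mul, abs_of_pos h2.1, abs_mul,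
      abs_of_pos h.ha]
    exact mul_le_mul h2.2 h1 (mul_nonneg h.ha.le (abs_nonneg _)) h.K0.le
  have h4 : |a * ς 0 * u 0| ≤ 1 / 4 := by linarith [h.Kθ]
  have := sq_le_sq' (abs_le.1 h4).1 (abs_le.1 h4).2
  linarith

theorem c0_norm (h : Sit m Λ K A a ε κ θ u ς) :
    1 ≤ cA u ^ 2 + cB a u ς ^ 2 ∧ cA u ^ 2 + cB a u ς ^ 2 ≤ 4 := by
  have h1 := h.n0
  unfold NN gsq at h1
  have h2 := h.au0
  have h3 := h.be_sq_le
  have h4 := be_sq a ς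
  have h5 : 1 / 4 ≤ be a ς ^ 2 := by rw [h4]; nlinarith [sq_nonneg (al a ς)]
  have h6 := h.be_pos
  have h7 : cB a u ς ^ 2 * be a ς ^ 2 = dy u 0 ^ 2 := by
    unfold cB
    field_simp
  have h8 : 2 * dy u 0 ^ 2 ≤ cB a u ς ^ 2 := by nlinarith [sq_nonneg (cB a u ς)]
  have h9 : cB a u ς ^ 2 ≤ 4 * dy u 0 ^ 2 := by nlinarith [sq_nonneg (cB a u ς)]
  have h10 : cA u ^ 2 = 4 * dx u 0 ^ 2 := by unfold cA; ring
  have h11 := sq_nonneg (dx u 0)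
  have h12 := sq_nonneg (a * ς 0 * u 0)
  constructor <;> linarith

/-! ### the formulas of QF for the present data -/

theorem cU (hQF : S_QF) (a : ℝ) (u ς : ℂ → ℝ) : ContDiff ℝ 4 (UU a u ς) :=
  (hQF (al a ς) (be a ς) (cA u) (cB a u ς) (fun _ => 0) contDiff_const (be_sq a ς)).1

theorem cui (h : Sit m Λ K A a ε κ θ u ς) (hQF : S_QF) : ContDiff ℝ 4 (ui a u ς) :=
  h.sol.hu.sub (cU hQF a u ς)

theorem U1 (hQF : S_QF) (a : ℝ) (u ς : ℂ → ℝ) (z : ℂ) : dx (UU a u ς) z = UU a u ς z / 2 :=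
  (hQF (al a ς) (be a ς) (cA u) (cB a u ς) (fun _ => 0) contDiff_const (be_sq a ς)).2.2.2.1 z

theorem U2 (hQF : S_QF) (a : ℝ) (u ς : ℂ → ℝ) (z : ℂ) :
    dy (UU a u ς) z = be a ς * u0 (cB a u ς) (-(cA u)) (be a ς) z :=
  (hQF (al a ς) (be a ς) (cA u) (cB a u ς) (fun _ => 0) contDiff_const (be_sq a ς)).2.2.2.2.1 z

theorem U3 (hQF : S_QF) (a : ℝ) (u ς : ℂ → ℝ) (z : ℂ) :
    lap (UU a u ς) z = -(al a ς ^ 2 * UU a u ς z) :=
  (hQF (al a ς) (be a ς) (cA u) (cB a u ς) (fun _ => 0) contDiff_const (be_sq a ς)).2.2.2.2.2.1 z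

theorem U4 (hQF : S_QF) (a : ℝ) (u ς : ℂ → ℝ) (z : ℂ) :
    gsq (UU a u ς) z + al a ς ^ 2 * UU a u ς z ^ 2 =
      Real.exp z.re * (be a ς ^ 2 * (cA u ^ 2 + cB a u ς ^ 2)) :=
  (hQF (al a ς) (be a ς) (cA u) (cB a u ς) (fun _ => 0) contDiff_const (be_sq a ς)).2.2.2.2.2.2.1 z

theorem U5 (hQF : S_QF) (a : ℝ) (u ς : ℂ → ℝ) (z : ℂ) :
    Real.exp z.re * ((cA u ^ 2 + cB a u ς ^ 2) / 4) ≤ gsq (UU a u ς) z :=
  (hQF (al a ς) (be a ς) (cA u) (cB a u ς) (fun _ => 0) contDiff_const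
    (be_sq a ς)).2.2.2.2.2.2.2.1 z

theorem UU_zero (a : ℝ) (u ς : ℂ → ℝ) : UU a u ς 0 = 2 * dx u 0 := by
  simp [UU, u0, cA]

theorem dxU_zero (hQF : S_QF) (a : ℝ) (u ς : ℂ → ℝ) : dx (UU a u ς) 0 = dx u 0 := by
  rw [U1 hQF, UU_zero]; ring

theorem dyU_zero (hQF : S_QF) (a : ℝ) (u ς : ℂ → ℝ) : dy (UU a u ς) 0 = dy u 0 := by
  rw [U2 hQF]
  have : be a ς ≠ 0 := by linarith [be_ge a ς]
  simp only [u0, cB]
  simp
  field_simp

theorem dx_ui (h : Sit m Λ K A a ε κ θ u ς) (hQF : S_QF) (z : ℂ) :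
    dx (ui a u ς) z = dx u z - dx (UU a u ς) z :=
  dx_sub (h.sol.hu.differentiable (by norm_num) z) ((cU hQF a u ς).differentiable (by norm_num) z)

theorem dy_ui (h : Sit m Λ K A a ε κ θ u ς) (hQF : S_QF) (z : ℂ) :
    dy (ui a u ς) z = dy u z - dy (UU a u ς) z :=
  dy_sub (h.sol.hu.differentiable (by norm_num) z) ((cU hQF a u ς).differentiable (by norm_num) z)

theorem wp_ui (h : Sit m Λ K A a ε κ θ u ς) (hQF : S_QF) : wp (ui a u ς) = wp u := by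
  ext z
  unfold wp
  rw [h.dx_ui hQF, U1 hQF]
  unfold ui
  ring

theorem ui_zero (a : ℝ) (u ς : ℂ → ℝ) : ui a u ς 0 = -wp u 0 := by
  unfold ui wp
  rw [UU_zero]; ring

theorem dx_ui_zero (h : Sit m Λ K A a ε κ θ u ς) (hQF : S_QF) : dx (ui a u ς) 0 = 0 := by
  rw [h.dx_ui hQF, dxU_zero hQF, sub_self]

theorem dy_ui_zero (h : Sit m Λ K A a ε κ θ u ς) (hQF : S_QF) : dy (ui a u ς) 0 = 0 := by
  rw [h.dy_ui hQF, dyU_zero hQF, sub_self]

theorem q_cd (h : Sit m Λ K A a ε κ θ u ς) (hQF : S_QF) : ContDiff ℝ 2 (qi a u ς) :=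
  (hQF (al a ς) (be a ς) (cA u) (cB a u ς) (ui a u ς) (h.cui hQF) (be_sq a ς)).2.1

theorem h_cd (h : Sit m Λ K A a ε κ θ u ς) (hQF : S_QF) : ContDiff ℝ 2 (hh (al a ς) (ui a u ς)) :=
  (hQF (al a ς) (be a ς) (cA u) (cB a u ς) (ui a u ς) (h.cui hQF) (be_sq a ς)).2.2.1

theorem q_eq (h : Sit m Λ K A a ε κ θ u ς) (hQF : S_QF) (z : ℂ) :
    Real.exp (-z.re) * (gsq u z + al a ς ^ 2 * u z ^ 2) =
      be a ς ^ 2 * (cA u ^ 2 + cB a u ς ^ 2) + 2 * qi a u ς z +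
      Real.exp (-z.re) * (gsq (ui a u ς) z + al a ς ^ 2 * ui a u ς z ^ 2) := by
  have h1 := (hQF (al a ς) (be a ς) (cA u) (cB a u ς) (ui a u ς) (h.cui hQF)
    (be_sq a ς)).2.2.2.2.2.2.2.2.1 z
  have h2 : (fun w => u0 (cA u) (cB a u ς) (be a ς) w + ui a u ς w) = u := by
    ext w
    unfold ui UU
    ring
  have h3 : u0 (cA u) (cB a u ς) (be a ς) z + ui a u ς z = u z := congrFun h2 z
  rw [h2, h3] at h1
  exact h1

theorem q_dx (h : Sit m Λ K A a ε κ θ u ς) (hQF : S_QF) (z : ℂ) :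
    dx (qi a u ς) z = Real.exp (-z.re) / 2 * (dx (UU a u ς) z * dx (wp u) z +
      dy (UU a u ς) z * dy (wp u) z + al a ς ^ 2 * UU a u ς z * wp u z) := by
  have h1 := (hQF (al a ς) (be a ς) (cA u) (cB a u ς) (ui a u ς) (h.cui hQF)
    (be_sq a ς)).2.2.2.2.2.2.2.2.2.1 z
  rw [h.wp_ui hQF] at h1
  exact h1

theorem q_dy (h : Sit m Λ K A a ε κ θ u ς) (hQF : S_QF) (z : ℂ) :
    dy (qi a u ς) z = -(Real.exp (-z.re) / 2) * (dy (UU a u ς) z * dx (wp u) z -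
      dx (UU a u ς) z * dy (wp u) z - 2 * dy (UU a u ς) z * hh (al a ς) (ui a u ς) z) := by
  have h1 := (hQF (al a ς) (be a ς) (cA u) (cB a u ς) (ui a u ς) (h.cui hQF)
    (be_sq a ς)).2.2.2.2.2.2.2.2.2.2.1 z
  rw [h.wp_ui hQF] at h1
  exact h1

theorem q_lap (h : Sit m Λ K A a ε κ θ u ς) (hQF : S_QF) (z : ℂ) :
    lap (qi a u ς) z = Real.exp (-z.re) / 2 *
      (al a ς ^ 2 * UU a u ς z * (2 * dx (wp u) z - wp u z) +
      2 * (dx (UU a u ς) z * dx (hh (al a ς) (ui a u ς)) z +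
        dy (UU a u ς) z * dy (hh (al a ς) (ui a u ς)) z) -
      (1 + 2 * al a ς ^ 2) * UU a u ς z * hh (al a ς) (ui a u ς) z) := by
  have h1 := (hQF (al a ς) (be a ς) (cA u) (cB a u ς) (ui a u ς) (h.cui hQF)
    (be_sq a ς)).2.2.2.2.2.2.2.2.2.2.2 z
  rw [h.wp_ui hQF] at h1
  exact h1

/-- bounds for the model solution -/
theorem U_bd (h : Sit m Λ K A a ε κ θ u ς) (hQF : S_QF) {z : ℂ} (hz : z ∈ ball (0 : ℂ) A) :
    |dx (UU a u ς) z| ≤ 2 * K ∧ |dy (UU a u ς) z| ≤ 2 * K ∧ |UU a u ς z| ≤ 4 * K := by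
  have hK := h.K0
  have h1 := U4 hQF a u ς z
  have h2 := h.exp1 hz
  have h3 := h.c0_norm.2
  have h4 := h.be_sq_le
  have h5 : be a ς ^ 2 * (cA u ^ 2 + cB a u ς ^ 2) ≤ 1 / 2 * 4 :=
    mul_le_mul h4 h3 (by positivity) (by norm_num)
  have h6 : Real.exp z.re * (be a ς ^ 2 * (cA u ^ 2 + cB a u ς ^ 2)) ≤ K * (1 / 2 * 4) :=
    mul_le_mul h2 h5 (by positivity) hK.le
  have h7 : gsq (UU a u ς) z ≤ (2 * K) ^ 2 := by
    have e1 : 0 ≤ al a ς ^ 2 * UU a u ς z ^ 2 := by positivity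
    have e2 := h.hK1
    nlinarith
  have h8 := abs_dx_le (by positivity) h7
  refine ⟨h8, abs_dy_le (by positivity) h7, ?_⟩
  rw [U1 hQF, abs_div, abs_two] at h8
  linarith

/-! ### the inhomogeneity -/

theorem hh_eq (h : Sit m Λ K A a ε κ θ u ς) (hQF : S_QF) {z : ℂ} (hz : z ∈ ball (0 : ℂ) A) :
    hh (al a ς) (ui a u ς) z = -((a ^ 2 * ς z ^ 2 - al a ς ^ 2) * u z) := by
  have h1 : lap (ui a u ς) z = lap u z - lap (UU a u ς) z :=
    lap_sub (h.sol.hu.of_le (by norm_num)) ((cU hQF a u ς).of_le (by norm_num)) z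
  unfold hh
  rw [h1, h.sol.eq z hz, U3 hQF]
  unfold ui
  ring

theorem ht (h : Sit m Λ K A a ε κ θ u ς) : 0 ≤ ε * θ := mul_nonneg h.hε.le h.θ0.le

theorem hh_bd (h : Sit m Λ K A a ε κ θ u ς) (hQF : S_QF) {z : ℂ} (hz : z ∈ ball (0 : ℂ) A) :
    |hh (al a ς) (ui a u ς) z| ≤ 10 * K ^ 4 * (ε * θ) := by
  have hK := h.K0
  have hK1 := h.hK1
  have hε := h.hε
  have ha := h.ha
  have hθ := h.θ0
  have ht := h.ht
  rw [h.hh_eq hQF hz, abs_neg, abs_mul]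
  have h1 := h.c_diff hz
  have h2 := h.au z hz
  have h3 : a ≤ 1 := by linarith [h.aθ, h.θ1]
  calc |a ^ 2 * ς z ^ 2 - al a ς ^ 2| * |u z| ≤ 4 * K ^ 3 * ε * a ^ 2 * |u z| := by gcongr
    _ = 4 * K ^ 3 * ε * a * (a * |u z|) := by ring
    _ ≤ 4 * K ^ 3 * ε * 1 * θ := by gcongr
    _ ≤ 10 * K ^ 4 * (ε * θ) := by
      have : K ^ 3 ≤ K ^ 4 := pow_le_pow_right₀ hK1 (by norm_num)
      have := mul_le_mul_of_nonneg_right this ht
      have e : 0 ≤ K ^ 4 * (ε * θ) := by positivity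
      nlinarith

theorem hh_grad (h : Sit m Λ K A a ε κ θ u ς) (hQF : S_QF) {z : ℂ} (hz : z ∈ ball (0 : ℂ) A)
    (D : (ℂ → ℝ) → ℂ → ℝ) (hD : D = dx ∨ D = dy) :
    |D (hh (al a ς) (ui a u ς)) z| ≤ 10 * K ^ 4 * (ε * θ) := by
  have hK := h.K0
  have hK1 := h.hK1
  have hε := h.hε
  have ha := h.ha
  have hθ := h.θ0
  have ht := h.ht
  have du : DifferentiableAt ℝ u z := h.sol.hu.differentiable (by norm_num) z
  have ds : DifferentiableAt ℝ ς z := h.sol.hs.differentiable (by norm_num) z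
  have e : D (hh (al a ς) (ui a u ς)) z =
      -(2 * a ^ 2 * ς z * D ς z * u z + (a ^ 2 * ς z ^ 2 - al a ς ^ 2) * D u z) := by
    have d1 : DifferentiableAt ℝ (fun z => a ^ 2 * ς z ^ 2) z := by fun_prop
    have d2 : DifferentiableAt ℝ (fun z => a ^ 2 * ς z ^ 2 - al a ς ^ 2) z := by fun_prop
    have d3 : DifferentiableAt ℝ (fun z => ς z ^ 2) z := by fun_prop
    rcases hD with rfl | rfl
    · rw [dx_congr isOpen_ball (fun w hw => h.hh_eq hQF hw) z hz]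
      rw [dx_neg, dx_mul d2 du, dx_sub_const, dx_const_mul _ d3, dx_sq ds]
      ring
    · rw [dy_congr isOpen_ball (fun w hw => h.hh_eq hQF hw) z hz]
      rw [dy_neg, dy_mul d2 du, dy_sub_const, dy_const_mul _ d3, dy_sq ds]
      ring
  have hu : |D u z| ≤ 2 * K := by
    rcases hD with rfl | rfl
    · exact abs_dx_le (by positivity) (h.gu hz)
    · exact abs_dy_le (by positivity) (h.gu hz)
  have hs : |D ς z| ≤ K * ε := by
    rcases hD with rfl | rfl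
    · exact h.sx hz
    · exact h.sy hz
  have h1 := h.c_diff hz
  have h2 := h.au z hz
  have h3 := h.s_pos hz
  have h4 : a ≤ 1 := by linarith [h.aθ, h.θ1]
  have haθ := h.aθ
  rw [e, abs_neg]
  have h5 : |2 * a ^ 2 * ς z * D ς z * u z| ≤ 2 * K ^ 4 * (ε * θ) := by
    rw [show 2 * a ^ 2 * ς z * D ς z * u z = (2 * a) * ς z * D ς z * (a * u z) by ring]
    rw [abs_mul, abs_mul, abs_mul, abs_of_pos h3.1, abs_of_pos (by positivity : 0 < 2 * a),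
      abs_mul a, abs_of_pos ha]
    have hs0 : 0 ≤ ς z := h3.1.le
    have hs1 : ς z ≤ K := h3.2
    calc 2 * a * ς z * |D ς z| * (a * |u z|) ≤ 2 * 1 * K * (K * ε) * θ := by
          gcongr
      _ = 2 * (K ^ 2 * (ε * θ)) := by ring
      _ ≤ 2 * (K ^ 4 * (ε * θ)) := by
        have : K ^ 2 ≤ K ^ 4 := pow_le_pow_right₀ hK1 (by norm_num)
        have := mul_le_mul_of_nonneg_right this ht
        linarith
      _ = 2 * K ^ 4 * (ε * θ) := by ring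
  have h6 : |(a ^ 2 * ς z ^ 2 - al a ς ^ 2) * D u z| ≤ 8 * K ^ 4 * (ε * θ) := by
    rw [abs_mul]
    calc |a ^ 2 * ς z ^ 2 - al a ς ^ 2| * |D u z| ≤ 4 * K ^ 3 * ε * a ^ 2 * (2 * K) := by gcongr
      _ = 8 * K ^ 4 * ε * (a * a) := by ring
      _ ≤ 8 * K ^ 4 * ε * (1 * θ) := by gcongr
      _ = 8 * K ^ 4 * (ε * θ) := by ring
  calc _ ≤ |2 * a ^ 2 * ς z * D ς z * u z| + |(a ^ 2 * ς z ^ 2 - al a ς ^ 2) * D u z| :=
        abs_add_le _ _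
    _ ≤ 2 * K ^ 4 * (ε * θ) + 8 * K ^ 4 * (ε * θ) := add_le_add h5 h6
    _ = 10 * K ^ 4 * (ε * θ) := by ring

/-! ### the facts for the closing argument -/

/-- (3.1) -/
theorem f4 (h : Sit m Λ K A a ε κ θ u ς) (hQF : S_QF) {z : ℂ} (hz : z ∈ ball (0 : ℂ) A) :
    2 * (qi a u ς z - qi a u ς 0) +
      Real.exp (-z.re) * (gsq (ui a u ς) z + al a ς ^ 2 * ui a u ς z ^ 2) ≤
      κ * ‖z‖ ^ 2 + al a ς ^ 2 * wp u 0 ^ 2 + 4 * K ^ 4 * (ε * θ) := by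
  have hK := h.K0
  have hK1 := h.hK1
  have hε := h.hε
  have ha := h.ha
  have hθ := h.θ0
  have e1 := h.q_eq hQF z
  have e2 := h.q_eq hQF 0
  have e3 : gsq (ui a u ς) 0 = 0 := by
    unfold gsq
    rw [h.dx_ui_zero hQF, h.dy_ui_zero hQF]; ring
  rw [e3, ui_zero] at e2
  simp only [Complex.zero_re, neg_zero, Real.exp_zero, one_mul, zero_add] at e2
  have e4 : gsq u 0 + al a ς ^ 2 * u 0 ^ 2 = 1 := by
    rw [← h.n0]
    unfold NN al
    ring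
  rw [e4] at e2
  -- domination
  have d1 := h.dom z hz
  rw [Real.exp_add] at d1
  have d2 := (h.expκ hz).1
  have hex := Real.exp_pos (-z.re)
  have hee : Real.exp (-z.re) * Real.exp z.re = 1 := by rw [← Real.exp_add]; simp
  have d3 : Real.exp (-z.re) * NN u ς a z ≤ 1 + κ * ‖z‖ ^ 2 := by
    calc Real.exp (-z.re) * NN u ς a z ≤
          Real.exp (-z.re) * (Real.exp z.re * Real.exp (κ / 2 * ‖z‖ ^ 2)) := by gcongr
      _ = Real.exp (κ / 2 * ‖z‖ ^ 2) := by rw [← mul_assoc, hee, one_mul]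
      _ ≤ _ := d2
  have d4 : gsq u z + al a ς ^ 2 * u z ^ 2 =
      NN u ς a z - (a ^ 2 * ς z ^ 2 - al a ς ^ 2) * u z ^ 2 := by
    unfold NN; ring
  have d5 : Real.exp (-z.re) * (-((a ^ 2 * ς z ^ 2 - al a ς ^ 2) * u z ^ 2)) ≤
      4 * K ^ 4 * (ε * θ) := by
    have c1 := h.c_diff hz
    have c2 := h.au z hz
    have c3 : 0 ≤ a * |u z| := by positivity
    have c4 : θ ≤ 1 := by linarith [h.θ1]
    calc Real.exp (-z.re) * (-((a ^ 2 * ς z ^ 2 - al a ς ^ 2) * u z ^ 2)) ≤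
          Real.exp (-z.re) * (|a ^ 2 * ς z ^ 2 - al a ς ^ 2| * u z ^ 2) := by
            apply mul_le_mul_of_nonneg_left _ hex.le
            rw [← neg_mul]
            exact mul_le_mul_of_nonneg_right (neg_le_abs _) (sq_nonneg _)
      _ ≤ K * (4 * K ^ 3 * ε * a ^ 2 * u z ^ 2) := by
            have := h.exp2 hz
            gcongr
      _ = 4 * K ^ 4 * ε * (a * |u z|) ^ 2 := by rw [mul_pow, sq_abs]; ring
      _ ≤ 4 * K ^ 4 * ε * (θ * 1) := by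
            have : (a * |u z|) ^ 2 ≤ θ * 1 := by
              rw [sq]
              exact mul_le_mul c2 (c2.trans c4) c3 hθ.le
            gcongr
      _ = 4 * K ^ 4 * (ε * θ) := by ring
  rw [d4, mul_sub] at e1
  have d6 : Real.exp (-z.re) * (-((a ^ 2 * ς z ^ 2 - al a ς ^ 2) * u z ^ 2)) =
      -(Real.exp (-z.re) * ((a ^ 2 * ς z ^ 2 - al a ς ^ 2) * u z ^ 2)) := by ring
  have d7 : al a ς ^ 2 * (-wp u 0) ^ 2 = al a ς ^ 2 * wp u 0 ^ 2 := by ring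
  linarith

/-- the two linear combinations of the derivatives of `wp u` -/
theorem f5 (h : Sit m Λ K A a ε κ θ u ς) (hQF : S_QF) {z : ℂ} (hz : z ∈ ball (0 : ℂ) A) {G : ℝ}
    (hG : 0 ≤ G) (hq : gsq (qi a u ς) z ≤ G ^ 2) :
    gsq (wp u) z ≤ (100 * K ^ 6 * (G + al a ς ^ 2 * |wp u z| + ε * θ)) ^ 2 := by
  have hK := h.K0
  have hK1 := h.hK1
  have ht := h.ht
  have hex := Real.exp_pos z.re
  have hee : Real.exp (-z.re) * Real.exp z.re = 1 := by rw [← Real.exp_add]; simp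
  obtain ⟨b1, b2, b3⟩ := h.U_bd hQF hz
  have e1 := h.q_dx hQF z
  have e2 := h.q_dy hQF z
  have b4 := abs_dx_le hG hq
  have b5 := abs_dy_le hG hq
  have b6 := h.hh_bd hQF hz
  have b7 := h.exp1 hz
  set X := dx (UU a u ς) z
  set Y := dy (UU a u ς) z
  set wx := dx (wp u) z
  set wy := dy (wp u) z
  set H := hh (al a ς) (ui a u ς) z
  set P1 := X * wx + Y * wy with hP1
  set P2 := Y * wx - X * wy with hP2
  have e3 : P1 = 2 * Real.exp z.re * dx (qi a u ς) z - al a ς ^ 2 * UU a u ς z * wp u z := by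
    rw [e1, hP1]
    have : 2 * Real.exp z.re * (Real.exp (-z.re) / 2 *
        (X * wx + Y * wy + al a ς ^ 2 * UU a u ς z * wp u z)) =
        (Real.exp (-z.re) * Real.exp z.re) *
          (X * wx + Y * wy + al a ς ^ 2 * UU a u ς z * wp u z) := by ring
    rw [this, hee]; ring
  have e4 : P2 = -(2 * Real.exp z.re * dy (qi a u ς) z) + 2 * Y * H := by
    rw [e2, hP2]
    have : 2 * Real.exp z.re * (-(Real.exp (-z.re) / 2) * (Y * wx - X * wy - 2 * Y * H)) =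
        -((Real.exp (-z.re) * Real.exp z.re) * (Y * wx - X * wy - 2 * Y * H)) := by ring
    rw [this, hee]; ring
  set B : ℝ := G + al a ς ^ 2 * |wp u z| + ε * θ with hB
  have hB0 : 0 ≤ B := by rw [hB]; positivity
  have hα := sq_nonneg (al a ς)
  have k1 : |P1| ≤ 4 * K * B := by
    rw [e3]
    calc |2 * Real.exp z.re * dx (qi a u ς) z - al a ς ^ 2 * UU a u ς z * wp u z| ≤
          |2 * Real.exp z.re * dx (qi a u ς) z| + |al a ς ^ 2 * UU a u ς z * wp u z| :=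
            abs_sub _ _
      _ = 2 * Real.exp z.re * |dx (qi a u ς) z| + al a ς ^ 2 * |UU a u ς z| * |wp u z| := by
          simp only [abs_mul, abs_two, abs_of_pos hex, abs_of_nonneg hα]
      _ ≤ 2 * K * G + al a ς ^ 2 * (4 * K) * |wp u z| := by gcongr
      _ ≤ 4 * K * B := by
          rw [hB]
          have c1 : 0 ≤ K * G := by positivity
          have c2 : 0 ≤ K * (ε * θ) := by positivity
          linarith
  have k2 : |P2| ≤ 40 * K ^ 5 * B := by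
    rw [e4]
    calc |-(2 * Real.exp z.re * dy (qi a u ς) z) + 2 * Y * H| ≤
          |-(2 * Real.exp z.re * dy (qi a u ς) z)| + |2 * Y * H| := abs_add_le _ _
      _ = 2 * Real.exp z.re * |dy (qi a u ς) z| + 2 * |Y| * |H| := by
          simp only [abs_neg, abs_mul, abs_two, abs_of_pos hex]
      _ ≤ 2 * K * G + 2 * (2 * K) * (10 * K ^ 4 * (ε * θ)) := by gcongr
      _ ≤ 40 * K ^ 5 * B := by
          rw [hB]
          have c1 : K * G ≤ K ^ 5 * G := by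
            apply mul_le_mul_of_nonneg_right _ hG
            exact le_self_pow₀ hK1 (by norm_num)
          have c2 : 0 ≤ K ^ 5 * (al a ς ^ 2 * |wp u z|) := by positivity
          have c3 : 0 ≤ K ^ 5 * G := by positivity
          nlinarith
  have k3 : (X ^ 2 + Y ^ 2) * gsq (wp u) z = P1 ^ 2 + P2 ^ 2 := by
    rw [hP1, hP2]
    show (X ^ 2 + Y ^ 2) * (wx ^ 2 + wy ^ 2) = _
    ring
  have k4 : 1 / (4 * K) ≤ X ^ 2 + Y ^ 2 := by
    have c1 := U5 hQF a u ς z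
    have c2 := h.c0_norm.1
    have c3 := h.inv_exp hz
    have c4 : gsq (UU a u ς) z = X ^ 2 + Y ^ 2 := rfl
    rw [c4] at c1
    have c5 : Real.exp z.re * (1 / 4) ≤ Real.exp z.re * ((cA u ^ 2 + cB a u ς ^ 2) / 4) := by
      gcongr
    rw [div_le_iff₀ (by positivity)]
    nlinarith
  have k5 : P1 ^ 2 ≤ (4 * K * B) ^ 2 := sq_le_sq' (abs_le.1 k1).1 (abs_le.1 k1).2
  have k6 : P2 ^ 2 ≤ (40 * K ^ 5 * B) ^ 2 := sq_le_sq' (abs_le.1 k2).1 (abs_le.1 k2).2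
  have k7 : 1 / (4 * K) * gsq (wp u) z ≤ (4 * K * B) ^ 2 + (40 * K ^ 5 * B) ^ 2 := by
    calc 1 / (4 * K) * gsq (wp u) z ≤ (X ^ 2 + Y ^ 2) * gsq (wp u) z :=
          mul_le_mul_of_nonneg_right k4 (gsq_nonneg _ _)
      _ = P1 ^ 2 + P2 ^ 2 := k3
      _ ≤ _ := add_le_add k5 k6
  have k8 : gsq (wp u) z ≤ 4 * K * ((4 * K * B) ^ 2 + (40 * K ^ 5 * B) ^ 2) := by
    have := mul_le_mul_of_nonneg_left k7 (by positivity : 0 ≤ 4 * K)
    calc gsq (wp u) z = 4 * K * (1 / (4 * K) * gsq (wp u) z) := by field_simp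
      _ ≤ _ := this
  refine k8.trans ?_
  have m1 : K ^ 3 ≤ K ^ 12 := pow_le_pow_right₀ hK1 (by norm_num)
  have m2 : K ^ 11 ≤ K ^ 12 := pow_le_pow_right₀ hK1 (by norm_num)
  have m3 : 0 ≤ B ^ 2 := sq_nonneg B
  have m4 := mul_le_mul_of_nonneg_right m1 m3
  have m5 := mul_le_mul_of_nonneg_right m2 m3
  have m6 : 0 ≤ K ^ 12 * B ^ 2 := by positivity
  calc 4 * K * ((4 * K * B) ^ 2 + (40 * K ^ 5 * B) ^ 2) =
        64 * (K ^ 3 * B ^ 2) + 6400 * (K ^ 11 * B ^ 2) := by ring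
    _ ≤ 10000 * (K ^ 12 * B ^ 2) := by linarith
    _ = (100 * K ^ 6 * B) ^ 2 := by ring

theorem f6 (h : Sit m Λ K A a ε κ θ u ς) (hQF : S_QF) {z : ℂ} (hz : z ∈ ball (0 : ℂ) A) {g : ℝ}
    (hg : 0 ≤ g) (hw : gsq (wp u) z ≤ g ^ 2) :
    |lap (qi a u ς) z| ≤ 100 * K ^ 6 * (al a ς ^ 2 * (g + |wp u z|) + ε * θ) := by
  have hK := h.K0
  have hK1 := h.hK1
  have ht := h.ht
  obtain ⟨b1, b2, b3⟩ := h.U_bd hQF hz
  have e1 := h.q_lap hQF z
  have b4 := abs_dx_le hg hw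
  have b6 := h.hh_bd hQF hz
  have b7 := h.hh_grad hQF hz dx (Or.inl rfl)
  have b8 := h.hh_grad hQF hz dy (Or.inr rfl)
  have b9 := h.exp2 hz
  have b10 := h.al_sq_le1
  have hα := sq_nonneg (al a ς)
  have hex := Real.exp_pos (-z.re)
  rw [e1]
  generalize hH : hh (al a ς) (ui a u ς) = H at *
  exact lapb hex b9 hK1 hα b10 ht hg b1 b2 b3 b4 (le_refl |wp u z|) b6 b7 b8

theorem exp_re (A B : ℝ) (z : ℂ) :
    (((A : ℂ) + B * Complex.I) * Complex.exp (-z / 2)).re =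
      Real.exp (-z.re / 2) * (A * Real.cos (z.im / 2) + B * Real.sin (z.im / 2)) := by
  have h1 : (-z / 2).re = -z.re / 2 := by simp
  have h2 : (-z / 2).im = -(z.im / 2) := by simp; ring
  rw [Complex.mul_re, Complex.exp_re, Complex.exp_im, h1, h2, Real.cos_neg, Real.sin_neg]
  simp
  ring

/-- comparison of the model solution with the mode -/
theorem mode_diff (h : Sit m Λ K A a ε κ θ u ς) {z : ℂ} (hz : z ∈ ball (0 : ℂ) A) :
    |(((cA u : ℂ) + cB a u ς * Complex.I) * Complex.exp (-z / 2)).re -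
      Real.exp (-z.re) * UU a u ς z| ≤ 4 * K ^ 2 * al a ς ^ 2 := by
  have hK := h.K0
  have hc := h.c0_norm.2
  have hA : |cA u| ≤ 2 := by
    apply abs_le_of_sq_le_sq _ (by norm_num)
    nlinarith [sq_nonneg (cB a u ς)]
  have hB : |cB a u ς| ≤ 2 := by
    apply abs_le_of_sq_le_sq _ (by norm_num)
    nlinarith [sq_nonneg (cA u)]
  have hb1 := be_ge a ς
  have hb2 := be_le a ς
  have hy : |z.im| ≤ K := (h.re_lt hz).2.1.trans h.hAK
  have hx := h.exp3 hz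
  have hx0 := Real.exp_pos (-z.re / 2)
  have hd : |z.im / 2 - be a ς * z.im| ≤ al a ς ^ 2 * K := by
    rw [show z.im / 2 - be a ς * z.im = -((be a ς - 1 / 2) * z.im) by ring, abs_neg, abs_mul,
      abs_of_nonneg (by linarith)]
    gcongr
  have e1 : Real.exp (-z.re) * UU a u ς z = Real.exp (-z.re / 2) *
      (cA u * Real.cos (be a ς * z.im) + cB a u ς * Real.sin (be a ς * z.im)) := by
    unfold UU u0
    rw [← mul_assoc, ← Real.exp_add]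
    congr 2
    ring
  rw [exp_re, e1, ← mul_sub, abs_mul, abs_of_pos hx0]
  have e2 : |cA u * Real.cos (z.im / 2) + cB a u ς * Real.sin (z.im / 2) -
      (cA u * Real.cos (be a ς * z.im) + cB a u ς * Real.sin (be a ς * z.im))| ≤
      2 * (al a ς ^ 2 * K) + 2 * (al a ς ^ 2 * K) := by
    rw [show cA u * Real.cos (z.im / 2) + cB a u ς * Real.sin (z.im / 2) -
      (cA u * Real.cos (be a ς * z.im) + cB a u ς * Real.sin (be a ς * z.im)) =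
      cA u * (Real.cos (z.im / 2) - Real.cos (be a ς * z.im)) +
      cB a u ς * (Real.sin (z.im / 2) - Real.sin (be a ς * z.im)) by ring]
    refine (abs_add_le _ _).trans ?_
    rw [abs_mul, abs_mul]
    have c1 := (cos_lip (z.im / 2) (be a ς * z.im)).trans hd
    have c2 := (sin_lip (z.im / 2) (be a ς * z.im)).trans hd
    gcongr
  calc Real.exp (-z.re / 2) * |cA u * Real.cos (z.im / 2) + cB a u ς * Real.sin (z.im / 2) -
      (cA u * Real.cos (be a ς * z.im) + cB a u ς * Real.sin (be a ς * z.im))| ≤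
        K * (2 * (al a ς ^ 2 * K) + 2 * (al a ς ^ 2 * K)) := by gcongr
    _ = 4 * K ^ 2 * al a ς ^ 2 := by ring

theorem f7 (h : Sit m Λ K A a ε κ θ u ς) (hQF : S_QF) {z : ℂ} (hz : z ∈ ball (0 : ℂ) A) {g : ℝ}
    (hg : 0 ≤ g) (hw : gsq (wp u) z ≤ g ^ 2) :
    |lap (qi a u ς) z + al a ς ^ 2 * wp u 0 / 2 *
      (((cA u : ℂ) + cB a u ς * Complex.I) * Complex.exp (-z / 2)).re| ≤
      102 * K ^ 6 * (al a ς ^ 2 * (g + |wp u z - wp u 0| + |al a ς ^ 2 * wp u 0|) + ε * θ) := by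
  have hK := h.K0
  have hK1 := h.hK1
  have ht := h.ht
  obtain ⟨b1, b2, b3⟩ := h.U_bd hQF hz
  have e1 := h.q_lap hQF z
  have b4 := abs_dx_le hg hw
  have b6 := h.hh_bd hQF hz
  have b7 := h.hh_grad hQF hz dx (Or.inl rfl)
  have b8 := h.hh_grad hQF hz dy (Or.inr rfl)
  have b9 := h.exp2 hz
  have b10 := h.al_sq_le1
  have hα := sq_nonneg (al a ς)
  have hex := Real.exp_pos (-z.re)
  have hm := h.mode_diff hz
  have key := lapb hex b9 hK1 hα b10 ht hg b1 b2 b3 b4 (le_refl |wp u z - wp u 0|) b6 b7 b8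
  set M := (((cA u : ℂ) + cB a u ς * Complex.I) * Complex.exp (-z / 2)).re
  set p := al a ς ^ 2 * wp u 0 with hp
  have e2 : lap (qi a u ς) z + p / 2 * M =
      Real.exp (-z.re) / 2 * (al a ς ^ 2 * UU a u ς z * (2 * dx (wp u) z - (wp u z - wp u 0)) +
        2 * (dx (UU a u ς) z * dx (hh (al a ς) (ui a u ς)) z +
          dy (UU a u ς) z * dy (hh (al a ς) (ui a u ς)) z) -
        (1 + 2 * al a ς ^ 2) * UU a u ς z * hh (al a ς) (ui a u ς) z) +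
      p / 2 * (M - Real.exp (-z.re) * UU a u ς z) := by
    rw [e1, hp]; ring
  have e3 : |p / 2 * (M - Real.exp (-z.re) * UU a u ς z)| ≤ 2 * K ^ 6 * (al a ς ^ 2 * |p|) := by
    rw [abs_mul, abs_div, abs_two]
    calc |p| / 2 * |M - Real.exp (-z.re) * UU a u ς z| ≤ |p| / 2 * (4 * K ^ 2 * al a ς ^ 2) := by
          gcongr
      _ = 2 * K ^ 2 * (al a ς ^ 2 * |p|) := by ring
      _ ≤ 2 * K ^ 6 * (al a ς ^ 2 * |p|) := by
          have c1 : K ^ 2 ≤ K ^ 6 := pow_le_pow_right₀ hK1 (by norm_num)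
          gcongr
  rw [e2]
  refine (abs_add_le _ _).trans ?_
  have c1 : 0 ≤ K ^ 6 * (al a ς ^ 2 * |p|) := by positivity
  have c2 : 0 ≤ K ^ 6 * (al a ς ^ 2 * (g + |wp u z - wp u 0|) + ε * θ) := by positivity
  calc _ ≤ 100 * K ^ 6 * (al a ς ^ 2 * (g + |wp u z - wp u 0|) + ε * θ) +
        2 * K ^ 6 * (al a ς ^ 2 * |p|) := add_le_add key e3
    _ ≤ 102 * K ^ 6 * (al a ς ^ 2 * (g + |wp u z - wp u 0| + |p|) + ε * θ) := by
        rw [mul_add (al a ς ^ 2) (g + |wp u z - wp u 0|) |p|]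
        linarith

theorem f8 (h : Sit m Λ K A a ε κ θ u ς) (hQF : S_QF) (hPW : S_PW) :
    gsq (qi a u ς) 0 ≤ (al a ς ^ 2 * wp u 0 ^ 2 + 2 * K ^ 2 * (ε * θ)) ^ 2 := by
  have hK := h.K0
  have hK1 := h.hK1
  have hε := h.hε
  have ha := h.ha
  have hθ := h.θ0
  obtain ⟨p1, p2, _⟩ := (hPW m Λ a ε (ball 0 A) u ς isOpen_ball h.sol).2.2 0 h.mem0
  rw [h.nx, h.n0] at p1
  rw [h.ny] at p2
  have q1 := h.q_dx hQF 0
  have q2 := h.q_dy hQF 0
  have h0 : hh (al a ς) (ui a u ς) 0 = 0 := by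
    rw [h.hh_eq hQF h.mem0]
    unfold al
    ring
  rw [dxU_zero hQF, dyU_zero hQF, UU_zero] at q1
  rw [dxU_zero hQF, dyU_zero hQF, h0] at q2
  simp only [Complex.zero_re, neg_zero, Real.exp_zero] at q1 q2
  have r1 : dx (qi a u ς) 0 = al a ς ^ 2 * wp u 0 ^ 2 / 2 - ς 0 * dx ς 0 * (a * u 0) ^ 2 := by
    have w0 : wp u 0 = 2 * dx u 0 - u 0 := rfl
    have e : al a ς ^ 2 * wp u 0 ^ 2 = al a ς ^ 2 * wp u 0 * (2 * dx u 0 - u 0) := by
      rw [← w0]; ring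
    rw [q1, e]
    unfold al
    linarith
  have r2 : dy (qi a u ς) 0 = -(ς 0 * dy ς 0 * (a * u 0) ^ 2) := by
    rw [q2]
    linarith
  have hau : (a * u 0) ^ 2 ≤ θ := by
    have c2 := h.au 0 h.mem0
    have c4 : θ ≤ 1 := by linarith [h.θ1]
    have c3 : 0 ≤ a * |u 0| := by positivity
    calc (a * u 0) ^ 2 = (a * |u 0|) ^ 2 := by rw [mul_pow, mul_pow, sq_abs]
      _ ≤ θ * 1 := by
          rw [sq]
          exact mul_le_mul c2 (c2.trans c4) c3 hθ.le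
      _ = θ := mul_one θ
  have hs := h.s_pos h.mem0
  have hs0 : 0 ≤ ς 0 := hs.1.le
  have hs1 : ς 0 ≤ K := hs.2
  have t1 : |ς 0 * dx ς 0 * (a * u 0) ^ 2| ≤ K ^ 2 * (ε * θ) := by
    rw [abs_mul, abs_mul, abs_of_nonneg hs0, abs_of_nonneg (sq_nonneg (a * u 0))]
    have := h.sx h.mem0
    calc ς 0 * |dx ς 0| * (a * u 0) ^ 2 ≤ K * (K * ε) * θ := by gcongr
      _ = K ^ 2 * (ε * θ) := by ring
  have t2 : |ς 0 * dy ς 0 * (a * u 0) ^ 2| ≤ K ^ 2 * (ε * θ) := by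
    rw [abs_mul, abs_mul, abs_of_nonneg hs0, abs_of_nonneg (sq_nonneg (a * u 0))]
    have := h.sy h.mem0
    calc ς 0 * |dy ς 0| * (a * u 0) ^ 2 ≤ K * (K * ε) * θ := by gcongr
      _ = K ^ 2 * (ε * θ) := by ring
  unfold gsq
  rw [r1, r2]
  have hc : 0 ≤ al a ς ^ 2 * wp u 0 ^ 2 := by positivity
  have ht : 0 ≤ K ^ 2 * (ε * θ) := by positivity
  generalize al a ς ^ 2 * wp u 0 ^ 2 = c at *
  generalize ς 0 * dx ς 0 * (a * u 0) ^ 2 = x at *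
  generalize ς 0 * dy ς 0 * (a * u 0) ^ 2 = y at *
  rw [show 2 * K ^ 2 * (ε * θ) = 2 * (K ^ 2 * (ε * θ)) by ring]
  generalize K ^ 2 * (ε * θ) = t at *
  obtain ⟨x1, x2⟩ := abs_le.1 t1
  obtain ⟨y1, y2⟩ := abs_le.1 t2
  have k1 : x ^ 2 ≤ t ^ 2 := sq_le_sq' x1 x2
  have k2 : y ^ 2 ≤ t ^ 2 := sq_le_sq' y1 y2
  have k3 : 0 ≤ c * (t + x) := mul_nonneg hc (by linarith)
  have k4 : 0 ≤ c * t := mul_nonneg hc ht
  nlinarith

end Sit

end Pool.Agent.Helper904_Yau.PME
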