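import Pool.Agent.Helper904_Yau.Stmts
import Pool.Agent.Helper904_QS.JC

/-!
Polar coordinates and parametric integrals, for GE and MVB.
-/

set_option autoImplicit false

open MeasureTheory Set Metric Filter Topology
open scoped ContDiff
open Pool.Agent.Helper904_QS Pool.Agent.Helper904_QS.PJC

namespace Pool.Agent.Helper904_Yau.PPOL

variable {f g : ℂ → ℝ} {r : ℝ}

theorem to_polar (g : ℂ → ℝ) (y : ℂ) (r : ℝ) :
    ∫ z in ball y r, g z =
      ∫ p in Ioo 0 r ×ˢ Ioo (-Real.pi) Real.pi, p.1 * g (pp y p.1 p.2) := by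
  set H : ℂ → ℝ := (ball (0 : ℂ) r).indicator (fun w => g (w + y)) with hH
  have e1 : ∫ z in ball y r, g z = ∫ z, H (z - y) := by
    rw [← integral_indicator measurableSet_ball]
    congr 1
    ext z
    rw [hH]
    by_cases hz : z ∈ ball y r
    · have hz' : z - y ∈ ball (0 : ℂ) r := by
        rw [mem_ball, dist_eq_norm] at hz; simpa using hz
      rw [indicator_of_mem hz, indicator_of_mem hz', sub_add_cancel]
    · have hz' : z - y ∉ ball (0 : ℂ) r := by
        rw [mem_ball, dist_eq_norm] at hz; simpa using hz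
      rw [indicator_of_notMem hz, indicator_of_notMem hz']
  rw [e1, integral_sub_right_eq_self H y, ← Complex.integral_comp_polarCoord_symm]
  have hsub : Ioo 0 r ×ˢ Ioo (-Real.pi) Real.pi ⊆ polarCoord.target := by
    intro p hp
    rw [polarCoord_target]
    exact ⟨hp.1.1, hp.2⟩
  rw [setIntegral_eq_of_subset_of_forall_sdiff_eq_zero
    (s := Ioo 0 r ×ˢ Ioo (-Real.pi) Real.pi) polarCoord.open_target.measurableSet hsub]
  · apply setIntegral_congr_fun (measurableSet_Ioo.prod measurableSet_Ioo)
    intro p hp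
    have hp1 : 0 < p.1 := hp.1.1
    have hn : ‖Complex.polarCoord.symm p‖ = p.1 := by
      rw [Complex.norm_polarCoord_symm, abs_of_pos hp1]
    have hm : Complex.polarCoord.symm p ∈ ball (0 : ℂ) r := by
      rw [mem_ball_zero_iff, hn]; exact hp.1.2
    simp only [hH, smul_eq_mul]
    rw [indicator_of_mem hm]
    have : Complex.polarCoord.symm p + y = pp y p.1 p.2 := by
      rw [Complex.polarCoord_symm_apply]; unfold pp; ring
    rw [this]
  · intro p hp
    have hp0 : 0 < p.1 := by
      have := hp.1; rw [polarCoord_target] at this; exact this.1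
    have hp1 : r ≤ p.1 := by
      by_contra hc
      push Not at hc
      apply hp.2
      have := hp.1; rw [polarCoord_target] at this
      exact ⟨⟨hp0, hc⟩, this.2⟩
    have hm : Complex.polarCoord.symm p ∉ ball (0 : ℂ) r := by
      rw [mem_ball_zero_iff, Complex.norm_polarCoord_symm, abs_of_pos hp0]
      exact not_lt.2 hp1
    simp only [hH, smul_eq_mul]
    rw [indicator_of_notMem hm, mul_zero]

/-- polar coordinates for a continuous function -/
theorem polar (hg : Continuous g) (y : ℂ) (hr : 0 < r) :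
    ∫ z in ball y r, g z = ∫ ρ in (0 : ℝ)..r, ρ * ∫ θ in (-Real.pi)..Real.pi, g (pp y ρ θ) := by
  have hle : -Real.pi ≤ Real.pi := by have := Real.pi_pos; linarith
  rw [to_polar, Measure.volume_eq_prod, ← Measure.prod_restrict]
  have hc : Continuous (fun p : ℝ × ℝ => p.1 * g (pp y p.1 p.2)) :=
    continuous_fst.mul (hg.comp (continuous_pp y))
  have hint : Integrable (fun p : ℝ × ℝ => p.1 * g (pp y p.1 p.2))
      ((volume.restrict (Ioo 0 r)).prod (volume.restrict (Ioo (-Real.pi) Real.pi))) := by
    rw [Measure.prod_restrict, ← Measure.volume_eq_prod]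
    have : IntegrableOn (fun p : ℝ × ℝ => p.1 * g (pp y p.1 p.2))
        (Icc 0 r ×ˢ Icc (-Real.pi) Real.pi) :=
      hc.continuousOn.integrableOn_compact (isCompact_Icc.prod isCompact_Icc)
    exact this.mono_set (Set.prod_mono Ioo_subset_Icc_self Ioo_subset_Icc_self)
  rw [integral_prod _ hint, ← integral_Ioc_eq_integral_Ioo,
    ← intervalIntegral.integral_of_le hr.le]
  apply intervalIntegral.integral_congr
  intro ρ _
  simp only
  rw [← integral_Ioc_eq_integral_Ioo, ← intervalIntegral.integral_of_le hle,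
    intervalIntegral.integral_const_mul]

/-- differentiation under the integral sign -/
theorem param_deriv {F F' : ℝ → ℝ → ℝ} (hF : Continuous (fun p : ℝ × ℝ => F p.1 p.2))
    (hF' : Continuous (fun p : ℝ × ℝ => F' p.1 p.2))
    (hd : ∀ ρ θ, HasDerivAt (fun ρ => F ρ θ) (F' ρ θ) ρ) (a b ρ : ℝ) :
    HasDerivAt (fun ρ => ∫ θ in a..b, F ρ θ) (∫ θ in a..b, F' ρ θ) ρ := by
  obtain ⟨C, hC⟩ := (isCompact_Icc.prod isCompact_uIcc :
    IsCompact (Icc (ρ - 1) (ρ + 1) ×ˢ uIcc a b)).exists_bound_of_continuousOn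
    hF'.continuousOn
  refine (intervalIntegral.hasDerivAt_integral_of_dominated_loc_of_deriv_le (F := F) (F' := F')
    (x₀ := ρ) (bound := fun _ => C) (s := Icc (ρ - 1) (ρ + 1)) (Icc_mem_nhds (by linarith) (by linarith)) ?_ ?_ ?_ ?_ ?_ ?_).2
  · refine Filter.Eventually.of_forall fun x => ?_
    exact (hF.comp (Continuous.prodMk_right x)).aestronglyMeasurable
  · exact (hF.comp (Continuous.prodMk_right ρ)).intervalIntegrable _ _
  · exact (hF'.comp (Continuous.prodMk_right ρ)).aestronglyMeasurable
  · refine Filter.Eventually.of_forall fun t ht x hx => ?_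
    exact hC (x, t) ⟨hx, uIoc_subset_uIcc ht⟩
  · exact intervalIntegrable_const
  · exact Filter.Eventually.of_forall fun t _ x _ => hd x t

theorem param_cont {F : ℝ → ℝ → ℝ} (hF : Continuous (fun p : ℝ × ℝ => F p.1 p.2)) (a b : ℝ) :
    Continuous (fun ρ => ∫ θ in a..b, F ρ θ) :=
  intervalIntegral.continuous_parametric_intervalIntegral_of_continuous' hF a b

end Pool.Agent.Helper904_Yau.PPOL
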