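import Pool.Agent.Helper904_Yau.MVB

/-!
RAD: a radial integral (proved in MVB.lean).
-/

namespace Pool.Agent.Helper904_Yau.PRAD

theorem t_RAD : S_RAD := PMVB.t_RAD

end Pool.Agent.Helper904_Yau.PRAD
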