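import Pool.Agent.Helper904_Yau.Defs

/-!
# MP_c7f82c_an: exact statements of the pieces.  Paper proofs: `PAPER.md` in this folder
(section numbers refer to it).  Each piece `S_X` is to be proved as `theorem t_X : S_X` in its own
file; a piece may take other pieces as hypotheses, `theorem t_X (h : S_Y) : S_X`.
-/

set_option autoImplicit false

open MeasureTheory Set Metric Filter Topology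
open scoped ContDiff
open Pool.Agent.Helper904_QS

namespace Pool.Agent.Helper904_Yau

/-! ## 1. Tools -/

/-- GE: interior gradient estimate. -/
def S_GE : Prop := ∃ C : ℝ, 0 < C ∧ ∀ (f : ℂ → ℝ) (y : ℂ) (r M : ℝ), ContDiff ℝ 2 f → 0 < r →
  0 ≤ M → (∀ z ∈ ball y r, |lap f z| ≤ M) →
  gsq f y ≤ (C * ((∫ z in ball y r, |f z|) / r ^ 3 + r * M)) ^ 2

/-- MVB: sub-mean value inequality on discs. -/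
def S_MVB : Prop := ∀ (f : ℂ → ℝ) (ρ A : ℝ), 0 < ρ → ρ < A → ContDiffOn ℝ 2 f (ball 0 A) →
  (∀ z ∈ ball (0 : ℂ) ρ, 0 ≤ lap f z) → Real.pi * ρ ^ 2 * f 0 ≤ ∫ z in ball (0 : ℂ) ρ, f z

/-- RAD: a radial integral. -/
def S_RAD : Prop := ∀ ρ A : ℝ, 0 < ρ → ρ < A →
  ∫ z in ball (0 : ℂ) ρ, ((A ^ 2 - ‖z‖ ^ 2) ^ 2)⁻¹ ≤ Real.pi / (A ^ 2 - ρ ^ 2)

/-- CE: the closing lemma (from GE, MVB, RAD). -/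
def S_CE : Prop := ∀ A : ℝ, 0 < A → ∃ C τ : ℝ, 0 < C ∧ 0 < τ ∧ ∀ (q : ℂ → ℝ) (D : ℝ),
  ContDiff ℝ 2 q → 0 ≤ D → q 0 = 0 → (∀ z ∈ ball (0 : ℂ) A, q z ≤ D) →
  (∀ z ∈ ball (0 : ℂ) A, ∀ G : ℝ, 0 ≤ G → (∀ w ∈ closedBall (0 : ℂ) ‖z‖, gsq q w ≤ G ^ 2) →
    |lap q z| ≤ τ * G + D) →
  ∀ z ∈ closedBall (0 : ℂ) (A / 2), gsq q z ≤ (C * D) ^ 2

/-- MODE: the first Fourier mode (from QS: J, KER, INT, WMP, and GE). -/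
def S_MODE : Prop := ∃ C : ℝ, 0 < C ∧ ∀ (R p κ c₂ e : ℝ) (c₀ : ℂ) (q : ℂ → ℝ), 1 ≤ R →
  0 ≤ κ → 0 ≤ c₂ → 0 ≤ e → ‖c₀‖ ≤ 2 → ContDiff ℝ 2 q → q 0 = 0 → gsq q 0 ≤ (c₂ + e) ^ 2 →
  (∀ z ∈ ball (0 : ℂ) R, |lap q z + p / 2 * (c₀ * Complex.exp (-z / 2)).re| ≤ e) →
  (∀ z ∈ ball (0 : ℂ) R, 2 * q z ≤ κ * R ^ 2 + c₂ - c₂ * Real.exp (-z.re) + e) →
  |p| * ‖c₀‖ * R ≤ C * (κ + |p| + e) ∧ c₂ ≤ C * (κ + |p| + e)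

/-- GRON: Gronwall along rays. -/
def S_GRON : Prop := ∀ R : ℝ, 0 < R → ∃ C : ℝ, 0 < C ∧ ∀ (u : ℂ → ℝ) (T : ℝ), ContDiff ℝ 2 u →
  0 ≤ T → dx u 0 = 0 → dy u 0 = 0 →
  (∀ z ∈ ball (0 : ℂ) R, gsq (wp u) z ≤ T ^ 2 ∧ |lap u z| ≤ T) →
  ∀ z ∈ ball (0 : ℂ) R, gsq u z ≤ (C * T) ^ 2 ∧ |u z - u 0| ≤ C * T

/-! ## 2. The linearised quantity (formulas) -/

/-- QF: formulas for the linearised quantity. -/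
def S_QF : Prop := ∀ (α β A B : ℝ) (u₁ : ℂ → ℝ), ContDiff ℝ 4 u₁ → β ^ 2 = 1 / 4 + α ^ 2 →
  ContDiff ℝ 4 (u0 A B β) ∧ ContDiff ℝ 2 (qq α β A B u₁) ∧ ContDiff ℝ 2 (hh α u₁) ∧
  (∀ z, dx (u0 A B β) z = u0 A B β z / 2) ∧
  (∀ z, dy (u0 A B β) z = β * u0 B (-A) β z) ∧
  (∀ z, lap (u0 A B β) z = -(α ^ 2 * u0 A B β z)) ∧
  (∀ z, gsq (u0 A B β) z + α ^ 2 * u0 A B β z ^ 2 = Real.exp z.re * (β ^ 2 * (A ^ 2 + B ^ 2))) ∧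
  (∀ z, Real.exp z.re * ((A ^ 2 + B ^ 2) / 4) ≤ gsq (u0 A B β) z) ∧
  (∀ z, Real.exp (-z.re) * (gsq (fun w => u0 A B β w + u₁ w) z +
      α ^ 2 * (u0 A B β z + u₁ z) ^ 2) =
    β ^ 2 * (A ^ 2 + B ^ 2) + 2 * qq α β A B u₁ z +
      Real.exp (-z.re) * (gsq u₁ z + α ^ 2 * u₁ z ^ 2)) ∧
  (∀ z, dx (qq α β A B u₁) z = Real.exp (-z.re) / 2 * (dx (u0 A B β) z * dx (wp u₁) z +
      dy (u0 A B β) z * dy (wp u₁) z + α ^ 2 * u0 A B β z * wp u₁ z)) ∧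
  (∀ z, dy (qq α β A B u₁) z = -(Real.exp (-z.re) / 2) * (dy (u0 A B β) z * dx (wp u₁) z -
      dx (u0 A B β) z * dy (wp u₁) z - 2 * dy (u0 A B β) z * hh α u₁ z)) ∧
  (∀ z, lap (qq α β A B u₁) z = Real.exp (-z.re) / 2 *
    (α ^ 2 * u0 A B β z * (2 * dx (wp u₁) z - wp u₁ z) +
      2 * (dx (u0 A B β) z * dx (hh α u₁) z + dy (u0 A B β) z * dy (hh α u₁) z) -
      (1 + 2 * α ^ 2) * u0 A B β z * hh α u₁ z))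

/-- PW: pointwise facts for `N = |∇u|² + a²ς²u²` (no hypothesis at the centre). -/
def S_PW : Prop := ∀ (m Λ a ε : ℝ) (U : Set ℂ) (u ς : ℂ → ℝ), IsOpen U → NSol m Λ a ε U u ς →
  ContDiff ℝ 2 (NN u ς a) ∧ (∀ z, 0 ≤ NN u ς a z) ∧ ∀ z ∈ U,
  dx (NN u ς a) z = NN u ς a z + (dx u z * dx (wp u) z + dy u z * dy (wp u) z) +
    (a * ς z) ^ 2 * u z * wp u z + 2 * a ^ 2 * ς z * dx ς z * u z ^ 2 ∧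
  dy (NN u ς a) z = -(dy u z * dx (wp u) z - dx u z * dy (wp u) z) +
    2 * a ^ 2 * ς z * dy ς z * u z ^ 2 ∧
  NN u ς a z * lap (NN u ς a) z - gsq (NN u ς a) z =
    (a * ς z) ^ 2 * ((NN u ς a z + u z * dx (wp u) z - dx u z * wp u z) ^ 2 +
      (u z * dy (wp u) z - dy u z * wp u z) ^ 2) - (a * ς z) ^ 2 * NN u ς a z ^ 2 +
    NN u ς a z * (4 * a ^ 2 * ς z * u z * (dx u z * dx ς z + dy u z * dy ς z) +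
      2 * a ^ 2 * u z ^ 2 * (ς z * lap ς z + gsq ς z)) -
    2 * (2 * a ^ 2 * ς z * u z ^ 2) * (dx (NN u ς a) z * dx ς z + dy (NN u ς a) z * dy ς z) +
    (2 * a ^ 2 * ς z * u z ^ 2) ^ 2 * gsq ς z

/-- PS: consequences at a normalised contact point (from PW). -/
def S_PS : Prop := ∀ m Λ : ℝ, 0 < m → m ≤ Λ → ∃ C a₀ : ℝ, 0 < C ∧ 0 < a₀ ∧
  ∀ (a ε κ r : ℝ) (u ς : ℂ → ℝ), 0 < a → a ≤ a₀ → 0 < ε → ε ≤ a₀ → 0 ≤ κ → 0 < r →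
  NSol m Λ a ε (ball 0 r) u ς →
  NN u ς a 0 = 1 → dx (NN u ς a) 0 = 1 → dy (NN u ς a) 0 = 0 →
  -(C * (a ^ 2 + ε)) ≤ lap (NN u ς a) 0 - 1 ∧
  ((a * ς 0 * u 0) ^ 2 ≤ 1 / 4 →
    -(3 * |(a * ς 0) ^ 2 * wp u 0| + C * ε * (a * |u 0|)) ≤ lap (NN u ς a) 0 - 1) ∧
  ((∀ z ∈ ball (0 : ℂ) r, NN u ς a z ≤ Real.exp (z.re + κ / 2 * ‖z‖ ^ 2)) →
    a * |u 0| ≤ C * (a + √κ + √ε))

/-! ## 3. Rigidity -/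

/-- ME: the main estimate (from CE, MODE, GRON, QF, PW, PS). -/
def S_ME : Prop := ∀ m Λ δ : ℝ, 0 < m → m ≤ Λ → 0 < δ → ∃ A a₀ : ℝ, 0 < A ∧ 0 < a₀ ∧
  ∀ (a ε κ : ℝ) (u ς : ℂ → ℝ), 0 < a → a ≤ a₀ → 0 < ε → ε ≤ a₀ → 0 ≤ κ → κ ≤ a₀ →
  NSol m Λ a ε (ball 0 A) u ς →
  NN u ς a 0 = 1 → dx (NN u ς a) 0 = 1 → dy (NN u ς a) 0 = 0 →
  (∀ z ∈ ball (0 : ℂ) A, NN u ς a z ≤ Real.exp (z.re + κ / 2 * ‖z‖ ^ 2)) →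
  |(a * ς 0) ^ 2 * wp u 0| ≤ δ * (κ + ε)

/-- RL0: normalised rigidity lemma (from ME, PS). -/
def S_RL0 : Prop := ∀ m Λ δ : ℝ, 0 < m → m ≤ Λ → 0 < δ → ∃ A a₀ : ℝ, 0 < A ∧ 0 < a₀ ∧
  ∀ (a ε κ : ℝ) (u ς : ℂ → ℝ), 0 < a → a ≤ a₀ → 0 < ε → ε ≤ a₀ → 0 ≤ κ →
  NSol m Λ a ε (ball 0 A) u ς →
  NN u ς a 0 = 1 → dx (NN u ς a) 0 = 1 → dy (NN u ς a) 0 = 0 →
  (∀ z ∈ ball (0 : ℂ) A, NN u ς a z ≤ Real.exp (z.re + κ / 2 * ‖z‖ ^ 2)) →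
  -(δ * (κ + ε)) ≤ lap (NN u ς a) 0 - 1

/-- RL: rigidity lemma (from RL0 by rotation and scaling).
`s` is the slope `|∇ log N|` at `y`, `e` the direction, `κ₁` the curvature of the paraboloid. -/
def S_RL : Prop := ∀ m Λ δ : ℝ, 0 < m → m ≤ Λ → 0 < δ → ∃ A C₀ : ℝ, 0 < A ∧ 0 < C₀ ∧
  ∀ (k s κ₁ : ℝ) (y e : ℂ) (u σ : ℂ → ℝ), 0 < k → C₀ ≤ s → C₀ * k ≤ s → 0 ≤ κ₁ → ‖e‖ = 1 →
  Sol m Λ k (ball y (A / s)) u σ → 0 < NN u σ k y →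
  dx (NN u σ k) y = s * e.re * NN u σ k y → dy (NN u σ k) y = s * e.im * NN u σ k y →
  (∀ z ∈ ball y (A / s), NN u σ k z ≤ NN u σ k y *
    Real.exp (s * (e.re * (z - y).re + e.im * (z - y).im) + κ₁ / 2 * ‖z - y‖ ^ 2)) →
  -(δ * (κ₁ + s)) * NN u σ k y ≤ lap (NN u σ k) y - s ^ 2 * NN u σ k y

/-! ## 4. Growth: the barrier -/

/-- BAR: the barrier (from RL with `δ = 1/4`). -/
def S_BAR : Prop := ∀ m Λ M₁ : ℝ, 0 < m → m ≤ Λ → 0 < M₁ → ∃ M₀ : ℝ, 0 < M₀ ∧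
  ∀ (k Q : ℝ) (p : ℂ) (u σ : ℂ → ℝ), 0 < k → Sol m Λ k (ball p (1 / 4)) u σ →
  (∀ z ∈ ball p (1 / 4), NN u σ k z ≤ Real.exp Q) →
  (∃ z ∈ closedBall p (1 / 16), Real.exp (Q - M₁ * max k 1) ≤ NN u σ k z) →
  ∀ r ∈ Ioc (0 : ℝ) (1 / 16), ∃ z ∈ closedBall p r,
    Real.exp (Q - M₀ * max k 1 / r) ≤ NN u σ k z

/-! ## 5. The area inequality for cones -/

/-- CT: geometry at a contact point of a cone with vertex `x` and slope `t`.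
`e` is the direction from `x` to `y`; the last conclusion is the Hessian inequality for `log N`. -/
def S_CT : Prop := ∀ (N : ℂ → ℝ) (x y e : ℂ) (t ρ : ℝ), ContDiff ℝ 2 N → 0 < t → 0 < ρ →
  ‖e‖ = 1 → y = x + ρ * e → 0 < N y →
  (∀ᶠ z in 𝓝 y, N z ≤ N y * Real.exp (t * (‖z - x‖ - ρ))) →
  dx N y = t * e.re * N y ∧ dy N y = t * e.im * N y ∧
  ∀ a b : ℝ, dx (dx N) y * a ^ 2 + 2 * (dx (dy N) y) * (a * b) + dy (dy N) y * b ^ 2 -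
      t ^ 2 * (e.re * a + e.im * b) ^ 2 * N y ≤
    t / ρ * (-e.im * a + e.re * b) ^ 2 * N y

/-- ABP: one step of the area inequality. -/
def S_ABP : Prop := ∀ (N : ℂ → ℝ) (s s' r ρ δ : ℝ), ContDiff ℝ 2 N → (∀ z, 0 ≤ N z) → 0 < s →
  s < s' → 0 < r → 0 < ρ → r + ρ ≤ 5 / 4 → 0 ≤ δ → δ ≤ 1 →
  (∀ x ∈ ball (0 : ℂ) r, ∀ t ∈ Ioo s s', ∀ y ∈ closedBall (0 : ℂ) (3 / 2), 0 < N y →
    (∀ z ∈ closedBall (0 : ℂ) (3 / 2), N z * Real.exp (-(t * ‖z - x‖)) ≤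
      N y * Real.exp (-(t * ‖y - x‖))) → ‖y - x‖ < ρ) →
  (∀ t ∈ Ioo s s', ∀ y ∈ ball (0 : ℂ) (5 / 4), ∀ x : ℂ, x ≠ y → ‖y - x‖ < ρ → 0 < N y →
    (∀ z ∈ closedBall (0 : ℂ) (3 / 2), N z ≤ N y * Real.exp (t * (‖z - x‖ - ‖y - x‖))) →
    -(2 * δ * t / ‖y - x‖) * N y ≤ lap N y - t ^ 2 * N y) →
  volume.real (ball 0 r ∩ US N s') * ((s' ^ 2 - s ^ 2) / 2) ≤
    (1 + δ) ^ 2 / 2 * s' ^ 2 *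
      (volume.real (ball 0 (r + ρ) ∩ US N s) - volume.real (ball 0 r ∩ US N s'))

/-- LOC: local decay of the slope (from ABP and RL with `δ = 1/10`). -/
def S_LOC : Prop := ∀ m Λ Mg : ℝ, 0 < m → m ≤ Λ → 0 < Mg → ∃ C₁ : ℝ, 0 < C₁ ∧
  ∀ (k Q : ℝ) (u σ : ℂ → ℝ), 0 < k → Sol m Λ k (ball 0 (7 / 4)) u σ →
  (∀ z ∈ closedBall (0 : ℂ) (3 / 2), NN u σ k z ≤ Real.exp Q) →
  (∀ p ∈ closedBall (0 : ℂ) (5 / 4), ∀ r ∈ Ioc (0 : ℝ) (1 / 16), ∃ z ∈ closedBall p r,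
    Real.exp (Q - Mg * max k 1 / r) ≤ NN u σ k z) →
  ∀ j : ℕ, volume.real (ball 0 (3 / 4) ∩ US (NN u σ k) (C₁ * max k 1 * (11 / 10) ^ j)) ≤
    C₁ * (7 / 8) ^ j

/-- DBL: doubling index and slope (from GE). -/
def S_DBL : Prop := ∀ m Λ c' C' C₀ : ℝ, 0 < m → m ≤ Λ → 0 < c' → c' ≤ C' → 0 < C₀ →
  ∃ C₃ : ℝ, 0 < C₃ ∧ ∀ (k r s S : ℝ) (p z : ℂ) (u σ : ℂ → ℝ), 0 < k → 0 < r → k * r = C₀ →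
  0 ≤ s → C' * r ≤ 1 / 4 → Sol m Λ k (ball 0 (7 / 4)) u σ → p ∈ ball (0 : ℂ) (1 / 2) →
  z ∈ ball p (c' * r / 2) → z ∉ US (NN u σ k) s → (∀ w ∈ ball p (c' * r), |u w| ≤ S) →
  ∀ w ∈ ball p (C' * r), |u w| ≤ Real.exp (C₃ + C' * r * s) * S

/-! ## 6. Finite conformal atlases -/

/-- comparability of the gradients in two discs -/
def CompY (M ι : Type) (ψ : ι → ℂ → M) : Prop := ∃ C : ℝ, 1 ≤ C ∧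
  ∀ (u : M → ℝ) (f : ι → ℂ → ℝ), (∀ i, ContDiff ℝ 4 (f i)) →
  (∀ i, ∀ z ∈ ball (0 : ℂ) (7 / 4), f i z = u (ψ i z)) →
  ∀ i j, ∀ z ∈ closedBall (0 : ℂ) (3 / 2), ∀ z' ∈ closedBall (0 : ℂ) (1 / 2), ψ i z = ψ j z' →
  gsq (f i) z ≤ C * gsq (f j) z'

/-- the discs are uniformly comparable with metric discs -/
def Geo (M ι : Type) [MetricSpace M] (ψ : ι → ℂ → M) : Prop :=
  ∃ cg Cg r₀ : ℝ, 0 < cg ∧ cg ≤ Cg ∧ 0 < r₀ ∧ Cg * r₀ ≤ 1 / 4 ∧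
  ∀ x : M, ∃ i, ∃ p ∈ ball (0 : ℂ) (1 / 2), ψ i p = x ∧ ∀ r ∈ Ioc (0 : ℝ) r₀,
    (∀ z ∈ ball p (cg * r), ψ i z ∈ ball x r) ∧ ∀ y ∈ ball x (2 * r), ∃ z ∈ ball p (Cg * r), ψ i z = y

/-- GROW: growth estimate on the whole surface (from BAR). -/
def S_GROW : Prop := ∀ (M ι : Type) [TopologicalSpace M] [CompactSpace M] [ConnectedSpace M]
  [Fintype ι] (ψ : ι → ℂ → M) (σ : ι → ℂ → ℝ), Atl M ι ψ σ → CompY M ι ψ →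
  ∃ Mg : ℝ, 0 < Mg ∧ ∀ (k : ℝ) (u : M → ℝ) (f : ι → ℂ → ℝ), 0 < k → Eig M ι ψ σ k u f →
  ∃ Q : ℝ, (∀ i, ∀ z ∈ closedBall (0 : ℂ) (3 / 2), NN (f i) (σ i) k z ≤ Real.exp Q) ∧
    ∀ i, ∀ p ∈ closedBall (0 : ℂ) (5 / 4), ∀ r ∈ Ioc (0 : ℝ) (1 / 16), ∃ z ∈ closedBall p r,
      Real.exp (Q - Mg * max k 1 / r) ≤ NN (f i) (σ i) k z

/-- AVS: small discs, i.e. large `k` (from GROW, LOC, DBL). -/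
def S_AVS : Prop := ∀ (M ι : Type) [MetricSpace M] [CompactSpace M] [ConnectedSpace M]
  [Fintype ι] (ψ : ι → ℂ → M) (σ : ι → ℂ → ℝ), Atl M ι ψ σ → CompY M ι ψ → Geo M ι ψ →
  ∀ C₀ C₁ C₂ : ℝ, 0 < C₀ → 0 < C₁ → 0 < C₂ → ∃ k₀ A : ℝ, 0 < k₀ ∧
  ∀ (k : ℝ) (u : M → ℝ) (f : ι → ℂ → ℝ), k₀ ≤ k → Eig M ι ψ σ k u f →
  ∀ (n : ℕ) (x : Fin n → M), C₂⁻¹ * k ^ 2 ≤ n →
  (∀ y : M, ({j | y ∈ ball (x j) (C₀ / k)}.ncard : ℝ) ≤ C₁) →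
  ∑ j, Real.logb 2 ((⨆ y : ball (x j) (2 * (C₀ / k)), |u y|) / ⨆ y : ball (x j) (C₀ / k), |u y|) ≤
    A * n

/-- AVL: large discs, i.e. bounded `k` (from GROW, GE). -/
def S_AVL : Prop := ∀ (M ι : Type) [MetricSpace M] [CompactSpace M] [ConnectedSpace M]
  [Fintype ι] (ψ : ι → ℂ → M) (σ : ι → ℂ → ℝ), Atl M ι ψ σ → CompY M ι ψ → Geo M ι ψ →
  ∀ C₀ k₀ : ℝ, 0 < C₀ → 0 < k₀ → ∃ A : ℝ,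
  ∀ (k : ℝ) (u : M → ℝ) (f : ι → ℂ → ℝ), 0 < k → k ≤ k₀ → Eig M ι ψ σ k u f → ∀ x : M,
  Real.logb 2 ((⨆ y : ball x (2 * (C₀ / k)), |u y|) / ⨆ y : ball x (C₀ / k), |u y|) ≤ A

/-- AVGA: all `k > 0` (from AVS, AVL). -/
def S_AVGA : Prop := ∀ (M ι : Type) [MetricSpace M] [CompactSpace M] [ConnectedSpace M]
  [Fintype ι] (ψ : ι → ℂ → M) (σ : ι → ℂ → ℝ), Atl M ι ψ σ → CompY M ι ψ → Geo M ι ψ →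
  ∀ C₀ C₁ C₂ : ℝ, 0 < C₀ → 0 < C₁ → 0 < C₂ → ∃ A : ℝ,
  ∀ (k : ℝ) (u : M → ℝ) (f : ι → ℂ → ℝ), 0 < k → Eig M ι ψ σ k u f →
  ∀ (n : ℕ) (x : Fin n → M), C₂⁻¹ * k ^ 2 ≤ n →
  (∀ y : M, ({j | y ∈ ball (x j) (C₀ / k)}.ncard : ℝ) ≤ C₁) →
  ∑ j, Real.logb 2 ((⨆ y : ball (x j) (2 * (C₀ / k)), |u y|) / ⨆ y : ball (x j) (C₀ / k), |u y|) ≤
    A * n

end Pool.Agent.Helper904_Yau
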