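import Pool.Agent.Helper904_Yau.Stmts

/-!
# Sub-pieces of ABP (section 5 of PAPER.md): JAC (the Jacobian) and FIB (the fibre integral).
-/

set_option autoImplicit false

open MeasureTheory Set Metric Filter Topology
open scoped ContDiff
open Pool.Agent.Helper904_QS

namespace Pool.Agent.Helper904_Yau

/-- the gradient of `log N`, as a complex number -/
noncomputable def gv (N : ℂ → ℝ) (y : ℂ) : ℂ := ⟨dx N y / N y, dy N y / N y⟩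

/-- the Hessian of `log N` -/
noncomputable def h11 (N : ℂ → ℝ) (y : ℂ) : ℝ := dx (dx N) y / N y - (dx N y / N y) ^ 2
noncomputable def h12 (N : ℂ → ℝ) (y : ℂ) : ℝ := dx (dy N) y / N y - dx N y / N y * (dy N y / N y)
noncomputable def h22 (N : ℂ → ℝ) (y : ℂ) : ℝ := dy (dy N) y / N y - (dy N y / N y) ^ 2

/-- the map `(y, τ) ↦ (y - τ ∇log N(y), |∇ log N(y)|² / 2)` -/
noncomputable def Th (N : ℂ → ℝ) (p : ℂ × ℝ) : ℂ × ℝ :=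
  (p.1 - (p.2 : ℂ) * gv N p.1, ‖gv N p.1‖ ^ 2 / 2)

/-- its Jacobian -/
noncomputable def Jd (N : ℂ → ℝ) (y : ℂ) (τ : ℝ) : ℝ :=
  (h11 N y * (gv N y).re ^ 2 + 2 * h12 N y * ((gv N y).re * (gv N y).im) +
    h22 N y * (gv N y).im ^ 2) - τ * ‖gv N y‖ ^ 2 * (h11 N y * h22 N y - h12 N y ^ 2)

/-- JAC: the Jacobian of `Th`. -/
def S_JAC : Prop := ∀ N : ℂ → ℝ, ContDiff ℝ 2 N → ∀ p : ℂ × ℝ, 0 < N p.1 →
  ∃ T : ℂ × ℝ →L[ℝ] ℂ × ℝ, HasFDerivAt (Th N) T p ∧ |T.det| = |Jd N p.1 p.2|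

/-- FIB: the integral over a fibre `E_y` (pure algebra and a one-dimensional integral). -/
def S_FIB : Prop := ∀ (N : ℂ → ℝ) (y e : ℂ) (t δ : ℝ) (E : Set ℝ), 0 < t → 0 ≤ δ → δ ≤ 1 →
  ‖e‖ = 1 → gv N y = t * e → (∀ τ ∈ E, 0 < τ) → (∀ τ ∈ E, ∀ τ' : ℝ, 0 < τ' → τ' ≤ τ → τ' ∈ E) →
  (∀ τ ∈ E, (∀ a b : ℝ, h11 N y * a ^ 2 + 2 * h12 N y * (a * b) + h22 N y * b ^ 2 ≤
      1 / τ * (-e.im * a + e.re * b) ^ 2) ∧ -(2 * δ / τ) ≤ h11 N y + h22 N y) →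
  ∫⁻ τ in E, ENNReal.ofReal |Jd N y τ| ≤ ENNReal.ofReal ((1 + δ) ^ 2 / 2 * t ^ 2)

end Pool.Agent.Helper904_Yau
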