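import Pool.Agent.Helper904_Yau.Stmts
import Pool.Agent.Helper904_QSG.StmtsM

/-!
# MP_c7f82c_an: statements of the pieces on the manifold, modelled on a plane `E` with basis `b`.
-/

set_option autoImplicit false

open MeasureTheory Set Metric Filter Topology Bundle
open scoped ContDiff Manifold
open Pool.Agent.Helper904_QS
open Pool.Agent.Helper904_QSG (IsoPar IsEigenfunction)

namespace Pool.Agent.Helper904_Yau

/-- GEO: the isothermal discs are uniformly comparable with geodesic discs (from QSG.S_LIP). -/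
def S_GEO : Prop := ∀ (E : Type) [NormedAddCommGroup E] [NormedSpace ℝ E]
    (b : Module.Basis (Fin 2) ℝ E) (M : Type) [MetricSpace M] [ChartedSpace E M]
    [IsManifold 𝓘(ℝ, E) ∞ M]
    [RiemannianBundle (fun x : M => TangentSpace 𝓘(ℝ, E) x)]
    [IsContMDiffRiemannianBundle 𝓘(ℝ, E) ∞ E (fun x : M => TangentSpace 𝓘(ℝ, E) x)]
    [IsRiemannianManifold 𝓘(ℝ, E) M] [CompactSpace M] (ι : Type) [Fintype ι]
    (e : ι → OpenPartialHomeomorph M E) (ψ : ι → ℂ → M) (σ : ι → ℂ → ℝ),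
    (∀ i, IsoPar b M (e i) (ψ i) (σ i)) → (∀ x : M, ∃ i, ∃ z ∈ ball (0 : ℂ) (1 / 2), ψ i z = x) →
    Geo M ι ψ

/-- YFIN: the final statement. -/
def S_YFIN : Prop := ∀ (E : Type) [NormedAddCommGroup E] [NormedSpace ℝ E]
    (b : Module.Basis (Fin 2) ℝ E) (M : Type) [MetricSpace M] [ChartedSpace E M]
    [IsManifold 𝓘(ℝ, E) ∞ M]
    [RiemannianBundle (fun x : M => TangentSpace 𝓘(ℝ, E) x)]
    [IsContMDiffRiemannianBundle 𝓘(ℝ, E) ∞ E (fun x : M => TangentSpace 𝓘(ℝ, E) x)]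
    [IsRiemannianManifold 𝓘(ℝ, E) M] [CompactSpace M] [ConnectedSpace M],
    ∀ C C₁ C₂ : ℝ, 0 < C → 0 < C₁ → 0 < C₂ → ∃ A : ℝ, ∀ (lam : ℝ) (φ : M → ℝ), 0 < lam →
      IsEigenfunction b lam φ → ∀ (n : ℕ) (x : Fin n → M), (∀ j, φ (x j) = 0) →
      (∀ y : M, ∃ j, y ∈ ball (x j) (C / √lam)) → C₂⁻¹ * lam ≤ n → n ≤ C₂ * lam →
      (∀ y : M, ({j | y ∈ ball (x j) (C / √lam)}.ncard : ℝ) ≤ C₁) →
      (∑ j, Real.logb 2 ((⨆ y : ball (x j) (2 * (C / √lam)), |φ y|) /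
        ⨆ y : ball (x j) (C / √lam), |φ y|)) / n ≤ A

end Pool.Agent.Helper904_Yau
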